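import Pool.Agent.Lib.MP_0350c1_lc.PC

namespace Pool.Agent.Lib.MP_0350c1_lc

open Finset

/-- Avoiding prescribed patterns on disjoint sets of at most `K` coordinates. -/
lemma avoid_card {I κ : Type} [Fintype I] [DecidableEq I] [DecidableEq κ] (K : ℕ)
    (N : κ → Finset I) (pat : κ → I → Bool) (Z : Finset κ) (hK : ∀ z ∈ Z, (N z).card ≤ K)
    (hd : ∀ z ∈ Z, ∀ z' ∈ Z, z ≠ z' → Disjoint (N z) (N z')) :
    ((univ.filter (fun ω : I → Bool => ∀ z ∈ Z, ¬ ∀ i ∈ N z, ω i = pat z i)).card : ℝ) ≤
      (1 - (1 / 2) ^ K) ^ Z.card * 2 ^ Fintype.card I := by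
  induction Z using Finset.induction_on with
  | empty => simp
  | insert z Z hz ih =>
    have ih' := ih (fun w hw => hK w (by simp [hw]))
      (fun w hw w' hw' => hd w (by simp [hw]) w' (by simp [hw']))
    set S := univ.filter (fun ω : I → Bool => ∀ z ∈ Z, ¬ ∀ i ∈ N z, ω i = pat z i) with hS
    set T := S.filter (fun ω => ∀ i ∈ N z, ω i = pat z i) with hT
    have h1 : (univ.filter (fun ω : I → Bool => ∀ w ∈ insert z Z, ¬ ∀ i ∈ N w, ω i = pat w i)).card
        + T.card = S.card := by
      rw [← card_filter_add_card_filter_not (s := S) (fun ω => ∀ i ∈ N z, ω i = pat z i), add_comm]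
      congr 2
      ext ω
      simp only [hS, mem_filter, mem_univ, true_and, mem_insert, forall_eq_or_imp]
      tauto
    have h2 : S.card ≤ 2 ^ K * T.card := by
      have hmap : ∀ ω ∈ S, mix (N z) (pat z) ω ∈ T := by
        intro ω hω
        simp only [hT, hS, mem_filter, mem_univ, true_and] at hω ⊢
        refine ⟨fun w hw h => hω w hw (fun i hi => ?_), fun i hi => by simp [mix, hi]⟩
        have hi' : i ∉ N z := fun hi' => disjoint_left.1
          (hd z (by simp) w (by simp [hw]) (fun h => hz (h ▸ hw))) hi' hi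
        have := h i hi
        simpa [mix, hi'] using this
      refine card_le_mul_card_image_of_maps_to hmap _ (fun t _ => ?_)
      have : (S.filter (fun ω => mix (N z) (pat z) ω = t)).card ≤
          (univ : Finset (N z → Bool)).card := by
        refine card_le_card_of_injOn (fun ω i => ω i) (fun _ _ => by simp) ?_
        intro ω hω ω' hω' h
        simp only [coe_filter, Set.mem_ofPred_eq] at hω hω'
        funext i
        by_cases hi : i ∈ N z
        · exact congrFun h ⟨i, hi⟩
        · have e1 := congrFun hω.2 i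
          have e2 := congrFun hω'.2 i
          simp only [mix, hi, if_false] at e1 e2
          rw [e1, e2]
      refine this.trans ?_
      simp only [card_univ, Fintype.card_pi, Fintype.card_bool, prod_const, Fintype.card_coe]
      exact Nat.pow_le_pow_right (by norm_num) (hK z (by simp))
    have h1' : ((univ.filter (fun ω : I → Bool =>
        ∀ w ∈ insert z Z, ¬ ∀ i ∈ N w, ω i = pat w i)).card : ℝ) = S.card - T.card := by
      rw [← h1]; push_cast; ring
    have h2' : (1 / 2 : ℝ) ^ K * S.card ≤ T.card := by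
      have : (S.card : ℝ) ≤ 2 ^ K * T.card := by exact_mod_cast h2
      rw [one_div, inv_pow, inv_mul_le_iff₀ (by positivity)]; exact this
    have h3 : (0 : ℝ) ≤ 1 - (1 / 2) ^ K := by
      have : (1 / 2 : ℝ) ^ K ≤ 1 := pow_le_one₀ (by norm_num) (by norm_num)
      linarith
    rw [h1', card_insert_of_notMem hz, pow_succ]
    calc (S.card : ℝ) - T.card ≤ (1 - (1 / 2) ^ K) * S.card := by linarith
      _ ≤ (1 - (1 / 2) ^ K) * ((1 - (1 / 2) ^ K) ^ Z.card * 2 ^ Fintype.card I) :=
        mul_le_mul_of_nonneg_left ih' h3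
      _ = _ := by ring

/-- a subset of `Fin b` that is neither empty nor everything has a jump -/
lemma exists_jump {b : ℕ} (p : Fin b → Prop) (i j : Fin b) (hi : p i) (hj : ¬ p j) :
    ∃ k k' : Fin b, k'.val = k.val + 1 ∧ (p k ↔ ¬ p k') := by
  by_contra hcon
  push Not at hcon
  have key : ∀ t (ht : t < b), (p ⟨t, ht⟩ ↔ p ⟨0, by omega⟩) := by
    intro t
    induction t with
    | zero => intro _; rfl
    | succ t ih =>
      intro ht
      have := hcon ⟨t, by omega⟩ ⟨t + 1, ht⟩ rfl
      have ih' := ih (by omega)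
      tauto
  have h1 := key i.val i.isLt
  have h2 := key j.val j.isLt
  exact hj (h2.2 (h1.1 hi))

/-- a third of the rows, or all columns, are mixed -/
lemma mixed_lines {a b : ℕ} (X : Finset (Fin a × Fin b)) (h1 : a * b ≤ 3 * X.card)
    (h2 : 3 * X.card ≤ 2 * (a * b)) (hb : 0 < b) :
    (∀ j : Fin b, ∃ i i' : Fin a, (i, j) ∈ X ∧ (i', j) ∉ X) ∨
    (a ≤ 3 * (univ.filter (fun i : Fin a => ∃ j j' : Fin b, (i, j) ∈ X ∧ (i, j') ∉ X)).card) := by
  set R := univ.filter (fun i : Fin a => ∃ j j' : Fin b, (i, j) ∈ X ∧ (i, j') ∉ X) with hR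
  by_cases hf : ∃ i, ∀ j, (i, j) ∈ X
  · by_cases he : ∃ i, ∀ j, (i, j) ∉ X
    · obtain ⟨i, hi⟩ := hf
      obtain ⟨i', hi'⟩ := he
      exact Or.inl (fun j => ⟨i, i', hi j, hi' j⟩)
    · right
      push Not at he
      have hsub : (univ \ X) ⊆ R ×ˢ (univ : Finset (Fin b)) := by
        intro v hv
        rw [mem_sdiff] at hv
        obtain ⟨j, hj⟩ := he v.1
        simp only [hR, mem_product, mem_filter, mem_univ, true_and, and_true]
        exact ⟨j, v.2, hj, hv.2⟩
      have hc := card_le_card hsub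
      rw [card_univ_sdiff, card_product] at hc
      simp only [Fintype.card_prod, Fintype.card_fin, card_univ] at hc
      have : a * b ≤ 3 * R.card * b := by
        have : 3 * R.card * b = 3 * (R.card * b) := by ring
        omega
      exact Nat.le_of_mul_le_mul_right this hb
  · right
    push Not at hf
    have hsub : X ⊆ R ×ˢ (univ : Finset (Fin b)) := by
      intro v hv
      obtain ⟨j, hj⟩ := hf v.1
      simp only [hR, mem_product, mem_filter, mem_univ, true_and, and_true]
      exact ⟨v.2, j, hv, hj⟩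
    have hc := card_le_card hsub
    rw [card_product] at hc
    simp only [Fintype.card_fin, card_univ] at hc
    have : a * b ≤ 3 * R.card * b := by
      have : 3 * R.card * b = 3 * (R.card * b) := by ring
      omega
    exact Nat.le_of_mul_le_mul_right this hb

/-- thinning a set of lines to a residue class -/
lemma exists_sparse {a : ℕ} (R : Finset (Fin a)) (D : ℕ) (hD : 0 < D) :
    ∃ R' ⊆ R, R.card ≤ D * R'.card ∧
      ∀ i ∈ R', ∀ i' ∈ R', i ≠ i' → i.val + D ≤ i'.val ∨ i'.val + D ≤ i.val := by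
  obtain ⟨ρ, -, hρ⟩ := exists_max_image (range D)
    (fun ρ => (R.filter (fun i => i.val % D = ρ)).card) ⟨0, by simpa using hD⟩
  refine ⟨R.filter (fun i => i.val % D = ρ), filter_subset _ _, ?_, ?_⟩
  · rw [card_eq_sum_card_fiberwise (f := fun i : Fin a => i.val % D) (t := range D)
      (fun i _ => by simpa using Nat.mod_lt _ hD)]
    refine (sum_le_card_nsmul _ _ _ hρ).trans (by simp)
  · intro i hi i' hi' hne
    rw [mem_filter] at hi hi'
    have hne' : i.val ≠ i'.val := fun h => hne (Fin.ext h)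
    have e : i.val % D = i'.val % D := hi.2.trans hi'.2.symm
    rcases Nat.lt_or_gt_of_ne hne' with h | h
    · left
      have := (Nat.modEq_iff_dvd' h.le).1 e
      have := Nat.le_of_dvd (by omega) this
      omega
    · right
      have := (Nat.modEq_iff_dvd' h.le).1 e.symm
      have := Nat.le_of_dvd (by omega) this
      omega

/-- far apart split pairs: horizontal (`true`) or vertical (`false`) -/
lemma split_pairs {a b : ℕ} (X : Finset (Fin a × Fin b)) (h1 : a * b ≤ 3 * X.card)
    (h2 : 3 * X.card ≤ 2 * (a * b)) (hb : 0 < b) (D : ℕ) (hD : 0 < D) :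
    ∃ Z : Finset ((Fin a × Fin b) × Bool), min a b ≤ 3 * D * Z.card ∧
      (∀ z ∈ Z, ∃ μ : Fin a × Fin b, μ.1.val = z.1.1.val + (if z.2 then 0 else 1) ∧
        μ.2.val = z.1.2.val + (if z.2 then 1 else 0) ∧ (z.1 ∈ X ↔ μ ∉ X)) ∧
      ∀ z ∈ Z, ∀ z' ∈ Z, z ≠ z' → z.1.1.val + D ≤ z'.1.1.val ∨ z'.1.1.val + D ≤ z.1.1.val ∨
        z.1.2.val + D ≤ z'.1.2.val ∨ z'.1.2.val + D ≤ z.1.2.val := by
  rcases mixed_lines X h1 h2 hb with h | h
  · have ex : ∀ j : Fin b, ∃ k k' : Fin a, k'.val = k.val + 1 ∧ ((k, j) ∈ X ↔ (k', j) ∉ X) := by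
      intro j
      obtain ⟨i, i', hi, hi'⟩ := h j
      exact exists_jump (fun i => (i, j) ∈ X) i i' hi hi'
    choose k k' hk hk' using ex
    obtain ⟨R', -, hc, hs⟩ := exists_sparse (univ : Finset (Fin b)) D hD
    have hinj : Function.Injective (fun j : Fin b => (((k j, j), false) : (Fin a × Fin b) × Bool)) :=
      fun j j' h => congrArg (fun z => z.1.2) h
    refine ⟨R'.image (fun j => ((k j, j), false)), ?_, ?_, ?_⟩
    · rw [card_image_of_injective _ hinj]
      simp only [card_univ, Fintype.card_fin] at hc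
      have : 3 * D * R'.card = 3 * (D * R'.card) := by ring
      omega
    · intro z hz
      obtain ⟨j, -, rfl⟩ := mem_image.1 hz
      exact ⟨(k' j, j), by simp [hk], by simp, hk' j⟩
    · intro z hz z' hz' hne
      obtain ⟨j, hj, rfl⟩ := mem_image.1 hz
      obtain ⟨j', hj', rfl⟩ := mem_image.1 hz'
      have := hs j hj j' hj' (fun h => hne (by rw [h]))
      simp only
      omega
  · set R := univ.filter (fun i : Fin a => ∃ j j' : Fin b, (i, j) ∈ X ∧ (i, j') ∉ X) with hR
    have ex : ∀ i : Fin a, ∃ k : Fin b, i ∈ R → ∃ k' : Fin b, k'.val = k.val + 1 ∧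
        ((i, k) ∈ X ↔ (i, k') ∉ X) := by
      intro i
      by_cases hi : i ∈ R
      · simp only [hR, mem_filter, mem_univ, true_and] at hi
        obtain ⟨j, j', hj, hj'⟩ := hi
        obtain ⟨k, k', h⟩ := exists_jump (fun j => (i, j) ∈ X) j j' hj hj'
        exact ⟨k, fun _ => ⟨k', h⟩⟩
      · exact ⟨⟨0, hb⟩, fun h => absurd h hi⟩
    choose k hk using ex
    obtain ⟨R', hR', hc, hs⟩ := exists_sparse R D hD
    have hinj : Function.Injective (fun i : Fin a => (((i, k i), true) : (Fin a × Fin b) × Bool)) :=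
      fun j j' h => congrArg (fun z => z.1.1) h
    refine ⟨R'.image (fun i => ((i, k i), true)), ?_, ?_, ?_⟩
    · rw [card_image_of_injective _ hinj]
      have : 3 * D * R'.card = 3 * (D * R'.card) := by ring
      omega
    · intro z hz
      obtain ⟨i, hi, rfl⟩ := mem_image.1 hz
      obtain ⟨k', h1, h2⟩ := hk i (hR' hi)
      exact ⟨(i, k'), by simp, by simp [h1], h2⟩
    · intro z hz z' hz' hne
      obtain ⟨j, hj, rfl⟩ := mem_image.1 hz
      obtain ⟨j', hj', rfl⟩ := mem_image.1 hz'
      have := hs j hj j' hj' (fun h => hne (by rw [h]))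
      simp only
      omega

end Pool.Agent.Lib.MP_0350c1_lc
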