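import Pool.Agent.Lib.MP_0350c1_lc.Comb

namespace Pool.Agent.Lib.MP_0350c1_lc

open Finset

variable {a b m n : ℕ}

lemma card_eq_N (c : ℕ → ℕ → Bool) (κ : Bool) :
    (univ.filter (fun v : Fin m × Fin n => c v.1.val v.2.val = κ)).card =
      ((range m ×ˢ range n).filter (fun w => c w.1 w.2 = κ)).card := by
  refine card_bij (fun v _ => (v.1.val, v.2.val)) ?_ ?_ ?_
  · intro v hv; simpa using hv
  · intro u _ v _ h
    simp only [Prod.mk.injEq] at h
    exact Prod.ext (Fin.ext h.1) (Fin.ext h.2)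
  · intro w hw
    simp only [mem_filter, mem_product, mem_range] at hw
    exact ⟨(⟨w.1, hw.1.1⟩, ⟨w.2, hw.1.2⟩), by simpa using hw.2, rfl⟩

lemma dflt_bal (hm : 2 ≤ m) :
    ((range m ×ˢ range n).filter (fun w => dflt m n w.1 w.2 = true)).card ≤
      ((range m ×ˢ range n).filter (fun w => dflt m n w.1 w.2 = false)).card ∧
    ((range m ×ˢ range n).filter (fun w => dflt m n w.1 w.2 = false)).card ≤
      ((range m ×ˢ range n).filter (fun w => dflt m n w.1 w.2 = true)).card + 1 := by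
  set ρ : ℕ × ℕ → ℕ × ℕ := fun w => (m - 1 - w.1,
    if w.2 + 1 = n ∧ n % 2 = 1 then w.2 else if w.2 % 2 = 0 then w.2 + 1 else w.2 - 1) with hρ
  have hinj : ∀ u ∈ range m ×ˢ range n, ∀ v ∈ range m ×ˢ range n, ρ u = ρ v → u = v := by
    intro u hu v hv h
    simp only [mem_product, mem_range] at hu hv
    simp only [hρ, Prod.mk.injEq] at h
    refine Prod.ext (by omega) ?_
    have := h.2
    split_ifs at this <;> omega
  constructor
  · refine card_le_card_of_injOn ρ ?_ ?_
    · intro w hw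
      simp only [coe_filter, mem_product, mem_range, Set.mem_ofPred_eq, hρ] at hw ⊢
      obtain ⟨⟨h1, h2⟩, h3⟩ := hw
      unfold dflt at h3 ⊢
      split_ifs at h3 ⊢ <;> simp at * <;> omega
    · intro u hu v hv h
      exact hinj u (mem_filter.1 hu).1 v (mem_filter.1 hv).1 h
  · have h1 : (((range m ×ˢ range n).filter (fun w => dflt m n w.1 w.2 = false)).erase
        (m / 2, n - 1)).card ≤
        ((range m ×ˢ range n).filter (fun w => dflt m n w.1 w.2 = true)).card := by
      refine card_le_card_of_injOn ρ ?_ ?_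
      · intro w hw
        simp only [coe_filter, mem_product, mem_range, Set.mem_ofPred_eq, hρ, mem_coe, mem_erase,
          mem_filter] at hw ⊢
        obtain ⟨h0, ⟨h1, h2⟩, h3⟩ := hw
        have h0' : ¬ (w.1 = m / 2 ∧ w.2 = n - 1) := fun h => h0 (Prod.ext h.1 h.2)
        unfold dflt at h3 ⊢
        split_ifs at h3 ⊢ <;> simp at * <;> omega
      · intro u hu v hv h
        exact hinj u (mem_filter.1 (mem_of_mem_erase hu)).1 v
          (mem_filter.1 (mem_of_mem_erase hv)).1 h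
    have := pred_card_le_card_erase
      (s := (range m ×ˢ range n).filter (fun w => dflt m n w.1 w.2 = false)) (a := (m / 2, n - 1))
    omega

lemma col_count (ha : 2 * a + 6 ≤ m) (hb : 2 * b + 6 ≤ n) (ω : Idx a b → Bool) :
    ((range m ×ˢ range n).filter (fun w => colN m n ω w.1 w.2 = true)).card =
      ((range m ×ˢ range n).filter (fun w => dflt m n w.1 w.2 = true)).card := by
  classical
  set sh : Site a b → ℕ × ℕ → ℕ × ℕ :=
    fun z w => (1 + 2 * z.1.1.val + w.1, 1 + 2 * z.1.2.val + w.2) with hsh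
  have hshinj : ∀ z, Function.Injective (sh z) := by
    intro z u v h
    simp only [hsh, Prod.mk.injEq] at h
    exact Prod.ext (by omega) (by omega)
  set Z := univ.filter (act ω) with hZ
  set W := Z.biUnion (fun z => (range 6 ×ˢ range 6).image (sh z)) with hW
  have hsub : W ⊆ range m ×ˢ range n := by
    intro w hw
    obtain ⟨z, -, hw⟩ := mem_biUnion.1 hw
    obtain ⟨u, hu, rfl⟩ := mem_image.1 hw
    simp only [mem_product, mem_range, hsh] at hu ⊢
    have := z.1.1.isLt
    have := z.1.2.isLt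
    omega
  have hdisj : (Z : Set (Site a b)).PairwiseDisjoint
      (fun z => (range 6 ×ˢ range 6).image (sh z)) := by
    intro z hz z' hz' hne
    simp only [hZ, coe_filter, mem_univ, true_and, Set.mem_ofPred_eq] at hz hz'
    rw [Function.onFun, disjoint_left]
    intro w hw hw'
    obtain ⟨u, hu, rfl⟩ := mem_image.1 hw
    obtain ⟨v, hv, h⟩ := mem_image.1 hw'
    simp only [mem_product, mem_range, hsh, Prod.mk.injEq] at hu hv h
    exact hne (act_eq hz hz' (by unfold near; omega)).symm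
  rw [card_filter, card_filter, ← sum_sdiff hsub, ← sum_sdiff hsub]
  congr 1
  · refine sum_congr rfl (fun w hw => ?_)
    rw [col_out]
    intro z hz p q h1 h2 h3 e1 e2
    refine (mem_sdiff.1 hw).2 (mem_biUnion.2 ⟨z, by simpa [hZ] using hz,
      mem_image.2 ⟨(p, q), by simp; omega, Prod.ext e1.symm e2.symm⟩⟩)
  · rw [hW, sum_biUnion hdisj, sum_biUnion hdisj]
    refine sum_congr rfl (fun z hz => ?_)
    have hz' : act ω z := by simpa [hZ] using hz
    rw [sum_image (fun u _ v _ h => hshinj z h), sum_image (fun u _ v _ h => hshinj z h)]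
    have := tpl_count z.2 (ω (z, true))
    refine Eq.trans (sum_congr rfl (fun w hw => ?_)) (this.trans (sum_congr rfl (fun w hw => ?_)))
    · simp only [mem_product, mem_range] at hw
      simp only [hsh, col_win ha hb hz' hw.1 hw.2]
    · simp only [mem_product, mem_range] at hw
      simp only [hsh, dflt_win ha hb z hw.1 hw.2, decide_eq_true_eq]

theorem col_bal (ha : 2 * a + 6 ≤ m) (hb : 2 * b + 6 ≤ n) (ω : Idx a b → Bool) :
    IsBalanced (classes (col m n ω)) := by
  refine ⟨_, _, rfl, ?_⟩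
  have h1 := card_eq_N (m := m) (n := n) (colN m n ω) true
  have h2 := card_eq_N (m := m) (n := n) (colN m n ω) false
  have h3 := col_count ha hb ω
  have h4 := dflt_bal (m := m) (n := n) (by omega)
  have key : ∀ c : ℕ × ℕ → Bool, ((range m ×ˢ range n).filter (fun w => c w = true)).card +
      ((range m ×ˢ range n).filter (fun w => c w = false)).card = (range m ×ˢ range n).card := by
    intro c
    rw [← card_filter_add_card_filter_not (s := range m ×ˢ range n) (fun w => c w = true)]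
    simp
  have h5 := key (fun w => colN m n ω w.1 w.2)
  have h6 := key (fun w => dflt m n w.1 w.2)
  unfold col
  rw [h1, h2, abs_le]
  omega

def pos (ha : 2 * a + 6 ≤ m) (hb : 2 * b + 6 ≤ n) (z : Site a b) (p q : Fin 6) : Fin m × Fin n :=
  (⟨1 + 2 * z.1.1.val + p.val, by have := z.1.1.isLt; omega⟩,
    ⟨1 + 2 * z.1.2.val + q.val, by have := z.1.2.isLt; omega⟩)

lemma pos_adj (ha : 2 * a + 6 ≤ m) (hb : 2 * b + 6 ≤ n) (z : Site a b) {p q p' q' : Fin 6}
    (h : AdjN (p.val, q.val) (p'.val, q'.val)) :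
    (grid m n).Adj (pos ha hb z p q) (pos ha hb z p' q') := by
  rw [grid_adj]; unfold AdjN at h; simp only [pos] at h ⊢; omega

lemma pos_inj (ha : 2 * a + 6 ≤ m) (hb : 2 * b + 6 ≤ n) (z : Site a b) {p q p' q' : Fin 6}
    (h : pos ha hb z p q = pos ha hb z p' q') : p = p' ∧ q = q' := by
  simp only [pos, Prod.mk.injEq, Fin.mk.injEq] at h
  exact ⟨Fin.ext (by omega), Fin.ext (by omega)⟩

lemma col_pos (ha : 2 * a + 6 ≤ m) (hb : 2 * b + 6 ≤ n) {ω : Idx a b → Bool} {z : Site a b}
    (hz : act ω z) (p q : Fin 6) :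
    col m n ω (pos ha hb z p q) = tpl z.2 (ω (z, true)) p q := col_win ha hb hz p.isLt q.isLt

/-- the two exits of the pendant -/
def ex (t : Bool) (p q : Fin 6) : Prop :=
  (p = 1 ∧ q = 2) ∨ (if t then p = 1 ∧ q = 4 else p = 3 ∧ q = 2)

/-- the pendant -/
def pend (t : Bool) (p q : Fin 6) : Prop := p = 2 ∧ (q = 2 ∨ (t = true ∧ (q = 3 ∨ q = 4)))

instance (t : Bool) (p q : Fin 6) : Decidable (ex t p q) := by unfold ex; infer_instance
instance (t : Bool) (p q : Fin 6) : Decidable (pend t p q) := by unfold pend; infer_instance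

lemma tpl_off : ∀ (t : Bool) (p q : Fin 6), ¬ ex t p q → tpl t false p q = tpl t true p q := by
  decide

set_option synthInstance.maxSize 2000 in
lemma pend_spec : ∀ (t : Bool) (p q p' q' : Fin 6), pend t p q →
    AdjN (p.val, q.val) (p'.val, q'.val) → ¬ pend t p' q' → ¬ ex t p q ∧
    ((¬ ex t p' q' ∧ tpl t true p q ≠ tpl t true p' q') ∨ (p = 2 ∧ q = 2 ∧ p' = 1 ∧ q' = 2) ∨
      (t = false ∧ p = 2 ∧ q = 2 ∧ p' = 3 ∧ q' = 2) ∨
      (t = true ∧ p = 2 ∧ q = 4 ∧ p' = 1 ∧ q' = 4)) := by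
  decide

theorem not_valid (ha : 2 * a + 6 ≤ m) (hb : 2 * b + 6 ≤ n) (z : Site a b)
    (h : Fin m × Fin n → Bool)
    (h0 : ∀ p q p' q' : Fin 6, AdjN (p.val, q.val) (p'.val, q'.val) → ¬ ex z.2 p q →
      ¬ ex z.2 p' q' → (h (pos ha hb z p q) = h (pos ha hb z p' q') ↔
        tpl z.2 true p q = tpl z.2 true p' q'))
    (he : h (pos ha hb z 1 1) = h (pos ha hb z 1 2))
    (hf : h (pos ha hb z (if z.2 then 1 else 3) (if z.2 then 3 else 1)) =
      h (pos ha hb z (if z.2 then 1 else 3) (if z.2 then 4 else 2))) : ¬ Valid (grid m n) h := by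
  intro hv
  have a1 := h0 1 1 2 1 (by decide) (by cases z.2 <;> decide) (by cases z.2 <;> decide)
  have a2 := h0 2 1 2 2 (by decide) (by cases z.2 <;> decide) (by cases z.2 <;> decide)
  have a3 := h0 2 0 2 1 (by decide) (by cases z.2 <;> decide) (by cases z.2 <;> decide)
  have b1 : h (pos ha hb z 1 1) = h (pos ha hb z 2 1) := a1.2 (by cases z.2 <;> decide)
  have b2 : h (pos ha hb z 2 1) ≠ h (pos ha hb z 2 2) :=
    fun e => absurd (a2.1 e) (by cases z.2 <;> decide)
  have b3 : h (pos ha hb z 2 0) ≠ h (pos ha hb z 2 1) :=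
    fun e => absurd (a3.1 e) (by cases z.2 <;> decide)
  have b4 : h (pos ha hb z 2 0) = h (pos ha hb z 2 2) := by
    revert b2 b3
    cases h (pos ha hb z 2 0) <;> cases h (pos ha hb z 2 1) <;> cases h (pos ha hb z 2 2) <;> simp
  have key := closed_of_connected (hv (h (pos ha hb z 2 2)))
    (fun u => ∃ p q, pend z.2 p q ∧ u = pos ha hb z p q) ?_
    (u := pos ha hb z 2 2) (v := pos ha hb z 2 0) rfl b4 ⟨2, 2, ⟨rfl, Or.inl rfl⟩, rfl⟩
  · obtain ⟨p, q, h1, h2⟩ := key
    obtain ⟨rfl, rfl⟩ := pos_inj ha hb z h2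
    revert h1; cases z.2 <;> decide
  rintro u v hu hv' hadj ⟨p, q, hp, rfl⟩
  have huv : h (pos ha hb z p q) = h v := Eq.trans hu (Eq.symm hv')
  have hpq : p.val = 2 ∧ 2 ≤ q.val ∧ q.val ≤ 4 := by
    obtain ⟨rfl, rfl | ⟨-, rfl | rfl⟩⟩ := hp <;> decide
  rw [grid_adj] at hadj
  simp only [pos] at hadj
  obtain ⟨p', q', rfl, hA⟩ : ∃ p' q' : Fin 6, v = pos ha hb z p' q' ∧
      AdjN (p.val, q.val) (p'.val, q'.val) :=
    ⟨⟨v.1.val - (1 + 2 * z.1.1.val), by omega⟩, ⟨v.2.val - (1 + 2 * z.1.2.val), by omega⟩,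
      Prod.ext (Fin.ext (by simp only [pos]; omega)) (Fin.ext (by simp only [pos]; omega)),
      by unfold AdjN; simp only; omega⟩
  by_contra hcon
  have hnp : ¬ pend z.2 p' q' := fun h => hcon ⟨p', q', h, rfl⟩
  obtain ⟨c0, ⟨c1, c2⟩ | ⟨rfl, rfl, rfl, rfl⟩ | ⟨ht, rfl, rfl, rfl, rfl⟩ | ⟨ht, rfl, rfl, rfl, rfl⟩⟩ :=
    pend_spec z.2 p q p' q' hp hA hnp
  · exact c2 ((h0 p q p' q' hA c0 c1).1 huv)
  · exact b2 (by rw [← b1, he, huv])
  · have a4 := h0 3 1 2 1 (by decide) (by rw [ht]; decide) (by rw [ht]; decide)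
    simp only [ht] at hf a4
    exact b2 (by rw [← a4.2 (by decide), huv]; exact hf)
  · have a4 := h0 1 3 2 3 (by decide) (by rw [ht]; decide) (by rw [ht]; decide)
    have a5 := h0 2 3 2 4 (by decide) (by rw [ht]; decide) (by rw [ht]; decide)
    simp only [ht] at hf a4 a5
    exact absurd (a4.1 (by rw [a5.2 (by decide), huv]; exact hf)) (by decide)

end Pool.Agent.Lib.MP_0350c1_lc
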