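import Pool.Agent.Lib.MP_0350c1_lc.Core

namespace Pool.Agent.Lib.MP_0350c1_lc

open Finset

lemma grid_adj {m n : ℕ} (u v : Fin m × Fin n) : (grid m n).Adj u v ↔
    ((u.1.val + 1 = v.1.val ∨ v.1.val + 1 = u.1.val) ∧ u.2.val = v.2.val) ∨
    ((u.2.val + 1 = v.2.val ∨ v.2.val + 1 = u.2.val) ∧ u.1.val = v.1.val) := by
  unfold grid
  rw [SimpleGraph.boxProd_adj, SimpleGraph.pathGraph_adj, SimpleGraph.pathGraph_adj, Fin.ext_iff,
    Fin.ext_iff]

/-- both colour classes are connected -/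
def Valid {V : Type} (G : SimpleGraph V) (x : V → Bool) : Prop :=
  ∀ κ, (G.induce {v | x v = κ}).Connected

def Rel {V : Type} (G : SimpleGraph V) (x : V → Bool) (u v : V) : Prop := G.Adj u v ∧ x u = x v

lemma connected_of_reach {V : Type} (G : SimpleGraph V) (x : V → Bool) (κ : Bool) (o : V)
    (ho : x o = κ) (h : ∀ u, x u = κ → Relation.ReflTransGen (Rel G x) u o) :
    (G.induce {v | x v = κ}).Connected := by
  have key : ∀ u, Relation.ReflTransGen (Rel G x) u o → ∀ hu : x u = κ,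
      (G.induce {v | x v = κ}).Reachable ⟨u, hu⟩ ⟨o, ho⟩ := by
    intro u hu
    induction hu using Relation.ReflTransGen.head_induction_on with
    | refl => intro _; exact SimpleGraph.Reachable.refl _
    | head h1 _ ih =>
      intro hu
      have hc := h1.2.symm.trans hu
      exact (SimpleGraph.Adj.reachable (G := G.induce {v | x v = κ}) (u := ⟨_, hu⟩)
        (v := ⟨_, hc⟩) h1.1).trans (ih hc)
  have : Nonempty {v | x v = κ} := ⟨⟨o, ho⟩⟩
  exact ⟨fun u v => (key u.1 (h _ u.2) u.2).trans (key v.1 (h _ v.2) v.2).symm⟩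

lemma closed_of_connected {V : Type} {G : SimpleGraph V} {S : Set V}
    (h : (G.induce S).Connected) (K : V → Prop) (hK : ∀ u v, u ∈ S → v ∈ S → G.Adj u v → K u → K v)
    {u v : V} (hu : u ∈ S) (hv : v ∈ S) (h0 : K u) : K v := by
  obtain ⟨w⟩ := h.preconnected ⟨u, hu⟩ ⟨v, hv⟩
  have : ∀ (p q : S) (_ : (G.induce S).Walk p q), K p.1 → K q.1 := by
    intro p q w
    induction w with
    | nil => exact id
    | cons h _ ih => exact fun h0 => ih (hK _ _ (Subtype.property _) (Subtype.property _) h h0)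
  exact this _ _ w h0

def AdjN (u v : ℕ × ℕ) : Prop :=
  ((u.1 + 1 = v.1 ∨ v.1 + 1 = u.1) ∧ u.2 = v.2) ∨ ((u.2 + 1 = v.2 ∨ v.2 + 1 = u.2) ∧ u.1 = v.1)

def RelN (m n : ℕ) (c : ℕ → ℕ → Bool) (u v : ℕ × ℕ) : Prop :=
  v.1 < m ∧ v.2 < n ∧ AdjN u v ∧ c u.1 u.2 = c v.1 v.2

lemma reach_of_N {m n : ℕ} {c : ℕ → ℕ → Bool} {u v : ℕ × ℕ}
    (h : Relation.ReflTransGen (RelN m n c) u v) (h1 : u.1 < m) (h2 : u.2 < n) :
    ∃ (h3 : v.1 < m) (h4 : v.2 < n), Relation.ReflTransGen
      (Rel (grid m n) (fun w => c w.1.val w.2.val)) (⟨u.1, h1⟩, ⟨u.2, h2⟩) (⟨v.1, h3⟩, ⟨v.2, h4⟩) := by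
  induction h with
  | refl => exact ⟨h1, h2, Relation.ReflTransGen.refl⟩
  | tail _ hr ih =>
    obtain ⟨h3, h4, ih⟩ := ih
    exact ⟨hr.1, hr.2.1, ih.tail ⟨(grid_adj _ _).2 hr.2.2.1, hr.2.2.2⟩⟩

def dflt (m n i j : ℕ) : Bool :=
  if j + 1 = n ∧ n % 2 = 1 then decide (i < m / 2) else
    if i = 0 then true else if i + 1 = m then false else decide (j % 2 = 1)

def fl (t s : Bool) (p q : ℕ) : Bool :=
  decide ((p, q) ∈ (if t then [(2, 3), (3, 2), (3, 4), (4, 3), (4, 1)] else [(4, 1)]) ++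
    (if s then [(1, 2)] else if t then [(1, 4)] else [(3, 2)]))

def tpl (t s : Bool) (p q : ℕ) : Bool := xor (decide (q % 2 = 0)) (fl t s p q)

def rk (t s : Bool) (p q : ℕ) : ℕ :=
  (if t then (if s then [0, 9, 0, 11, 0, 5, 1, 8, 9, 10, 1, 4, 2, 7, 4, 3, 2, 3, 3, 6, 5, 4, 3, 2,
      4, 5, 6, 7, 8, 1, 5, 0, 7, 0, 9, 0]
    else [0, 9, 0, 7, 0, 5, 1, 8, 1, 6, 5, 4, 2, 7, 2, 3, 4, 3, 3, 6, 5, 4, 3, 2,
      4, 5, 6, 7, 8, 1, 5, 0, 7, 0, 9, 0])
  else (if s then [0, 7, 0, 5, 0, 5, 1, 6, 5, 4, 1, 4, 2, 7, 8, 3, 2, 3, 3, 8, 7, 2, 3, 2,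
      4, 5, 6, 1, 4, 1, 5, 0, 7, 0, 5, 0]
    else [0, 7, 0, 5, 0, 5, 1, 6, 1, 4, 1, 4, 2, 5, 2, 3, 2, 3, 3, 4, 3, 2, 3, 2,
      4, 5, 6, 1, 4, 1, 5, 0, 7, 0, 5, 0])).getD (6 * p + q) 0

lemma fl_range {t s : Bool} {p q : ℕ} (h : fl t s p q = true) : 1 ≤ p ∧ p ≤ 4 ∧ 1 ≤ q ∧ q ≤ 4 := by
  cases t <;> cases s <;> simp [fl] at h <;> omega

instance (u v : ℕ × ℕ) : Decidable (AdjN u v) := by unfold AdjN; infer_instance

lemma rk_spec : ∀ t s : Bool, ∀ p < 6, ∀ q < 6, p = (if tpl t s p q then 0 else 5) ∨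
    ∃ p' < 6, ∃ q' < 6, AdjN (p, q) (p', q') ∧ tpl t s p q = tpl t s p' q' ∧
      rk t s p' q' < rk t s p q := by decide

lemma tpl_count : ∀ t s : Bool, ∑ w ∈ range 6 ×ˢ range 6, (if tpl t s w.1 w.2 then 1 else 0) =
    ∑ w ∈ range 6 ×ˢ range 6, (if w.2 % 2 = 0 then 1 else 0) := by decide

variable {a b : ℕ}

open Classical in
noncomputable def colN (m n : ℕ) (ω : Idx a b → Bool) (i j : ℕ) : Bool :=
  xor (dflt m n i j) (decide (∃ z : Site a b, act ω z ∧ ∃ p q, fl z.2 (ω (z, true)) p q = true ∧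
    i = 1 + 2 * z.1.1.val + p ∧ j = 1 + 2 * z.1.2.val + q))

variable {m n : ℕ}

lemma dflt_win (ha : 2 * a + 6 ≤ m) (hb : 2 * b + 6 ≤ n) (z : Site a b) {p q : ℕ} (hp : p < 6)
    (hq : q < 6) : dflt m n (1 + 2 * z.1.1.val + p) (1 + 2 * z.1.2.val + q) = decide (q % 2 = 0) := by
  have := z.1.1.isLt
  have := z.1.2.isLt
  unfold dflt
  rw [if_neg (by omega), if_neg (by omega), if_neg (by omega)]
  simp only [decide_eq_decide]; omega

lemma col_win (ha : 2 * a + 6 ≤ m) (hb : 2 * b + 6 ≤ n) {ω : Idx a b → Bool} {z : Site a b}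
    (hz : act ω z) {p q : ℕ} (hp : p < 6) (hq : q < 6) :
    colN m n ω (1 + 2 * z.1.1.val + p) (1 + 2 * z.1.2.val + q) = tpl z.2 (ω (z, true)) p q := by
  classical
  unfold colN tpl
  rw [dflt_win ha hb z hp hq]
  congr 1
  rw [Bool.eq_iff_iff, decide_eq_true_iff]
  constructor
  · rintro ⟨z', hz', p', q', h, e1, e2⟩
    have hr := fl_range h
    have : z' = z := act_eq hz hz' (by unfold near; omega)
    subst this
    have e3 : p = p' := by omega
    have e4 : q = q' := by omega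
    rw [e3, e4]; exact h
  · exact fun h => ⟨z, hz, p, q, h, rfl, rfl⟩

lemma col_out {ω : Idx a b → Bool} {i j : ℕ}
    (h : ∀ z : Site a b, act ω z → ∀ p q, 1 ≤ p → p ≤ 4 → q < 6 → i = 1 + 2 * z.1.1.val + p →
      j ≠ 1 + 2 * z.1.2.val + q) : colN m n ω i j = dflt m n i j := by
  classical
  unfold colN
  rw [decide_eq_false]
  · simp
  · rintro ⟨z, hz, p, q, h1, e1, e2⟩
    have hr := fl_range h1
    exact h z hz p q hr.1 hr.2.1 (by omega) e1 e2

lemma win_reach (ha : 2 * a + 6 ≤ m) (hb : 2 * b + 6 ≤ n) {ω : Idx a b → Bool} {z : Site a b}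
    (hz : act ω z) (k : ℕ) : ∀ p q : ℕ, p < 6 → q < 6 → rk z.2 (ω (z, true)) p q < k →
    ∃ q' < 6, Relation.ReflTransGen (RelN m n (colN m n ω))
      (1 + 2 * z.1.1.val + p, 1 + 2 * z.1.2.val + q)
      (1 + 2 * z.1.1.val + (if tpl z.2 (ω (z, true)) p q then 0 else 5),
        1 + 2 * z.1.2.val + q') := by
  have := z.1.1.isLt
  have := z.1.2.isLt
  induction k with
  | zero => intro p q _ _ h; omega
  | succ k ih =>
    intro p q hp hq hk
    rcases rk_spec z.2 (ω (z, true)) p hp q hq with h | ⟨p', hp', q', hq', h1, h2, h3⟩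
    · exact ⟨q, hq, by rw [← h]⟩
    · obtain ⟨q'', hq'', hr⟩ := ih p' q' hp' hq' (by omega)
      rw [← h2] at hr
      refine ⟨q'', hq'', Relation.ReflTransGen.head ?_ hr⟩
      refine ⟨by simp only; omega, by simp only; omega, ?_, ?_⟩
      · unfold AdjN at h1 ⊢; simp only at h1 ⊢; omega
      · simp only; rw [col_win ha hb hz hp hq, col_win ha hb hz hp' hq', h2]

lemma reach_col {c : ℕ → ℕ → Bool} {u v : ℕ × ℕ}
    (h : Relation.ReflTransGen (RelN m n c) u v) : c u.1 u.2 = c v.1 v.2 := by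
  induction h with
  | refl => rfl
  | tail _ hr ih => exact ih.trans hr.2.2.2

lemma col_top (ha : 2 * a + 6 ≤ m) (ω : Idx a b → Bool) (j : ℕ) : colN m n ω 0 j = true := by
  rw [col_out (fun z _ p q _ _ _ h => by omega)]
  unfold dflt
  split_ifs
  · simp; omega
  all_goals simp at *

lemma col_bot (ha : 2 * a + 6 ≤ m) (ω : Idx a b → Bool) (j : ℕ) :
    colN m n ω (m - 1) j = false := by
  rw [col_out (fun z _ p q _ _ _ h => by have := z.1.1.isLt; omega)]
  unfold dflt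
  split_ifs <;> simp at * <;> omega

lemma row_reach {c : ℕ → ℕ → Bool} {i : ℕ} (hi : i < m) {κ : Bool} (h : ∀ j, c i j = κ) :
    ∀ j < n, Relation.ReflTransGen (RelN m n c) (i, j) (i, 0) := by
  intro j
  induction j with
  | zero => intro _; exact Relation.ReflTransGen.refl
  | succ j ih =>
    intro hj
    exact Relation.ReflTransGen.head ⟨hi, by simp only; omega, by unfold AdjN; simp,
      by simp only [h]⟩ (ih (by omega))

lemma reach_top (ha : 2 * a + 6 ≤ m) (hb : 2 * b + 6 ≤ n) (ω : Idx a b → Bool) (i : ℕ) :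
    ∀ j, i < m → j < n → colN m n ω i j = true →
      Relation.ReflTransGen (RelN m n (colN m n ω)) (i, j) (0, 0) := by
  induction i using Nat.strong_induction_on with
  | _ i ih =>
    intro j hi hj hc
    rcases Nat.eq_zero_or_pos i with rfl | hpos
    · exact row_reach hi (col_top ha ω) j hj
    by_cases hw : ∃ z : Site a b, act ω z ∧ ∃ p q, 1 ≤ p ∧ p < 6 ∧ q < 6 ∧
        i = 1 + 2 * z.1.1.val + p ∧ j = 1 + 2 * z.1.2.val + q
    · obtain ⟨z, hz, p, q, h1, hp, hq, rfl, rfl⟩ := hw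
      obtain ⟨q', hq', hr⟩ := win_reach ha hb hz _ p q hp hq (Nat.lt_succ_self _)
      have hc' := reach_col hr
      simp only at hc'
      rw [hc] at hc'
      rw [col_win ha hb hz hp hq] at hc
      rw [hc] at hr hc'
      have := z.1.2.isLt
      exact hr.trans (ih _ (by simp; omega) _ (by simp; omega) (by omega) hc'.symm)
    · push Not at hw
      have e1 : colN m n ω i j = dflt m n i j :=
        col_out (fun z hz p q h1 h2 h3 h4 => hw z hz p q h1 (by omega) h3 h4)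
      have e2 : colN m n ω (i - 1) j = dflt m n (i - 1) j :=
        col_out (fun z hz p q h1 h2 h3 h4 => hw z hz (p + 1) q (by omega) (by omega) h3 (by omega))
      have e3 : colN m n ω (i - 1) j = true := by
        rw [e2]; rw [e1] at hc
        unfold dflt at hc ⊢
        split_ifs at hc ⊢ <;> simp at * <;> omega
      exact Relation.ReflTransGen.head ⟨by simp only; omega, hj, by unfold AdjN; simp; omega,
        by simp only; rw [hc, e3]⟩ (ih (i - 1) (by omega) j (by omega) hj e3)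

lemma reach_bot (ha : 2 * a + 6 ≤ m) (hb : 2 * b + 6 ≤ n) (ω : Idx a b → Bool) (k : ℕ) :
    ∀ i j, i + k + 1 = m → j < n → colN m n ω i j = false →
      Relation.ReflTransGen (RelN m n (colN m n ω)) (i, j) (m - 1, 0) := by
  induction k using Nat.strong_induction_on with
  | _ k ih =>
    intro i j hi hj hc
    rcases Nat.eq_zero_or_pos k with rfl | hpos
    · have : i = m - 1 := by omega
      subst this
      exact row_reach (by omega) (col_bot ha ω) j hj
    by_cases hw : ∃ z : Site a b, act ω z ∧ ∃ p q, p < 5 ∧ q < 6 ∧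
        i = 1 + 2 * z.1.1.val + p ∧ j = 1 + 2 * z.1.2.val + q
    · obtain ⟨z, hz, p, q, hp, hq, rfl, rfl⟩ := hw
      obtain ⟨q', hq', hr⟩ := win_reach ha hb hz _ p q (by omega) hq (Nat.lt_succ_self _)
      have hc' := reach_col hr
      simp only at hc'
      rw [hc] at hc'
      rw [col_win ha hb hz (by omega) hq] at hc
      rw [hc] at hr hc'
      have := z.1.2.isLt
      have := z.1.1.isLt
      exact hr.trans (ih (m - 1 - (1 + 2 * z.1.1.val + 5)) (by omega) _ _ (by simp; omega)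
        (by omega) hc'.symm)
    · push Not at hw
      have e1 : colN m n ω i j = dflt m n i j :=
        col_out (fun z hz p q h1 h2 h3 h4 => hw z hz p q (by omega) h3 h4)
      have e2 : colN m n ω (i + 1) j = dflt m n (i + 1) j :=
        col_out (fun z hz p q h1 h2 h3 h4 => hw z hz (p - 1) q (by omega) h3 (by omega))
      have e3 : colN m n ω (i + 1) j = false := by
        rw [e2]; rw [e1] at hc
        unfold dflt at hc ⊢
        split_ifs at hc ⊢ <;> simp at * <;> omega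
      exact Relation.ReflTransGen.head ⟨by simp only; omega, hj, by unfold AdjN; simp,
        by simp only; rw [hc, e3]⟩ (ih (k - 1) (by omega) (i + 1) j (by omega) hj e3)

noncomputable def col (m n : ℕ) (ω : Idx a b → Bool) (v : Fin m × Fin n) : Bool :=
  colN m n ω v.1.val v.2.val

theorem col_valid (ha : 2 * a + 6 ≤ m) (hb : 2 * b + 6 ≤ n) (ω : Idx a b → Bool) :
    Valid (grid m n) (col m n ω) := by
  intro κ
  cases κ
  · refine connected_of_reach _ _ _ (⟨m - 1, by omega⟩, ⟨0, by omega⟩) (col_bot ha ω 0) ?_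
    intro u hu
    obtain ⟨_, _, h⟩ := reach_of_N (reach_bot ha hb ω (m - 1 - u.1.val) u.1.val u.2.val
      (by have := u.1.isLt; omega) u.2.isLt hu) u.1.isLt u.2.isLt
    exact h
  · refine connected_of_reach _ _ _ (⟨0, by omega⟩, ⟨0, by omega⟩) (col_top ha ω 0) ?_
    intro u hu
    obtain ⟨_, _, h⟩ := reach_of_N (reach_top ha hb ω u.1.val u.2.val u.1.isLt u.2.isLt hu)
      u.1.isLt u.2.isLt
    exact h

end Pool.Agent.Lib.MP_0350c1_lc
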