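import Pool.Agent.Lib.MP_0350c1_lc.Avoid

namespace Pool.Agent.Lib.MP_0350c1_lc

open Finset

abbrev Site (a b : ℕ) := (Fin a × Fin b) × Bool
abbrev Idx (a b : ℕ) := Site a b × Bool

variable {a b : ℕ}

def near (z z' : Site a b) : Prop :=
  z.1.1.val ≤ z'.1.1.val + 2 ∧ z'.1.1.val ≤ z.1.1.val + 2 ∧
    z.1.2.val ≤ z'.1.2.val + 2 ∧ z'.1.2.val ≤ z.1.2.val + 2

instance (z z' : Site a b) : Decidable (near z z') := by unfold near; infer_instance

def act (ω : Idx a b → Bool) (z : Site a b) : Prop :=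
  ω (z, false) = true ∧ ∀ z', near z z' → z' ≠ z → ω (z', false) = false

def nb (z : Site a b) : Finset (Idx a b) :=
  insert (z, true) ((univ.filter (near z)).image (fun z' => (z', false)))

def pat (z : Site a b) (t : Bool) : Idx a b → Bool := fun i => if i.2 then t else decide (i.1 = z)

lemma act_of_pat {ω : Idx a b → Bool} {z : Site a b} {t : Bool}
    (h : ∀ i ∈ nb z, ω i = pat z t i) : act ω z ∧ ω (z, true) = t := by
  have hm : ∀ z', near z z' → (z', false) ∈ nb z := fun z' hz' =>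
    mem_insert_of_mem (mem_image.2 ⟨z', by simpa using hz', rfl⟩)
  refine ⟨⟨?_, fun z' hz' hne => ?_⟩, ?_⟩
  · rw [h _ (hm z (by unfold near; omega))]; simp [pat]
  · rw [h _ (hm z' hz')]; simp [pat, hne]
  · rw [h _ (mem_insert_self _ _)]; simp [pat]

lemma act_eq {ω : Idx a b → Bool} {z z' : Site a b} (h : act ω z) (h' : act ω z')
    (hn : near z z') : z' = z := by
  by_contra hne
  have := h.2 z' hn hne
  rw [h'.1] at this
  exact absurd this (by simp)

lemma nb_card (z : Site a b) : (nb z).card ≤ 51 := by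
  have : (univ.filter (near z)).card ≤ ((range 5 ×ˢ range 5) ×ˢ (univ : Finset Bool)).card := by
    refine card_le_card_of_injOn
      (fun z' : Site a b => ((z'.1.1.val + 2 - z.1.1.val, z'.1.2.val + 2 - z.1.2.val), z'.2)) ?_ ?_
    · intro z' hz'
      simp only [coe_filter, mem_univ, true_and, Set.mem_ofPred_eq, near] at hz'
      simp only [coe_product, coe_range, Set.mem_prod, Set.mem_Iio, coe_univ, Set.mem_univ,
        and_true]
      omega
    · intro z1 h1 z2 h2 h
      simp only [coe_filter, mem_univ, true_and, Set.mem_ofPred_eq, near] at h1 h2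
      simp only [Prod.mk.injEq] at h
      refine Prod.ext (Prod.ext (Fin.ext ?_) (Fin.ext ?_)) h.2 <;> omega
  have h50 : ((range 5 ×ˢ range 5) ×ˢ (univ : Finset Bool)).card = 50 := by simp
  have h2 := card_image_le (s := univ.filter (near z)) (f := fun z' : Site a b => ((z', false) : Idx a b))
  have h3 := card_insert_le ((z, true) : Idx a b)
    ((univ.filter (near z)).image (fun z' => (z', false)))
  unfold nb
  omega

lemma nb_disjoint {z z' : Site a b} (h : z.1.1.val + 5 ≤ z'.1.1.val ∨ z'.1.1.val + 5 ≤ z.1.1.val ∨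
    z.1.2.val + 5 ≤ z'.1.2.val ∨ z'.1.2.val + 5 ≤ z.1.2.val) : Disjoint (nb z) (nb z') := by
  rw [disjoint_left]
  intro i hi hi'
  have key : ∀ w : Site a b, i ∈ nb w → near w i.1 := by
    intro w hw
    rcases mem_insert.1 hw with rfl | hw
    · unfold near; simp
    · obtain ⟨w', hw', rfl⟩ := mem_image.1 hw
      simpa using hw'
  have h1 := key z hi
  have h2 := key z' hi'
  unfold near at h1 h2
  omega

theorem core {U : Type} [Fintype U] [DecidableEq U] {s : ℕ} (C : Circuit U s) (r : Fin s)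
    (hr : C.scope r = univ) (hb : 0 < b) (hab : 2 ≤ a * b) (ι : Fin a × Fin b → U)
    (hι : Function.Injective ι) (Φ : Bool → (Idx a b → Bool) → (U → Bool))
    (Good : (U → Bool) → Prop) (u η : ℝ) (hu : 0 < u)
    (h1 : ∀ ω, ∃ κ, u / 4 ≤ C.val r (Φ κ ω)) (h2 : ∀ y, C.val r y ≤ 2 * u)
    (h3 : ∀ y, ¬ Good y → C.val r y ≤ η)
    (conf : ∀ (z : Site a b) (μ : Fin a × Fin b), μ.1.val = z.1.1.val + (if z.2 then 0 else 1) →
      μ.2.val = z.1.2.val + (if z.2 then 1 else 0) → ∀ κ ω ω' (X : Finset U),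
      (∀ i ∈ nb z, ω i = pat z true i) → (∀ i ∈ nb z, ω' i = pat z false i) →
      (ι z.1 ∈ X ↔ ι μ ∉ X) →
      ¬ Good (mix X (Φ κ ω) (Φ κ ω')) ∨ ¬ Good (mix X (Φ κ ω') (Φ κ ω)))
    (hη : 32 * (s : ℝ) ^ 2 * η < u) :
    (1 : ℝ) ≤ 2 * s * (1 - (1 / 2) ^ 51) ^ (min a b / 15) := by
  have hs : 0 < s := Fin.pos r
  have hs' : (0 : ℝ) < s := by exact_mod_cast hs
  set M : Finset U := univ.image ι with hM
  have hMc : M.card = a * b := by
    rw [hM, card_image_of_injective _ hι]; simp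
  obtain ⟨X, h, h0, hsum, hX⟩ := decomp C M (by omega) r hr
  set ε : ℝ := 1 - (1 / 2) ^ 51 with hε
  have hε0 : 0 ≤ ε := by rw [hε]; norm_num
  have hε1 : ε ≤ 1 := by rw [hε]; norm_num
  set F : Fin s × Bool → Finset (Idx a b → Bool) :=
    fun t => univ.filter (fun ω => u / (4 * s) ≤ h t.1 (Φ t.2 ω)) with hF
  have hcover : (univ : Finset (Idx a b → Bool)) ⊆ univ.biUnion F := by
    intro ω _
    obtain ⟨κ, hκ⟩ := h1 ω
    rw [hsum] at hκ
    by_contra hcon
    have : ∀ v, h v (Φ κ ω) < u / (4 * s) := by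
      intro v
      by_contra hv
      exact hcon (mem_biUnion.2 ⟨(v, κ), mem_univ _, by simpa [hF] using hv⟩)
    have h4 : ∑ v, h v (Φ κ ω) < ∑ _v : Fin s, u / (4 * s) :=
      sum_lt_sum_of_nonempty ⟨r, mem_univ _⟩ (fun v _ => this v)
    rw [sum_const, card_univ, Fintype.card_fin, nsmul_eq_mul] at h4
    have : (s : ℝ) * (u / (4 * s)) = u / 4 := by field_simp
    linarith
  have hle : ∀ v y, h v y ≤ C.val r y := fun v y => by
    rw [hsum]; exact single_le_sum (f := fun v => h v y) (fun w _ => h0 w y) (mem_univ v)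
  have hFc : ∀ t, ((F t).card : ℝ) ≤ ε ^ (min a b / 15) * 2 ^ Fintype.card (Idx a b) := by
    rintro ⟨v, κ⟩
    have hτ : 0 < u / (4 * s) := by positivity
    rcases hX v with hz | ⟨hb1, hb2, f, g, hf, hg, hf0, hg0, hfg⟩
    · have : F (v, κ) = ∅ := by
        rw [hF]; simp only [filter_eq_empty_iff, hz]; intro _ _; linarith
      rw [this]; simp; positivity
    have hc : (X v ∩ M).card = (univ.filter (fun μ => ι μ ∈ X v)).card := by
      rw [← card_image_of_injective _ hι]
      congr 1; ext w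
      simp only [hM, mem_inter, mem_image, mem_univ, true_and, mem_filter]
      constructor
      · rintro ⟨h1, μ, rfl⟩; exact ⟨μ, h1, rfl⟩
      · rintro ⟨μ, h1, rfl⟩; exact ⟨h1, μ, rfl⟩
    rw [hc, hMc] at hb1 hb2
    obtain ⟨Z, hZ1, hZ2, hZ3⟩ := split_pairs _ hb1 hb2 hb 5 (by norm_num)
    have ex : ∀ z : Site a b, ∃ t : Bool, z ∈ Z → ∀ ω ∈ F (v, κ),
        ¬ ∀ i ∈ nb z, ω i = pat z t i := by
      intro z
      by_contra hcon
      push Not at hcon
      obtain ⟨hz, ω, hω, hp⟩ := hcon true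
      obtain ⟨-, ω', hω', hp'⟩ := hcon false
      obtain ⟨μ, e1, e2, e3⟩ := hZ2 z hz
      simp only [mem_filter, mem_univ, true_and] at e3
      simp only [hF, mem_filter, mem_univ, true_and] at hω hω'
      set x := Φ κ ω
      set y := Φ κ ω'
      have r1 := rank_one hf hg x y
      have r2 := rank_one hf hg y x
      have hprod : h v (mix (X v) x y) * h v (mix (X v) y x) = h v x * h v y := by
        rw [hfg, hfg, hfg, hfg, r1.1, r1.2, r2.1, r2.2]; ring
      have hlow : (u / (4 * s)) * (u / (4 * s)) ≤ h v x * h v y :=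
        mul_le_mul hω hω' hτ.le (h0 _ _)
      have hup : h v (mix (X v) x y) * h v (mix (X v) y x) ≤ η * (2 * u) := by
        rcases conf z μ e1 e2 κ ω ω' (X v) hp hp' e3 with hbad | hbad
        · exact mul_le_mul ((hle _ _).trans (h3 _ hbad)) ((hle _ _).trans (h2 _)) (h0 _ _)
            (((h0 _ _).trans (hle v _)).trans (h3 _ hbad))
        · rw [mul_comm]
          exact mul_le_mul ((hle _ _).trans (h3 _ hbad)) ((hle _ _).trans (h2 _)) (h0 _ _)
            (((h0 _ _).trans (hle v _)).trans (h3 _ hbad))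
      have h5 : (u / (4 * s)) * (u / (4 * s)) ≤ η * (2 * u) := by linarith
      have h6 : (u / (4 * s)) * (u / (4 * s)) = u * u / (16 * s ^ 2) := by field_simp; ring
      rw [h6, div_le_iff₀ (by positivity)] at h5
      nlinarith
    choose t ht using ex
    have hsub : F (v, κ) ⊆ univ.filter
        (fun ω : Idx a b → Bool => ∀ z ∈ Z, ¬ ∀ i ∈ nb z, ω i = pat z (t z) i) := by
      intro ω hω
      simp only [mem_filter, mem_univ, true_and]
      exact fun z hz => ht z hz ω hω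
    have hav := avoid_card 51 nb (fun z => pat z (t z)) Z (fun z _ => nb_card z)
      (fun z hz z' hz' hne => nb_disjoint (hZ3 z hz z' hz' hne))
    have hpow : ε ^ Z.card ≤ ε ^ (min a b / 15) := pow_le_pow_of_le_one hε0 hε1 (by omega)
    refine le_trans ?_ (hav.trans (mul_le_mul_of_nonneg_right hpow (by positivity)))
    exact_mod_cast card_le_card (fun ω hω => by simpa using hsub hω)
  have htot : ((univ : Finset (Idx a b → Bool)).card : ℝ) ≤ ∑ t, ((F t).card : ℝ) := by
    exact_mod_cast (card_le_card hcover).trans card_biUnion_le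
  have h7 : ∑ t, ((F t).card : ℝ) ≤
      ∑ _t : Fin s × Bool, ε ^ (min a b / 15) * 2 ^ Fintype.card (Idx a b) :=
    sum_le_sum (fun t _ => hFc t)
  rw [sum_const, card_univ, nsmul_eq_mul] at h7
  simp only [card_univ, Fintype.card_pi, Fintype.card_bool, prod_const] at htot
  simp only [Fintype.card_prod (Fin s), Fintype.card_fin, Fintype.card_bool] at h7
  push_cast at htot h7
  have hp : (0 : ℝ) < 2 ^ Fintype.card (Idx a b) := by positivity
  have h8 : (1 : ℝ) * 2 ^ Fintype.card (Idx a b) ≤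
      (2 * s * ε ^ (min a b / 15)) * 2 ^ Fintype.card (Idx a b) := by linarith
  exact le_of_mul_le_mul_right h8 hp

/-- the final estimate -/
lemma final_estimate : ∃ c : ℝ, 0 < c ∧ ∃ k₀ : ℕ, 20 ≤ k₀ ∧ ∀ k s : ℕ, k₀ ≤ k →
    (64 * (s : ℝ) ^ 2 < 2 ^ k → (1 : ℝ) ≤ 2 * s * (1 - (1 / 2) ^ 51) ^ (((k - 6) / 2) / 15)) →
    (2 : ℝ) ^ (c * k) ≤ s := by
  refine ⟨(1 / 2) ^ 51 / 80, by positivity, 2 ^ 60, by norm_num, fun k s hk h => ?_⟩
  by_contra hcon
  push Not at hcon
  have hk' : (2 : ℝ) ^ 60 ≤ k := by exact_mod_cast hk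
  set ε : ℝ := (1 / 2) ^ 51 with hε
  have hε0 : 0 < ε := by positivity
  have hs0 : (0 : ℝ) ≤ s := by positivity
  have h1 : 64 * (s : ℝ) ^ 2 < 2 ^ k := by
    have e1 : (s : ℝ) ^ 2 < ((2 : ℝ) ^ (ε / 80 * k)) ^ 2 := by gcongr
    have e2 : ((2 : ℝ) ^ (ε / 80 * k)) ^ 2 * 64 = 2 ^ (ε / 80 * k * 2 + 6) := by
      rw [Real.rpow_add (by norm_num), Real.rpow_mul (by norm_num) (ε / 80 * k) 2]
      norm_num
    have e3 : (2 : ℝ) ^ (ε / 80 * k * 2 + 6) ≤ 2 ^ (k : ℝ) := by
      refine Real.rpow_le_rpow_of_exponent_le (by norm_num) ?_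
      rw [hε]; nlinarith
    rw [Real.rpow_natCast] at e3
    linarith
  have h2 := h h1
  set j := ((k - 6) / 2) / 15 with hj
  have hjk : k ≤ 40 * j := by omega
  have hjk' : (k : ℝ) ≤ 40 * j := by exact_mod_cast hjk
  have h3 : (1 - ε) ^ j ≤ Real.exp (-(ε * j)) := by
    have : 1 - ε ≤ Real.exp (-ε) := by have := Real.add_one_le_exp (-ε); linarith
    calc (1 - ε) ^ j ≤ (Real.exp (-ε)) ^ j := by
          refine pow_le_pow_left₀ (by rw [hε]; norm_num) this j
      _ = _ := by rw [← Real.exp_nat_mul]; congr 1; ring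
  have h4 : (2 : ℝ) ^ (ε / 80 * k) ≤ Real.exp (ε / 80 * k) := by
    rw [← Real.exp_one_rpow]
    refine Real.rpow_le_rpow (by norm_num) ?_ (by positivity)
    have := Real.add_one_le_exp 1; linarith
  have h5 : (2 : ℝ) ≤ Real.exp 1 := by have := Real.add_one_le_exp 1; linarith
  have h6 : 2 * (s : ℝ) * (1 - ε) ^ j ≤ Real.exp 1 * Real.exp (ε / 80 * k) * Real.exp (-(ε * j)) := by
    have : (0 : ℝ) ≤ (1 - ε) ^ j := pow_nonneg (by rw [hε]; norm_num) _
    gcongr
    linarith
  rw [← Real.exp_add, ← Real.exp_add] at h6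
  have h7 : Real.exp (1 + ε / 80 * k + -(ε * j)) < 1 := by
    rw [Real.exp_lt_one_iff]
    have : ε * k ≤ ε * (40 * j) := by gcongr
    have : 80 < ε * k := by rw [hε]; nlinarith
    linarith
  exact absurd (h2.trans h6) (not_le.2 h7)

end Pool.Agent.Lib.MP_0350c1_lc
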