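import Mathlib

namespace Pool.Agent.Lib.MP_0350c1_lc

open Finset

/-- The grid graph with `m` rows and `n` columns. -/
def grid (m n : ℕ) : SimpleGraph (Fin m × Fin n) :=
  (SimpleGraph.pathGraph m).boxProd (SimpleGraph.pathGraph n)

noncomputable instance gridEdges (m n : ℕ) : Fintype (grid m n).edgeSet := Fintype.ofFinite _

/-- Connected two-piece partitions: unordered pairs of disjoint nonempty vertex sets that cover
the vertex set and induce connected subgraphs. -/
def IsPart {V : Type} (G : SimpleGraph V) (π : Sym2 (Finset V)) : Prop :=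
  ∃ A B : Finset V, π = s(A, B) ∧ Disjoint A B ∧ (A : Set V) ∪ (B : Set V) = Set.univ ∧
    A.Nonempty ∧ B.Nonempty ∧ (G.induce (A : Set V)).Connected ∧ (G.induce (B : Set V)).Connected

/-- Exact balance: the sizes of the two pieces differ by at most one. -/
def IsBalanced {V : Type} (π : Sym2 (Finset V)) : Prop :=
  ∃ A B : Finset V, π = s(A, B) ∧ |(A.card : ℤ) - (B.card : ℤ)| ≤ 1

/-- The three kinds of gate of a probabilistic circuit with `s` gates over Boolean variables
indexed by `U`: a biased coin for one variable, a mixture with weights `w`, a product. -/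
inductive Gate (U : Type) (s : ℕ) : Type
  | leaf (u : U) (p : ℝ) : Gate U s
  | sum (w : Fin s → ℝ) : Gate U s
  | prod (C : Finset (Fin s)) : Gate U s

/-- A smooth and decomposable probabilistic circuit (sum-product network) with `s` gates of
unbounded fan-in, together with the scope of every gate and the probability mass function that it
computes. -/
structure Circuit (U : Type) [DecidableEq U] (s : ℕ) : Type where
  gate : Fin s → Gate U s
  scope : Fin s → Finset U
  val : Fin s → (U → Bool) → ℝ
  leaf_ok : ∀ g u p, gate g = Gate.leaf u p →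
    0 ≤ p ∧ p ≤ 1 ∧ scope g = {u} ∧ ∀ x, val g x = if x u = true then p else 1 - p
  sum_ok : ∀ g w, gate g = Gate.sum w →
    (∀ c, 0 ≤ w c) ∧ ∑ c, w c = 1 ∧ (∀ c, w c ≠ 0 → c < g ∧ scope c = scope g) ∧
      ∀ x, val g x = ∑ c, w c * val c x
  prod_ok : ∀ g C, gate g = Gate.prod C →
    (∀ c ∈ C, c < g) ∧ (∀ c ∈ C, ∀ d ∈ C, c ≠ d → Disjoint (scope c) (scope d)) ∧
      scope g = C.biUnion scope ∧ ∀ x, val g x = ∏ c ∈ C, val c x

/-- Total variation distance of two mass functions on a finite set. -/
noncomputable def tv {α : Type} [Fintype α] (p q : α → ℝ) : ℝ := (∑ a, |p a - q a|) / 2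

/-- The uniform mass function on a finite set `Q`. -/
noncomputable def unif {α : Type} [DecidableEq α] (Q : Finset α) (a : α) : ℝ :=
  if a ∈ Q then 1 / (Q.card : ℝ) else 0

/-- The image of a mass function under a map. -/
noncomputable def push {α β : Type} [Fintype α] [DecidableEq β] (f : α → β) (p : α → ℝ) (b : β) :
    ℝ := ∑ a, if f a = b then p a else 0

/-- The unordered pair of colour classes of a two-colouring of the vertices. -/
def classes {V : Type} [Fintype V] (x : V → Bool) : Sym2 (Finset V) :=
  s(univ.filter (fun v => x v = true), univ.filter (fun v => x v = false))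

/-- The indicator of the edges that join the two members of an unordered pair of vertex sets. -/
noncomputable def cutOf {V : Type} (G : SimpleGraph V) (π : Sym2 (Finset V)) (e : G.edgeSet) :
    Bool :=
  @decide (∃ (A B : Finset V) (u v : V), π = s(A, B) ∧ (e : Sym2 V) = s(u, v) ∧ u ∈ A ∧ v ∈ B)
    (Classical.dec _)

end Pool.Agent.Lib.MP_0350c1_lc
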