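import Pool.Agent.Lib.MP_0350c1_lc.Main

namespace Pool.Agent.Lib.MP_0350c1_lc

open Finset

def edg {V : Type} {G : SimpleGraph V} {u v : V} (h : G.Adj u v) : G.edgeSet := ⟨s(u, v), h⟩

lemma edg_congr {V : Type} {G : SimpleGraph V} {u v u' v' : V} (h : G.Adj u v) (h' : G.Adj u' v')
    (e1 : u = u') (e2 : v = v') : edg h = edg h' := by subst e1 e2; rfl

section
variable {V : Type} [Fintype V]

lemma cutOf_classes (G : SimpleGraph V) (x : V → Bool) {u v : V} (h : G.Adj u v) :
    cutOf G (classes x) (edg h) = false ↔ x u = x v := by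
  unfold cutOf edg
  rw [@decide_eq_false_iff_not _ (Classical.dec _)]
  constructor
  · intro hn
    by_contra hne
    apply hn
    cases hu : x u
    · refine ⟨_, _, v, u, rfl, Sym2.eq_swap, ?_, by simpa using hu⟩
      rw [hu] at hne; simpa using hne
    · refine ⟨_, _, u, v, rfl, rfl, by simpa using hu, ?_⟩
      rw [hu] at hne; simpa using hne
  · rintro he ⟨A, B, u', v', h1, h2, h3, h4⟩
    have e : x u' = x v' := by
      simp only [Sym2.eq_iff] at h2
      rcases h2 with ⟨rfl, rfl⟩ | ⟨rfl, rfl⟩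
      · exact he
      · exact he.symm
    unfold classes at h1
    rw [Sym2.eq_iff] at h1
    rcases h1 with ⟨rfl, rfl⟩ | ⟨rfl, rfl⟩ <;> simp only [mem_filter, mem_univ, true_and] at h3 h4 <;>
      simp [h3, h4] at e

lemma classes_of_cut {G : SimpleGraph V} (hG : G.Preconnected) {x y : V → Bool}
    (h : cutOf G (classes x) = cutOf G (classes y)) : classes x = classes y := by
  have key : ∀ u v, xor (x u) (y u) = xor (x v) (y v) := by
    intro u v
    obtain ⟨w⟩ := hG u v
    induction w with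
    | nil => rfl
    | @cons a b c hab _ ih =>
      refine Eq.trans ?_ ih
      have h1 := cutOf_classes G x hab
      have h2 := cutOf_classes G y hab
      rw [h, h2] at h1
      revert h1
      cases x a <;> cases x b <;> cases y a <;> cases y b <;> simp
  by_cases he : ∀ v, x v = y v
  · rw [funext he]
  · push Not at he
    obtain ⟨v₀, hv₀⟩ := he
    have : ∀ v, x v = !(y v) := by
      intro v
      have := key v v₀
      revert this hv₀
      cases x v <;> cases y v <;> cases x v₀ <;> cases y v₀ <;> simp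
    unfold classes
    rw [Sym2.eq_swap]
    congr 1 <;> ext v <;> simp [this v]

end

lemma push_unif_le {α β : Type} [Fintype α] [DecidableEq α] [DecidableEq β] (f : α → β)
    (Q : Finset α) (hf : ∀ p ∈ Q, ∀ q ∈ Q, f p = f q → p = q) (y : β) :
    push f (unif Q) y ≤ 1 / (Q.card : ℝ) ∧ ((∀ p ∈ Q, f p ≠ y) → push f (unif Q) y = 0) := by
  have h2 : (∀ p ∈ Q, f p ≠ y) → push f (unif Q) y = 0 := by
    intro h
    refine sum_eq_zero (fun p _ => ?_)
    unfold unif
    split_ifs with h1 h2
    · exact absurd h1 (h p h2)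
    · rfl
    · rfl
  refine ⟨?_, h2⟩
  by_cases h : ∀ p ∈ Q, f p ≠ y
  · rw [h2 h]; positivity
  · push Not at h
    obtain ⟨p, hp, rfl⟩ := h
    unfold push
    rw [sum_eq_single p]
    · simp [unif, hp]
    · intro q _ hne
      unfold unif
      split_ifs with h1 h2
      · exact absurd (hf q h2 p hp h1) hne
      · rfl
      · rfl
    · simp

theorem edge_main : ∃ c : ℝ, 0 < c ∧ ∃ k₀ : ℕ, ∀ m n : ℕ, k₀ ≤ m → k₀ ≤ n →
    ∀ Q : Finset (Sym2 (Finset (Fin m × Fin n))), (∀ π ∈ Q, IsPart (grid m n) π) →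
      (∀ π, IsPart (grid m n) π → IsBalanced π → π ∈ Q) →
      ∀ (s : ℕ) (C : Circuit (grid m n).edgeSet s) (r : Fin s), C.scope r = univ →
        tv (C.val r) (push (cutOf (grid m n)) (unif Q)) ≤ 1 / ((Q.card : ℝ) * 2 ^ min m n) →
        (2 : ℝ) ^ (c * (min m n : ℕ)) ≤ s := by
  obtain ⟨c, hc, k₀, hk₀, hfin⟩ := final_estimate
  refine ⟨c, hc, k₀, fun m n hm hn Q hQ1 hQ2 s C r hr htv => hfin _ s (by omega) (fun hs => ?_)⟩
  have ha : 2 * ((m - 6) / 2) + 6 ≤ m := by omega
  have hb : 2 * ((n - 6) / 2) + 6 ≤ n := by omega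
  have hmin : (min m n - 6) / 2 = min ((m - 6) / 2) ((n - 6) / 2) := by omega
  have ha7 : 7 ≤ (m - 6) / 2 := by omega
  have hb7 : 7 ≤ (n - 6) / 2 := by omega
  rw [hmin]
  generalize (m - 6) / 2 = a at *
  generalize (n - 6) / 2 = b at *
  have hG : (grid m n).Preconnected :=
    (SimpleGraph.pathGraph_preconnected m).boxProd (SimpleGraph.pathGraph_preconnected n)
  have hmem : ∀ ω : Idx a b → Bool, classes (col m n ω) ∈ Q := fun ω =>
    hQ2 _ ((isPart_iff _ _).2 (col_valid ha hb ω)) (col_bal ha hb ω)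
  have hQ0 : (0 : ℝ) < Q.card := by
    exact_mod_cast card_pos.2 ⟨_, hmem (fun _ => false)⟩
  have hinj : ∀ p ∈ Q, ∀ q ∈ Q, cutOf (grid m n) p = cutOf (grid m n) q → p = q := by
    intro p hp q hq h
    obtain ⟨x, rfl⟩ := exists_classes (hQ1 p hp)
    obtain ⟨y, rfl⟩ := exists_classes (hQ1 q hq)
    exact classes_of_cut hG h
  have hpush := push_unif_le (cutOf (grid m n)) Q hinj
  set u : ℝ := 1 / (Q.card : ℝ) with hu
  have hu0 : 0 < u := by positivity
  have htv' : ∀ y, |C.val r y - push (cutOf (grid m n)) (unif Q) y| ≤ 2 * (u / 2 ^ min m n) := by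
    intro π
    refine (abs_le_tv _ _ π).trans ?_
    rw [hu, div_div]; linarith
  obtain ⟨n1, n2⟩ := numerics (s := s) hu0 (k := min m n) (by omega)
  have h0 := val_nonneg C r
  refine core C r hr (by omega) (by nlinarith)
    (fun μ => edg (pos_adj ha hb (μ, false) (p := 1) (q := 1) (p' := 1) (q' := 2) (by decide))) ?_
    (fun _ ω => cutOf (grid m n) (classes (col m n ω)))
    (fun y => ∃ x, Valid (grid m n) x ∧ y = cutOf (grid m n) (classes x)) u
    (2 * (u / 2 ^ min m n)) hu0 ?_ ?_ ?_ ?_ (n2 hs)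
  · intro μ μ' h
    simp only [edg, pos, Subtype.mk.injEq, Sym2.eq_iff, Prod.mk.injEq, Fin.mk.injEq] at h
    exact Prod.ext (Fin.ext (by omega)) (Fin.ext (by omega))
  · intro ω
    refine ⟨false, ?_⟩
    have h1 := htv' (cutOf (grid m n) (classes (col m n ω)))
    have h2 := le_push (cutOf (grid m n)) (p := unif Q)
      (fun π => by unfold unif; split_ifs; exacts [hu0.le, le_refl _]) (classes (col m n ω))
    rw [unif, if_pos (hmem ω), ← hu] at h2
    rw [abs_le] at h1
    linarith
  · intro y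
    have h1 := htv' y
    have h2 := (hpush y).1
    rw [abs_le] at h1
    linarith
  · intro y hy
    have h1 := htv' y
    rw [(hpush y).2, abs_le] at h1
    · linarith
    · intro p hp he
      obtain ⟨x, rfl⟩ := exists_classes (hQ1 p hp)
      exact hy ⟨x, (isPart_iff _ _).1 (hQ1 _ hp), he.symm⟩
  · intro z μ e1 e2 κ ω ω' X hp hp' hX
    obtain ⟨hz, ht⟩ := act_of_pat hp
    obtain ⟨hz', ht'⟩ := act_of_pat hp'
    have hadj1 : (grid m n).Adj (pos ha hb z 1 1) (pos ha hb z 1 2) := pos_adj ha hb _ (by decide)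
    have hadj2 : (grid m n).Adj (pos ha hb z (if z.2 then 1 else 3) (if z.2 then 3 else 1))
        (pos ha hb z (if z.2 then 1 else 3) (if z.2 then 4 else 2)) :=
      pos_adj ha hb _ (by cases z.2 <;> decide)
    have hX' : edg hadj1 ∈ X ↔ edg hadj2 ∉ X :=
      hX.trans (not_congr (Eq.to_iff (congrArg (· ∈ X) (edg_congr _ _
        (pos_partner ha hb z μ e1 e2).2 (pos_partner ha hb z μ e1 e2).1))))
    have key : ∀ y : (grid m n).edgeSet → Bool,
        (∀ e, y e = cutOf (grid m n) (classes (col m n ω)) e ∨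
          y e = cutOf (grid m n) (classes (col m n ω')) e) →
        y (edg hadj1) = cutOf (grid m n) (classes (col m n ω)) (edg hadj1) →
        y (edg hadj2) = cutOf (grid m n) (classes (col m n ω')) (edg hadj2) →
        ¬ ∃ x, Valid (grid m n) x ∧ y = cutOf (grid m n) (classes x) := by
      rintro y h1 h2 h3 ⟨h, hv, rfl⟩
      refine not_valid ha hb z h (fun p q p' q' c0 c1 c2 => ?_) ?_ ?_ hv
      · have hadj := pos_adj ha hb z c0
        rw [← cutOf_classes _ h hadj]
        rcases h1 (edg hadj) with e | e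
        · rw [e, cutOf_classes, col_pos ha hb hz, col_pos ha hb hz, ht]
        · rw [e, cutOf_classes, col_pos ha hb hz', col_pos ha hb hz', ht', tpl_off _ _ _ c1,
            tpl_off _ _ _ c2]
      · rw [← cutOf_classes _ h hadj1, h2, cutOf_classes, col_pos ha hb hz, col_pos ha hb hz, ht]
        cases z.2 <;> rfl
      · rw [← cutOf_classes _ h hadj2, h3, cutOf_classes, col_pos ha hb hz', col_pos ha hb hz', ht']
        cases z.2 <;> rfl
    by_cases hin : edg hadj1 ∈ X
    · refine Or.inl (key _ (fun v => ?_) (by simp only [mix, hin]; simp)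
        (by simp only [mix, hX'.1 hin]; simp))
      unfold mix; split_ifs <;> simp
    · have hin' := not_not.1 (fun h => hin (hX'.2 h))
      refine Or.inr (key _ (fun v => ?_) (by simp only [mix, hin]; simp)
        (by simp only [mix, hin']; simp))
      unfold mix; split_ifs <;> simp

end Pool.Agent.Lib.MP_0350c1_lc
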