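import Pool.Agent.Lib.MP_0350c1_lc.Bal

namespace Pool.Agent.Lib.MP_0350c1_lc

open Finset

lemma abs_le_tv {α : Type} [Fintype α] (p q : α → ℝ) (x : α) : |p x - q x| ≤ 2 * tv p q := by
  unfold tv
  have := single_le_sum (f := fun a => |p a - q a|) (fun a _ => abs_nonneg _) (mem_univ x)
  linarith

section
variable {V : Type} [Fintype V] [DecidableEq V]

omit [DecidableEq V] in
lemma isPart_iff (G : SimpleGraph V) (x : V → Bool) : IsPart G (classes x) ↔ Valid G x := by
  have e : ∀ κ, ((univ.filter (fun v => x v = κ) : Finset V) : Set V) = {v | x v = κ} := by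
    intro κ; ext v; simp
  constructor
  · rintro ⟨A, B, h, -, -, -, -, hA, hB⟩ κ
    unfold classes at h
    rw [Sym2.eq_iff] at h
    rw [← e]
    rcases h with ⟨h1, h2⟩ | ⟨h1, h2⟩ <;> cases κ
    · rw [h2]; exact hB
    · rw [h1]; exact hA
    · rw [h2]; exact hA
    · rw [h1]; exact hB
  · intro h
    refine ⟨_, _, rfl, ?_, ?_, ?_, ?_, by rw [e]; exact h true, by rw [e]; exact h false⟩
    · rw [disjoint_left]; intro v h1 h2; simp at h1 h2; simp [h1] at h2
    · ext v; simp
    · obtain ⟨v⟩ := (h true).nonempty; exact ⟨v.1, mem_filter.2 ⟨mem_univ _, v.2⟩⟩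
    · obtain ⟨v⟩ := (h false).nonempty; exact ⟨v.1, mem_filter.2 ⟨mem_univ _, v.2⟩⟩

omit [DecidableEq V] in
lemma classes_eq {x y : V → Bool} (h : classes x = classes y) : x = y ∨ x = fun v => !(y v) := by
  unfold classes at h
  rw [Sym2.eq_iff] at h
  rcases h with ⟨h1, -⟩ | ⟨h1, -⟩
  · left; funext v
    have := congrArg (fun S => v ∈ S) h1
    simp only [mem_filter, mem_univ, true_and, eq_iff_iff] at this
    exact Bool.eq_iff_iff.2 this
  · right; funext v
    have := congrArg (fun S => v ∈ S) h1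
    simp only [mem_filter, mem_univ, true_and, eq_iff_iff] at this
    rw [Bool.eq_iff_iff, this]; simp

omit [DecidableEq V] in
lemma exists_classes {G : SimpleGraph V} {π : Sym2 (Finset V)} (h : IsPart G π) :
    ∃ x, π = classes x := by
  classical
  obtain ⟨A, B, rfl, hd, hu, -⟩ := h
  refine ⟨fun v => decide (v ∈ A), ?_⟩
  unfold classes
  congr 1
  · ext v; simp
  · ext v
    have : v ∈ (A : Set V) ∪ (B : Set V) := by rw [hu]; trivial
    simp only [Set.mem_union, mem_coe] at this
    simp only [mem_filter, mem_univ, true_and, decide_eq_false_iff_not]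
    exact ⟨fun h1 h2 => disjoint_left.1 hd h2 h1, fun h1 => this.resolve_left h1⟩

lemma le_push {α β : Type} [Fintype α] [DecidableEq β] (f : α → β) {p : α → ℝ}
    (hp : ∀ x, 0 ≤ p x) (x : α) : p x ≤ push f p (f x) := by
  unfold push
  have := single_le_sum (f := fun a => if f a = f x then p a else 0)
    (fun a _ => by split_ifs; exacts [hp a, le_refl _]) (mem_univ x)
  simpa using this

lemma push_classes_le {p : (V → Bool) → ℝ} (hp : ∀ x, 0 ≤ p x) (x : V → Bool) :
    push classes p (classes x) ≤ p x + p (fun v => !(x v)) := by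
  unfold push
  have : ∀ y : V → Bool, (if classes y = classes x then p y else 0) ≤
      (if y = x then p y else 0) + (if y = (fun v => !(x v)) then p y else 0) := by
    intro y
    have := hp y
    by_cases h : classes y = classes x
    · rw [if_pos h]
      rcases classes_eq h with h' | h'
      · rw [if_pos h']; split_ifs <;> linarith
      · rw [if_pos h']; split_ifs <;> linarith
    · simp only [h, if_false]; split_ifs <;> linarith
  refine (sum_le_sum (fun y _ => this y)).trans ?_
  rw [sum_add_distrib]; simp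

end

lemma unif_le {α : Type} [DecidableEq α] (Q : Finset α) (x : α) : unif Q x ≤ 1 / (Q.card : ℝ) := by
  unfold unif; split_ifs
  · exact le_refl _
  · positivity

variable {a b m n : ℕ}

lemma pos_partner (ha : 2 * a + 6 ≤ m) (hb : 2 * b + 6 ≤ n) (z : Site a b) (μ : Fin a × Fin b)
    (e1 : μ.1.val = z.1.1.val + (if z.2 then 0 else 1))
    (e2 : μ.2.val = z.1.2.val + (if z.2 then 1 else 0)) :
    pos ha hb (μ, false) 1 2 = pos ha hb z (if z.2 then 1 else 3) (if z.2 then 4 else 2) ∧
    pos ha hb (μ, false) 1 1 = pos ha hb z (if z.2 then 1 else 3) (if z.2 then 3 else 1) := by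
  obtain ⟨z, t⟩ := z
  cases t <;> simp only [pos, Prod.mk.injEq, Fin.mk.injEq] <;> simp at e1 e2 ⊢ <;> omega

lemma numerics {k s : ℕ} {u : ℝ} (hu : 0 < u) (hk : 20 ≤ k) :
    2 * (u / 2 ^ k) ≤ u / 2 ∧
      (64 * (s : ℝ) ^ 2 < 2 ^ k → 32 * (s : ℝ) ^ 2 * (2 * (u / 2 ^ k)) < u) := by
  have h4 : (2 : ℝ) ^ 2 ≤ 2 ^ k := pow_le_pow_right₀ (by norm_num) (by omega)
  have hp : (0 : ℝ) < 2 ^ k := by positivity
  constructor
  · rw [← mul_div_assoc, div_le_div_iff₀ hp (by norm_num)]; nlinarith
  · intro h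
    have : 32 * (s : ℝ) ^ 2 * (2 * (u / 2 ^ k)) = (64 * (s : ℝ) ^ 2 * u) / 2 ^ k := by ring
    rw [this, div_lt_iff₀ hp]; nlinarith

theorem vertex_main : ∃ c : ℝ, 0 < c ∧ ∃ k₀ : ℕ, ∀ m n : ℕ, k₀ ≤ m → k₀ ≤ n →
    ∀ Q : Finset (Sym2 (Finset (Fin m × Fin n))), (∀ π ∈ Q, IsPart (grid m n) π) →
      (∀ π, IsPart (grid m n) π → IsBalanced π → π ∈ Q) →
      ∀ (s : ℕ) (C : Circuit (Fin m × Fin n) s) (r : Fin s), C.scope r = univ →
        tv (push classes (C.val r)) (unif Q) ≤ 1 / ((Q.card : ℝ) * 2 ^ min m n) →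
        (2 : ℝ) ^ (c * (min m n : ℕ)) ≤ s := by
  obtain ⟨c, hc, k₀, hk₀, hfin⟩ := final_estimate
  refine ⟨c, hc, k₀, fun m n hm hn Q hQ1 hQ2 s C r hr htv => hfin _ s (by omega) (fun hs => ?_)⟩
  have ha : 2 * ((m - 6) / 2) + 6 ≤ m := by omega
  have hb : 2 * ((n - 6) / 2) + 6 ≤ n := by omega
  have hmin : (min m n - 6) / 2 = min ((m - 6) / 2) ((n - 6) / 2) := by omega
  have ha7 : 7 ≤ (m - 6) / 2 := by omega
  have hb7 : 7 ≤ (n - 6) / 2 := by omega
  rw [hmin]
  generalize (m - 6) / 2 = a at *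
  generalize (n - 6) / 2 = b at *
  have hmem : ∀ ω : Idx a b → Bool, classes (col m n ω) ∈ Q := fun ω =>
    hQ2 _ ((isPart_iff _ _).2 (col_valid ha hb ω)) (col_bal ha hb ω)
  have hQ0 : (0 : ℝ) < Q.card := by
    exact_mod_cast card_pos.2 ⟨_, hmem (fun _ => false)⟩
  set u : ℝ := 1 / (Q.card : ℝ) with hu
  have hu0 : 0 < u := by positivity
  have htv' : ∀ π, |push classes (C.val r) π - unif Q π| ≤ 2 * (u / 2 ^ min m n) := by
    intro π
    refine (abs_le_tv _ _ π).trans ?_
    rw [hu, div_div]; linarith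
  obtain ⟨n1, n2⟩ := numerics (s := s) hu0 (k := min m n) (by omega)
  have h0 := val_nonneg C r
  refine core C r hr (by omega) (by nlinarith) (fun μ => pos ha hb (μ, false) 1 2) ?_
    (fun κ ω v => xor κ (col m n ω v)) (Valid (grid m n)) u (2 * (u / 2 ^ min m n)) hu0
    ?_ ?_ ?_ ?_ (n2 hs)
  · intro μ μ' h
    simp only [pos, Prod.mk.injEq, Fin.mk.injEq] at h
    exact Prod.ext (Fin.ext (by omega)) (Fin.ext (by omega))
  · intro ω
    have h1 := htv' (classes (col m n ω))
    have h2 := push_classes_le h0 (col m n ω)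
    rw [unif, if_pos (hmem ω), abs_le, ← hu] at h1
    by_cases h : u / 4 ≤ C.val r (col m n ω)
    · exact ⟨false, by simpa using h⟩
    · refine ⟨true, ?_⟩
      simp only [Bool.true_xor]
      linarith
  · intro y
    have h1 := htv' (classes y)
    have h2 := le_push classes h0 y
    have h3 := unif_le Q (classes y)
    rw [abs_le] at h1
    linarith
  · intro y hy
    have h1 := htv' (classes y)
    have h2 := le_push classes h0 y
    rw [unif, if_neg (fun h => hy ((isPart_iff _ _).1 (hQ1 _ h))), abs_le] at h1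
    linarith
  · intro z μ e1 e2 κ ω ω' X hp hp' hX
    obtain ⟨hz, ht⟩ := act_of_pat hp
    obtain ⟨hz', ht'⟩ := act_of_pat hp'
    simp only [(pos_partner ha hb z μ e1 e2).1] at hX
    have he : pos ha hb (z.1, false) 1 2 = pos ha hb z 1 2 := rfl
    rw [he] at hX
    have key : ∀ h : Fin m × Fin n → Bool, (∀ v, h v = xor κ (col m n ω v) ∨
        h v = xor κ (col m n ω' v)) →
        h (pos ha hb z 1 2) = xor κ (col m n ω (pos ha hb z 1 2)) →
        h (pos ha hb z (if z.2 then 1 else 3) (if z.2 then 4 else 2)) =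
          xor κ (col m n ω' (pos ha hb z (if z.2 then 1 else 3) (if z.2 then 4 else 2))) →
        ¬ Valid (grid m n) h := by
      intro h h1 h2 h3
      have off : ∀ p q, ¬ ex z.2 p q → h (pos ha hb z p q) = xor κ (tpl z.2 true p q) := by
        intro p q hpq
        rcases h1 (pos ha hb z p q) with e | e
        · rw [e, col_pos ha hb hz, ht]
        · rw [e, col_pos ha hb hz', ht', tpl_off _ _ _ hpq]
      refine not_valid ha hb z h (fun p q p' q' _ c1 c2 => ?_) ?_ ?_
      · rw [off p q c1, off p' q' c2]; simp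
      · rw [off 1 1 (by cases z.2 <;> decide), h2, col_pos ha hb hz, ht]
        cases z.2 <;> rfl
      · rw [off _ _ (by cases z.2 <;> decide), h3, col_pos ha hb hz', ht']
        cases z.2 <;> rfl
    by_cases hin : pos ha hb z 1 2 ∈ X
    · refine Or.inl (key _ (fun v => ?_) (by simp [mix, hin]) (by simp only [mix, hX.1 hin]; simp))
      unfold mix; split_ifs <;> simp
    · have hin' := not_not.1 (fun h => hin (hX.2 h))
      refine Or.inr (key _ (fun v => ?_) (by simp [mix, hin]) (by simp only [mix, hin']; simp))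
      unfold mix; split_ifs <;> simp

end Pool.Agent.Lib.MP_0350c1_lc
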