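import Pool.Agent.Lib.MP_0350c1_lc.Defs

namespace Pool.Agent.Lib.MP_0350c1_lc

open Finset

variable {U : Type} [DecidableEq U] {s : ℕ}

def Dep (S : Finset U) (f : (U → Bool) → ℝ) : Prop :=
  ∀ x y : U → Bool, (∀ u ∈ S, x u = y u) → f x = f y

omit [DecidableEq U] in
lemma Dep.mono {S T : Finset U} {f : (U → Bool) → ℝ} (h : Dep S f) (hST : S ⊆ T) : Dep T f :=
  fun x y hxy => h x y (fun u hu => hxy u (hST hu))

def mix (X : Finset U) (x y : U → Bool) : U → Bool := fun u => if u ∈ X then x u else y u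

lemma val_nonneg (C : Circuit U s) (g : Fin s) : ∀ x, 0 ≤ C.val g x := by
  induction g using WellFoundedLT.induction with
  | ind g ih =>
    intro x
    rcases hg : C.gate g with ⟨u, p⟩ | ⟨w⟩ | ⟨D⟩
    · obtain ⟨h0, h1, -, hv⟩ := C.leaf_ok g u p hg
      rw [hv]; split_ifs <;> linarith
    · obtain ⟨h0, -, hc, hv⟩ := C.sum_ok g w hg
      rw [hv]
      refine sum_nonneg (fun c _ => ?_)
      by_cases hw : w c = 0
      · simp [hw]
      · exact mul_nonneg (h0 c) (ih c (hc c hw).1 x)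
    · obtain ⟨hc, -, -, hv⟩ := C.prod_ok g D hg
      rw [hv]
      exact prod_nonneg (fun c hcD => ih c (hc c hcD) x)

lemma val_dep (C : Circuit U s) (g : Fin s) : Dep (C.scope g) (C.val g) := by
  induction g using WellFoundedLT.induction with
  | ind g ih =>
    intro x y hxy
    rcases hg : C.gate g with ⟨u, p⟩ | ⟨w⟩ | ⟨D⟩
    · obtain ⟨-, -, hs, hv⟩ := C.leaf_ok g u p hg
      rw [hv, hv, hxy u (by simp [hs])]
    · obtain ⟨-, -, hc, hv⟩ := C.sum_ok g w hg
      rw [hv, hv]
      refine sum_congr rfl (fun c _ => ?_)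
      by_cases hw : w c = 0
      · simp [hw]
      · rw [ih c (hc c hw).1 x y (by rw [(hc c hw).2]; exact hxy)]
    · obtain ⟨hc, -, hs, hv⟩ := C.prod_ok g D hg
      rw [hv, hv]
      refine prod_congr rfl (fun c hcD => ih c (hc c hcD) x y (fun u hu => hxy u ?_))
      rw [hs]; exact mem_biUnion.2 ⟨c, hcD, hu⟩

lemma exists_mid {ι : Type} [DecidableEq ι] (f : ι → ℕ) (K : ℕ) (D : Finset ι)
    (h1 : ∀ c ∈ D, 3 * f c ≤ 2 * K) (h2 : K ≤ 3 * ∑ c ∈ D, f c) :
    ∃ E ⊆ D, K ≤ 3 * ∑ c ∈ E, f c ∧ 3 * ∑ c ∈ E, f c ≤ 2 * K := by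
  induction D using Finset.induction_on with
  | empty => exact ⟨∅, by simp, by simpa using h2, by simp⟩
  | insert c D hc ih =>
    by_cases ha : K ≤ 3 * f c
    · exact ⟨{c}, by simp, by simpa using ha, by simpa using h1 c (by simp)⟩
    by_cases hb : K ≤ 3 * ∑ c ∈ D, f c
    · obtain ⟨E, hE, h⟩ := ih (fun d hd => h1 d (by simp [hd])) hb
      exact ⟨E, hE.trans (subset_insert _ _), h⟩
    · refine ⟨insert c D, Subset.refl _, h2, ?_⟩
      rw [sum_insert hc]; omega

/-- a splitting of a gate along a balanced part of its scope -/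
def Split (C : Circuit U s) (M : Finset U) (v : Fin s) (X : Finset U)
    (a a' : (U → Bool) → ℝ) : Prop :=
  M.card ≤ 3 * (X ∩ M).card ∧ 3 * (X ∩ M).card ≤ 2 * M.card ∧ X ⊆ C.scope v ∧
    Dep X a ∧ Dep (C.scope v \ X) a' ∧ (∀ x, 0 ≤ a x) ∧ (∀ x, 0 ≤ a' x) ∧
    ∀ x, C.val v x = a x * a' x

lemma split_of_prod (C : Circuit U s) (M : Finset U) (g : Fin s) (D : Finset (Fin s))
    (hg : C.gate g = Gate.prod D) (hbig : 2 * M.card < 3 * (C.scope g ∩ M).card)
    (hsm : ∀ c ∈ D, 3 * (C.scope c ∩ M).card ≤ 2 * M.card) :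
    ∃ X a a', Split C M g X a a' := by
  obtain ⟨hc, hd, hs, hv⟩ := C.prod_ok g D hg
  have hcard : ∀ E ⊆ D, (E.biUnion C.scope ∩ M).card = ∑ c ∈ E, (C.scope c ∩ M).card := by
    intro E hE
    rw [← card_biUnion]
    · congr 1; ext u; simp only [mem_inter, mem_biUnion]; tauto
    · intro c hcE d hdE hcd
      exact Disjoint.mono inter_subset_left inter_subset_left (hd c (hE hcE) d (hE hdE) hcd)
  obtain ⟨E, hE, h1, h2⟩ := exists_mid (fun c => (C.scope c ∩ M).card) M.card D hsm (by
    rw [← hcard D (Subset.refl _), ← hs]; omega)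
  refine ⟨E.biUnion C.scope, fun x => ∏ c ∈ E, C.val c x, fun x => ∏ c ∈ D \ E, C.val c x,
    by rw [hcard E hE]; exact h1, by rw [hcard E hE]; exact h2, ?_, ?_, ?_, ?_, ?_, ?_⟩
  · rw [hs]; exact biUnion_subset_biUnion_of_subset_left _ hE
  · intro x y hxy
    exact prod_congr rfl (fun c hcE => val_dep C c x y
      (fun u hu => hxy u (mem_biUnion.2 ⟨c, hcE, hu⟩)))
  · intro x y hxy
    refine prod_congr rfl (fun c hcE => val_dep C c x y (fun u hu => hxy u ?_))
    rw [mem_sdiff] at hcE ⊢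
    refine ⟨by rw [hs]; exact mem_biUnion.2 ⟨c, hcE.1, hu⟩, fun hX => ?_⟩
    obtain ⟨d, hdE, hud⟩ := mem_biUnion.1 hX
    exact disjoint_left.1 (hd c hcE.1 d (hE hdE) (fun h => hcE.2 (h ▸ hdE))) hu hud
  · exact fun x => prod_nonneg (fun c _ => val_nonneg C c x)
  · exact fun x => prod_nonneg (fun c _ => val_nonneg C c x)
  · intro x
    rw [hv, mul_comm, prod_sdiff hE]

lemma decomp_aux (C : Circuit U s) (M : Finset U) (hM : 2 ≤ M.card)
    (X : Fin s → Finset U) (a a' : Fin s → (U → Bool) → ℝ)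
    (hX : ∀ v, (∃ X a a', Split C M v X a a') → Split C M v (X v) (a v) (a' v)) (g : Fin s) :
    2 * M.card < 3 * (C.scope g ∩ M).card →
    ∃ b : Fin s → (U → Bool) → ℝ, (∀ v x, 0 ≤ b v x) ∧
      (∀ v, (∀ x, b v x = 0) ∨ (Split C M v (X v) (a v) (a' v) ∧ X v ⊆ C.scope g ∧
        Dep (C.scope g \ X v) (b v))) ∧ ∀ x, C.val g x = ∑ v, a v x * b v x := by
  induction g using WellFoundedLT.induction with
  | ind g ih =>
    intro hbig
    rcases hg : C.gate g with ⟨u, p⟩ | ⟨w⟩ | ⟨D⟩
    · obtain ⟨-, -, hs, -⟩ := C.leaf_ok g u p hg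
      have : (C.scope g ∩ M).card ≤ 1 := by
        rw [hs]; exact (card_le_card inter_subset_left).trans (by simp)
      omega
    · obtain ⟨h0, -, hc, hv⟩ := C.sum_ok g w hg
      have key : ∀ c, ∃ b : Fin s → (U → Bool) → ℝ, (∀ v x, 0 ≤ b v x) ∧
          (∀ v, (∀ x, b v x = 0) ∨ (Split C M v (X v) (a v) (a' v) ∧ X v ⊆ C.scope g ∧
            Dep (C.scope g \ X v) (b v))) ∧ ∀ x, w c * C.val c x = ∑ v, a v x * b v x := by
        intro c
        by_cases hw : w c = 0
        · exact ⟨fun _ _ => 0, fun _ _ => le_refl _, fun _ => Or.inl (fun _ => rfl),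
            fun x => by simp [hw]⟩
        · obtain ⟨b, hb0, hb1, hb2⟩ := ih c (hc c hw).1 (by rw [(hc c hw).2]; exact hbig)
          refine ⟨fun v x => w c * b v x, fun v x => mul_nonneg (h0 c) (hb0 v x), fun v => ?_,
            fun x => ?_⟩
          · rcases hb1 v with h | ⟨h1, h2, h3⟩
            · exact Or.inl (fun x => by simp [h x])
            · rw [(hc c hw).2] at h2 h3
              exact Or.inr ⟨h1, h2, fun x y hxy => by simp only [h3 x y hxy]⟩
          · rw [hb2, mul_sum]; exact sum_congr rfl (fun v _ => by ring)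
      choose b hb0 hb1 hb2 using key
      refine ⟨fun v x => ∑ c, b c v x, fun v x => sum_nonneg (fun c _ => hb0 c v x), fun v => ?_,
        fun x => ?_⟩
      · by_cases hz : ∀ c x, b c v x = 0
        · exact Or.inl (fun x => sum_eq_zero (fun c _ => hz c x))
        · push Not at hz
          obtain ⟨c, x, hcx⟩ := hz
          rcases hb1 c v with h | ⟨h1, h2, -⟩
          · exact absurd (h x) hcx
          · refine Or.inr ⟨h1, h2, fun x y hxy => sum_congr rfl (fun d _ => ?_)⟩
            rcases hb1 d v with h | ⟨-, -, h3⟩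
            · rw [h x, h y]
            · exact h3 x y hxy
      · rw [hv]
        simp only [hb2, mul_sum]
        exact sum_comm
    · obtain ⟨hc, hd, hs, hv⟩ := C.prod_ok g D hg
      by_cases hsm : ∀ c ∈ D, 3 * (C.scope c ∩ M).card ≤ 2 * M.card
      · have hS := hX g (split_of_prod C M g D hg hbig hsm)
        refine ⟨fun v x => if v = g then a' g x else 0, fun v x => ?_, fun v => ?_, fun x => ?_⟩
        · dsimp only; split_ifs
          · exact hS.2.2.2.2.2.2.1 x
          · exact le_refl _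
        · by_cases hvg : v = g
          · subst hvg
            refine Or.inr ⟨hS, hS.2.2.1, fun x y hxy => ?_⟩
            simp only [if_true]
            exact hS.2.2.2.2.1 x y hxy
          · exact Or.inl (fun x => by simp [hvg])
        · simp only [mul_ite, mul_zero, sum_ite_eq', mem_univ, if_true]
          exact hS.2.2.2.2.2.2.2 x
      · push Not at hsm
        obtain ⟨c, hcD, hcb⟩ := hsm
        obtain ⟨b, hb0, hb1, hb2⟩ := ih c (hc c hcD) hcb
        have hsub : C.scope c ⊆ C.scope g := by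
          rw [hs]; exact subset_biUnion_of_mem _ hcD
        refine ⟨fun v x => b v x * ∏ d ∈ D.erase c, C.val d x, fun v x =>
          mul_nonneg (hb0 v x) (prod_nonneg (fun d _ => val_nonneg C d x)), fun v => ?_,
          fun x => ?_⟩
        · rcases hb1 v with h | ⟨h1, h2, h3⟩
          · exact Or.inl (fun x => by simp [h x])
          · refine Or.inr ⟨h1, h2.trans hsub, fun x y hxy => ?_⟩
            dsimp only
            rw [h3.mono (sdiff_subset_sdiff hsub (Subset.refl _)) x y hxy]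
            congr 1
            refine prod_congr rfl (fun d hdD => val_dep C d x y (fun u hu => hxy u ?_))
            rw [mem_erase] at hdD
            rw [mem_sdiff]
            refine ⟨by rw [hs]; exact mem_biUnion.2 ⟨d, hdD.2, hu⟩, fun hX => ?_⟩
            exact disjoint_left.1 (hd d hdD.2 c hcD hdD.1) hu (h2 hX)
        · rw [hv, ← mul_prod_erase D _ hcD, hb2, sum_mul]
          exact sum_congr rfl (fun v _ => by ring)

/-- The mass function of a circuit with `s` gates is a sum of `s` nonnegative functions, each of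
rank one along a partition of the variables that is balanced on `M`. -/
theorem decomp [Fintype U] (C : Circuit U s) (M : Finset U) (hM : 2 ≤ M.card) (r : Fin s)
    (hr : C.scope r = univ) :
    ∃ (X : Fin s → Finset U) (h : Fin s → (U → Bool) → ℝ), (∀ v x, 0 ≤ h v x) ∧
      (∀ x, C.val r x = ∑ v, h v x) ∧
      (∀ v, (∀ x, h v x = 0) ∨ (M.card ≤ 3 * (X v ∩ M).card ∧ 3 * (X v ∩ M).card ≤ 2 * M.card ∧
        ∃ a b : (U → Bool) → ℝ, Dep (X v) a ∧ Dep (univ \ X v) b ∧ (∀ x, 0 ≤ a x) ∧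
          (∀ x, 0 ≤ b x) ∧ ∀ x, h v x = a x * b x)) := by
  have ex : ∀ v : Fin s, ∃ t : Finset U × ((U → Bool) → ℝ) × ((U → Bool) → ℝ),
      (∃ X a a', Split C M v X a a') → Split C M v t.1 t.2.1 t.2.2 := by
    intro v
    by_cases h : ∃ X a a', Split C M v X a a'
    · obtain ⟨X, a, a', h⟩ := h
      exact ⟨(X, a, a'), fun _ => h⟩
    · exact ⟨(∅, 0, 0), fun h' => absurd h' h⟩
  choose t ht using ex
  obtain ⟨b, hb0, hb1, hb2⟩ := decomp_aux C M hM (fun v => (t v).1) (fun v => (t v).2.1)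
    (fun v => (t v).2.2) ht r (by rw [hr, univ_inter]; omega)
  refine ⟨fun v => (t v).1, fun v x => (t v).2.1 x * b v x, fun v x => ?_, hb2, fun v => ?_⟩
  · rcases hb1 v with h | ⟨h1, -, -⟩
    · simp [h x]
    · exact mul_nonneg (h1.2.2.2.2.2.1 x) (hb0 v x)
  · rcases hb1 v with h | ⟨h1, -, h3⟩
    · exact Or.inl (fun x => by simp [h x])
    · rw [hr] at h3
      exact Or.inr ⟨h1.1, h1.2.1, _, _, h1.2.2.2.1, h3, h1.2.2.2.2.2.1, hb0 v, fun x => rfl⟩

lemma rank_one [Fintype U] {X : Finset U} {a b : (U → Bool) → ℝ} (ha : Dep X a)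
    (hb : Dep (univ \ X) b) (x y : U → Bool) :
    a (mix X x y) = a x ∧ b (mix X x y) = b y := by
  constructor
  · exact ha _ _ (fun u hu => by simp [mix, hu])
  · exact hb _ _ (fun u hu => by rw [mem_sdiff] at hu; simp [mix, hu.2])

end Pool.Agent.Lib.MP_0350c1_lc
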