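import Pool.Agent.Lib.MP_0350c1_lc.Z13

namespace Pool.Agent.Lib.MP_0350c1_lc

open Relation

variable {M N : ℤ} {x : P2 → Bool}

lemma VZ.not (h : VZ M N x) : VZ M N (fun v => !(x v)) := by
  intro κ
  obtain ⟨⟨u, hu, cu⟩, hc⟩ := h (!κ)
  refine ⟨⟨u, hu, by simp [cu]⟩, fun u v hu hv cu cv => ?_⟩
  have r := hc u v hu hv (by simp [← cu]) (by simp [← cv])
  clear hv cv
  induction r with
  | refl => exact ReflTransGen.refl
  | tail _ s ih => exact ih.tail ⟨s.1, s.2.1, s.2.2.1, by simp only [s.2.2.2]⟩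

/-- moving the tip of the ray -/
lemma tip_flip {a b : ℤ} (hx : VZ M N x) (h0 : 0 ≤ a ∧ a + 13 < M ∧ 0 ≤ b ∧ b + 13 < N) (κ : Bool)
    (hp : Pat a b (if κ then 6 else 7) x) :
    VZ M N (Function.update x (a + 6, b + 6) (!κ)) ∧
      Pat a b (if κ then 7 else 6) (Function.update x (a + 6, b + 6) (!κ)) ∧
      x (a + 6, b + 6) = κ := by
  set c := Function.update x (a + 6, b + 6) (!κ) with hc
  have off : ∀ v : P2, ¬ (v.1 = a + 6 ∧ v.2 = b + 6) → c v = x v := fun v hv =>
    Function.update_of_ne (fun e => hv (by rw [e]; simp)) _ _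
  have on : c (a + 6, b + 6) = !κ := Function.update_self _ _ _
  have xu : x (a + 6, b + 6) = κ := by
    rw [hp _ (by unfold Box; dsimp only; omega)]; cases κ <;> simp
  have hp' : Pat a b (if κ then 7 else 6) c := by
    intro v hv
    by_cases e : v.1 = a + 6 ∧ v.2 = b + 6
    · rw [show v = (a + 6, b + 6) from Prod.ext e.1 e.2, on]; cases κ <;> simp
    · rw [off v e, hp v hv, decide_eq_decide]; cases κ <;> simp <;> omega
  have isu : ∀ v, x v = κ → c v = !κ → v = (a + 6, b + 6) := by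
    intro v e1 e2
    by_contra h
    rw [off v (fun e => h (Prod.ext e.1 e.2)), e1] at e2
    revert e2; cases κ <;> simp
  have cF : ∀ s t, a + 4 ≤ s → s ≤ a + 9 → b + 4 ≤ t → t ≤ b + 9 → ¬ (s = a + 6 ∧ b + 6 ≤ t) →
      c (s, t) = false := fun s t _ _ _ _ _ => by
    rw [hp' _ (by unfold Box; dsimp only; omega), decide_eq_false_iff_not]
    cases κ <;> simp <;> omega
  have cT : c (a + 6, b + 7) = true := by
    rw [hp' _ (by unfold Box; dsimp only; omega), decide_eq_true_eq]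
    cases κ <;> simp
  refine ⟨?_, hp', xu⟩
  have h0' : ∀ v, x v = !κ → c v = !κ := fun v hv => by
    by_cases e : v.1 = a + 6 ∧ v.2 = b + 6
    · rw [show v = (a + 6, b + 6) from Prod.ext e.1 e.2, on]
    · rw [off v e, hv]
  cases κ
  · refine safe_flip hx false c (a + 6, b + 7) (a + 6, b + 5) (by unfold In; dsimp only; omega)
      (by unfold In; dsimp only; omega) ((off _ (by simp)).symm.trans cT)
      (cF _ _ (by omega) (by omega) (by omega) (by omega) (by omega)) h0' (fun v iv e1 e2 => ?_)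
      (fun u v iu _ hA cu e1 e2 => ?_)
    · rw [isu v e1 e2]
      exact Rch.step (by unfold In; dsimp only; omega) (by unfold In; dsimp only; omega)
        (by unfold Adj; dsimp only; omega) (on.trans cT.symm)
    · rw [isu v e1 e2] at hA
      unfold Adj at hA
      dsimp only at hA
      have k0 : ¬ (u.1 = a + 6 ∧ u.2 = b + 7) := fun e => by
        rw [show u = (a + 6, b + 7) from Prod.ext e.1 e.2, cT] at cu; simp at cu
      have g1 : ∀ u : P2, u.2 = b + 5 → a + 5 ≤ u.1 → u.1 ≤ a + 7 → Rch M N c u (a + 6, b + 5) :=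
        fun u _ _ _ => rect' (κ := false) (a + 5) (b + 5) (a + 7) (b + 5) (by omega)
          (fun s t _ _ _ _ => cF s t (by omega) (by omega) (by omega) (by omega) (by omega))
          (by dsimp only; omega)
      by_cases k1 : u.2 = b + 5
      · exact g1 u k1 (by omega) (by omega)
      · exact ReflTransGen.head (b := (u.1, b + 5)) ⟨iu, by unfold In; dsimp only; omega,
          by unfold Adj; dsimp only; omega, cu.trans (cF _ _ (by omega) (by omega) (by omega)
            (by omega) (by omega)).symm⟩ (g1 _ rfl (by dsimp only; omega) (by dsimp only; omega))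
  · have cb := cF (a + 6) (b + 5) (by omega) (by omega) (by omega) (by omega) (by omega)
    refine safe_flip hx true c (a + 6, b + 5) (a + 6, b + 7) (by unfold In; dsimp only; omega)
      (by unfold In; dsimp only; omega) ((off _ (by simp)).symm.trans cb) cT h0'
      (fun v iv e1 e2 => ?_) (fun u v iu _ hA cu e1 e2 => ?_)
    · rw [isu v e1 e2]
      exact Rch.step (by unfold In; dsimp only; omega) (by unfold In; dsimp only; omega)
        (by unfold Adj; dsimp only; omega) (on.trans cb.symm)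
    · rw [isu v e1 e2] at hA
      unfold Adj at hA
      dsimp only at hA
      by_cases k0 : u.1 = a + 6 ∧ u.2 = b + 7
      · rw [show u = (a + 6, b + 7) from Prod.ext k0.1 k0.2]
      · rw [cF u.1 u.2 (by omega) (by omega) (by omega) (by omega) (by omega)] at cu; simp at cu

/-- `h` monochromatic rows -/
def SlabH (M N : ℤ) (x : P2 → Bool) (h i : ℤ) (κ : Bool) : Prop :=
  0 ≤ i ∧ i + h ≤ M ∧ ∀ v, In M N v → i ≤ v.1 → v.1 < i + h → x v = κ

lemma row_sides (hx : VZ M N x) (p h : ℤ) (κ : Bool) (h1 : h ≤ p) (h2 : p + h ≤ M) (h3 : 0 ≤ h)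
    (hκ : ∀ v, In M N v → v.1 = p → x v = κ) : ∃ i, SlabH M N x h i κ := by
  by_contra hc
  push Not at hc
  have a1 := hc (p - h)
  have a2 := hc p
  unfold SlabH at a1 a2
  push Not at a1 a2
  obtain ⟨u, iu, u1, u2, cu⟩ := a1 (by omega) (by omega)
  obtain ⟨v, iv, v1, v2, cv⟩ := a2 (by omega) (by omega)
  have nv : v.1 ≠ p := fun e => cv (hκ v iv e)
  obtain ⟨a, b, r, -, ha, hb, st⟩ := ((hx (!κ)).2 u v iu iv (bne cu) (bne cv)).exit
    (fun w => w.1 < p) (by omega) (by omega)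
  have hA := st.2.2.1
  unfold Adj at hA
  exact cu ((Rch.col r).trans (st.2.2.2.trans (hκ b st.2.1 (by omega))))

theorem slabH (hx : VZ M N x) (h i L : ℤ) (κ : Bool) (hh : 0 ≤ h) (hL : 1 ≤ L ∧ 2 * L < N)
    (hκ : SlabH M N x (h + 4) i κ) :
    ∃ i', 0 ≤ i' ∧ i' < M ∧ Slab M N x i' κ ∧ ∃ w : ℕ → P2, ∀ β : ℕ → Bool, ∃ y, VZ M N y ∧
      (∀ v : P2, ¬ (i' ≤ v.1 ∧ v.1 ≤ i' + 3) → y v = x v) ∧ (∃ j, SlabH M N y h j κ) ∧
      ∀ t : ℕ, (t : ℤ) < L → In M N (w t) ∧ y (w t) = β t := by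
  obtain ⟨o, io, co⟩ := (hx (!κ)).1
  have key : ∀ k : ℕ, ∀ i, SlabH M N x (h + 4) i κ → |o.1 - i| ≤ k →
      ∃ i', SlabH M N x (h + 4) i' κ ∧ ∃ b, In M N b ∧
        (b.1 = i' + h + 4 ∨ b.1 = i' - 1) ∧ x b = !κ := by
    intro k
    have no : ∀ i, SlabH M N x (h + 4) i κ → ¬ (i ≤ o.1 ∧ o.1 < i + (h + 4)) := fun i h h' => by
      rw [h.2.2 o io h'.1 h'.2] at co; revert co; cases κ <;> simp
    induction k with
    | zero =>
      intro i h e
      have := no i h
      rw [abs_le] at e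
      omega
    | succ k ih =>
      intro i hs e
      have := no i hs
      have h1 := hs.1
      have h2 := hs.2.1
      rw [abs_le] at e
      unfold In at io
      by_cases hb : ∃ b, In M N b ∧ (b.1 = i + h + 4 ∨ b.1 = i - 1) ∧ x b = !κ
      · exact ⟨i, hs, hb⟩
      have hb' : ∀ b, In M N b → i - 1 ≤ b.1 → b.1 ≤ i + h + 4 → x b = κ := by
        intro b ib a1 a2
        by_cases e : b.1 = i + h + 4 ∨ b.1 = i - 1
        · by_contra hc
          exact hb ⟨b, ib, e, bne hc⟩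
        · exact hs.2.2 b ib (by omega) (by omega)
      by_cases hlt : o.1 < i
      · exact ih (i - 1) ⟨by omega, by omega, fun v iv _ _ => hb' v iv (by omega) (by omega)⟩
          (by rw [abs_le]; omega)
      · exact ih (i + 1) ⟨by omega, by omega, fun v iv _ _ => hb' v iv (by omega) (by omega)⟩
          (by rw [abs_le]; omega)
  obtain ⟨i', ⟨h1, h2, h3⟩, b, h4, h5, h6⟩ := key (o.1 - i).natAbs i hκ (by simp)
  obtain ⟨i2, j, e⟩ : ∃ i2 j, (b.1 = i2 + 4 ∧ i2 = i' + h ∧ j = i') ∨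
      (b.1 = i2 - 1 ∧ i2 = i' ∧ j = i' + 4) := by
    rcases h5 with e | e
    · exact ⟨_, _, Or.inl ⟨e, rfl, rfl⟩⟩
    · exact ⟨_, _, Or.inr ⟨e, rfl, rfl⟩⟩
  have sl : Slab M N x i2 κ := fun v iv _ _ => h3 v iv (by omega) (by omega)
  obtain ⟨w, H⟩ := slab1 hx i2 L κ (by omega) hL sl b h4 (by omega) h6
  refine ⟨i2, by omega, by omega, sl, w, fun β => ?_⟩
  obtain ⟨y, y1, y2, y3⟩ := H β
  exact ⟨y, y1, y2, ⟨j, by omega, by omega, fun v iv _ _ =>
    (y2 v (by omega)).trans (h3 v iv (by omega) (by omega))⟩, y3⟩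

/-- a comb with free rows -/
lemma comb (hM : 4 ≤ M) (hN : 4 ≤ N) (β : P2 → Bool) : ∃ y, VZ M N y ∧
    ∀ v : P2, v.1 % 2 = 1 → v.1 + 1 < M → 1 ≤ v.2 → v.2 + 1 < N → y v = β v := by
  set c : P2 → Bool := fun v => if v.2 = 0 then true else if v.2 = N - 1 then false else
    if v.1 % 2 = 0 then decide (v.1 % 4 = 0) else if v.1 + 1 = M then decide (v.1 % 4 = 1)
    else β v with hc
  have cT : ∀ s t, (t = 0 ∨ (s % 4 = 0 ∧ t ≠ N - 1)) → c (s, t) = true := fun s t h => by
    simp only [hc]; split_ifs <;> first | rfl | omega | (simp; omega)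
  have cF : ∀ s t, (t = N - 1 ∨ (s % 4 = 2 ∧ t ≠ 0)) → c (s, t) = false := fun s t h => by
    simp only [hc]; split_ifs <;> first | rfl | omega | (simp; omega)
  have g1 : ∀ u : P2, In M N u → (u.2 = 0 ∨ (u.1 % 4 = 0 ∧ u.2 ≠ N - 1)) → Rch M N c u (0, 0) := by
    intro u iu h
    unfold In at iu
    refine ReflTransGen.trans (b := (u.1, 0)) ?_ (rect' (κ := true) 0 0 (M - 1) 0 (by omega)
      (fun s t _ _ _ _ => cT s t (by omega)) (by dsimp only; omega))
    exact rect' (κ := true) u.1 0 u.1 u.2 (by omega) (fun s t _ _ _ _ => cT s t (by omega))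
      (by dsimp only; omega)
  have g2 : ∀ u : P2, In M N u → (u.2 = N - 1 ∨ (u.1 % 4 = 2 ∧ u.2 ≠ 0)) →
      Rch M N c u (0, N - 1) := by
    intro u iu h
    unfold In at iu
    refine ReflTransGen.trans (b := (u.1, N - 1)) ?_ (rect' (κ := false) 0 (N - 1) (M - 1) (N - 1)
      (by omega) (fun s t _ _ _ _ => cF s t (by omega)) (by dsimp only; omega))
    exact rect' (κ := false) u.1 u.2 u.1 (N - 1) (by omega) (fun s t _ _ _ _ => cF s t (by omega))
      (by dsimp only; omega)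
  have k1 : ∀ u : P2, In M N u → c u = true → Rch M N c u (0, 0) := by
    intro u iu cu
    have iu' := iu
    unfold In at iu'
    by_cases h : u.2 = 0 ∨ (u.1 % 4 = 0 ∧ u.2 ≠ N - 1)
    · exact g1 u iu h
    have h2 : ¬ (u.2 = N - 1 ∨ (u.1 % 4 = 2 ∧ u.2 ≠ 0)) := fun e => by
      rw [cF u.1 u.2 e] at cu; simp at cu
    have h3 : u.1 + 1 = M → u.1 % 4 = 1 := fun e => by
      simp only [hc] at cu
      rw [if_neg (by omega), if_neg (by omega), if_neg (by omega), if_pos e] at cu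
      simpa using cu
    obtain ⟨s, hs⟩ : ∃ s, (s = u.1 + 1 ∨ s = u.1 - 1) ∧ s % 4 = 0 ∧ 0 ≤ s ∧ s < M := by
      by_cases e : u.1 % 4 = 1
      · exact ⟨u.1 - 1, by omega⟩
      · exact ⟨u.1 + 1, by omega⟩
    have i2 : In M N (s, u.2) := by unfold In; dsimp only; omega
    exact ReflTransGen.head ⟨iu, i2, by unfold Adj; dsimp only; omega,
      cu.trans (cT _ _ (by omega)).symm⟩ (g1 _ i2 (by dsimp only; omega))
  have k2 : ∀ u : P2, In M N u → c u = false → Rch M N c u (0, N - 1) := by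
    intro u iu cu
    have iu' := iu
    unfold In at iu'
    by_cases h : u.2 = N - 1 ∨ (u.1 % 4 = 2 ∧ u.2 ≠ 0)
    · exact g2 u iu h
    have h2 : ¬ (u.2 = 0 ∨ (u.1 % 4 = 0 ∧ u.2 ≠ N - 1)) := fun e => by
      rw [cT u.1 u.2 e] at cu; simp at cu
    have h3 : u.1 + 1 = M → u.1 % 4 ≠ 1 := fun e => by
      simp only [hc] at cu
      rw [if_neg (by omega), if_neg (by omega), if_neg (by omega), if_pos e] at cu
      simpa using cu
    obtain ⟨s, hs⟩ : ∃ s, (s = u.1 + 1 ∨ s = u.1 - 1) ∧ s % 4 = 2 ∧ 0 ≤ s ∧ s < M := by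
      by_cases e : u.1 % 4 = 1
      · exact ⟨u.1 + 1, by omega⟩
      · exact ⟨u.1 - 1, by omega⟩
    have i2 : In M N (s, u.2) := by unfold In; dsimp only; omega
    exact ReflTransGen.head ⟨iu, i2, by unfold Adj; dsimp only; omega,
      cu.trans (cF _ _ (by omega)).symm⟩ (g2 _ i2 (by dsimp only; omega))
  refine ⟨c, fun κ => ?_, fun v h1 h2 h3 h4 => ?_⟩
  · cases κ
    · exact ⟨⟨(0, N - 1), by unfold In; dsimp only; omega, cF _ _ (by omega)⟩,
        fun u v hu hv cu cv => (k2 u hu cu).trans (Rch.symm (k2 v hv cv))⟩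
    · exact ⟨⟨(0, 0), by unfold In; dsimp only; omega, cT _ _ (by omega)⟩,
        fun u v hu hv cu cv => (k1 u hu cu).trans (Rch.symm (k1 v hv cv))⟩
  · simp only [hc]
    rw [if_neg (by omega), if_neg (by omega), if_neg (by omega), if_neg (by omega)]

end Pool.Agent.Lib.MP_0350c1_lc
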