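import Pool.Agent.Lib.MP_0350c1_lc.Y1

namespace Pool.Agent.Lib.MP_0350c1_lc

open Relation

variable {M N : ℤ} {x : P2 → Bool}

lemma bc_of_false (hM : 1 ≤ M) (hN : 1 ≤ N) {c : P2 → Bool} (h : ∀ v, Bd M N v → c v = false) :
    BC M N c := by
  classical
  set d : P2 → Bool := fun v => decide (¬ Bd M N v) with hd
  have dF : ∀ s t, 0 ≤ s → s < M → 0 ≤ t → t < N → (s = 0 ∨ s = M - 1 ∨ t = 0 ∨ t = N - 1) →
      d (s, t) = false := fun s t _ _ _ _ _ => by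
    simp only [hd, decide_eq_false_iff_not, not_not]; unfold Bd In; dsimp only; omega
  have g : ∀ u, Bd M N u → Rch M N d u (0, 0) := by
    intro u hu
    unfold Bd In at hu
    have g1 : ∀ u : P2, u.1 = 0 → 0 ≤ u.2 → u.2 < N → Rch M N d u (0, 0) := fun u _ _ _ =>
      rect' (κ := false) 0 0 0 (N - 1) (by omega) (fun s t _ _ _ _ => dF s t (by omega) (by omega)
        (by omega) (by omega) (by omega)) (by dsimp only; omega)
    have g2 : ∀ u : P2, (u.2 = 0 ∨ u.2 = N - 1) → 0 ≤ u.1 → u.1 < M → Rch M N d u (0, 0) :=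
      fun u _ _ _ => (rect' (κ := false) 0 u.2 (M - 1) u.2 (by omega) (fun s t _ _ _ _ => dF s t
        (by omega) (by omega) (by omega) (by omega) (by omega)) (v := (0, u.2))
        (by dsimp only; omega)).trans (g1 _ rfl (by dsimp only; omega) (by dsimp only; omega))
    by_cases k : u.1 = 0
    · exact g1 u k (by omega) (by omega)
    by_cases k' : u.1 = M - 1
    · exact (rect' (κ := false) (M - 1) 0 (M - 1) (N - 1) (by omega) (fun s t _ _ _ _ => dF s t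
        (by omega) (by omega) (by omega) (by omega) (by omega)) (v := (M - 1, 0))
        (by dsimp only; omega)).trans (g2 _ (Or.inl rfl) (by dsimp only; omega)
          (by dsimp only; omega))
    · exact g2 u (by omega) (by omega) (by omega)
  intro b b' h1 h2 _ _
  have r := (g b h1).trans (Rch.symm (g b' h2))
  clear h2
  induction r with
  | refl => exact ReflTransGen.refl
  | @tail p q r s ih =>
    have e : d p = false := (Rch.col r).symm.trans (by simpa [hd] using h1)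
    have bp : Bd M N p := by simpa [hd] using e
    have bq : Bd M N q := by simpa [hd] using s.2.2.2.symm.trans e
    exact (ih (h p bp)).tail ⟨bp, bq, s.2.2.1, h p bp, h q bq⟩

lemma escape {y c : P2 → Bool} (hy : VZ M N y) (R : P2 → Prop) (hc : ∀ v, R v → c v = y v)
    (hout : ∀ κ, ∃ v, In M N v ∧ ¬ R v ∧ y v = κ) (a : P2) (ia : In M N a) (ra : R a) :
    ∃ p q, Rch M N c a p ∧ R p ∧ ¬ R q ∧ Adj p q := by
  obtain ⟨v, iv, nv, cv⟩ := hout (y a)
  obtain ⟨p, q, -, r, h1, h2, st⟩ := ((hy _).2 a v ia iv rfl cv).exit R ra nv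
  exact ⟨p, q, r c (fun w hw e => (hc w hw).trans e), h1, h2, st.2.2.1⟩

def Rect (N r0 r1 : ℤ) (v : P2) : Prop := r0 ≤ v.1 ∧ v.1 ≤ r1 ∧ 3 ≤ v.2 ∧ v.2 ≤ N - 4

def FrT (M N t : ℤ) (v : P2) : Prop :=
  (1 ≤ v.1 ∧ v.1 ≤ M - 2 ∧ 1 ≤ v.2 ∧ v.2 ≤ N - 2 ∧
    (v.1 = 1 ∨ v.1 = M - 2 ∨ v.2 = 1 ∨ v.2 = N - 2) ∧ ¬ (v.1 = 1 ∧ v.2 = 2)) ∨
  (v.1 = t + 1 ∧ 1 ≤ v.2 ∧ v.2 ≤ N - 4)

lemma glue_sq {t i j i' : ℤ} (ht : 3 ≤ t ∧ t + 6 ≤ M) (hN : 8 ≤ N) (hi : i' = i + 1 ∨ i = i' + 1)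
    (h1 : Rect N 3 (t - 1) (i, j) ∨ Rect N (t + 3) (M - 4) (i, j) ∨ FrT M N t (i, j))
    (h2 : Rect N 3 (t - 1) (i', j + 1) ∨ Rect N (t + 3) (M - 4) (i', j + 1) ∨ FrT M N t (i', j + 1))
    (h3 : Rect N 3 (t - 1) (i', j) ∨ Rect N (t + 3) (M - 4) (i', j) ∨ ¬ FrT M N t (i', j))
    (h4 : Rect N 3 (t - 1) (i, j + 1) ∨ Rect N (t + 3) (M - 4) (i, j + 1) ∨ ¬ FrT M N t (i, j + 1)) :
    (Rect N 3 (t - 1) (i, j) ∧ Rect N 3 (t - 1) (i', j + 1)) ∨
      (Rect N (t + 3) (M - 4) (i, j) ∧ Rect N (t + 3) (M - 4) (i', j + 1)) := by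
  unfold Rect FrT at *
  dsimp only at *
  rcases hi with rfl | rfl <;> rcases h1 with h1 | h1 | h1 | h1 <;>
    rcases h2 with h2 | h2 | h2 | h2 <;> omega

structure Gl (M N t : ℤ) (c : P2 → Bool) : Prop where
  ht : 3 ≤ t ∧ t + 6 ≤ M
  hN : 8 ≤ N
  cT : ∀ s u, FrT M N t (s, u) → c (s, u) = true
  cF : ∀ s u, ¬ Rect N 3 (t - 1) (s, u) → ¬ Rect N (t + 3) (M - 4) (s, u) → ¬ FrT M N t (s, u) →
    c (s, u) = false

lemma Gl.rF {t : ℤ} {c : P2 → Bool} (G : Gl M N t c) (p q p' q' : ℤ)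
    (h0 : 0 ≤ p ∧ p' < M ∧ 0 ≤ q ∧ q' < N)
    (h : ((p = 0 ∨ p = M - 1) ∧ p' = p) ∨ ((q = 0 ∨ q = N - 1) ∧ q' = q) ∨
      (q = 2 ∧ q' = 2 ∧ (p' ≤ t ∨ (t + 2 ≤ p ∧ p' ≤ M - 3))) ∨
      (q = N - 3 ∧ q' = q ∧ 2 ≤ p ∧ p' ≤ M - 3) ∨
      ((p = 2 ∨ p = t ∨ p = t + 2 ∨ p = M - 3) ∧ p' = p ∧ 2 ≤ q ∧ q' ≤ N - 3)) {u v : P2}
    (h1 : p ≤ u.1 ∧ u.1 ≤ p' ∧ q ≤ u.2 ∧ u.2 ≤ q' ∧ p ≤ v.1 ∧ v.1 ≤ p' ∧ q ≤ v.2 ∧ v.2 ≤ q') :
    Rch M N c u v := by
  have := G.ht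
  have := G.hN
  exact rect' (κ := false) p q p' q' h0 (fun s u _ _ _ _ => G.cF s u
    (by unfold Rect; dsimp only; omega) (by unfold Rect; dsimp only; omega)
    (by unfold FrT; dsimp only; omega)) h1

lemma Gl.reachF {t : ℤ} {c : P2 → Bool} (G : Gl M N t c) (u : P2) (iu : In M N u)
    (h1 : ¬ Rect N 3 (t - 1) u) (h2 : ¬ Rect N (t + 3) (M - 4) u) (h3 : ¬ FrT M N t u) :
    Rch M N c u (0, 0) := by
  have := G.ht
  have := G.hN
  have g1 : ∀ u : P2, u.1 = 0 → 0 ≤ u.2 → u.2 < N → Rch M N c u (0, 0) := fun u _ _ _ =>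
    G.rF 0 0 0 (N - 1) (by omega) (by omega) (by dsimp only; omega)
  have g2 : ∀ u : P2, (u.2 = 0 ∨ u.2 = N - 1) → 0 ≤ u.1 → u.1 < M → Rch M N c u (0, 0) :=
    fun u _ _ _ => (G.rF 0 u.2 (M - 1) u.2 (by omega) (by omega) (v := (0, u.2))
      (by dsimp only; omega)).trans (g1 _ rfl (by dsimp only; omega) (by dsimp only; omega))
  have g3 : ∀ u : P2, u.2 = 2 → 0 ≤ u.1 → u.1 ≤ t → Rch M N c u (0, 0) :=
    fun u _ _ _ => (G.rF 0 2 t 2 (by omega) (by omega) (v := (0, 2))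
      (by dsimp only; omega)).trans (g1 _ rfl (by dsimp only; omega) (by dsimp only; omega))
  have g4 : ∀ u : P2, u.1 = 2 → 2 ≤ u.2 → u.2 ≤ N - 3 → Rch M N c u (0, 0) :=
    fun u _ _ _ => (G.rF 2 2 2 (N - 3) (by omega) (by omega) (v := (2, 2))
      (by dsimp only; omega)).trans (g3 _ rfl (by dsimp only; omega) (by dsimp only; omega))
  have g5 : ∀ u : P2, u.2 = N - 3 → 2 ≤ u.1 → u.1 ≤ M - 3 → Rch M N c u (0, 0) :=
    fun u _ _ _ => (G.rF 2 (N - 3) (M - 3) (N - 3) (by omega) (by omega) (v := (2, N - 3))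
      (by dsimp only; omega)).trans (g4 _ rfl (by dsimp only; omega) (by dsimp only; omega))
  have g6 : ∀ u : P2, (u.1 = 2 ∨ u.1 = t ∨ u.1 = t + 2 ∨ u.1 = M - 3) → 2 ≤ u.2 → u.2 ≤ N - 3 →
      Rch M N c u (0, 0) :=
    fun u _ _ _ => (G.rF u.1 2 u.1 (N - 3) (by omega) (by omega) (v := (u.1, N - 3))
      (by dsimp only; omega)).trans (g5 _ rfl (by dsimp only; omega) (by dsimp only; omega))
  unfold In at iu
  unfold Rect at h1 h2
  unfold FrT at h3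
  by_cases k1 : u.1 = 0
  · exact g1 u k1 (by omega) (by omega)
  by_cases k2 : u.2 = 0 ∨ u.2 = N - 1
  · exact g2 u k2 (by omega) (by omega)
  by_cases k3 : u.1 = M - 1
  · exact (G.rF (M - 1) 0 (M - 1) (N - 1) (by omega) (by omega) (v := (M - 1, 0))
      (by dsimp only; omega)).trans (g2 _ (Or.inl rfl) (by dsimp only; omega) (by dsimp only; omega))
  by_cases k4 : u.2 = 2
  · by_cases k5 : u.1 ≤ t
    · exact g3 u k4 (by omega) k5
    · exact (G.rF (t + 2) 2 (M - 3) 2 (by omega) (by omega) (v := (t + 2, 2))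
        (by dsimp only; omega)).trans (g6 _ (by dsimp only; omega) (by dsimp only; omega)
          (by dsimp only; omega))
  by_cases k6 : u.2 = N - 3
  · exact g5 u k6 (by omega) (by omega)
  · exact g6 u (by omega) (by omega) (by omega)

lemma Gl.reachT {t : ℤ} {c : P2 → Bool} (G : Gl M N t c) (u : P2) (h : FrT M N t u) :
    Rch M N c u (M - 2, 1) := by
  have := G.ht
  have := G.hN
  have g1 : ∀ u : P2, u.1 = M - 2 → 1 ≤ u.2 → u.2 ≤ N - 2 → Rch M N c u (M - 2, 1) := fun u _ _ _ =>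
    rect' (κ := true) (M - 2) 1 (M - 2) (N - 2) (by omega)
      (fun s u _ _ _ _ => G.cT s u (by unfold FrT; dsimp only; omega)) (by dsimp only; omega)
  have g2 : ∀ u : P2, (u.2 = 1 ∨ u.2 = N - 2) → 1 ≤ u.1 → u.1 ≤ M - 2 → Rch M N c u (M - 2, 1) :=
    fun u _ _ _ => (rect' (κ := true) 1 u.2 (M - 2) u.2 (by omega)
      (fun s u _ _ _ _ => G.cT s u (by unfold FrT; dsimp only; omega)) (v := (M - 2, u.2))
      (by dsimp only; omega)).trans (g1 _ rfl (by dsimp only; omega) (by dsimp only; omega))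
  unfold FrT at h
  by_cases k1 : u.1 = M - 2
  · exact g1 u k1 (by omega) (by omega)
  by_cases k2 : u.2 = 1 ∨ u.2 = N - 2
  · exact g2 u k2 (by omega) (by omega)
  by_cases k3 : u.1 = 1
  · exact (rect' (κ := true) 1 3 1 (N - 2) (by omega)
      (fun s u _ _ _ _ => G.cT s u (by unfold FrT; dsimp only; omega)) (v := (1, N - 2))
      (by dsimp only; omega)).trans (g2 _ (Or.inr rfl) (by dsimp only; omega) (by dsimp only; omega))
  · exact (rect' (κ := true) (t + 1) 1 (t + 1) (N - 4) (by omega)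
      (fun s u _ _ _ _ => G.cT s u (by unfold FrT; dsimp only; omega)) (v := (t + 1, 1))
      (by dsimp only; omega)).trans (g2 _ (Or.inl rfl) (by dsimp only; omega) (by dsimp only; omega))

lemma glue_out {t r0 r1 : ℤ} (ht : 3 ≤ t ∧ t + 6 ≤ M) (hN : 8 ≤ N)
    (hr : (r0 = 3 ∧ r1 = t - 1) ∨ (r0 = t + 3 ∧ r1 = M - 4)) {p q w : P2} (hp : Rect N r0 r1 p)
    (hq : ¬ Rect N r0 r1 q) (hA : Adj p q)
    (hw : w = q ∨ (Adj q w ∧ (p.1 = q.1 ↔ w.1 ≠ q.1))) :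
    In M N w ∧ ¬ Rect N 3 (t - 1) w ∧ ¬ Rect N (t + 3) (M - 4) w ∧ ¬ FrT M N t w := by
  unfold Rect FrT In Adj at *
  rw [Prod.ext_iff] at hw
  rcases hr with ⟨rfl, rfl⟩ | ⟨rfl, rfl⟩ <;> rcases hA with ⟨h | h, h'⟩ | ⟨h | h, h'⟩ <;>
    refine ⟨?_, ?_, ?_, ?_⟩ <;> omega

lemma Gl.link {t r0 r1 : ℤ} {c : P2 → Bool} (G : Gl M N t c)
    (hr : (r0 = 3 ∧ r1 = t - 1) ∨ (r0 = t + 3 ∧ r1 = M - 4)) {a p q : P2} (r : Rch M N c a p)
    (hp : Rect N r0 r1 p) (hq : ¬ Rect N r0 r1 q) (hA : Adj p q) :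
    ∃ l n s x e, (¬ Rect N 3 (t - 1) l ∧ ¬ Rect N (t + 3) (M - 4) l) ∧
      Link M N c (M - 2, 1) a l n s x e := by
  have ht := G.ht
  have hN := G.hN
  obtain ⟨w, w1, w2⟩ : ∃ w : P2, Adj q w ∧ (p.1 = q.1 ↔ w.1 ≠ q.1) := by
    by_cases e : p.1 = q.1
    · exact ⟨(q.1 + 1, q.2), by unfold Adj; simp, by simp [e]⟩
    · exact ⟨(q.1, q.2 + 1), by unfold Adj; simp, by simp [e]⟩
  obtain ⟨ae, -, p1, -, -⟩ := opp_facts hA.symm w1 w2 rfl rfl
  have k : ∀ w, (w = q ∨ (Adj q w ∧ (p.1 = q.1 ↔ w.1 ≠ q.1))) → c w = false := fun w hw => by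
    obtain ⟨-, a1, a2, a3⟩ := glue_out ht hN hr hp hq hA hw
    exact G.cF w.1 w.2 a1 a2 a3
  obtain ⟨-, a1, a2, -⟩ := glue_out ht hN hr hp hq hA (Or.inl rfl)
  refine ⟨q, p, _, w, _, ⟨a1, a2⟩, ?_, hA.symm, w1, w2, rfl, rfl, k _ (Or.inl rfl),
    k _ (Or.inr ⟨w1, w2⟩), k _ (Or.inr ⟨ae, p1⟩), r, G.reachT _ ?_⟩
  · unfold Rect Adj at *; omega
  · clear k a1 a2 ae p1 w1 w2
    unfold Rect Adj FrT at *; dsimp only; omega

theorem glue (hx : VZ M N x) (t : ℤ) (ht : 3 ≤ t ∧ t + 6 ≤ M) (hN : 8 ≤ N)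
    (hT : ∀ κ, ∃ v, In M N v ∧ v.1 ≤ 4 ∧ x v = κ)
    (hB : ∀ κ, ∃ v, In M N v ∧ M - 5 ≤ v.1 ∧ x v = κ) :
    ∃ z, VZ M N z ∧ (∀ v, Rect N 3 (t - 1) v → z v = x v) ∧
      ∀ v, Rect N (t + 3) (M - 4) v → z v = !(x v) := by
  classical
  set c : P2 → Bool := fun v => if Rect N 3 (t - 1) v then x v else
    if Rect N (t + 3) (M - 4) v then !(x v) else decide (FrT M N t v) with hc
  have c1 : ∀ v, Rect N 3 (t - 1) v → c v = x v := fun v h => by simp only [hc, h, if_true]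
  have c2 : ∀ v, Rect N (t + 3) (M - 4) v → c v = !(x v) := fun v h => by
    simp only [hc, h, if_true]; rw [if_neg (by unfold Rect at *; omega)]
  have c3 : ∀ v, ¬ Rect N 3 (t - 1) v → ¬ Rect N (t + 3) (M - 4) v →
      c v = decide (FrT M N t v) := fun v h h' => by simp only [hc, h, h', if_false]
  have G : Gl M N t c := ⟨ht, hN, fun s u h => by
    rw [c3 _ (by unfold Rect FrT at *; dsimp only at *; omega)
      (by unfold Rect FrT at *; dsimp only at *; omega), decide_eq_true h],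
    fun s u h1 h2 h3 => by rw [c3 _ h1 h2, decide_eq_false h3]⟩
  have tri : ∀ v κ, c v = κ → Rect N 3 (t - 1) v ∨ Rect N (t + 3) (M - 4) v ∨
      (decide (FrT M N t v) = κ) := fun v κ h => by
    by_contra k
    push Not at k
    exact k.2.2 ((c3 v k.1 k.2.1).symm.trans h)
  have esc : ∀ a, In M N a → (Rect N 3 (t - 1) a ∨ Rect N (t + 3) (M - 4) a) → ∃ r0 r1 p q,
      ((r0 = 3 ∧ r1 = t - 1) ∨ (r0 = t + 3 ∧ r1 = M - 4)) ∧ Rch M N c a p ∧ Rect N r0 r1 p ∧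
      ¬ Rect N r0 r1 q ∧ Adj p q := by
    rintro a ia (h | h)
    · obtain ⟨p, q, k⟩ := escape hx _ c1 (fun κ => by
        obtain ⟨v, h1, h2, h3⟩ := hB κ
        exact ⟨v, h1, by unfold Rect; omega, h3⟩) a ia h
      exact ⟨_, _, p, q, Or.inl ⟨rfl, rfl⟩, k⟩
    · obtain ⟨p, q, k⟩ := escape hx.not _ c2 (fun κ => by
        obtain ⟨v, h1, h2, h3⟩ := hT (!κ)
        exact ⟨v, h1, by unfold Rect; omega, by simp [h3]⟩) a ia h
      exact ⟨_, _, p, q, Or.inr ⟨rfl, rfl⟩, k⟩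
  have hnc : NC M N c := by
    intro i j h1 h2 e1 e2
    by_contra hne
    have key : (Rect N 3 (t - 1) (i, j) ∧ Rect N 3 (t - 1) (i + 1, j + 1)) ∨
        (Rect N (t + 3) (M - 4) (i, j) ∧ Rect N (t + 3) (M - 4) (i + 1, j + 1)) := by
      by_cases k : c (i, j) = true
      · have k' : c (i + 1, j) = false := by rw [k] at hne; simpa using hne
        exact glue_sq ht hN (Or.inl rfl) (by simpa using tri _ _ k) (by simpa using tri _ _ (e1.symm.trans k))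
          (by simpa using tri _ _ k') (by simpa using tri _ _ (e2.symm.trans k'))
      · have k0 : c (i, j) = false := by simpa using k
        have k' : c (i + 1, j) = true := by rw [k0] at hne; simpa using hne
        have := glue_sq (i := i + 1) (i' := i) ht hN (Or.inr rfl) (by simpa using tri _ _ k')
          (by simpa using tri _ _ (e2.symm.trans k')) (by simpa using tri _ _ k0)
          (by simpa using tri _ _ (e1.symm.trans k0))
        unfold Rect at *; dsimp only at *; omega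
    rcases key with ⟨a1, a2⟩ | ⟨a1, a2⟩
    · have a3 : Rect N 3 (t - 1) (i + 1, j) := by unfold Rect at *; dsimp only at *; omega
      have a4 : Rect N 3 (t - 1) (i, j + 1) := by unfold Rect at *; dsimp only at *; omega
      rw [c1 _ a1, c1 _ a2] at e1
      rw [c1 _ a3, c1 _ a4] at e2
      exact hne (by rw [c1 _ a1, c1 _ a3]; exact hx.nc i j h1 h2 e1 e2)
    · have a3 : Rect N (t + 3) (M - 4) (i + 1, j) := by unfold Rect at *; dsimp only at *; omega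
      have a4 : Rect N (t + 3) (M - 4) (i, j + 1) := by unfold Rect at *; dsimp only at *; omega
      rw [c2 _ a1, c2 _ a2] at e1
      rw [c2 _ a3, c2 _ a4] at e2
      exact hne (by rw [c2 _ a1, c2 _ a3]; exact hx.not.nc i j h1 h2 e1 e2)
  have kF : ∀ a, In M N a → c a = false → Rch M N c a (0, 0) := by
    intro a ia ca
    by_cases h : Rect N 3 (t - 1) a ∨ Rect N (t + 3) (M - 4) a
    · obtain ⟨r0, r1, p, q, hr, r, hp, hq, hA⟩ := esc a ia h
      obtain ⟨a0, a1, a2, a3⟩ := glue_out ht hN hr hp hq hA (Or.inl rfl)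
      exact (r.tail ⟨Rch.mem r ia, a0, hA, ((Rch.col r).symm.trans ca).trans
        (G.cF q.1 q.2 a1 a2 a3).symm⟩).trans (G.reachF q a0 a1 a2 a3)
    · push Not at h
      exact G.reachF a ia h.1 h.2 (by simpa [h.1, h.2] using tri a _ ca)
  have co : c (M - 2, 1) = true := G.cT _ _ (by unfold FrT; dsimp only; omega)
  obtain ⟨z, r1, r2, r3, r4⟩ := link_all
    (fun l => ¬ Rect N 3 (t - 1) l ∧ ¬ Rect N (t + 3) (M - 4) l ∧ l ≠ (0, 0)) (M - 2, 1) _ c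
    (le_refl _) hnc (fun u v hu hv cu cv => (kF u hu cu).trans (Rch.symm (kF v hv cv)))
    (bc_of_false (by omega) (by omega) (fun v hv => G.cF v.1 v.2
      (by unfold Bd In Rect at *; dsimp only; omega) (by unfold Bd In Rect at *; dsimp only; omega)
      (by unfold Bd In FrT at *; dsimp only; omega))) co (fun a ia ca na => by
      by_cases h : Rect N 3 (t - 1) a ∨ Rect N (t + 3) (M - 4) a
      · obtain ⟨r0, r1, p, q, hr, r, hp, hq, hA⟩ := esc a ia h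
        obtain ⟨l, n, s, x', e, h1, L⟩ := G.link hr r hp hq hA
        exact ⟨l, n, s, x', e, ⟨h1.1, h1.2, fun e => by have := L.hl; rw [e] at this; simp at this⟩,
          L⟩
      · push Not at h
        exact absurd (G.reachT a (by simpa [h.1, h.2] using tri a _ ca)) na)
  refine ⟨z, fun κ => ?_, fun v hv => (r3 v (fun h => h.1 hv)).trans (c1 v hv),
    fun v hv => (r3 v (fun h => h.2.1 hv)).trans (c2 v hv)⟩
  cases κ
  · exact ⟨⟨(0, 0), by unfold In; dsimp only; omega, (r3 _ (fun h => h.2.2 rfl)).trans (G.cF _ _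
      (by unfold Rect; dsimp only; omega) (by unfold Rect; dsimp only; omega)
      (by unfold FrT; dsimp only; omega))⟩, r1⟩
  · exact ⟨⟨_, by unfold In; dsimp only; omega, r4 _ co⟩,
      fun u v hu hv cu cv => (r2 u hu cu).trans (Rch.symm (r2 v hv cv))⟩

end Pool.Agent.Lib.MP_0350c1_lc
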