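import Pool.Agent.Lib.MP_0350c1_lc.Y2

namespace Pool.Agent.Lib.MP_0350c1_lc

open Finset

/-- filtering with the classical decision procedure -/
noncomputable def flt {α : Type} (Ω : Finset α) (P : α → Prop) : Finset α :=
  @Finset.filter α P (fun _ => Classical.propDecidable _) Ω

@[simp] lemma mem_flt {α : Type} {Ω : Finset α} {P : α → Prop} {x : α} :
    x ∈ flt Ω P ↔ x ∈ Ω ∧ P x := @mem_filter α P (fun _ => Classical.propDecidable _) Ω x

lemma flt_sub {α : Type} (Ω : Finset α) (P : α → Prop) : flt Ω P ⊆ Ω :=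
  fun _ h => (mem_flt.1 h).1

lemma flt_eq {α : Type} (Ω : Finset α) (P : α → Prop) [DecidablePred P] : flt Ω P = Ω.filter P := by
  ext x; simp

lemma cnt_flt {α : Type} (Ω : Finset α) (R : α → α → Prop) :
    cnt Ω R = ∑ x ∈ Ω, (flt Ω (fun y => R x y)).card := cnt_eq Ω R

open Classical in
lemma prod_decay {α κ : Type} (Ω : Finset α) (θ : ℕ) (Mo : κ → α → Prop) (E : κ → α → α → Prop)
    (Z : Finset κ) (hinv : ∀ j ∈ Z, ∀ k ∈ Z, j ≠ k → ∀ x y, E j x y → Mo k x → Mo k y)
    (step : ∀ j ∈ Z, ∀ Φ : α → Prop, (∀ x y, E j x y → Φ x → Φ y) →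
      (flt Ω (fun x => Mo j x ∧ Φ x)).card * θ ≤ (flt Ω Φ).card) :
    (flt Ω (fun x => ∀ j ∈ Z, Mo j x)).card * θ ^ Z.card ≤ Ω.card := by
  induction Z using Finset.induction_on with
  | empty => simpa using card_le_card (flt_sub _ _)
  | insert j Z hj ih =>
    have ih' := ih (fun a ha b hb => hinv a (by simp [ha]) b (by simp [hb]))
      (fun a ha => step a (by simp [ha]))
    have h1 := step j (by simp) (fun x => ∀ k ∈ Z, Mo k x) (fun x y e h k hk =>
      hinv j (by simp) k (by simp [hk]) (fun e => hj (e ▸ hk)) x y e (h k hk))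
    rw [card_insert_of_notMem hj, pow_succ', ← mul_assoc]
    refine le_trans (Nat.mul_le_mul_right _ (le_trans (Nat.mul_le_mul_right _ (card_le_card ?_))
      (h1.trans (card_le_card ?_)))) ih'
    · intro x hx; simpa using hx
    · intro x hx; simpa using hx

open Classical in
lemma many_decay {α κ : Type} (Ω : Finset α) (θ : ℕ) (Mo : κ → α → Prop) (E : κ → α → α → Prop)
    (Z : Finset κ) (hinv : ∀ j ∈ Z, ∀ k ∈ Z, j ≠ k → ∀ x y, E j x y → Mo k x → Mo k y)
    (step : ∀ j ∈ Z, ∀ Φ : α → Prop, (∀ x y, E j x y → Φ x → Φ y) →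
      (flt Ω (fun x => Mo j x ∧ Φ x)).card * θ ≤ (flt Ω Φ).card) (g : ℕ) :
    (flt Ω (fun x => g ≤ (flt Z (fun j => Mo j x)).card)).card * θ ^ g ≤
      2 ^ Z.card * Ω.card := by
  have h1 : flt Ω (fun x => g ≤ (flt Z (fun j => Mo j x)).card) ⊆
      (powersetCard g Z).biUnion (fun S => flt Ω (fun x => ∀ j ∈ S, Mo j x)) := by
    intro x hx
    obtain ⟨S, hS, hc⟩ := exists_subset_card_eq (mem_flt.1 hx).2
    exact mem_biUnion.2 ⟨S, mem_powersetCard.2 ⟨hS.trans (flt_sub _ _), hc⟩,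
      mem_flt.2 ⟨(mem_flt.1 hx).1, fun j hj => (mem_flt.1 (hS hj)).2⟩⟩
  refine (Nat.mul_le_mul_right _ ((card_le_card h1).trans card_biUnion_le)).trans ?_
  rw [sum_mul]
  refine (sum_le_card_nsmul _ _ Ω.card (fun S hS => ?_)).trans ?_
  · obtain ⟨h2, h3⟩ := mem_powersetCard.1 hS
    have := prod_decay Ω θ Mo E S (fun a ha b hb => hinv a (h2 ha) b (h2 hb))
      (fun a ha => step a (h2 ha))
    rw [h3] at this
    refine le_trans (Nat.mul_le_mul_right _ (card_le_card ?_)) this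
    intro x hx; simpa using hx
  · rw [smul_eq_mul, ← card_powerset]
    exact Nat.mul_le_mul_right _ (card_le_card (fun S hS => mem_powerset.2
      (mem_powersetCard.1 hS).1))

lemma ladder (a : ℕ → ℕ) (s : ℕ) (h : ∀ i < 2 * s, a i * 2 ≤ a (i + 1)) :
    (∑ i ∈ range s, a i) * 2 ^ s ≤ a (2 * s) := by
  have h1 : ∀ t ≤ s, ∑ i ∈ range t, a i ≤ a t := by
    intro t ht
    induction t with
    | zero => simp
    | succ t ih =>
      have := ih (by omega)
      have := h t (by omega)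
      rw [sum_range_succ]; omega
  have h2 : ∀ t ≤ s, a s * 2 ^ t ≤ a (s + t) := by
    intro t ht
    induction t with
    | zero => simp
    | succ t ih =>
      have := ih (by omega)
      have := h (s + t) (by omega)
      rw [pow_succ, ← mul_assoc, ← add_assoc]; omega
  rw [two_mul]
  exact (Nat.mul_le_mul_right _ (h1 s le_rfl)).trans (h2 s le_rfl)

open Classical in
lemma dbl_count {α κ : Type} (X Y : Finset α) (T : Finset κ) (A B : κ → α → Prop) (C a b : ℕ)
    (h : ∀ τ ∈ T, (flt X (A τ)).card ≤ (flt Y (B τ)).card * C)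
    (ha : ∀ x ∈ X, a ≤ (flt T (fun τ => A τ x)).card)
    (hb : ∀ y ∈ Y, (flt T (fun τ => B τ y)).card ≤ b) : X.card * a ≤ Y.card * b * C := by
  have h1 := card_nsmul_le_sum _ _ _ ha
  have h2 := sum_le_card_nsmul _ _ _ hb
  have h3 := sum_le_sum h
  rw [← sum_mul] at h3
  simp only [flt_eq, card_filter] at h1 h2 h3
  rw [sum_comm] at h1 h2
  exact h1.trans (h3.trans (Nat.mul_le_mul_right _ h2))

open Classical in
lemma fe_w {α : Type} (Ω : Finset α) (C : ℕ) (N P : α → Prop) (E : α → α → Prop)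
    (fe : ∀ Φ : α → Prop, (∀ x y, E x y → Φ x → Φ y) →
      (flt Ω (fun x => N x ∧ Φ x)).card ≤ (flt Ω (fun x => P x ∧ Φ x)).card * C)
    (w : α → ℝ) (w0 : ∀ x, 0 ≤ w x) (hw : ∀ x y, E x y → w x = w y) :
    ∑ x ∈ flt Ω N, w x ≤ C * ∑ x ∈ flt Ω P, w x := by
  have key : ∀ Q : α → Prop, ∑ x ∈ flt Ω Q, w x =
      ∑ c ∈ Ω.image w, ((flt Ω (fun x => Q x ∧ w x = c)).card : ℝ) * c := by
    intro Q
    rw [← sum_fiberwise_of_maps_to (g := w) (t := Ω.image w)
      (fun x hx => mem_image_of_mem _ (mem_flt.1 hx).1)]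
    refine sum_congr rfl (fun c _ => ?_)
    rw [sum_congr rfl (g := fun _ => c) (fun x hx => (mem_filter.1 hx).2), sum_const, nsmul_eq_mul]
    congr 3
    ext x; simp [and_assoc]
  rw [key, key, mul_sum]
  refine sum_le_sum (fun c hc => ?_)
  obtain ⟨x, -, rfl⟩ := mem_image.1 hc
  have := (Nat.cast_le (α := ℝ)).2 (fe (fun y => w y = w x) (fun a b e h => (hw a b e).symm.trans h))
  push_cast at this
  rw [← mul_assoc]
  exact mul_le_mul_of_nonneg_right (this.trans (le_of_eq (mul_comm _ _))) (w0 x)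

open Classical in
lemma pair_avoid2 {α κ : Type} (Ω : Finset α) (C : ℕ) (θ : ℝ) (h1 : 1 ≤ θ) (h2 : θ ≤ 2)
    (h3 : (θ - 1) * C ^ 2 ≤ θ) (N P P' : κ → α → Prop) (G : α → Prop)
    (E : κ → α → α → Prop) (Z : Finset κ)
    (hinv : ∀ j ∈ Z, ∀ k ∈ Z, j ≠ k → ∀ x y, E j x y →
      (N k x ↔ N k y) ∧ (P k x ↔ P k y) ∧ (P' k x ↔ P' k y))
    (hP : ∀ j ∈ Z, ∀ x, P j x → N j x) (hP' : ∀ j ∈ Z, ∀ x, P' j x → N j x)
    (fe : ∀ j ∈ Z, ∀ Φ : α → Prop, (∀ x y, E j x y → Φ x → Φ y) →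
      (flt Ω (fun x => (N j x ∧ G x) ∧ Φ x)).card ≤ (flt Ω (fun x => P j x ∧ Φ x)).card * C)
    (fe' : ∀ j ∈ Z, ∀ Φ : α → Prop, (∀ x y, E j x y → Φ x → Φ y) →
      (flt Ω (fun x => (N j x ∧ G x) ∧ Φ x)).card ≤ (flt Ω (fun x => P' j x ∧ Φ x)).card * C)
    (K : ℕ) :
    (cnt Ω (fun x y => (∀ j ∈ Z, ¬ (P j x ∧ P' j y)) ∧
      K ≤ (flt Z (fun j => N j x ∧ N j y)).card) : ℝ) * θ ^ K ≤
      (Ω.card : ℝ) ^ 2 + Z.card * 2 ^ Z.card * (2 * (flt Ω (fun x => ¬ G x)).card * Ω.card) := by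
  set f : κ → α → α → ℝ := fun j x y =>
    if N j x ∧ N j y then (if P j x ∧ P' j y then 0 else θ) else 1 with hf
  have f0 : ∀ j x y, 0 ≤ f j x y := fun j x y => by simp only [hf]; split_ifs <;> linarith
  have f2 : ∀ j x y, f j x y ≤ 2 := fun j x y => by simp only [hf]; split_ifs <;> linarith
  set e : ℝ := 2 * (flt Ω (fun x => ¬ G x)).card * Ω.card with he
  have e0 : 0 ≤ e := by positivity
  have key : ∀ J ⊆ Z, ∑ x ∈ Ω, ∑ y ∈ Ω, ∏ j ∈ J, f j x y ≤
      (Ω.card : ℝ) ^ 2 + J.card * 2 ^ J.card * e := by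
    intro J hJ
    induction J using Finset.induction_on with
    | empty => simp [sq]
    | insert j J hj ih =>
      have ih' := ih ((subset_insert _ _).trans hJ)
      have jZ : j ∈ Z := hJ (mem_insert_self _ _)
      set W : α → α → ℝ := fun x y => ∏ k ∈ J, f k x y with hW
      have W0 : ∀ x y, 0 ≤ W x y := fun x y => prod_nonneg (fun k _ => f0 k x y)
      have W2 : ∀ x y, W x y ≤ 2 ^ J.card := fun x y => by
        rw [← prod_const]; exact prod_le_prod (fun k _ => f0 k x y) (fun k _ => f2 k x y)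
      have hi : ∀ k ∈ J, ∀ x y, E j x y →
          (N k x ↔ N k y) ∧ (P k x ↔ P k y) ∧ (P' k x ↔ P' k y) :=
        fun k hk => hinv j jZ k (hJ (mem_insert_of_mem hk)) (fun e => hj (e ▸ hk))
      have a1 : ∑ x ∈ flt Ω (fun x => N j x ∧ G x), ∑ y ∈ flt Ω (fun x => N j x ∧ G x), W x y ≤
          C ^ 2 * ∑ x ∈ flt Ω (P j), ∑ y ∈ flt Ω (P' j), W x y := by
        refine (sum_le_sum (fun x _ => fe_w Ω C (fun x => N j x ∧ G x) (P' j) (E j) (fe' j jZ) (W x) (W0 x)
          (fun y y' h => prod_congr rfl (fun k hk => by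
            simp only [hf, (hi k hk _ _ h).1, (hi k hk _ _ h).2.2])))).trans ?_
        rw [← mul_sum, sq, mul_assoc]
        refine mul_le_mul_of_nonneg_left (fe_w Ω C (fun x => N j x ∧ G x) (P j) (E j) (fe j jZ) _
          (fun x => sum_nonneg (fun y _ => W0 x y)) (fun x x' h => sum_congr rfl (fun y _ =>
            prod_congr rfl (fun k hk => by
              simp only [hf, (hi k hk _ _ h).1, (hi k hk _ _ h).2.1])))) (by positivity)
      have a2 : ∀ x y, f j x y * W x y ≤ W x y +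
          (θ - 1) * (if N j x ∧ G x then (if N j y ∧ G y then W x y else 0) else 0) -
          θ * (if P j x then (if P' j y then W x y else 0) else 0) +
          2 ^ J.card * ((if ¬ G x then 1 else 0) + if ¬ G y then 1 else 0) := by
        intro x y
        have b0 := W0 x y
        have b2 := W2 x y
        have b3 := hP j jZ x
        have b4 := hP' j jZ y
        have b5 : (θ - 1) * W x y ≤ 2 ^ J.card := by nlinarith
        have b6 : 0 ≤ (θ - 1) * W x y := by nlinarith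
        simp only [hf]
        by_cases p1 : P j x <;> by_cases p2 : P' j y <;> by_cases n1 : N j x <;>
          by_cases n2 : N j y <;> by_cases g1 : G x <;> by_cases g2 : G y <;>
          simp [p1, p2, n1, n2, g1, g2] at b3 b4 ⊢ <;> linarith
      have a3 := sum_le_sum (s := Ω) (fun x _ => sum_le_sum (s := Ω) (fun y _ => a2 x y))
      simp only [sum_add_distrib, sum_sub_distrib, ← mul_sum] at a3
      have a4 : ∀ (p q : α → Prop) [DecidablePred p] [DecidablePred q],
          ∑ x ∈ Ω, ∑ y ∈ Ω, (if p x then (if q y then W x y else 0) else 0)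
          = ∑ x ∈ flt Ω p, ∑ y ∈ flt Ω q, W x y := fun p q _ _ => by
        simp only [flt_eq, sum_filter]
        exact sum_congr rfl (fun x _ => by split_ifs <;> simp)
      have a5 : ∑ x ∈ Ω, ∑ _y ∈ Ω, (if ¬ G x then (1 : ℝ) else 0) +
          ∑ _x ∈ Ω, ∑ y ∈ Ω, (if ¬ G y then (1 : ℝ) else 0) = e := by
        rw [sum_comm]
        simp only [sum_boole, sum_const, nsmul_eq_mul, he, flt_eq]; ring
      have a6 := a4 (fun x => N j x ∧ G x) (fun x => N j x ∧ G x)
      have a7 := a4 (P j) (P' j)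
      have a8 : 0 ≤ ∑ x ∈ flt Ω (P j), ∑ y ∈ flt Ω (P' j), W x y :=
        sum_nonneg (fun x _ => sum_nonneg (fun y _ => W0 x y))
      simp only [prod_insert hj]
      rw [card_insert_of_notMem hj]
      refine a3.trans ?_
      rw [a5]
      have a9 : (θ - 1) * ∑ x ∈ Ω, ∑ y ∈ Ω, (if N j x ∧ G x then
          (if N j y ∧ G y then W x y else 0) else 0) ≤ θ * ∑ x ∈ Ω, ∑ y ∈ Ω,
          (if P j x then (if P' j y then W x y else 0) else 0) := by
        rw [a6, a7]
        refine (mul_le_mul_of_nonneg_left a1 (sub_nonneg.2 h1)).trans ?_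
        rw [← mul_assoc]; exact mul_le_mul_of_nonneg_right h3 a8
      have : (0 : ℝ) ≤ (J.card + 1) * 2 ^ J.card * e := by positivity
      push_cast
      rw [pow_succ (2 : ℝ)]
      linarith
  refine le_trans ?_ (key Z (Subset.refl _))
  rw [cnt_flt]
  push_cast
  rw [sum_mul]
  refine sum_le_sum (fun x _ => ?_)
  rw [← nsmul_eq_mul, ← sum_const]
  refine le_trans (sum_le_sum (fun y hy => ?_)) (sum_le_sum_of_subset_of_nonneg (flt_sub _ _)
    (fun y _ _ => prod_nonneg (fun k _ => f0 k x y)))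
  obtain ⟨b1, b2⟩ := (mem_flt.1 hy).2
  have : ∏ j ∈ Z, f j x y = θ ^ (flt Z (fun j => N j x ∧ N j y)).card := by
    rw [← prod_const, flt_eq, prod_filter]
    exact prod_congr rfl (fun j hj => by simp only [hf, b1 j hj, if_false])
  rw [this]
  exact pow_le_pow_right₀ h1 b2

end Pool.Agent.Lib.MP_0350c1_lc
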