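import Pool.Agent.Lib.MP_0350c1_lc.Y3

namespace Pool.Agent.Lib.MP_0350c1_lc

open Finset

variable {m n : ℕ}

abbrev Lab (m n : ℕ) := Fin m × Fin n → Bool

/-- all valid colourings -/
noncomputable def OM (m n : ℕ) : Finset (Lab m n) := Om m n (fun _ => True)

lemma mem_OM {x : Lab m n} : x ∈ OM m n ↔ VZ m n (ext x) := by simp [OM, mem_Om]

lemma om_flt (P : Lab m n → Prop) : Om m n P = flt (OM m n) P := by
  ext x; simp [mem_OM, mem_Om]

lemma count_local {V : Type} [DecidableEq V] (S T : Finset (V → Bool)) (B : Finset V)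
    (h : ∀ x ∈ S, ∃ y ∈ T, ∀ v ∉ B, y v = x v) : S.card ≤ T.card * 2 ^ B.card := by
  have := count_bits S T 0 B.powerset (fun d y v => if v ∈ B then decide (v ∈ d) else y v)
    (fun x hx => ?_)
  · rwa [pow_zero, mul_one, card_powerset] at this
  obtain ⟨y, hy, e⟩ := h x hx
  refine ⟨B.filter (fun v => x v = true), by simp, fun _ _ => false, fun β =>
    ⟨y, hy, funext fun v => ?_, by simp⟩⟩
  by_cases hv : v ∈ B
  · simp [hv]
  · simp only [hv, if_false]; exact e v hv

/-- cells in a rectangle -/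
noncomputable def cells (m n : ℕ) (p q : ℤ) (a b : ℕ) : Finset (Fin m × Fin n) :=
  flt univ (fun v => p ≤ (emb v).1 ∧ (emb v).1 < p + a ∧ q ≤ (emb v).2 ∧ (emb v).2 < q + b)

lemma mem_cells {p q : ℤ} {a b : ℕ} {v : Fin m × Fin n} : v ∈ cells m n p q a b ↔
    p ≤ (emb v).1 ∧ (emb v).1 < p + a ∧ q ≤ (emb v).2 ∧ (emb v).2 < q + b := by simp [cells]

lemma cells_card (p q : ℤ) (a b : ℕ) : (cells m n p q a b).card ≤ a * b := by
  have : (cells m n p q a b).card ≤ (range a ×ˢ range b).card := by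
    refine card_le_card_of_injOn (fun v => (((emb v).1 - p).toNat, ((emb v).2 - q).toNat))
      (fun v hv => ?_) (fun u hu v hv e => ?_)
    · have hv := mem_cells.1 hv
      simp only [coe_product, coe_range, Set.mem_prod, Set.mem_Iio]
      omega
    · have hv := mem_cells.1 hv
      have hu := mem_cells.1 hu
      simp only [Prod.mk.injEq] at e
      exact emb_inj (Prod.ext (by omega) (by omega))
  simpa using this

def Cen (m n : ℕ) (z : P2) : Prop := 6 ≤ z.1 ∧ z.1 + 7 < m ∧ 6 ≤ z.2 ∧ z.2 + 7 < n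

def PatZ (z : P2) (γ : ℤ) (x : Lab m n) : Prop := Pat (z.1 - 6) (z.2 - 6) γ (ext x)

def EB (z : P2) (x y : Lab m n) : Prop := ∀ v ∉ cells m n (z.1 - 5) (z.2 - 5) 12 12, y v = x v

lemma ext_agree {x y : Lab m n} {B : Finset (Fin m × Fin n)} (h : ∀ v ∉ B, y v = x v) (p : P2)
    (hp : ∀ v ∈ B, emb v ≠ p) : ext y p = ext x p := by
  unfold ext
  split_ifs with k
  · exact h _ (fun hv => hp _ hv (emb_cell p k))
  · rfl

lemma surg {z : P2} (hz : Cen m n z) {γ : ℤ} (hγ : γ = 6 ∨ γ = 7 ∨ γ = 8) {x : Lab m n}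
    (hx : x ∈ OM m n) (h2 : Two z (ext x)) : ∃ y ∈ OM m n, EB z x y ∧ PatZ z γ y := by
  unfold Cen at hz
  have key : ∃ y, VZ m n y ∧ (∀ v, ¬ Box (z.1 - 6) (z.2 - 6) 1 v → y v = ext x v) ∧
      Pat (z.1 - 6) (z.2 - 6) γ y := by
    by_cases e : γ = 7
    · obtain ⟨y, y1, y2, y3⟩ := surgery (mem_OM.1 hx) (a := z.1 - 6) (b := z.2 - 6) (by omega)
        (by omega) (by omega) (by omega) (h2 true) (h2 false) 6 (Or.inl rfl)
      obtain ⟨a1, a2, -⟩ := tip_flip y1 (by omega) true y3
      refine ⟨_, a1, fun v hv => ?_, e ▸ a2⟩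
      rw [Function.update_of_ne (fun h => hv (by rw [h]; unfold Box; dsimp only; omega)), y2 v hv]
    · exact surgery (mem_OM.1 hx) (by omega) (by omega) (by omega) (by omega) (h2 true) (h2 false)
        γ (by omega)
  obtain ⟨y, y1, y2, y3⟩ := key
  refine ⟨fun v => y (emb v), mem_OM.2 y1.res, fun v hv => ?_, fun v hv => ?_⟩
  · rw [mem_cells] at hv
    exact (y2 (emb v) (by unfold Box; omega)).trans (ext_emb _ _)
  · rw [ext_res _ _ (by unfold Box at hv; unfold In; omega)]; exact y3 v hv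

lemma two_of_pat {z : P2} {γ : ℤ} (hγ : γ = 6 ∨ γ = 7 ∨ γ = 8) {x : Lab m n} (h : PatZ z γ x) :
    Two z (ext x) := by
  intro τ
  cases τ
  · refine ⟨(z.1, z.2 - 1), by unfold Box; dsimp only; omega, ?_⟩
    rw [h _ (by unfold Box; dsimp only; omega), decide_eq_false_iff_not]; dsimp only; omega
  · refine ⟨(z.1, z.2 + 3), by unfold Box; dsimp only; omega, ?_⟩
    rw [h _ (by unfold Box; dsimp only; omega), decide_eq_true_eq]; dsimp only; omega

structure Tiles (m n : ℕ) (T : Finset P2) : Prop where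
  cen : ∀ z ∈ T, Cen m n z
  sep : ∀ z ∈ T, ∀ w ∈ T, z ≠ w →
    z.1 + 12 ≤ w.1 ∨ w.1 + 12 ≤ z.1 ∨ z.2 + 12 ≤ w.2 ∨ w.2 + 12 ≤ z.2

lemma box_iff {w : P2} {x y : Lab m n}
    (h : ∀ p, Box (w.1 - 6) (w.2 - 6) 1 p → ext y p = ext x p) :
    (∀ γ, PatZ w γ x ↔ PatZ w γ y) ∧ (Two w (ext x) ↔ Two w (ext y)) :=
  ⟨fun γ => forall₂_congr (fun v hv => by rw [h v (by unfold Box at *; omega)]),
    forall_congr' (fun κ => exists_congr (fun v => and_congr_right (fun hv => by
      rw [h v (by unfold Box at *; omega)])))⟩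

lemma Tiles.iff {T : Finset P2} (hT : Tiles m n T) {z w : P2} (hz : z ∈ T) (hw : w ∈ T)
    (hne : z ≠ w) {x y : Lab m n} (e : EB z x y) :
    (∀ γ, PatZ w γ x ↔ PatZ w γ y) ∧ (Two w (ext x) ↔ Two w (ext y)) := by
  have := hT.sep z hz w hw hne
  exact box_iff (fun p hp => ext_agree e p (fun v hv k => by
    rw [mem_cells, k] at hv; unfold Box at hp; omega))

noncomputable def nP (T : Finset P2) (γ : ℤ) (x : Lab m n) : ℕ := (flt T (fun z => PatZ z γ x)).card

noncomputable def nT (T : Finset P2) (x : Lab m n) : ℕ := (flt T (fun z => Two z (ext x))).card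

lemma few_pat {T : Finset P2} (hT : Tiles m n T) {γ : ℤ} (hγ : γ = 6 ∨ γ = 7 ∨ γ = 8) (s g : ℕ)
    (hs : 2 * s * (2 ^ 145 + 1) ≤ g) :
    (flt (OM m n) (fun x => nP T γ x < s ∧ g ≤ nT T x)).card * 2 ^ s ≤ (OM m n).card := by
  classical
  have h1 := ladder (fun i => (flt (OM m n) (fun x => nP T γ x = i ∧ g ≤ nT T x)).card) s
    (fun i hi => ?_)
  · refine le_trans (Nat.mul_le_mul_right _ (le_trans (card_le_card (fun x hx => ?_))
      card_biUnion_le)) (h1.trans (card_le_card (flt_sub _ _)))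
    simp only [mem_flt, mem_biUnion, mem_range] at hx ⊢
    exact ⟨_, hx.2.1, hx.1, rfl, hx.2.2⟩
  have h2 := dbl_count (flt (OM m n) (fun x => nP T γ x = i ∧ g ≤ nT T x))
    (flt (OM m n) (fun x => nP T γ x = i + 1 ∧ g ≤ nT T x)) T
    (fun z x => Two z (ext x) ∧ ¬ PatZ z γ x) (fun z x => PatZ z γ x) (2 ^ 144) (g - i) (i + 1)
    (fun z hz => ?_) (fun x hx => ?_) (fun y hy => (mem_flt.1 hy).2.1.le)
  · have h3 : (i + 1) * 2 ^ 145 ≤ g - i := by
      clear h2
      generalize 2 ^ 145 = W at hs ⊢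
      have : (i + 1) * W ≤ 2 * s * W := Nat.mul_le_mul_right _ (by omega)
      rw [mul_add] at hs
      omega
    refine Nat.le_of_mul_le_mul_right (c := (i + 1) * 2 ^ 144) ?_ (by positivity)
    refine le_trans (le_of_eq (by ring)) ((Nat.mul_le_mul_left _ h3).trans (h2.trans
      (le_of_eq (by ring))))
  · refine (count_local _ _ (cells m n (z.1 - 5) (z.2 - 5) 12 12) (fun x hx => ?_)).trans
      (Nat.mul_le_mul_left _ (Nat.pow_le_pow_right (by norm_num) (cells_card _ _ 12 12)))
    simp only [mem_flt] at hx ⊢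
    obtain ⟨⟨a1, a2, a3⟩, a4, a5⟩ := hx
    obtain ⟨y, y1, y2, y3⟩ := surg (hT.cen z hz) hγ a1 a4
    refine ⟨y, ⟨⟨y1, ?_, a3.trans (card_le_card (fun w hw => ?_))⟩, y3⟩, y2⟩
    · have : flt T (fun z => PatZ z γ y) = insert z (flt T (fun z => PatZ z γ x)) := by
        ext w
        by_cases e : z = w
        · simp [← e, hz, y3]
        · simp only [mem_flt, mem_insert, Ne.symm e, false_or]
          exact and_congr_right (fun hw => ((hT.iff hz hw e y2).1 γ).symm)
      rw [nP, this, card_insert_of_notMem (by simp [a5]), ← a2, nP]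
    · rw [mem_flt] at hw ⊢
      by_cases e : z = w
      · exact ⟨hw.1, e ▸ two_of_pat hγ y3⟩
      · exact ⟨hw.1, (hT.iff hz hw.1 e y2).2.1 hw.2⟩
  · obtain ⟨-, a2, a3⟩ := mem_flt.1 hx
    have : flt T (fun z => Two z (ext x)) ⊆ flt T (fun z => Two z (ext x) ∧ ¬ PatZ z γ x) ∪
        flt T (fun z => PatZ z γ x) := fun w hw => by
      simp only [mem_flt, mem_union] at hw ⊢; tauto
    have := (card_le_card this).trans (card_union_le _ _)
    unfold nP at a2
    unfold nT at a3
    omega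

lemma few_two {T : Finset P2} (hT : Tiles m n T) (g : ℕ) :
    (flt (OM m n) (fun x => nT T x < g)).card * (2 ^ 99) ^ (T.card - g) ≤
      2 ^ T.card * 2 ^ (m * n) := by
  classical
  have h1 := many_decay (univ : Finset (Lab m n)) (2 ^ 99) (fun z x => ¬ Two z (ext x)) EB T
    (fun z hz w hw hne x y e h k => h ((hT.iff hz hw hne e).2.2 k)) (fun z hz Φ hΦ => ?_)
    (T.card - g)
  · simp only [card_univ, Fintype.card_pi, Fintype.card_bool, prod_const, Fintype.card_prod,
      Fintype.card_fin] at h1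
    refine le_trans (Nat.mul_le_mul_right _ (card_le_card (fun x hx => ?_))) h1
    simp only [mem_flt, mem_univ, true_and] at hx ⊢
    have : T ⊆ flt T (fun z => Two z (ext x)) ∪ flt T (fun z => ¬ Two z (ext x)) := fun w hw => by
      simp only [mem_flt, mem_union]; tauto
    have := (card_le_card this).trans (card_union_le _ _)
    unfold nT at hx
    omega
  have hc := hT.cen z hz
  unfold Cen at hc
  have h2 := count_bits (flt univ (fun x : Lab m n => ¬ Two z (ext x) ∧ Φ x)) (flt univ Φ) 100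
    (univ : Finset Bool) (fun κ y v => if Box (z.1 - 6) (z.2 - 6) 2 (emb v) then κ else y v)
    (fun x hx => ?_)
  · simp only [card_univ, Fintype.card_bool] at h2
    rw [pow_succ, ← mul_assoc] at h2
    exact Nat.le_of_mul_le_mul_right h2 (by norm_num)
  obtain ⟨-, a1, a2⟩ := mem_flt.1 hx
  unfold Two at a1
  push Not at a1
  obtain ⟨κ, a1⟩ := a1
  refine ⟨!κ, mem_univ _, fun t y => ext y (z.1 - 4 + (t / 10 : ℕ), z.2 - 4 + (t % 10 : ℕ)),
    fun β => ⟨fun v => (fun p : P2 => if Box (z.1 - 6) (z.2 - 6) 2 p then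
      β (10 * (p.1 - (z.1 - 4)) + (p.2 - (z.2 - 4))).toNat else ext x p) (emb v),
      mem_flt.2 ⟨mem_univ _, hΦ x _ (fun v hv => ?_) a2⟩, funext fun v => ?_, fun t ht => ?_⟩⟩
  · rw [mem_cells] at hv
    dsimp only
    rw [if_neg (by unfold Box; omega), ext_emb]
  · dsimp only
    split_ifs with hv
    · rw [← ext_emb x v]; exact (bne (a1 _ hv)).symm
    · exact ext_emb x v
  · refine (ext_res (fun p : P2 => if Box (z.1 - 6) (z.2 - 6) 2 p then
      β (10 * (p.1 - (z.1 - 4)) + (p.2 - (z.2 - 4))).toNat else ext x p)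
      (z.1 - 4 + (t / 10 : ℕ), z.2 - 4 + (t % 10 : ℕ)) (by unfold In; dsimp only; omega)).trans ?_
    rw [if_pos (by unfold Box; dsimp only; omega)]
    congr 1
    dsimp only
    omega

lemma om_lower (hm : 4 ≤ m) (hn : 4 ≤ n) : 2 ^ ((m - 1) / 2 * (n - 2)) ≤ (OM m n).card := by
  have : (univ : Finset (Fin ((m - 1) / 2) × Fin (n - 2) → Bool)).card ≤ (OM m n).card := by
    refine card_le_card_of_surjOn (fun y w => ext y (2 * (w.1.val : ℤ) + 1, (w.2.val : ℤ) + 1))
      (fun β _ => ?_)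
    obtain ⟨y, y1, y2⟩ := comb (M := m) (N := n) (by omega) (by omega) (fun p =>
      if h : (p.1 / 2).toNat < (m - 1) / 2 ∧ (p.2 - 1).toNat < n - 2 then β (⟨_, h.1⟩, ⟨_, h.2⟩)
      else false)
    refine ⟨fun v => y (emb v), mem_OM.2 y1.res, funext fun w => ?_⟩
    have := w.1.isLt
    have := w.2.isLt
    refine (ext_res _ _ (by unfold In; dsimp only; omega)).trans ?_
    rw [y2 _ (by dsimp only; omega) (by dsimp only; omega) (by dsimp only; omega)
      (by dsimp only; omega), dif_pos (by dsimp only; omega)]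
    congr 1
    refine Prod.ext (Fin.ext ?_) (Fin.ext ?_) <;> dsimp only <;> omega
  simpa using this

def Good (T : Finset P2) (s : ℕ) (x : Lab m n) : Prop := s ≤ nP T 6 x ∧ s ≤ nP T 7 x

theorem bad_small {T : Finset P2} (hT : Tiles m n T) (hm : 4 ≤ m) (hn : 4 ≤ n) (s g : ℕ)
    (hs : 2 * s * (2 ^ 145 + 1) ≤ g)
    (hnum : T.card + m * n + s ≤ 99 * (T.card - g) + (m - 1) / 2 * (n - 2)) :
    (flt (OM m n) (fun x => ¬ Good T s x)).card * 2 ^ s ≤ 3 * (OM m n).card := by
  classical
  have h1 := few_pat hT (γ := 6) (by omega) s g hs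
  have h2 := few_pat hT (γ := 7) (by omega) s g hs
  have h3 : (flt (OM m n) (fun x => nT T x < g)).card * 2 ^ s ≤ (OM m n).card := by
    have a1 := few_two hT g
    have a2 := om_lower hm hn
    rw [← pow_mul, ← pow_add] at a1
    refine Nat.le_of_mul_le_mul_right (c := 2 ^ (99 * (T.card - g))) ?_ (by positivity)
    calc _ = (flt (OM m n) (fun x => nT T x < g)).card * 2 ^ (99 * (T.card - g)) * 2 ^ s := by ring
      _ ≤ 2 ^ (T.card + m * n) * 2 ^ s := Nat.mul_le_mul_right _ a1
      _ ≤ 2 ^ ((m - 1) / 2 * (n - 2)) * 2 ^ (99 * (T.card - g)) := by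
        rw [← pow_add, ← pow_add]; exact Nat.pow_le_pow_right (by norm_num) (by omega)
      _ ≤ _ := Nat.mul_le_mul_right _ a2
  have h4 : flt (OM m n) (fun x => ¬ Good T s x) ⊆
      flt (OM m n) (fun x => nP T 6 x < s ∧ g ≤ nT T x) ∪
      flt (OM m n) (fun x => nP T 7 x < s ∧ g ≤ nT T x) ∪ flt (OM m n) (fun x => nT T x < g) := by
    intro x hx
    simp only [mem_flt, mem_union, Good] at hx ⊢
    simp only [hx.1, true_and]
    omega
  have h5 := (card_le_card h4).trans ((card_union_le _ _).trans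
    (Nat.add_le_add_right (card_union_le _ _) _))
  have h6 := Nat.mul_le_mul_right (2 ^ s) h5
  rw [add_mul, add_mul] at h6
  omega

/-- number of cells of colour `κ` -/
def wt (κ : Bool) (x : Lab m n) : ℕ := (univ.filter (fun v => x v = κ)).card

lemma wt_add (x : Lab m n) : wt true x + wt false x = m * n := by
  have := card_filter_add_card_filter_not (s := (univ : Finset (Fin m × Fin n)))
    (fun v => x v = true)
  simpa [wt] using this

lemma wt_local {x y : Lab m n} {B : Finset (Fin m × Fin n)} (h : ∀ v ∉ B, y v = x v) (κ : Bool) :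
    wt κ y ≤ wt κ x + B.card := by
  refine le_trans (card_le_card (fun v hv => ?_)) (card_union_le _ B)
  by_cases k : v ∈ B
  · exact mem_union_right _ k
  · exact mem_union_left _ (by simpa [h v k] using hv)

lemma comp_step {T : Finset P2} (hT : Tiles m n T) (Φ : Lab m n → Prop)
    (hΦ : ∀ z ∈ T, ∀ x y, EB z x y → Φ x → Φ y) (κ : Bool) (a g : ℕ) :
    (flt (OM m n) (fun x => Φ x ∧ wt κ x = a + 1 ∧ g + 1 ≤ nP T (if κ then 6 else 7) x)).card *
      (g + 1) ≤
    (flt (OM m n) (fun x => Φ x ∧ wt κ x = a ∧ g ≤ nP T (if κ then 6 else 7) x)).card * T.card := by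
  classical
  refine le_trans (dbl_count _ _ T (fun z x => PatZ z (if κ then 6 else 7) x) (fun _ _ => True) 1
    (g + 1) T.card (fun z hz => ?_) (fun x hx => (mem_flt.1 hx).2.2.2)
    (fun y _ => card_le_card (flt_sub _ _))) (by rw [mul_one])
  have hc := hT.cen z hz
  unfold Cen at hc
  have iz : In m n (z.1 - 6 + 6, z.2 - 6 + 6) := by unfold In; dsimp only; omega
  obtain ⟨u, hu⟩ : ∃ u : Fin m × Fin n, emb u = (z.1 - 6 + 6, z.2 - 6 + 6) := ⟨_, emb_cell _ iz⟩
  have ee : ∀ x : Lab m n, ∀ p, In m n p → ext (Function.update x u (!κ)) p =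
      Function.update (ext x) (z.1 - 6 + 6, z.2 - 6 + 6) (!κ) p := by
    intro x p hp
    by_cases e : p = (z.1 - 6 + 6, z.2 - 6 + 6)
    · rw [e, Function.update_self, ← hu, ext_emb, Function.update_self]
    · rw [Function.update_of_ne e]
      simp only [ext, hp, dif_pos]
      exact Function.update_of_ne (fun h => e (by rw [← emb_cell p hp, h, hu])) _ _
  have xu : ∀ x : Lab m n, x ∈ OM m n → PatZ z (if κ then 6 else 7) x → x u = κ :=
    fun x h1 h2 => by
      have := (tip_flip (mem_OM.1 h1) (by omega) κ h2).2.2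
      rwa [← hu, ext_emb] at this
  rw [mul_one]
  refine card_le_card_of_injOn (fun x => Function.update x u (!κ)) (fun x hx => ?_)
    (fun x hx y hy e => ?_)
  · simp only [mem_coe, mem_flt, and_true] at hx ⊢
    obtain ⟨⟨a1, a2, a3, a4⟩, a5⟩ := hx
    have eb : EB z x (Function.update x u (!κ)) := fun v hv =>
      Function.update_of_ne (fun h => hv (by rw [h, mem_cells, hu]; dsimp only; omega)) _ _
    refine ⟨mem_OM.2 ((tip_flip (mem_OM.1 a1) (by omega) κ a5).1.congr (ee x)), hΦ z hz _ _ eb a2,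
      ?_, ?_⟩
    · have : univ.filter (fun v => x v = κ) = insert u
          (univ.filter (fun v => Function.update x u (!κ) v = κ)) := by
        ext v
        by_cases e : v = u
        · simp [e, xu x a1 a5]
        · simp [e]
      rw [wt, this, card_insert_of_notMem (by simp)] at a3
      exact Nat.succ_injective a3
    · have : flt T (fun w => PatZ w (if κ then 6 else 7) x) ⊆ insert z
          (flt T (fun w => PatZ w (if κ then 6 else 7) (Function.update x u (!κ)))) := by
        intro w hw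
        rw [mem_flt] at hw
        by_cases e : z = w
        · simp [e]
        · exact mem_insert_of_mem (mem_flt.2 ⟨hw.1, ((hT.iff hz hw.1 e eb).1 _).1 hw.2⟩)
      have := (card_le_card this).trans (card_insert_le _ _)
      unfold nP at a4 ⊢
      omega
  · simp only [mem_coe, mem_flt] at hx hy
    funext v
    by_cases k : v = u
    · rw [k, xu x hx.1.1 hx.2, xu y hy.1.1 hy.2]
    · simpa [k] using congrFun e v

lemma comp_dir {T : Finset P2} (hT : Tiles m n T) (Φ : Lab m n → Prop)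
    (hΦ : ∀ z ∈ T, ∀ x y, EB z x y → Φ x → Φ y) (κ : Bool) (a g K : ℕ) (hK : T.card ≤ K * g)
    (d : ℕ) :
    (flt (OM m n) (fun x => Φ x ∧ wt κ x = a + d ∧ g + d ≤ nP T (if κ then 6 else 7) x)).card ≤
      (flt (OM m n) (fun x => Φ x ∧ wt κ x = a)).card * K ^ d := by
  induction d with
  | zero => simpa using card_le_card (fun x hx => by simp only [mem_flt] at hx ⊢; tauto)
  | succ d ih =>
    have h1 := comp_step hT Φ hΦ κ (a + d) (g + d)
    have h2 : T.card ≤ K * (g + d + 1) := hK.trans (Nat.mul_le_mul_left _ (by omega))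
    have h3 := Nat.le_of_mul_le_mul_right (h1.trans ((Nat.mul_le_mul_left _ h2).trans
      (le_of_eq (mul_assoc _ _ _).symm))) (by omega)
    rw [pow_succ, ← mul_assoc]
    exact h3.trans (Nat.mul_le_mul_right _ ih)

theorem comp_range {T : Finset P2} (hT : Tiles m n T) (Φ : Lab m n → Prop)
    (hΦ : ∀ z ∈ T, ∀ x y, EB z x y → Φ x → Φ y) (a g K D s : ℕ) (hK : T.card ≤ K * g) (h1 : 1 ≤ K)
    (ha : a ≤ m * n) (hs : g + D ≤ s) :
    (flt (OM m n) (fun x => Φ x ∧ (wt true x ≤ a + D ∧ a ≤ wt true x + D) ∧ Good T s x)).card ≤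
      (flt (OM m n) (fun x => Φ x ∧ wt true x = a)).card * (2 * (D + 1) * K ^ D) := by
  classical
  have k1 : flt (OM m n) (fun x => Φ x ∧ (wt true x ≤ a + D ∧ a ≤ wt true x + D) ∧ Good T s x) ⊆
      (range (D + 1) ×ˢ (univ : Finset Bool)).biUnion (fun d => flt (OM m n) (fun x => Φ x ∧
        wt d.2 x = (if d.2 then a else m * n - a) + d.1 ∧
        g + d.1 ≤ nP T (if d.2 then 6 else 7) x)) := by
    intro x hx
    simp only [mem_flt, mem_biUnion, mem_product, mem_range, mem_univ, and_true, Good] at hx ⊢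
    obtain ⟨a1, a2, a3, a4⟩ := hx
    have := wt_add x
    by_cases e : a ≤ wt true x
    · exact ⟨(wt true x - a, true), by dsimp only; omega, a1, a2, by simp; omega, by simp; omega⟩
    · exact ⟨(a - wt true x, false), by dsimp only; omega, a1, a2, by simp; omega, by simp; omega⟩
  refine (card_le_card k1).trans (card_biUnion_le.trans ((sum_le_card_nsmul _ _
    ((flt (OM m n) (fun x => Φ x ∧ wt true x = a)).card * K ^ D) (fun d hd => ?_)).trans
    (le_of_eq (by simp; ring))))
  simp only [mem_product, mem_range] at hd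
  refine (comp_dir hT Φ hΦ d.2 _ g K hK d.1).trans (Nat.mul_le_mul (card_le_card (fun x hx => ?_))
    (Nat.pow_le_pow_right h1 (by omega)))
  have := wt_add x
  rcases d with ⟨d, _ | _⟩ <;> simp only [mem_flt] at hx ⊢
  · exact ⟨hx.1, hx.2.1, by have := hx.2.2; simp at this; omega⟩
  · exact ⟨hx.1, hx.2.1, by simpa using hx.2.2⟩

end Pool.Agent.Lib.MP_0350c1_lc
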