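import Pool.Agent.Lib.MP_0350c1_lc.Y4

namespace Pool.Agent.Lib.MP_0350c1_lc

open Finset

variable {m n : ℕ}

lemma ivt_nat (f : ℕ → ℕ) (a d : ℕ) (h : ∀ t, f (t + 1) ≤ f t + d ∧ f t ≤ f (t + 1) + d) (k : ℕ)
    (h0 : (f 0 ≤ a ∧ a ≤ f k) ∨ (a ≤ f 0 ∧ f k ≤ a)) : ∃ t ≤ k, f t ≤ a + d ∧ a ≤ f t + d := by
  induction k with
  | zero => exact ⟨0, le_rfl, by omega⟩
  | succ k ih =>
    have := h k
    by_cases e : (f 0 ≤ a ∧ a ≤ f k) ∨ (a ≤ f 0 ∧ f k ≤ a)
    · obtain ⟨t, h1, h2⟩ := ih e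
      exact ⟨t, by omega, h2⟩
    · exact ⟨k + 1, le_rfl, by omega⟩

def hyb (t : ℕ) (x : Lab m n) : Lab m n := fun v => if v.1.val < t then x v else !(x v)

lemma hyb_inj (t : ℕ) : Function.Injective (hyb (m := m) (n := n) t) := fun x y h => by
  funext v
  have := congrFun h v
  unfold hyb at this
  split_ifs at this
  · exact this
  · simpa using this

theorem mid_bound (hm : 12 ≤ m) (hn : 8 ≤ n) (L : ℕ) (hL : 1 ≤ L ∧ 2 * L < n) (hL' : 4 * m ≤ 2 ^ L) :
    (OM m n).card ≤ (flt (OM m n) (fun x => wt true x ≤ m * n / 2 + (13 * n + 6 * m) ∧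
      m * n / 2 ≤ wt true x + (13 * n + 6 * m))).card * 2 ^ (12 * n + 6 * m) * (2 * (m + 1)) := by
  classical
  set T := flt (OM m n) (fun x => wt true x ≤ m * n / 2 + (13 * n + 6 * m) ∧
      m * n / 2 ≤ wt true x + (13 * n + 6 * m)) with hT
  set Ex : Lab m n → Prop := fun x => ∃ p : ℤ, 2 ≤ p ∧ p + 2 < m ∧ ¬ NM m n p (ext x) with hEx
  have h1 : (flt (OM m n) Ex).card * 2 ^ L ≤ (OM m n).card * (m * 2) := by
    rw [← om_flt]; exact exceptional L hL
  have h2 : (flt (OM m n) Ex).card * 2 ≤ (OM m n).card := by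
    refine Nat.le_of_mul_le_mul_right (c := m * 2) ?_ (by omega)
    exact le_trans (le_of_eq (by ring)) ((Nat.mul_le_mul_left _ hL').trans h1)
  have h3 : OM m n ⊆ flt (OM m n) Ex ∪ (range (m + 1)).biUnion (fun t => flt (OM m n) (fun x =>
      ¬ Ex x ∧ wt true (hyb t x) ≤ m * n / 2 + n ∧ m * n / 2 ≤ wt true (hyb t x) + n)) := by
    intro x hx
    by_cases e : Ex x
    · exact mem_union_left _ (mem_flt.2 ⟨hx, e⟩)
    have k0 : wt true (hyb 0 x) = wt false x := by simp [wt, hyb]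
    have k1 : hyb m x = x := funext fun v => if_pos v.1.isLt
    have k2 := wt_add x
    obtain ⟨t, t1, t2⟩ := ivt_nat (fun t => wt true (hyb t x)) (m * n / 2) n (fun t => by
      have a : ∀ v ∉ cells m n t 0 1 n, hyb (t + 1) x v = hyb t x v := fun v hv => by
        have := v.2.isLt
        simp only [mem_cells, emb] at hv
        unfold hyb
        rw [if_congr (show v.1.val < t + 1 ↔ v.1.val < t by omega) rfl rfl]
      have b := cells_card (m := m) (n := n) t 0 1 n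
      have := wt_local a true
      have := wt_local (fun v hv => (a v hv).symm) true
      omega) m (by rw [k0, k1]; omega)
    exact mem_union_right _ (mem_biUnion.2 ⟨t, mem_range.2 (by omega), mem_flt.2 ⟨hx, e, t2⟩⟩)
  have h4 := (card_le_card h3).trans ((card_union_le _ _).trans (Nat.add_le_add_left
    (card_biUnion_le.trans (sum_le_card_nsmul _ _ (T.card * 2 ^ (12 * n + 6 * m))
      (fun t ht => ?_))) _))
  · rw [card_range, smul_eq_mul] at h4
    have : T.card * 2 ^ (12 * n + 6 * m) * (2 * (m + 1)) =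
      2 * ((m + 1) * (T.card * 2 ^ (12 * n + 6 * m))) := by ring
    omega
  obtain ⟨t', ht'⟩ : ∃ t' : ℕ, (t' = t ∧ 3 ≤ t ∧ t + 6 ≤ m) ∨ (t' = 3 ∧ t < 3) ∨
      (t' + 6 = m ∧ m < t + 6) := by
    by_cases e : t < 3
    · exact ⟨3, by omega⟩
    by_cases e' : m < t + 6
    · exact ⟨m - 6, by omega⟩
    · exact ⟨t, by omega⟩
  set F := cells m n 0 0 3 n ∪ cells m n (m - 6) 0 6 n ∪ cells m n t' 0 3 n ∪ cells m n 0 0 m 3 ∪
    cells m n 0 (n - 3) m 3 with hF
  have hFc : F.card ≤ 12 * n + 6 * m := by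
    have a1 := cells_card (m := m) (n := n) 0 0 3 n
    have a2 := cells_card (m := m) (n := n) (m - 6) 0 6 n
    have a3 := cells_card (m := m) (n := n) t' 0 3 n
    have a4 := cells_card (m := m) (n := n) 0 0 m 3
    have a5 := cells_card (m := m) (n := n) 0 (n - 3) m 3
    refine (card_union_le _ _).trans ((Nat.add_le_add_right ((card_union_le _ _).trans
      (Nat.add_le_add_right ((card_union_le _ _).trans (Nat.add_le_add_right (card_union_le _ _) _))
        _)) _).trans ?_)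
    omega
  rw [← card_image_of_injective _ (hyb_inj t)]
  refine (count_local _ T F (fun y hy => ?_)).trans
    (Nat.mul_le_mul_left _ (Nat.pow_le_pow_right (by norm_num) hFc))
  obtain ⟨x, hx, rfl⟩ := mem_image.1 hy
  obtain ⟨a1, a2, a3⟩ := mem_flt.1 hx
  have nm : ∀ p : ℤ, 2 ≤ p → p + 2 < m → NM m n p (ext x) := fun p p1 p2 =>
    not_not.1 (fun k => a2 ⟨p, p1, p2, k⟩)
  obtain ⟨z, z1, z2, z3⟩ := glue (mem_OM.1 a1) t' (by omega) (by omega) (fun κ => by
    obtain ⟨v, v1, v2, v3, v4⟩ := nm 2 (by omega) (by omega) κ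
    exact ⟨v, v1, by omega, v4⟩) (fun κ => by
    obtain ⟨v, v1, v2, v3, v4⟩ := nm (m - 3) (by omega) (by omega) κ
    exact ⟨v, v1, by omega, v4⟩)
  have ag : ∀ v ∉ F, (fun v => z (emb v)) v = hyb t x v := by
    intro v hv
    have := v.1.isLt
    have := v.2.isLt
    simp only [hF, mem_union, mem_cells, emb] at hv
    unfold hyb
    split_ifs with e
    · exact (z2 (emb v) (by simp only [Rect, emb]; omega)).trans (ext_emb x v)
    · exact (z3 (emb v) (by simp only [Rect, emb]; omega)).trans (by rw [ext_emb])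
  have b1 := wt_local ag true
  have b2 := wt_local (fun v hv => (ag v hv).symm) true
  exact ⟨_, mem_flt.2 ⟨mem_OM.2 z1.res, by omega, by omega⟩, ag⟩

def EH (h : ℕ) (x : Lab m n) : Prop := ∃ i κ, SlabH m n (ext x) h i κ

lemma slab_decay (L : ℕ) (hL : 1 ≤ L ∧ 2 * L < n) (r : ℕ) :
    (flt (OM m n) (EH (4 * r))).card * (2 ^ L) ^ r ≤ (OM m n).card * (m * 2) ^ r := by
  classical
  induction r with
  | zero => simpa using card_le_card (flt_sub _ _)
  | succ r ih =>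
    have := count_bits (flt (OM m n) (EH (4 * (r + 1)))) (flt (OM m n) (EH (4 * r))) L
      (Ico (0 : ℤ) m ×ˢ (univ : Finset Bool))
      (fun d y v => if d.1 ≤ (emb v).1 ∧ (emb v).1 ≤ d.1 + 3 then d.2 else y v) (fun x hx => ?_)
    · simp only [card_product, Int.card_Ico, sub_zero, Int.toNat_natCast, card_univ,
        Fintype.card_bool] at this
      calc _ = (flt (OM m n) (EH (4 * (r + 1)))).card * 2 ^ L * (2 ^ L) ^ r := by ring
        _ ≤ (flt (OM m n) (EH (4 * r))).card * (m * 2) * (2 ^ L) ^ r := Nat.mul_le_mul_right _ this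
        _ = (flt (OM m n) (EH (4 * r))).card * (2 ^ L) ^ r * (m * 2) := by ring
        _ ≤ (OM m n).card * (m * 2) ^ r * (m * 2) := Nat.mul_le_mul_right _ ih
        _ = _ := by ring
    obtain ⟨h1, i0, κ, h2⟩ := mem_flt.1 hx
    obtain ⟨i, i1, i2, i3, w, H⟩ := slabH (mem_OM.1 h1) (4 * r : ℕ) i0 L κ (by omega) (by omega)
      (by rw [show ((4 * r : ℕ) : ℤ) + 4 = (4 * (r + 1) : ℕ) by push_cast; ring]; exact h2)
    refine ⟨(i, κ), by simp [i1, i2], fun t y => ext y (w t), fun β => ?_⟩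
    obtain ⟨y, y1, y2, ⟨j, j1, j2, j3⟩, y3⟩ := H β
    refine ⟨fun v => y (emb v), mem_flt.2 ⟨mem_OM.2 y1.res, j, κ, j1, j2, fun v iv a b =>
      (ext_res _ _ iv).trans (j3 v iv a b)⟩, funext fun v => ?_, fun t ht => ?_⟩
    · by_cases hv : i ≤ (emb v).1 ∧ (emb v).1 ≤ i + 3
      · simp only [hv, and_self, if_true]
        rw [← i3 _ (emb_in v) hv.1 hv.2, ext_emb]
      · simp only [hv, if_false]
        rw [y2 _ hv, ext_emb]
    · obtain ⟨a1, a2⟩ := y3 t (by omega)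
      exact (ext_res _ _ a1).trans a2

/-- the other colour is near -/
def Nr (z : P2) (k₀ : ℕ) (x : Lab m n) : Prop :=
  Two z (ext x) ∨ ∃ k < k₀, Far m n z ((k : ℕ) + 5) (ext x)

lemma far_step {z : P2} (hz : Cen m n z) (k₀ : ℕ) (Φ : Lab m n → Prop) (hΦ : Inv z.1 Φ) :
    (flt (OM m n) (fun x => (NM m n z.1 (ext x) ∧ ¬ Nr z k₀ x) ∧ Φ x)).card * 2 ^ k₀ ≤
      (flt (OM m n) Φ).card := by
  classical
  have h1 : flt (OM m n) (fun x => (NM m n z.1 (ext x) ∧ ¬ Nr z k₀ x) ∧ Φ x) ⊆ (range n).biUnion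
      (fun i => Om m n (fun x => Far m n z ((k₀ + i : ℕ) + 5) (ext x) ∧ Φ x)) := by
    intro x hx
    obtain ⟨a1, ⟨a2, a4⟩, a3⟩ := mem_flt.1 hx
    rcases nm_cases z hz _ a2 with h | ⟨k, hk, h⟩
    · exact absurd (Or.inl h) a4
    · have : k₀ ≤ k := not_lt.1 (fun e => a4 (Or.inr ⟨k, e, h⟩))
      refine mem_biUnion.2 ⟨k - k₀, mem_range.2 (by omega), mem_Om.2 ⟨mem_OM.1 a1, ?_, a3⟩⟩
      rwa [show k₀ + (k - k₀) = k by omega]
  have h2 := (Nat.cast_le (α := ℝ)).2 ((card_le_card h1).trans card_biUnion_le)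
  have h3 : (Om m n (fun x => Two z (ext x) ∧ Φ x)).card ≤ (flt (OM m n) Φ).card :=
    card_le_card (fun x hx => mem_flt.2 ⟨mem_OM.2 (mem_Om.1 hx).1, (mem_Om.1 hx).2.2⟩)
  generalize (flt (OM m n) Φ).card = S at h3 ⊢
  rw [← Nat.cast_le (α := ℝ)]
  rw [Nat.cast_sum] at h2
  push_cast [-Nat.cast_add]
  rw [← le_div_iff₀ (by positivity)]
  refine h2.trans (le_trans (sum_le_sum (g := fun i => (S : ℝ) / 2 ^ k₀ / 2 * (1 / 2) ^ i)
    (fun i _ => ?_)) ?_)
  · have := (Nat.cast_le (α := ℝ)).2 ((fe_finger z hz (k₀ + i) Φ hΦ).trans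
      (Nat.mul_le_mul_right _ h3))
    rw [Nat.cast_mul, Nat.cast_mul, Nat.cast_pow, pow_add, pow_add] at this
    rw [one_div, inv_pow, ← div_eq_mul_inv, div_div, div_div, le_div_iff₀ (by positivity)]
    simp only [Nat.cast_ofNat] at this
    linarith
  · rw [← mul_sum]
    have := sum_geometric_two_le n
    have : 0 ≤ (S : ℝ) / 2 ^ k₀ := by positivity
    nlinarith

lemma nr_move {z : P2} (hz : Cen m n z) {γ : ℤ} (hγ : γ = 6 ∨ γ = 7 ∨ γ = 8) {k₀ : ℕ} {x : Lab m n}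
    (hx : x ∈ OM m n) (h : Nr z k₀ x) : ∃ y ∈ OM m n, PatZ z γ y ∧
      ∀ v ∉ cells m n (z.1 - 5) (z.2 - (k₀ + 5)) 12 (2 * k₀ + 12), y v = x v := by
  have key : ∃ y ∈ OM m n, Two z (ext y) ∧
      ∀ v ∉ cells m n (z.1 - 5) (z.2 - (k₀ + 5)) 12 (2 * k₀ + 12), y v = x v := by
    rcases h with h | ⟨k, hk, κ, h2, b, h4, h5, h6⟩
    · exact ⟨x, hx, h, fun _ _ => rfl⟩
    unfold Cen at hz
    obtain ⟨w, H⟩ := finger (mem_OM.1 hx) z (k + 5) κ (by omega) (by omega) h2 b h4 h5 h6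
    obtain ⟨y, y1, y2, ⟨u, y3, y4⟩, ⟨u', y5, y6⟩, -⟩ := H (fun _ => true)
    refine ⟨fun v => y (emb v), mem_OM.2 y1.res, fun τ => ?_, fun v hv => ?_⟩
    · unfold Ball at y3 y5
      by_cases e : τ = κ
      · exact ⟨u, by unfold Box; omega, by rw [ext_res _ _ (by unfold In; omega), y4, e]⟩
      · exact ⟨u', by unfold Box; omega, by rw [ext_res _ _ (by unfold In; omega), y6, bne e]⟩
    · rw [mem_cells] at hv
      exact (y2 (emb v) (by unfold Ball; omega)).trans (ext_emb _ _)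
  obtain ⟨y, y1, y2, y3⟩ := key
  obtain ⟨w, w1, w2, w3⟩ := surg hz hγ y1 y2
  refine ⟨w, w1, w3, fun v hv => (w2 v (fun k => hv ?_)).trans (y3 v hv)⟩
  rw [mem_cells] at k ⊢
  omega

lemma good_iff {T : Finset P2} {s : ℕ} {x y : Lab m n}
    (h : ∀ w ∈ T, ∀ p, Box (w.1 - 6) (w.2 - 6) 1 p → ext y p = ext x p) :
    Good T s x → Good T s y := by
  have : ∀ γ, nP T γ x = nP T γ y := fun γ => by
    unfold nP; congr 1; ext w
    simp only [mem_flt]
    exact and_congr_right (fun hw => (box_iff (h w hw)).1 γ)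
  unfold Good
  rw [this, this]; exact id

theorem fe_bal {T : Finset P2} (hT : Tiles m n T) {z : P2} (hz : Cen m n z)
    (hzT : ∀ w ∈ T, w.1 + 12 ≤ z.1 ∨ z.1 + 12 ≤ w.1) {γ : ℤ} (hγ : γ = 6 ∨ γ = 7 ∨ γ = 8)
    (k₀ g K s : ℕ) (hK : T.card ≤ K * g) (h1 : 1 ≤ K) (hs : g + 12 * (2 * k₀ + 12) ≤ s)
    (Bal : ℕ → Prop) (Φ : Lab m n → Prop) (hΦ : Inv z.1 Φ)
    (hΦ' : ∀ w ∈ T, ∀ x y, EB w x y → Φ x → Φ y) :
    (flt (flt (OM m n) (fun x => Bal (wt true x))) (fun x => (Nr z k₀ x ∧ Good T s x) ∧ Φ x)).card ≤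
      (flt (flt (OM m n) (fun x => Bal (wt true x))) (fun x => PatZ z γ x ∧ Φ x)).card *
        (2 * (12 * (2 * k₀ + 12) + 1) * K ^ (12 * (2 * k₀ + 12)) * 2 ^ (12 * (2 * k₀ + 12))) := by
  classical
  have hw : ∀ x : Lab m n, wt true x ∈ range (m * n + 1) := fun x => by
    have := wt_add x
    exact mem_range.2 (by omega)
  rw [card_eq_sum_card_fiberwise (f := wt true) (t := range (m * n + 1)) (fun x _ => hw x),
    card_eq_sum_card_fiberwise (f := wt true) (t := range (m * n + 1)) (fun x _ => hw x), sum_mul]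
  refine sum_le_sum (fun a ha => ?_)
  by_cases hB : Bal a
  swap
  · refine le_trans (le_of_eq (card_eq_zero.2 (eq_empty_of_forall_notMem (fun x hx => hB ?_))))
      (Nat.zero_le _)
    simp only [mem_filter, mem_flt] at hx
    exact hx.2 ▸ hx.1.1.2
  have hc := cells_card (m := m) (n := n) (z.1 - 5) (z.2 - (k₀ + 5)) 12 (2 * k₀ + 12)
  have h2 := comp_range hT (fun x => PatZ z γ x ∧ Φ x) (fun w hw x y e h => ⟨((box_iff
    (fun p hp => ext_agree e p (fun v hv k => by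
      have := hzT w hw
      rw [mem_cells, k] at hv; unfold Box at hp; omega))).1 γ).1 h.1, hΦ' w hw x y e h.2⟩)
    a g K (12 * (2 * k₀ + 12)) s hK h1 (by have := mem_range.1 ha; omega) hs
  refine (count_local _ _ _ (fun x hx => ?_)).trans ((Nat.mul_le_mul h2
    (Nat.pow_le_pow_right (by norm_num) hc)).trans ?_)
  · simp only [mem_filter, mem_flt] at hx ⊢
    obtain ⟨⟨⟨a1, -⟩, ⟨a2, a3⟩, a4⟩, a5⟩ := hx
    obtain ⟨y, y1, y2, y3⟩ := nr_move hz hγ a1 a2
    have b1 := wt_local y3 true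
    have b2 := wt_local (fun v hv => (y3 v hv).symm) true
    refine ⟨y, ⟨y1, ⟨y2, hΦ x y (fun v hv => y3 v (fun k => hv ?_)) a4⟩, by omega,
      good_iff (fun w hw p hp => ext_agree y3 p (fun v hv k => ?_)) a3⟩, y3⟩
    · rw [mem_cells] at k; omega
    · have := hzT w hw
      rw [mem_cells, k] at hv; unfold Box at hp; omega
  · rw [mul_assoc]
    refine Nat.mul_le_mul_right _ (card_le_card (fun x hx => ?_))
    simp only [mem_filter, mem_flt] at hx ⊢
    exact ⟨⟨⟨hx.1, hx.2.2 ▸ hB⟩, hx.2.1⟩, hx.2.2⟩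

end Pool.Agent.Lib.MP_0350c1_lc
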