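import Pool.Agent.Lib.MP_0350c1_lc.Y5

namespace Pool.Agent.Lib.MP_0350c1_lc

open Finset

variable {m n : ℕ}

lemma tiles_exist {κ : Type} (Z : Finset κ) (p : κ → ℤ) (k : ℕ) (hk : 1000 ≤ k) (hm : k ≤ m)
    (hn : k ≤ n) (hZ : Z.card * 120 ≤ k) : ∃ T, Tiles m n T ∧
      (∀ j ∈ Z, ∀ w ∈ T, w.1 + 12 ≤ p j ∨ p j + 12 ≤ w.1) ∧ k * k ≤ 720 * T.card ∧
      m * n ≤ 96 * T.card + (m - 1) / 2 * (n - 2) := by
  classical
  set A := flt (range ((m - 2) / 12)) (fun i : ℕ => ∀ j ∈ Z,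
    6 + 12 * (i : ℤ) + 12 ≤ p j ∨ p j + 12 ≤ 6 + 12 * (i : ℤ)) with hA
  have h1 : range ((m - 2) / 12) ⊆ A ∪ Z.biUnion
      (fun j => {((p j - 6) / 12).toNat, ((p j - 6) / 12 + 1).toNat}) := by
    intro i hi
    by_cases e : i ∈ A
    · exact mem_union_left _ e
    · simp only [hA, mem_flt, hi, true_and, not_forall] at e
      obtain ⟨j, hj, e⟩ := e
      exact mem_union_right _ (mem_biUnion.2 ⟨j, hj, by simp only [mem_insert, mem_singleton]; omega⟩)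
  have h2 := (card_le_card h1).trans ((card_union_le _ _).trans (Nat.add_le_add_left
    (card_biUnion_le.trans (sum_le_card_nsmul _ _ 2 (fun j _ => card_le_two))) _))
  rw [card_range, smul_eq_mul] at h2
  have hinj : Function.Injective
      (fun w : ℕ × ℕ => ((6 + 12 * (w.1 : ℤ), 6 + 12 * (w.2 : ℤ)) : P2)) := fun a b h => by
    simp only [Prod.mk.injEq] at h
    exact Prod.ext (by omega) (by omega)
  refine ⟨(A ×ˢ range ((n - 2) / 12)).image
    (fun w : ℕ × ℕ => ((6 + 12 * (w.1 : ℤ), 6 + 12 * (w.2 : ℤ)) : P2)), ⟨fun z hz => ?_,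
      fun z hz w hw hne => ?_⟩, fun j hj w hw => ?_, ?_⟩
  · obtain ⟨w, hw, rfl⟩ := mem_image.1 hz
    simp only [mem_product, hA, mem_flt, mem_range] at hw
    unfold Cen; dsimp only; omega
  · obtain ⟨a, -, rfl⟩ := mem_image.1 hz
    obtain ⟨b, -, rfl⟩ := mem_image.1 hw
    simp only [ne_eq, Prod.mk.injEq] at hne
    dsimp only; omega
  · obtain ⟨a, ha, rfl⟩ := mem_image.1 hw
    exact (mem_flt.1 (mem_product.1 ha).1).2 j hj
  · rw [card_image_of_injective _ hinj, card_product, card_range]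
    obtain ⟨a, ha⟩ : ∃ a, a = A.card := ⟨_, rfl⟩
    rw [← ha] at h2 ⊢
    obtain ⟨b, hb⟩ : ∃ b, b = (n - 2) / 12 := ⟨_, rfl⟩
    obtain ⟨u, hu⟩ : ∃ u, u = (m - 1) / 2 := ⟨_, rfl⟩
    obtain ⟨v, hv⟩ : ∃ v, v = n - 2 := ⟨_, rfl⟩
    rw [← hb, ← hu, ← hv]
    have e1 : m ≤ 15 * a + 17 := by omega
    have e2 : n ≤ 12 * b + 13 := by omega
    have e3 : m ≤ 2 * u + 2 := by omega
    have e4 : n = v + 2 := by omega
    constructor
    · calc k * k ≤ (30 * a) * (24 * b) := Nat.mul_le_mul (by omega) (by omega)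
        _ = _ := by ring
    · obtain ⟨m', rfl⟩ : ∃ m', m = m' + 17 := ⟨m - 17, by omega⟩
      obtain ⟨n', rfl⟩ : ∃ n', n = n' + 13 := ⟨n - 13, by omega⟩
      have f1 : m' * n' ≤ (15 * a) * (12 * b) := Nat.mul_le_mul (by omega) (by omega)
      have f2 : (m' + 15) * (n' + 11) ≤ (2 * u) * v := Nat.mul_le_mul (by omega) (by omega)
      have f3 : 900 * n' ≤ m' * n' := Nat.mul_le_mul_right _ (by omega)
      have f4 : m' * 900 ≤ m' * n' := Nat.mul_le_mul_left _ (by omega)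
      have f5 : 900 ≤ m' := by omega
      nlinarith

lemma good_facts {T : Finset P2} (hT : Tiles m n T) (k c : ℕ) (hk : 1000 ≤ k) (hm : k ≤ m)
    (hn : k ≤ n) (h1 : k * k ≤ 720 * T.card) (h2 : m * n ≤ 96 * T.card + (m - 1) / 2 * (n - 2))
    (hc : 1 ≤ c) (h3 : 720 * 2 ^ 160 * c ≤ k) : ∃ g s, T.card ≤ 2 ^ 160 * g ∧ 2 * g ≤ s ∧
      c * k ≤ g ∧ (flt (OM m n) (fun x => ¬ Good T s x)).card * 2 ^ s ≤ 3 * (OM m n).card := by
  obtain ⟨W, hW⟩ : ∃ W, W = 2 ^ 145 + 1 := ⟨_, rfl⟩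
  obtain ⟨K, hK⟩ : ∃ K, K = 2 ^ 160 := ⟨_, rfl⟩
  have w1 : 1 ≤ W := by rw [hW]; norm_num
  have w2 : 400 * W ≤ K := by rw [hW, hK]; norm_num
  rw [← hK] at h3 ⊢
  have t1 : K ≤ T.card := by
    have : 720 * K * 1 * 1 ≤ k * k :=
      Nat.mul_le_mul ((Nat.mul_le_mul_left _ hc).trans h3) (by omega)
    omega
  have t2 : T.card ≤ K * (T.card / 50 / (2 * W) / 2) := by
    rw [Nat.div_div_eq_div_mul, Nat.div_div_eq_div_mul]
    have a1 := Nat.lt_mul_div_succ T.card (show 0 < 50 * (2 * W * 2) by omega)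
    have a2 : 1 ≤ T.card / (50 * (2 * W * 2)) := (Nat.one_le_div_iff (by omega)).2 (by omega)
    generalize T.card / (50 * (2 * W * 2)) = q at *
    nlinarith
  have t3 : 2 * (T.card / 50 / (2 * W)) * W ≤ T.card / 50 := by
    have := Nat.mul_div_le (T.card / 50) (2 * W)
    nlinarith
  refine ⟨_, T.card / 50 / (2 * W), t2, Nat.mul_div_le _ _, ?_,
    bad_small hT (by omega) (by omega) _ (T.card / 50) (by rw [← hW]; exact t3) ?_⟩
  · refine Nat.le_of_mul_le_mul_left (c := 720 * K) ?_ (by omega)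
    calc _ = 720 * K * c * k := by ring
      _ ≤ k * k := Nat.mul_le_mul_right _ h3
      _ ≤ _ := h1.trans (by rw [mul_assoc]; exact Nat.mul_le_mul_left _ t2)
  · have : T.card / 50 / (2 * W) ≤ T.card / 50 := Nat.div_le_self _ _
    omega

lemma sq_le_two_pow (j : ℕ) (h : 4 ≤ j) : j * j ≤ 2 ^ j := by
  induction j, h using Nat.le_induction with
  | base => norm_num
  | succ j h ih => rw [pow_succ]; nlinarith

lemma lin_le_pow {ρ k : ℕ} (hk : 1000 ≤ k) (h : 1000 * ρ ≤ k) (hm : m ≤ ρ * k) :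
    m * 2 * 2 ^ (k / 8) ≤ 2 ^ ((k - 1) / 2 - 1) := by
  have h1 := sq_le_two_pow (k / 8) (by omega)
  have h2 : ρ * k * 2 ≤ k / 8 * (k / 8) := by
    calc ρ * k * 2 ≤ ρ * (16 * (k / 8)) * 2 := by gcongr; omega
      _ = (32 * ρ) * (k / 8) := by ring
      _ ≤ _ := Nat.mul_le_mul_right _ (by omega)
  calc m * 2 * 2 ^ (k / 8) ≤ 2 ^ (k / 8) * 2 ^ (k / 8) := Nat.mul_le_mul_right _ (by omega)
    _ ≤ _ := by rw [← pow_add]; exact Nat.pow_le_pow_right (by norm_num) (by omega)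

lemma dens_bound {T : Finset P2} (hT : Tiles m n T) {ρ k g s : ℕ} (hρ : 1 ≤ ρ) (hk : 1000 ≤ k)
    (hk' : 1000 * ρ ≤ k) (hm : k ≤ m ∧ m ≤ ρ * k) (hn : k ≤ n ∧ n ≤ ρ * k)
    (h1 : T.card ≤ 2 ^ 160 * g) (h2 : 2 * g ≤ s) (h3 : 30 * (ρ * k) ≤ g)
    (h4 : (flt (OM m n) (fun x => ¬ Good T s x)).card * 2 ^ s ≤ 3 * (OM m n).card)
    (Bal : ℕ → Prop) (hB : Bal (m * n / 2)) :
    (OM m n).card ≤ (flt (OM m n) (fun x => Bal (wt true x))).card * 2 ^ (3100 * (ρ * k)) := by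
  classical
  have a0 := lin_le_pow hk hk' hm.2
  have a1 := mid_bound (m := m) (n := n) (by omega) (by omega) ((k - 1) / 2) (by omega) (by
    rw [show (k - 1) / 2 = (k - 1) / 2 - 1 + 1 by omega, pow_succ]
    have : m * 2 * 1 ≤ m * 2 * 2 ^ (k / 8) := Nat.mul_le_mul_left _ Nat.one_le_two_pow
    omega)
  have a2 := comp_range hT (fun _ => True) (fun _ _ _ _ _ h => h) (m * n / 2) g (2 ^ 160)
    (13 * n + 6 * m) s h1 Nat.one_le_two_pow (Nat.div_le_self _ _) (by omega)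
  have a3 : (flt (OM m n) (fun x => True ∧ wt true x = m * n / 2)).card ≤
      (flt (OM m n) (fun x => Bal (wt true x))).card := card_le_card (fun x hx => by
    simp only [mem_flt] at hx ⊢; exact ⟨hx.1, hx.2.2 ▸ hB⟩)
  have a4 : (flt (OM m n) (fun x => wt true x ≤ m * n / 2 + (13 * n + 6 * m) ∧
      m * n / 2 ≤ wt true x + (13 * n + 6 * m))).card ≤ _ + _ := le_trans (card_le_card
    (fun x hx => by
      simp only [mem_flt, mem_union] at hx ⊢; tauto)) (card_union_le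
    (flt (OM m n) (fun x => ¬ Good T s x)) (flt (OM m n) (fun x => True ∧
      (wt true x ≤ m * n / 2 + (13 * n + 6 * m) ∧ m * n / 2 ≤ wt true x + (13 * n + 6 * m)) ∧
      Good T s x)))
  have ρk : k ≤ ρ * k := Nat.le_mul_of_pos_left _ hρ
  have b1 : 2 ^ (12 * n + 6 * m) * (2 * (m + 1)) ≤ 2 ^ (20 * (ρ * k)) := by
    have : m + 1 ≤ 2 ^ m := Nat.lt_two_pow_self
    calc _ ≤ 2 ^ (12 * n + 6 * m) * (2 * 2 ^ m) := by gcongr
      _ ≤ _ := by
        rw [← pow_succ', ← pow_add]; exact Nat.pow_le_pow_right (by norm_num) (by omega)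
  have b2 : 2 * (13 * n + 6 * m + 1) * (2 ^ 160) ^ (13 * n + 6 * m) ≤ 2 ^ (3060 * (ρ * k)) := by
    have : 13 * n + 6 * m + 1 ≤ 2 ^ (13 * n + 6 * m) := Nat.lt_two_pow_self
    calc _ ≤ 2 * 2 ^ (13 * n + 6 * m) * (2 ^ 160) ^ (13 * n + 6 * m) := by gcongr
      _ ≤ _ := by
        rw [← pow_succ', ← pow_mul, ← pow_add]
        exact Nat.pow_le_pow_right (by norm_num) (by omega)
  have b3 : 2 ^ (20 * (ρ * k)) * 8 ≤ 2 ^ s := by
    rw [show 8 = 2 ^ 3 by norm_num, ← pow_add]; exact Nat.pow_le_pow_right (by norm_num) (by omega)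
  have b4 : 2 * (2 ^ (3060 * (ρ * k)) * 2 ^ (20 * (ρ * k))) ≤ 2 ^ (3100 * (ρ * k)) := by
    rw [← pow_add, ← pow_succ']; exact Nat.pow_le_pow_right (by norm_num) (by omega)
  rw [mul_assoc] at a1
  have c1 := a1.trans (Nat.mul_le_mul (a4.trans (Nat.add_le_add_left (a2.trans
    (Nat.mul_le_mul a3 b2)) _)) b1)
  have c2 := (Nat.mul_le_mul_left _ b3).trans h4
  refine le_trans ?_ (Nat.mul_le_mul_left _ b4)
  rw [add_mul, mul_assoc] at c1
  rw [← mul_assoc] at c2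
  rw [mul_left_comm]
  omega

lemma far_iff {z : P2} {R : ℤ} {c c' : P2 → Bool}
    (h : ∀ v : P2, z.1 - 5 ≤ v.1 → v.1 ≤ z.1 + 6 → c' v = c v) : Far m n z R c → Far m n z R c' := by
  rintro ⟨κ, h1, b, h2, h3, h4⟩
  exact ⟨κ, fun v iv hv => (h v (by unfold Ball at hv; omega) (by unfold Ball at hv; omega)).trans
    (h1 v iv hv), b, h2, h3, (h b (by unfold Ball at h3; omega)
      (by unfold Ball at h3; omega)).trans h4⟩

lemma zone_iff {z : P2} {x y : Lab m n} (k₀ : ℕ)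
    (h : ∀ v : P2, z.1 - 5 ≤ v.1 → v.1 ≤ z.1 + 6 → ext y v = ext x v) :
    (Nr z k₀ x ↔ Nr z k₀ y) ∧ (∀ γ, PatZ z γ x ↔ PatZ z γ y) ∧
      (NM m n z.1 (ext x) ↔ NM m n z.1 (ext y)) := by
  have := box_iff (w := z) (x := x) (y := y) (fun p hp => h p (by unfold Box at hp; omega)
    (by unfold Box at hp; omega))
  exact ⟨or_congr this.2 (exists_congr (fun k => and_congr_right (fun _ =>
    ⟨far_iff h, far_iff (fun v a b => (h v a b).symm)⟩))), this.1,
    forall_congr' (fun τ => exists_congr (fun v => and_congr_right (fun _ =>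
      and_congr_right (fun _ => and_congr_right (fun _ => by rw [h v (by omega) (by omega)])))))⟩

lemma not_near_small {κ : Type} (Z : Finset κ) (z : κ → P2) {ρ k c : ℕ} (hk : 10000 ≤ k)
    (hk' : 1000 * ρ ≤ k) (hm : m ≤ ρ * k) (hn : k ≤ n) (hZ : Z.card = k / 120)
    (hz : ∀ j ∈ Z, Cen m n (z j) ∧ (64 * c : ℕ) ≤ (z j).1 ∧ (z j).1 + (64 * c : ℕ) ≤ m)
    (sep : ∀ j ∈ Z, ∀ i ∈ Z, j ≠ i → (z j).1 + 12 ≤ (z i).1 ∨ (z i).1 + 12 ≤ (z j).1) :
    (flt (OM m n) (fun x => Z.card / 4 ≤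
      (flt Z (fun j => ¬ Nr (z j) (2000 * (c + 1)) x)).card)).card * 2 ^ (c * k) ≤
      2 * (OM m n).card := by
  classical
  have a1 := slab_decay (m := m) (n := n) ((k - 1) / 2) (by omega) (16 * c)
  have a2 := many_decay (OM m n) (2 ^ (2000 * (c + 1)))
    (fun j x => NM m n (z j).1 (ext x) ∧ ¬ Nr (z j) (2000 * (c + 1)) x)
    (fun j x y => ∀ v, ¬ ((z j).1 - 5 ≤ (emb v).1 ∧ (emb v).1 ≤ (z j).1 + 6) → y v = x v) Z
    (fun j hj i hi hne x y e h => by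
      have := sep j hj i hi hne
      have := zone_iff (z := z i) (2000 * (c + 1)) (fun v _ _ => ext_congr e v (by omega))
      exact ⟨this.2.2.1 h.1, fun k => h.2 (this.1.2 k)⟩)
    (fun j hj Φ hΦ => far_step (hz j hj).1 _ Φ hΦ) (Z.card / 4)
  have a3 : flt (OM m n) (fun x => Z.card / 4 ≤
      (flt Z (fun j => ¬ Nr (z j) (2000 * (c + 1)) x)).card) ⊆ flt (OM m n) (EH (4 * (16 * c))) ∪
      flt (OM m n) (fun x => Z.card / 4 ≤ (flt Z (fun j => NM m n (z j).1 (ext x) ∧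
        ¬ Nr (z j) (2000 * (c + 1)) x)).card) := by
    intro x hx
    obtain ⟨h1, h2⟩ := mem_flt.1 hx
    by_cases e : EH (4 * (16 * c)) x
    · exact mem_union_left _ (mem_flt.2 ⟨h1, e⟩)
    refine mem_union_right _ (mem_flt.2 ⟨h1, h2.trans (card_le_card (fun j hj => ?_))⟩)
    rw [mem_flt] at hj ⊢
    refine ⟨hj.1, not_not.1 (fun h => e ?_), hj.2⟩
    unfold NM at h
    push Not at h
    obtain ⟨τ, h⟩ := h
    have := hz j hj.1
    obtain ⟨i, hi⟩ := row_sides (mem_OM.1 h1) (z j).1 (4 * (16 * c) : ℕ) (!τ) (by omega) (by omega)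
      (by omega) (fun v iv e => bne (h v iv (by omega) (by omega)))
    exact ⟨i, _, hi⟩
  have a4 := Nat.mul_le_mul_right (2 ^ (c * k)) ((card_le_card a3).trans (card_union_le _ _))
  have b1 : (flt (OM m n) (EH (4 * (16 * c)))).card * 2 ^ (c * k) ≤ (OM m n).card := by
    have e1 : m * 2 * 2 ^ (k / 8) ≤ 2 ^ ((k - 1) / 2) := (lin_le_pow (by omega) hk' hm).trans
      (Nat.pow_le_pow_right (by norm_num) (by omega))
    have e2 : 2 ^ (c * k) ≤ (2 ^ (k / 8)) ^ (16 * c) := by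
      rw [← pow_mul]
      refine Nat.pow_le_pow_right (by norm_num) ?_
      calc c * k ≤ c * (16 * (k / 8)) := Nat.mul_le_mul_left _ (by omega)
        _ = _ := by ring
    have m0 : 0 < m ∨ m = 0 := by omega
    rcases m0 with m0 | m0
    · refine Nat.le_of_mul_le_mul_right (c := (m * 2) ^ (16 * c)) (le_trans ?_ a1) (by positivity)
      rw [mul_assoc]
      refine Nat.mul_le_mul_left _ ((Nat.mul_le_mul_right _ e2).trans ?_)
      rw [← mul_pow, mul_comm]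
      exact Nat.pow_le_pow_left e1 _
    · obtain ⟨j, hj⟩ := card_pos.1 (show 0 < Z.card by omega)
      have := (hz j hj).1
      unfold Cen at this
      omega
  have b2 : (flt (OM m n) (fun x => Z.card / 4 ≤ (flt Z (fun j => NM m n (z j).1 (ext x) ∧
        ¬ Nr (z j) (2000 * (c + 1)) x)).card)).card * 2 ^ (c * k) ≤ (OM m n).card := by
    refine Nat.le_of_mul_le_mul_left (c := 2 ^ Z.card) (le_trans ?_ a2) (by positivity)
    rw [mul_left_comm, ← pow_add, ← pow_mul]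
    refine Nat.mul_le_mul_left _ (Nat.pow_le_pow_right (by norm_num) ?_)
    calc Z.card + c * k ≤ (c + 1) * k := by rw [add_mul, one_mul]; omega
      _ ≤ (c + 1) * (2000 * (Z.card / 4)) := Nat.mul_le_mul_left _ (by omega)
      _ = _ := by ring
  rw [add_mul] at a4
  omega

end Pool.Agent.Lib.MP_0350c1_lc
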