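import Pool.Agent.Lib.MP_0350c1_lc.Y6

namespace Pool.Agent.Lib.MP_0350c1_lc

open Finset

variable {m n : ℕ}

lemma no_conflict (X : Finset (Fin m × Fin n)) {z : P2} (hz : Cen m n z)
    (hX : ∀ u v, emb u = z → emb v = (z.1, z.2 + 1) → (u ∈ X ↔ v ∉ X)) :
    ∃ g : ℤ, (g = 6 ∨ g = 8) ∧ ∀ x y : Lab m n, VZ m n (ext (mix X x y)) →
      ¬ (PatZ z g x ∧ PatZ z (14 - g) y) := by
  unfold Cen at hz
  have i1 : In m n (z.1 - 6 + 6, z.2 - 6 + 6) := by unfold In; dsimp only; omega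
  have i2 : In m n (z.1 - 6 + 6, z.2 - 6 + 7) := by unfold In; dsimp only; omega
  have hx := hX (cell _ i1) (cell _ i2) (by rw [emb_cell]; simp) (by
    rw [emb_cell]; exact Prod.ext (by simp) (by dsimp only; omega))
  by_cases hin : cell _ i1 ∈ X
  · refine ⟨6, Or.inl rfl, fun x y h k => conflict (by omega) k.1 k.2 (fun v iv => ?_) ?_ ?_ h⟩
    · rw [ext_mix _ _ _ _ iv]; split_ifs <;> simp
    · rw [ext_mix _ _ _ _ i1, if_pos hin]
    · rw [ext_mix _ _ _ _ i2, if_neg (hx.1 hin)]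
  · refine ⟨8, Or.inr rfl, fun x y h k => conflict (by omega) k.2 k.1 (fun v iv => ?_) ?_ ?_ h⟩
    · rw [ext_mix _ _ _ _ iv]; split_ifs <;> simp
    · rw [ext_mix _ _ _ _ i1, if_neg hin]
    · rw [ext_mix _ _ _ _ i2, if_pos (not_not.1 (fun h => hin (hx.2 h)))]

/-- valid colourings with a condition on the size of the first class -/
noncomputable def QB (m n : ℕ) (Bal : ℕ → Prop) : Finset (Lab m n) :=
  flt (OM m n) (fun x => Bal (wt true x))

theorem pair_sites2 (ρ : ℕ) (hρ : 1 ≤ ρ) : ∃ (δ : ℝ) (k₁ o : ℕ), 0 < δ ∧ δ ≤ 1 ∧ ∀ k, k₁ ≤ k →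
    ∀ m n : ℕ, k ≤ m ∧ m ≤ ρ * k → k ≤ n ∧ n ≤ ρ * k → ∀ Bal : ℕ → Prop, Bal (m * n / 2) →
    ∀ (κ : Type) (Z : Finset κ) (z : κ → P2) (X : Finset (Fin m × Fin n)), Z.card = k / 120 →
      (∀ j ∈ Z, Cen m n (z j) ∧ o ≤ (z j).1 ∧ (z j).1 + o ≤ m) →
      (∀ j ∈ Z, ∀ u v, emb u = z j → emb v = ((z j).1, (z j).2 + 1) → (u ∈ X ↔ v ∉ X)) →
      (∀ j ∈ Z, ∀ i ∈ Z, j ≠ i → (z j).1 + 12 ≤ (z i).1 ∨ (z i).1 + 12 ≤ (z j).1) →
      (cnt (QB m n Bal) (fun x y => VZ m n (ext (mix X x y))) : ℝ) ≤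
        (2 / (1 + δ) ^ (k / 240) + 4 / 2 ^ k) * ((QB m n Bal).card : ℝ) ^ 2 := by
  classical
  obtain ⟨c, hc⟩ : ∃ c, c = 3100 * ρ + 1 := ⟨_, rfl⟩
  obtain ⟨k₀, hk₀⟩ : ∃ k₀, k₀ = 2000 * (c + 1) := ⟨_, rfl⟩
  obtain ⟨β, hβ⟩ : ∃ β, β = 12 * (2 * k₀ + 12) := ⟨_, rfl⟩
  obtain ⟨C, hC⟩ : ∃ C : ℕ, C = 2 * (β + 1) * (2 ^ 160) ^ β * 2 ^ β := ⟨_, rfl⟩
  have C1 : (1 : ℝ) ≤ C := by
    have : 0 < C := by rw [hC]; positivity
    exact_mod_cast this
  have δ1 : 1 / (C : ℝ) ^ 2 ≤ 1 := by rw [div_le_one (by positivity)]; nlinarith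
  refine ⟨1 / (C : ℝ) ^ 2, 720 * 2 ^ 160 * (3200 * ρ + β) + 10000 + 1000 * ρ, 64 * c, by positivity,
    δ1, fun k hk m n hm hn Bal hB κ Z z X hZ hz hX sep => ?_⟩
  have hk1 : 10000 ≤ k := le_trans (by omega) hk
  have hk2 : 1000 * ρ ≤ k := le_trans (by omega) hk
  obtain ⟨T, hT, hzT, t1, t2⟩ := tiles_exist Z (fun j => (z j).1) k (by omega) hm.1 hn.1 (by omega)
  obtain ⟨g, s, g1, g2, g3, g4⟩ := good_facts hT k (3200 * ρ + β) (by omega) hm.1 hn.1 t1 t2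
    (by omega) (le_trans (by omega) hk)
  have g5 : 3200 * (ρ * k) + β ≤ g := by
    have : β ≤ β * k := Nat.le_mul_of_pos_right _ (by omega)
    rw [add_mul, mul_assoc] at g3; omega
  have ρk : k ≤ ρ * k := Nat.le_mul_of_pos_left _ hρ
  have hd := dens_bound hT hρ (by omega) hk2 hm hn g1 g2 (by omega) g4 Bal hB
  have hf := not_near_small (c := c) Z z hk1 hk2 hm.2 hn.1 hZ hz sep
  rw [← hk₀] at hf
  have ex : ∀ j, ∃ g : ℤ, (g = 6 ∨ g = 8) ∧ (j ∈ Z → ∀ x y : Lab m n, VZ m n (ext (mix X x y)) →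
      ¬ (PatZ (z j) g x ∧ PatZ (z j) (14 - g) y)) := fun j => by
    by_cases hj : j ∈ Z
    · obtain ⟨g, h1, h2⟩ := no_conflict X (hz j hj).1 (hX j hj)
      exact ⟨g, h1, fun _ => h2⟩
    · exact ⟨6, Or.inl rfl, fun h => absurd h hj⟩
  choose γ γ1 γ2 using ex
  set E : κ → Lab m n → Lab m n → Prop := fun j x y => ∀ i ∈ Z, i ≠ j → ∀ v : P2,
    (z i).1 - 5 ≤ v.1 → v.1 ≤ (z i).1 + 6 → ext y v = ext x v with hE
  have fe : ∀ j ∈ Z, ∀ γ : ℤ, (γ = 6 ∨ γ = 8) → ∀ Φ : Lab m n → Prop,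
      (∀ x y, E j x y → Φ x → Φ y) →
      (flt (QB m n Bal) (fun x => (Nr (z j) k₀ x ∧ Good T s x) ∧ Φ x)).card ≤
        (flt (QB m n Bal) (fun x => PatZ (z j) γ x ∧ Φ x)).card * C := by
    intro j hj γ hγ Φ hΦ
    rw [hC, hβ]
    refine fe_bal hT (hz j hj).1 (hzT j hj) (by omega) k₀ g (2 ^ 160) s g1 Nat.one_le_two_pow
      (by omega) Bal Φ (fun x y e => hΦ x y (fun i hi hne v _ _ => ext_congr e v ?_))
      (fun w hw x y e => hΦ x y (fun i hi hne v _ _ => ext_agree e v (fun u hu k => ?_)))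
    · have := sep i hi j hj hne
      omega
    · have := hzT i hi w hw
      rw [mem_cells, k] at hu
      omega
  have pa := pair_avoid2 (QB m n Bal) C (1 + 1 / (C : ℝ) ^ 2) (by simp) (by linarith)
    (by rw [add_sub_cancel_left, one_div_mul_cancel (by positivity)]; simp)
    (fun j x => Nr (z j) k₀ x) (fun j x => PatZ (z j) (γ j) x)
    (fun j x => PatZ (z j) (14 - γ j) x) (Good T s) E Z
    (fun j hj i hi hne x y e => by
      have := zone_iff (z := z i) k₀ (e i hi hne.symm)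
      exact ⟨this.1, this.2.1 _, this.2.1 _⟩)
    (fun j _ x h => Or.inl (two_of_pat (by have := γ1 j; omega) h))
    (fun j _ x h => Or.inl (two_of_pat (by have := γ1 j; omega) h))
    (fun j hj => fe j hj _ (γ1 j)) (fun j hj => fe j hj _ (by have := γ1 j; omega)) (k / 240)
  set Q := QB m n Bal with hQ
  set FN : Lab m n → Prop := fun x => Z.card / 4 ≤ (flt Z (fun j => ¬ Nr (z j) k₀ x)).card with hFN
  have h2 : cnt Q (fun x _ => FN x) = (flt Q FN).card * Q.card := by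
    rw [cnt_swap, cnt_flt, sum_const, smul_eq_mul, mul_comm]
  have h3 := cnt_split Q (fun x y => VZ m n (ext (mix X x y))) (fun x _ => FN x)
  have h4 := cnt_split Q (fun x y => VZ m n (ext (mix X x y)) ∧ ¬ FN x) (fun _ y => FN y)
  have h5 : cnt Q (fun x y => VZ m n (ext (mix X x y)) ∧ FN x) ≤ cnt Q (fun x _ => FN x) :=
    cnt_mono _ (fun _ _ _ _ h => h.2)
  have h6 : cnt Q (fun x y => (VZ m n (ext (mix X x y)) ∧ ¬ FN x) ∧ FN y) ≤
      cnt Q (fun x _ => FN x) := by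
    rw [cnt_swap]; exact cnt_mono _ (fun _ _ _ _ h => h.2)
  have h7 : cnt Q (fun x y => (VZ m n (ext (mix X x y)) ∧ ¬ FN x) ∧ ¬ FN y) ≤
      cnt Q (fun x y => (∀ j ∈ Z, ¬ (PatZ (z j) (γ j) x ∧ PatZ (z j) (14 - γ j) y)) ∧
        k / 240 ≤ (flt Z (fun j => Nr (z j) k₀ x ∧ Nr (z j) k₀ y)).card) := by
    refine cnt_mono _ (fun x _ y _ h => ⟨fun j hj => γ2 j hj x y h.1.1, ?_⟩)
    have a1 : Z ⊆ flt Z (fun j => Nr (z j) k₀ x ∧ Nr (z j) k₀ y) ∪
        flt Z (fun j => ¬ Nr (z j) k₀ x) ∪ flt Z (fun j => ¬ Nr (z j) k₀ y) := fun j hj => by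
      simp only [mem_union, mem_flt]; tauto
    have a2 := (card_le_card a1).trans ((card_union_le _ _).trans
      (Nat.add_le_add_right (card_union_le _ _) _))
    have a3 := h.1.2
    have a4 := h.2
    simp only [hFN] at a3 a4
    omega
  have sub : ∀ P, (flt Q P).card ≤ (flt (OM m n) P).card := fun P => card_le_card (fun x hx => by
    simp only [hQ, QB, mem_flt] at hx ⊢; exact ⟨hx.1.1, hx.2⟩)
  have h8 : (flt Q FN).card * 2 ^ k ≤ 2 * Q.card := by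
    refine Nat.le_of_mul_le_mul_right (c := 2 ^ (3100 * (ρ * k))) ?_ (by positivity)
    rw [mul_assoc, ← pow_add, show k + 3100 * (ρ * k) = c * k by rw [hc]; ring, mul_assoc]
    exact ((Nat.mul_le_mul_right _ (sub FN)).trans hf).trans (Nat.mul_le_mul_left _ hd)
  have h9 : Z.card * 2 ^ Z.card * (2 * (flt Q (fun x => ¬ Good T s x)).card) ≤ Q.card := by
    refine Nat.le_of_mul_le_mul_right (c := 2 ^ s) ?_ (by positivity)
    have a1 := ((Nat.mul_le_mul_right _ (sub _)).trans g4).trans (Nat.mul_le_mul_left _ hd)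
    have a2 : Z.card * 2 ^ Z.card * 8 * 2 ^ (3100 * (ρ * k)) ≤ 2 ^ s := by
      calc _ ≤ 2 ^ Z.card * 2 ^ Z.card * 2 ^ 3 * 2 ^ (3100 * (ρ * k)) := by
            gcongr
            · exact Nat.lt_two_pow_self.le
            · norm_num
        _ ≤ _ := by
            rw [← pow_add, ← pow_add, ← pow_add]
            exact Nat.pow_le_pow_right (by norm_num) (by omega)
    calc _ = Z.card * 2 ^ Z.card * 2 * ((flt Q (fun x => ¬ Good T s x)).card * 2 ^ s) := by ring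
      _ ≤ Z.card * 2 ^ Z.card * 2 * (4 * (Q.card * 2 ^ (3100 * (ρ * k)))) :=
        Nat.mul_le_mul_left _ (a1.trans (Nat.mul_le_mul_right _ (by norm_num)))
      _ = Q.card * (Z.card * 2 ^ Z.card * 8 * 2 ^ (3100 * (ρ * k))) := by ring
      _ ≤ _ := Nat.mul_le_mul_left _ a2
  have h10 := (Nat.cast_le (α := ℝ)).2 (h3.symm.le.trans (Nat.add_le_add h5
    (h4.symm.le.trans (Nat.add_le_add h6 h7))))
  rw [h2] at h10
  have h8' : ((flt Q FN).card : ℝ) ≤ 2 * Q.card / 2 ^ k := by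
    rw [le_div_iff₀ (by positivity)]; exact_mod_cast h8
  have h9' : (Z.card : ℝ) * 2 ^ Z.card * (2 * (flt Q (fun x => ¬ Good T s x)).card) ≤ Q.card := by
    exact_mod_cast h9
  have q0 : (0 : ℝ) ≤ Q.card := Nat.cast_nonneg _
  have h11 := mul_le_mul_of_nonneg_right h8' q0
  have h12 := mul_le_mul_of_nonneg_right h9' q0
  rw [← le_div_iff₀ (by positivity)] at pa
  have h13 := pa.trans (div_le_div_of_nonneg_right (b := 2 * (Q.card : ℝ) ^ 2)
    (by linarith only [h12])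
    (by positivity))
  push_cast at h10
  have : (2 / (1 + 1 / (C : ℝ) ^ 2) ^ (k / 240) + 4 / 2 ^ k) * (Q.card : ℝ) ^ 2 =
    2 * (Q.card : ℝ) ^ 2 / (1 + 1 / (C : ℝ) ^ 2) ^ (k / 240) +
      2 * (2 * Q.card / 2 ^ k * Q.card) := by ring
  rw [this]
  linarith

def inn2 {a b : ℕ} (o : ℕ) (ha : a + 2 * o ≤ m) (hb : b + 2 * o ≤ n) (μ : Fin a × Fin b) :
    Fin m × Fin n :=
  (⟨o + μ.1.val, by have := μ.1.isLt; omega⟩, ⟨o + μ.2.val, by have := μ.2.isLt; omega⟩)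

lemma wt_swap (x : Lab m n) : wt true (fun v : Fin n × Fin m => x v.swap) = wt true x :=
  card_bij (fun v _ => v.swap) (by simp) (fun _ _ _ _ h => Prod.swap_injective h)
    (fun v hv => ⟨v.swap, by simpa using hv, rfl⟩)

lemma qb_swap {Bal : ℕ → Prop} {x : Lab m n} (h : x ∈ QB m n Bal) :
    (fun v : Fin n × Fin m => x v.swap) ∈ QB n m Bal := by
  simp only [QB, mem_flt, mem_OM, wt_swap] at h ⊢
  exact ⟨vz_swap h.1, h.2⟩

theorem pair_bound2 (ρ : ℕ) (hρ : 1 ≤ ρ) : ∃ (δ : ℝ) (k₁ o : ℕ), 0 < δ ∧ δ ≤ 1 ∧ 4 * o + 8 ≤ k₁ ∧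
    ∀ k, k₁ ≤ k → ∀ m n : ℕ, k ≤ m ∧ m ≤ ρ * k → k ≤ n ∧ n ≤ ρ * k → ∀ Bal : ℕ → Prop,
    Bal (m * n / 2) → ∀ (a b : ℕ) (ha : a + 2 * o = m) (hb : b + 2 * o = n)
      (X : Finset (Fin m × Fin n)),
      a * b ≤ 3 * (univ.filter (fun μ => inn2 o ha.le hb.le μ ∈ X)).card →
      3 * (univ.filter (fun μ => inn2 o ha.le hb.le μ ∈ X)).card ≤ 2 * (a * b) →
      (cnt (QB m n Bal) (fun x y => VZ m n (ext (mix X x y))) : ℝ) ≤
        (2 / (1 + δ) ^ (k / 240) + 4 / 2 ^ k) * ((QB m n Bal).card : ℝ) ^ 2 := by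
  classical
  obtain ⟨δ, k₁, o, δ0, δ1, H⟩ := pair_sites2 ρ hρ
  have rows : ∀ k, k₁ ≤ k → ∀ m n : ℕ, k ≤ m ∧ m ≤ ρ * k → k ≤ n ∧ n ≤ ρ * k → ∀ Bal : ℕ → Prop,
      Bal (m * n / 2) → ∀ (a b : ℕ) (ha : a + 2 * (o + 8) ≤ m) (hb : b + 2 * (o + 8) ≤ n)
      (X : Finset (Fin m × Fin n)) (R : Finset (Fin a)), k ≤ 10 * R.card →
      (∀ i ∈ R, ∃ j j' : Fin b, inn2 _ ha hb (i, j) ∈ X ∧ inn2 _ ha hb (i, j') ∉ X) →
      (cnt (QB m n Bal) (fun x y => VZ m n (ext (mix X x y))) : ℝ) ≤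
        (2 / (1 + δ) ^ (k / 240) + 4 / 2 ^ k) * ((QB m n Bal).card : ℝ) ^ 2 := by
    intro k hk m n hm hn Bal hB a b ha hb X R hRc hR
    have ex : ∀ i : Fin a, ∃ q : ℕ, i ∈ R → ∃ k k' : Fin b, k.val = q ∧ k'.val = k.val + 1 ∧
        (inn2 _ ha hb (i, k) ∈ X ↔ inn2 _ ha hb (i, k') ∉ X) := by
      intro i
      by_cases hi : i ∈ R
      · obtain ⟨j, j', hj, hj'⟩ := hR i hi
        obtain ⟨k, k', h⟩ := exists_jump (fun j => inn2 _ ha hb (i, j) ∈ X) j j' hj hj'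
        exact ⟨k, fun _ => ⟨k, k', rfl, h⟩⟩
      · exact ⟨0, fun h => absurd h hi⟩
    choose q hq using ex
    obtain ⟨R', hR', hc, hs⟩ := exists_sparse R 12 (by norm_num)
    obtain ⟨Z, hZ, hZc⟩ := exists_subset_card_eq (s := R') (n := k / 120) (by omega)
    refine H k hk m n hm hn Bal hB _ Z (fun i => (o + 8 + (i.val : ℤ), o + 8 + (q i : ℤ))) X hZc
      (fun i hi => ?_) (fun i hi u v e1 e2 => ?_) (fun i hi i' hi' hne => ?_)
    · obtain ⟨k, k', h1, h2, -⟩ := hq i (hR' (hZ hi))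
      have := i.isLt
      have := k.isLt
      unfold Cen; dsimp only; omega
    · obtain ⟨k, k', h1, h2, h3⟩ := hq i (hR' (hZ hi))
      have f1 : u = inn2 _ ha hb (i, k) := emb_inj (by
        rw [e1]; simp only [emb, inn2, Prod.mk.injEq]; omega)
      have f2 : v = inn2 _ ha hb (i, k') := emb_inj (by
        rw [e2]; simp only [emb, inn2, Prod.mk.injEq]; omega)
      rw [f1, f2]; exact h3
    · have := hs i (hZ hi) i' (hZ hi') hne
      dsimp only; omega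
  refine ⟨δ, k₁ + (4 * (o + 8) + 8), o + 8, δ0, δ1, by omega,
    fun k hk m n hm hn Bal hB a b ha hb X h1 h2 => ?_⟩
  rcases mixed_lines _ h1 h2 (by omega) with h | h
  · have k1 := rows k (by omega) n m hn hm Bal (by rwa [mul_comm]) b a hb.le ha.le
      (X.image Prod.swap) univ (by simp; omega) (fun j _ => by
      obtain ⟨i, i', hi, hi'⟩ := h j
      simp only [mem_filter, mem_univ, true_and] at hi hi'
      refine ⟨i, i', mem_image.2 ⟨_, hi, rfl⟩, fun h => hi' ?_⟩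
      obtain ⟨u, hu, e⟩ := mem_image.1 h
      have : u = inn2 _ ha.le hb.le (i', j) := by rw [← Prod.swap_swap u, e]; rfl
      exact this ▸ hu)
    have k2 : cnt (QB m n Bal) (fun x y => VZ m n (ext (mix X x y))) ≤
        cnt (QB n m Bal) (fun x y => VZ n m (ext (mix (X.image Prod.swap) x y))) := by
      refine card_le_card_of_injOn (fun w => (fun v => w.1 v.swap, fun v => w.2 v.swap))
        (fun w hw => ?_) (fun w _ w' _ e => ?_)
      · simp only [coe_filter, mem_product, Set.mem_ofPred_eq] at hw ⊢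
        refine ⟨⟨qb_swap hw.1.1, qb_swap hw.1.2⟩, ?_⟩
        have : mix (X.image Prod.swap) (fun v => w.1 v.swap) (fun v => w.2 v.swap) =
            fun v => mix X w.1 w.2 v.swap := by
          funext v
          have : v ∈ X.image Prod.swap ↔ v.swap ∈ X :=
            ⟨fun h => by obtain ⟨u, hu, rfl⟩ := mem_image.1 h; simpa using hu,
              fun h => mem_image.2 ⟨_, h, by simp⟩⟩
          simp only [mix, this]
        rw [this]; exact vz_swap hw.2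
      · simp only [Prod.mk.injEq] at e
        exact Prod.ext (swap_inj e.1) (swap_inj e.2)
    have k3 : (QB n m Bal).card ≤ (QB m n Bal).card :=
      card_le_card_of_injOn (fun x v => x v.swap) (fun _ hx => qb_swap hx) swap_inj.injOn
    refine ((Nat.cast_le.2 k2).trans k1).trans ?_
    gcongr
  · exact rows k (by omega) m n hm hn Bal hB a b ha.le hb.le X (univ.filter (fun i : Fin a =>
      ∃ j j' : Fin b, (i, j) ∈ univ.filter (fun μ => inn2 _ ha.le hb.le μ ∈ X) ∧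
        (i, j') ∉ univ.filter (fun μ => inn2 _ ha.le hb.le μ ∈ X))) (by omega)
      (fun i hi => by simpa using hi)

theorem balanced_main (ρ : ℕ) : ∃ c : ℝ, 0 < c ∧ ∃ k₀ : ℕ, ∀ m n : ℕ, k₀ ≤ m → k₀ ≤ n →
    m ≤ ρ * n → n ≤ ρ * m → ∀ D : ℝ, 1 ≤ D → ∀ Q : Finset (Sym2 (Finset (Fin m × Fin n))),
      (∀ π, π ∈ Q ↔ IsPart (grid m n) π ∧
        ∃ A B : Finset (Fin m × Fin n), π = s(A, B) ∧ |(A.card : ℝ) - B.card| ≤ D) →
      ∀ (s : ℕ) (C : Circuit (Fin m × Fin n) s) (r : Fin s), C.scope r = univ →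
        1 - (s + 1) / 2 ^ (c * (min m n : ℕ)) ≤ tv (push classes (C.val r)) (unif Q) := by
  classical
  obtain ⟨δ, k₁, o, δ0, δ1, ho, H⟩ := pair_bound2 (ρ + 1) (by omega)
  obtain ⟨k₂, hk₂⟩ := exists_nat_ge (3 / (δ / 2880))
  refine ⟨δ / 2880, by positivity, k₁ + k₂ + 240,
    fun m n hm hn h1 h2 D hD Q hQ s C r hr => ?_⟩
  set k := min m n with hk
  have ρ1 : m ≤ (ρ + 1) * k ∧ n ≤ (ρ + 1) * k := by
    rw [add_mul, one_mul]
    rcases le_total m n with h | h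
    · rw [hk, min_eq_left h]; omega
    · rw [hk, min_eq_right h]; omega
  set Bal : ℕ → Prop := fun a => |(a : ℝ) - ((m * n - a : ℕ) : ℝ)| ≤ D with hBal
  have hB : Bal (m * n / 2) := by
    refine le_trans ?_ hD
    rw [abs_le]
    have a1 : ((m * n / 2 : ℕ) : ℝ) ≤ ((m * n - m * n / 2 : ℕ) : ℝ) := by exact_mod_cast (by omega)
    have a2 : ((m * n - m * n / 2 : ℕ) : ℝ) ≤ ((m * n / 2 : ℕ) : ℝ) + 1 := by
      exact_mod_cast (by omega)
    constructor <;> linarith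
  have eQ : univ.filter (fun x => classes x ∈ Q) = QB m n Bal := by
    ext x
    have e : m * n - wt true x = wt false x := by have := wt_add x; omega
    simp only [mem_filter, mem_univ, true_and, hQ, QB, mem_flt, mem_OM, isPart_iff, valid_iff, hBal,
      e]
    refine and_congr_right (fun _ => ⟨?_, fun h => ⟨_, _, rfl, h⟩⟩)
    rintro ⟨A, B, e, h⟩
    rcases Sym2.eq_iff.1 e with ⟨rfl, rfl⟩ | ⟨rfl, rfl⟩
    · exact h
    · rw [abs_sub_comm]; exact h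
  obtain ⟨a, ha⟩ : ∃ a, a + 2 * o = m := ⟨m - 2 * o, by omega⟩
  obtain ⟨b, hb⟩ : ∃ b, b + 2 * o = n := ⟨n - 2 * o, by omega⟩
  have hι : Function.Injective (inn2 o ha.le hb.le) := by
    intro μ μ' h
    simp only [inn2, Prod.mk.injEq, Fin.mk.injEq] at h
    exact Prod.ext (Fin.ext (by omega)) (Fin.ext (by omega))
  have hMc : (univ.image (inn2 o ha.le hb.le)).card = a * b := by
    rw [card_image_of_injective _ hι]; simp
  have hne : (QB m n Bal).Nonempty := by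
    obtain ⟨ω⟩ : Nonempty (Idx 0 0 → Bool) := inferInstance
    have a1 := col_valid (a := 0) (b := 0) (m := m) (n := n) (by omega) (by omega) ω
    obtain ⟨A, B, e, h⟩ := col_bal (a := 0) (b := 0) (m := m) (n := n) (by omega) (by omega) ω
    refine ⟨col m n ω, ?_⟩
    rw [← eQ]
    refine mem_filter.2 ⟨mem_univ _, (hQ _).2 ⟨(isPart_iff _ _).2 a1, A, B, e, le_trans ?_ hD⟩⟩
    exact_mod_cast h
  set u : ℝ := 2 ^ (δ / 2880 * k) with hu
  have u6 : 6 ≤ u := by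
    have : (3 : ℝ) ≤ δ / 2880 * k := by
      rw [div_le_iff₀ (by positivity)] at hk₂
      have : (k₂ : ℝ) ≤ k := by exact_mod_cast (by omega)
      nlinarith
    have := Real.rpow_le_rpow_of_exponent_le (x := 2) (by norm_num) this
    norm_num at this
    linarith
  have u3 : u ^ 6 = 2 ^ (δ / 480 * k) := by
    rw [hu, ← Real.rpow_natCast, ← Real.rpow_mul (by norm_num)]; congr 1; push_cast; ring
  have e1 : u ^ 6 ≤ (1 + δ) ^ (k / 240) := by
    have a1 := rpow_one_add_le_one_add_mul_self (s := 1) (by norm_num) δ0.le δ1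
    rw [one_add_one_eq_two, mul_one] at a1
    refine le_trans ?_ (pow_le_pow_left₀ (by positivity) a1 _)
    rw [u3, ← Real.rpow_natCast, ← Real.rpow_mul (by norm_num)]
    refine Real.rpow_le_rpow_of_exponent_le (by norm_num) ?_
    have : (k : ℝ) ≤ 480 * ((k / 240 : ℕ) : ℝ) := by exact_mod_cast (by omega)
    nlinarith
  have e2 : u ^ 6 ≤ 2 ^ k := by
    rw [u3, ← Real.rpow_natCast]
    refine Real.rpow_le_rpow_of_exponent_le (by norm_num) ?_
    have : (0 : ℝ) ≤ k := by positivity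
    nlinarith
  obtain ⟨B, -, b2, b3⟩ := core2 C (univ.image (inn2 o ha.le hb.le)) (by
    rw [hMc]; exact Nat.mul_le_mul (show 2 ≤ a by omega) (show 1 ≤ b by omega)) r hr (QB m n Bal)
    (ε := 6 / u ^ 6) (t := u ^ 2) (by positivity) hne (fun X h1 h2 => by
      have hc : (X ∩ univ.image (inn2 o ha.le hb.le)).card =
          (univ.filter (fun μ => inn2 o ha.le hb.le μ ∈ X)).card := by
        rw [← card_image_of_injective _ hι]
        congr 1; ext w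
        simp only [mem_inter, mem_image, mem_univ, true_and, mem_filter]
        constructor
        · rintro ⟨h1, μ, rfl⟩; exact ⟨μ, h1, rfl⟩
        · rintro ⟨μ, h1, rfl⟩; exact ⟨h1, μ, rfl⟩
      rw [hc, hMc] at h1 h2
      refine le_trans (Nat.cast_le.2 (cnt_mono _ (fun x _ y _ hxy => mem_OM.1 (mem_flt.1 hxy).1)))
        ((H k (by omega) m n ⟨by omega, ρ1.1⟩ ⟨by omega, ρ1.2⟩ Bal hB a b ha hb X h1 h2).trans ?_)
      have a1 : 2 / (1 + δ) ^ (k / 240) ≤ 2 / u ^ 6 := by gcongr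
      have a2 : 4 / 2 ^ k ≤ 4 / u ^ 6 := by gcongr
      have a3 : 6 / u ^ 6 = 2 / u ^ 6 + 4 / u ^ 6 := by ring
      gcongr; linarith)
  rw [← eQ] at b2 b3 hne
  refine le_trans (sub_le_sub_left ?_ 1) (tv_of_core C r hr Q (by
    obtain ⟨x, hx⟩ := hne
    exact ⟨_, (mem_filter.1 hx).2⟩) B (by positivity) b2 b3)
  have : 4 * s / u ^ 2 + (u ^ 2) ^ 2 * (6 / u ^ 6) = (4 * s + 6) / u / u := by field_simp
  rw [this]
  gcongr
  rw [div_le_iff₀ (by positivity)]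
  have : (0 : ℝ) ≤ s := by positivity
  nlinarith

end Pool.Agent.Lib.MP_0350c1_lc
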