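import Mathlib

/-! Two-colourings of a rectangle of the integer lattice: parity lemma, no checkerboards,
boundary arcs. -/

namespace Pool.Agent.Lib.MP_0350c1_lc

open Relation

abbrev P2 := ℤ × ℤ

def In (M N : ℤ) (v : P2) : Prop := 0 ≤ v.1 ∧ v.1 < M ∧ 0 ≤ v.2 ∧ v.2 < N

def Adj (u v : P2) : Prop :=
  ((u.1 + 1 = v.1 ∨ v.1 + 1 = u.1) ∧ u.2 = v.2) ∨ ((u.2 + 1 = v.2 ∨ v.2 + 1 = u.2) ∧ u.1 = v.1)

lemma Adj.symm {u v : P2} (h : Adj u v) : Adj v u := by unfold Adj at *; omega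

def St (M N : ℤ) (c : P2 → Bool) (u v : P2) : Prop := In M N u ∧ In M N v ∧ Adj u v ∧ c u = c v

abbrev Rch (M N : ℤ) (c : P2 → Bool) : P2 → P2 → Prop := ReflTransGen (St M N c)

variable {M N : ℤ} {c : P2 → Bool}

lemma St.symm {u v : P2} (h : St M N c u v) : St M N c v u :=
  ⟨h.2.1, h.1, h.2.2.1.symm, h.2.2.2.symm⟩

lemma Rch.symm {u v : P2} (h : Rch M N c u v) : Rch M N c v u := by
  induction h with
  | refl => exact ReflTransGen.refl
  | tail _ h ih => exact ReflTransGen.head h.symm ih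

lemma Rch.col {u v : P2} (h : Rch M N c u v) : c u = c v := by
  induction h with
  | refl => rfl
  | tail _ h ih => exact ih.trans h.2.2.2

lemma Rch.mem {u v : P2} (h : Rch M N c u v) (hu : In M N u) : In M N v := by
  induction h with
  | refl => exact hu
  | tail _ h _ => exact h.2.1

lemma Rch.step {u v : P2} (h1 : In M N u) (h2 : In M N v) (h3 : Adj u v) (h4 : c u = c v) :
    Rch M N c u v := ReflTransGen.single ⟨h1, h2, h3, h4⟩

/-- the colour class of `κ` is connected -/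
def Conn (M N : ℤ) (c : P2 → Bool) (κ : Bool) : Prop :=
  ∀ u v, In M N u → In M N v → c u = κ → c v = κ → Rch M N c u v

def VZ (M N : ℤ) (c : P2 → Bool) : Prop := ∀ κ, (∃ u, In M N u ∧ c u = κ) ∧ Conn M N c κ

/-- first exit from a set along a monochromatic path -/
lemma Rch.exit {u v : P2} (h : Rch M N c u v) (S : P2 → Prop) (hu : S u) (hv : ¬ S v) :
    ∃ p q, Rch M N c u p ∧ (∀ c' : P2 → Bool, (∀ w, S w → c w = c u → c' w = c u) →
      Rch M N c' u p) ∧ S p ∧ ¬ S q ∧ St M N c p q := by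
  induction h using ReflTransGen.head_induction_on with
  | refl => exact absurd hu hv
  | @head a b h1 _ ih =>
    by_cases hb : S b
    · obtain ⟨p, q, r1, r2, r3⟩ := ih hb
      refine ⟨p, q, ReflTransGen.head h1 r1, fun c' hc' => ReflTransGen.head
        ⟨h1.1, h1.2.1, h1.2.2.1, ?_⟩ (r2 c' ?_), r3⟩
      · rw [hc' a hu rfl, hc' b hb h1.2.2.2.symm]
      · rw [← h1.2.2.2]; exact hc'
    · exact ⟨a, b, ReflTransGen.refl, fun _ _ => ReflTransGen.refl, hu, hb, h1⟩

lemma Rch.mono {u v : P2} (h : Rch M N c u v) {c' : P2 → Bool}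
    (hc : ∀ w, In M N w → c w = c u → c' w = c u) : Rch M N c' u v := by
  induction h with
  | refl => exact ReflTransGen.refl
  | @tail a b h0 h1 ih =>
    have e := Rch.col h0
    refine ih.tail ⟨h1.1, h1.2.1, h1.2.2.1, ?_⟩
    rw [hc a h1.1 e.symm, hc b h1.2.1 (h1.2.2.2.symm.trans e.symm)]

/-- a monochromatic rectangle, seen through a chart -/
lemma rect_reach (ψ : P2 → P2) (hψ : ∀ u v, Adj u v → Adj (ψ u) (ψ v)) {κ : Bool}
    {a b a' b' : ℤ} (h : ∀ s t, a ≤ s → s ≤ a' → b ≤ t → t ≤ b' →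
      In M N (ψ (s, t)) ∧ c (ψ (s, t)) = κ) {s t s' t' : ℤ} (h1 : a ≤ s) (h2 : s ≤ a') (h3 : b ≤ t)
    (h4 : t ≤ b') (h5 : a ≤ s') (h6 : s' ≤ a') (h7 : b ≤ t') (h8 : t' ≤ b') :
    Rch M N c (ψ (s, t)) (ψ (s', t')) := by
  have key : ∀ k : ℕ, ∀ s t, a ≤ s → s ≤ a' → b ≤ t → t ≤ b' → (s - a) + (t - b) = k →
      Rch M N c (ψ (s, t)) (ψ (a, b)) := by
    intro k
    induction k with
    | zero =>
      intro s t _ _ _ _ e
      have e1 : s = a := by omega
      have e2 : t = b := by omega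
      rw [e1, e2]
    | succ k ih =>
      intro s t h1 h2 h3 h4 e
      have hs := h s t h1 h2 h3 h4
      by_cases hsa : s = a
      · have hs' := h s (t - 1) h1 h2 (by omega) (by omega)
        exact ReflTransGen.head ⟨hs.1, hs'.1, hψ _ _ (by unfold Adj; simp), hs.2.trans hs'.2.symm⟩
          (ih s (t - 1) h1 h2 (by omega) (by omega) (by omega))
      · have hs' := h (s - 1) t (by omega) (by omega) h3 h4
        exact ReflTransGen.head ⟨hs.1, hs'.1, hψ _ _ (by unfold Adj; simp), hs.2.trans hs'.2.symm⟩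
          (ih (s - 1) t (by omega) (by omega) h3 h4 (by omega))
  exact (key ((s - a) + (t - b)).toNat s t h1 h2 h3 h4 (by omega)).trans
    (Rch.symm (key ((s' - a) + (t' - b)).toNat s' t' h5 h6 h7 h8 (by omega)))

/-- parity of the number of crossings of a path with a ray -/
structure Par (B : P2 → Prop) (u v : P2) (φ : ℤ → ℤ → ℤ) : Prop where
  H : ∀ x y, ¬ B (x + 1, y) → φ x y % 2 = φ (x + 1) y % 2
  V : ∀ x y, ¬ B (x, y + 1) → (φ x y + φ x (y + 1)) % 2 =
    ((if u.2 = y + 1 ∧ x < u.1 then 1 else 0) + if v.2 = y + 1 ∧ x < v.1 then 1 else 0) % 2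
  R : ∀ x y, (∀ p, B p → p.1 ≤ x) → φ x y % 2 = 0
  L : ∀ x y, (∀ p, B p → x < p.1) →
    φ x y % 2 = ((if u.2 ≤ y then 1 else 0) + if v.2 ≤ y then 1 else 0) % 2
  T : ∀ x y, (∀ p, B p → p.2 ≤ y) → φ x y % 2 = 0
  D : ∀ x y, (∀ p, B p → y < p.2) → φ x y % 2 = 0

lemma exists_par {u v : P2} (h : Rch M N c u v) :
    ∃ φ, Par (fun p => In M N p ∧ c p = c u) u v φ := by
  induction h with
  | refl => exact ⟨fun _ _ => 0, fun _ _ _ => rfl, fun _ _ _ => by split_ifs <;> rfl,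
      fun _ _ _ => rfl, fun _ _ _ => by split_ifs <;> rfl, fun _ _ _ => rfl, fun _ _ _ => rfl⟩
  | @tail v w h0 hs ih =>
    obtain ⟨φ, hφ⟩ := ih
    have hc := hs.2.2.1
    unfold Adj at hc
    have bv : In M N v ∧ c v = c u := ⟨hs.1, (Rch.col h0).symm⟩
    have bw : In M N w ∧ c w = c u := ⟨hs.2.1, hs.2.2.2.symm.trans bv.2⟩
    have ne : ∀ {x y}, ¬ (In M N (x, y) ∧ c (x, y) = c u) →
        ¬ (v.1 = x ∧ v.2 = y) ∧ ¬ (w.1 = x ∧ w.2 = y) := fun h =>
      ⟨fun e => h (e.1 ▸ e.2 ▸ bv), fun e => h (e.1 ▸ e.2 ▸ bw)⟩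
    refine ⟨fun x y => φ x y + if v.1 = w.1 ∧ x < v.1 ∧ (v.2 = y ∧ w.2 = y + 1 ∨ w.2 = y ∧
      v.2 = y + 1) then 1 else 0, fun x y h => ?_, fun x y h => ?_, fun x y h => ?_,
      fun x y h => ?_, fun x y h => ?_, fun x y h => ?_⟩
    · have := hφ.H x y h
      have := ne h
      split_ifs <;> omega
    · have := hφ.V x y h
      have := ne h
      split_ifs at * <;> omega
    · have := hφ.R x y h
      have := h v bv
      split_ifs <;> omega
    · have := hφ.L x y h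
      have := h v bv
      split_ifs at * <;> omega
    · have := hφ.T x y h
      have := h v bv
      have := h w bw
      split_ifs <;> omega
    · have := hφ.D x y h
      have := h v bv
      have := h w bw
      split_ifs <;> omega

lemma Par.const {u v : P2} {φ : ℤ → ℤ → ℤ} (hφ : Par (fun p => In M N p ∧ c p = c u) u v φ)
    (g : ℤ → ℤ → ℤ)
    (gH : ∀ x y, In M N (x, y) → In M N (x + 1, y) → c (x, y) ≠ c u → c (x + 1, y) ≠ c u →
      g x y % 2 = g (x + 1) y % 2)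
    (gV : ∀ x y, In M N (x, y) → In M N (x, y + 1) → c (x, y) ≠ c u → c (x, y + 1) ≠ c u →
      (g x y + g x (y + 1)) % 2 =
      ((if u.2 = y + 1 ∧ x < u.1 then 1 else 0) + if v.2 = y + 1 ∧ x < v.1 then 1 else 0) % 2)
    {p q : P2} (h : Rch M N c p q) (hp : c p ≠ c u) :
    (φ p.1 p.2 + g p.1 p.2) % 2 = (φ q.1 q.2 + g q.1 q.2) % 2 := by
  induction h with
  | refl => rfl
  | @tail a b h0 hs ih =>
    rw [ih]
    have ha : c a ≠ c u := (Rch.col h0) ▸ hp
    have hb : c b ≠ c u := hs.2.2.2 ▸ ha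
    obtain ⟨x, y⟩ := a
    obtain ⟨x', y'⟩ := b
    obtain ⟨i1, i2, hA, -⟩ := hs
    unfold Adj at hA
    simp only at hA ⊢
    rcases hA with ⟨e1 | e1, e2⟩ | ⟨e1 | e1, e2⟩ <;> subst e1 e2
    · have := hφ.H x y (fun h => hb h.2)
      have := gH x y i1 i2 ha hb
      omega
    · have := hφ.H x' y (fun h => ha h.2)
      have := gH x' y i2 i1 hb ha
      omega
    · have := hφ.V x y (fun h => hb h.2)
      have := gV x y i1 i2 ha hb
      omega
    · have := hφ.V x y' (fun h => ha h.2)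
      have := gV x y' i2 i1 hb ha
      omega

/-- no checkerboard square -/
def NC (M N : ℤ) (c : P2 → Bool) : Prop :=
  ∀ i j, In M N (i, j) → In M N (i + 1, j + 1) → c (i, j) = c (i + 1, j + 1) →
    c (i + 1, j) = c (i, j + 1) → c (i, j) = c (i + 1, j)

lemma VZ.nc (h : VZ M N c) : NC M N c := by
  intro i j h1 h2 e1 e2
  by_contra hne
  have h3 : In M N (i + 1, j) := by unfold In at *; simp only at *; omega
  have h4 : In M N (i, j + 1) := by unfold In at *; simp only at *; omega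
  obtain ⟨φ, hφ⟩ := exists_par ((h _).2 _ _ h1 h2 rfl e1.symm)
  have hp : c (i + 1, j) ≠ c (i, j) := fun e => hne e.symm
  have key := hφ.const (fun x y => if y = j ∧ x ≤ i then 1 else 0) (fun x y _ _ a1 a2 => ?_)
    (fun x y _ _ a1 a2 => ?_) ((h _).2 _ _ h3 h4 rfl e2.symm) hp
  · have k1 := hφ.H i j (fun h => hp h.2)
    have k2 := hφ.V i j (fun h => hp (e2.trans h.2))
    simp only at key k2
    rw [if_neg (by omega), if_neg (by omega)] at key
    rw [if_neg (by omega), if_pos (by simp)] at k2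
    omega
  · have : ¬ (x = i ∧ y = j) := fun e => a1 (by rw [e.1, e.2])
    split_ifs <;> omega
  · have : ¬ (x = i ∧ y + 1 = j) := fun e => a2 (by rw [e.1, e.2])
    simp only
    split_ifs <;> omega

lemma NC.sg (h : NC M N c) (i j i' j' : ℤ) (hi : i' = i + 1 ∨ i = i' + 1)
    (hj : j' = j + 1 ∨ j = j' + 1) (h1 : In M N (i, j)) (h2 : In M N (i', j'))
    (e1 : c (i, j) = c (i', j')) (e2 : c (i', j) = c (i, j')) : c (i, j) = c (i', j) := by
  rcases hi with rfl | rfl <;> rcases hj with rfl | rfl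
  · exact h i j h1 h2 e1 e2
  · have := h i j' (by unfold In at *; simp only at *; omega)
      (by unfold In at *; simp only at *; omega) e2.symm e1.symm
    rw [e1, ← this, e2]
  · have := h i' j (by unfold In at *; simp only at *; omega)
      (by unfold In at *; simp only at *; omega) e2 e1
    exact this.symm
  · have := h i' j' h2 h1 e1.symm e2.symm
    rw [e1, this, e2]

lemma NC.free (h : NC M N c) {u v w z : P2} (hu : In M N u) (hw : In M N w) (a1 : Adj u v)
    (a2 : Adj v w) (a3 : Adj w z) (a4 : Adj z u) (n1 : u ≠ w) (n2 : v ≠ z) (e1 : c u = c w)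
    (e2 : c v = c z) : c u = c v := by
  obtain ⟨u1, u2⟩ := u
  obtain ⟨v1, v2⟩ := v
  obtain ⟨w1, w2⟩ := w
  obtain ⟨z1, z2⟩ := z
  have n1' : ¬ (u1 = w1 ∧ u2 = w2) := fun e => n1 (by rw [e.1, e.2])
  have n2' : ¬ (v1 = z1 ∧ v2 = z2) := fun e => n2 (by rw [e.1, e.2])
  unfold Adj at a1 a2 a3 a4
  simp only at a1 a2 a3 a4
  have k1 : w1 = u1 + 1 ∨ u1 = w1 + 1 := by omega
  have k2 : w2 = u2 + 1 ∨ u2 = w2 + 1 := by omega
  have key := h.sg u1 u2 w1 w2 k1 k2 hu hw e1
  by_cases hv : v2 = u2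
  · have f1 : v1 = w1 := by omega
    have f2 : z1 = u1 := by omega
    have f3 : z2 = w2 := by omega
    subst hv f1 f2 f3
    exact key e2
  · have f0 : v1 = u1 := by omega
    have f1 : v2 = w2 := by omega
    have f2 : z1 = w1 := by omega
    have f3 : z2 = u2 := by omega
    subst f0 f1 f2 f3
    exact (key e2.symm).trans e2.symm

end Pool.Agent.Lib.MP_0350c1_lc
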