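import Pool.Agent.Lib.MP_0350c1_lc.Z9
import Pool.Agent.Lib.MP_0350c1_lc.Main

namespace Pool.Agent.Lib.MP_0350c1_lc

open Relation Finset

variable {m n : ℕ}

def emb (v : Fin m × Fin n) : P2 := ((v.1.val : ℤ), (v.2.val : ℤ))

lemma emb_in (v : Fin m × Fin n) : In m n (emb v) := by
  have := v.1.isLt
  have := v.2.isLt
  unfold In emb; dsimp only; omega

def cell (p : P2) (h : In m n p) : Fin m × Fin n :=
  (⟨p.1.toNat, by unfold In at h; omega⟩, ⟨p.2.toNat, by unfold In at h; omega⟩)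

lemma emb_cell (p : P2) (h : In m n p) : emb (cell p h) = p := by
  unfold In at h
  refine Prod.ext ?_ ?_ <;> simp only [emb, cell] <;> omega

lemma cell_emb (v : Fin m × Fin n) (h : In m n (emb v)) : cell (emb v) h = v := by
  simp [emb, cell]

open Classical in
noncomputable def ext (x : Fin m × Fin n → Bool) (p : P2) : Bool :=
  if h : In m n p then x (cell p h) else false

lemma ext_emb (x : Fin m × Fin n → Bool) (v : Fin m × Fin n) : ext x (emb v) = x v := by
  simp only [ext, emb_in v, dif_pos, cell_emb]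

lemma ext_res (c : P2 → Bool) (p : P2) (h : In m n p) :
    ext (fun v : Fin m × Fin n => c (emb v)) p = c p := by
  simp only [ext, h, dif_pos, emb_cell]

lemma adj_emb (u v : Fin m × Fin n) : (grid m n).Adj u v ↔ Adj (emb u) (emb v) := by
  rw [grid_adj]; unfold Adj emb; dsimp only; omega

lemma valid_iff (x : Fin m × Fin n → Bool) : Valid (grid m n) x ↔ VZ m n (ext x) := by
  constructor
  · intro h κ
    obtain ⟨o⟩ := (h κ).nonempty
    refine ⟨⟨emb o.1, emb_in _, (ext_emb _ _).trans o.2⟩, fun u v hu hv cu cv => ?_⟩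
    rw [← emb_cell u hu] at cu ⊢
    rw [← emb_cell v hv] at cv ⊢
    rw [ext_emb] at cu cv
    refine closed_of_connected (h κ) (fun w => Rch m n (ext x) (emb (cell u hu)) (emb w))
      (fun a b ha hb hab r => r.tail ⟨emb_in _, emb_in _, (adj_emb _ _).1 hab, ?_⟩) cu cv
      ReflTransGen.refl
    rw [ext_emb, ext_emb]; exact Eq.trans ha hb.symm
  · intro h κ
    obtain ⟨⟨o, io, co⟩, hc⟩ := h κ
    rw [← emb_cell o io, ext_emb] at co
    refine connected_of_reach _ _ _ (cell o io) co (fun u hu => ?_)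
    have r := hc (emb u) (emb (cell o io)) (emb_in _) (emb_in _) ((ext_emb _ _).trans hu)
      ((ext_emb _ _).trans co)
    have key : ∀ p q, Rch m n (ext x) p q → ∀ hp hq,
        ReflTransGen (Rel (grid m n) x) (cell p hp) (cell q hq) := by
      intro p q r
      induction r with
      | refl => exact fun _ _ => ReflTransGen.refl
      | tail _ s ih =>
        refine fun hp hq => (ih hp s.1).tail ⟨(adj_emb _ _).2 ?_, ?_⟩
        · rw [emb_cell, emb_cell]; exact s.2.2.1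
        · have := s.2.2.2
          simpa only [ext, s.1, hq, dif_pos] using this
    have := key _ _ r (emb_in _) (emb_in _)
    rwa [cell_emb, cell_emb] at this

/-- double counting with free bits and a decoder -/
lemma count_bits {α δ : Type} (S T : Finset α) (L : ℕ) (D : Finset δ) (dec : δ → α → α)
    (h : ∀ x ∈ S, ∃ d ∈ D, ∃ rd : ℕ → α → Bool, ∀ β : ℕ → Bool, ∃ y ∈ T, dec d y = x ∧
      ∀ t < L, rd t y = β t) : S.card * 2 ^ L ≤ T.card * D.card := by
  classical
  refine card_mul_le_card_mul (fun x y => ∃ d ∈ D, dec d y = x) (fun x hx => ?_) (fun y _ => ?_)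
  · obtain ⟨d, hd, rd, H⟩ := h x hx
    have : (univ : Finset (Fin L → Bool)).card ≤
        (T.bipartiteAbove (fun x y => ∃ d ∈ D, dec d y = x) x).card := by
      refine card_le_card_of_surjOn (fun y t => rd t y) (fun β _ => ?_)
      obtain ⟨y, hy, e, hb⟩ := H (fun t => if h : t < L then β ⟨t, h⟩ else false)
      refine ⟨y, by simpa using ⟨hy, d, hd, e⟩, funext fun t => ?_⟩
      simp only [hb t t.isLt, t.isLt, dif_pos]
    simpa using this
  · refine le_trans (card_le_card ?_) (card_image_le (s := D) (f := fun d => dec d y))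
    intro x hx
    simp only [mem_bipartiteBelow] at hx
    obtain ⟨d, hd, e⟩ := hx.2
    exact mem_image.2 ⟨d, hd, e⟩

open Classical in
/-- the valid colourings with a property -/
noncomputable def Om (m n : ℕ) (P : (Fin m × Fin n → Bool) → Prop) :
    Finset (Fin m × Fin n → Bool) := univ.filter (fun x => VZ m n (ext x) ∧ P x)

lemma mem_Om {P : (Fin m × Fin n → Bool) → Prop} {x : Fin m × Fin n → Bool} :
    x ∈ Om m n P ↔ VZ m n (ext x) ∧ P x := by simp [Om]

/-- `Φ` does not depend on the twelve rows around `p` -/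
def Inv (p : ℤ) (Φ : (Fin m × Fin n → Bool) → Prop) : Prop :=
  ∀ x y, (∀ v, ¬ (p - 5 ≤ (emb v).1 ∧ (emb v).1 ≤ p + 6) → y v = x v) → Φ x → Φ y

def Two (z : P2) (c : P2 → Bool) : Prop := ∀ κ, ∃ v, Box (z.1 - 6) (z.2 - 6) 2 v ∧ c v = κ

lemma VZ.res {c : P2 → Bool} (h : VZ m n c) : VZ m n (ext (fun v : Fin m × Fin n => c (emb v))) :=
  h.congr (ext_res c)

lemma fe_surgery (z : P2) (hz : 6 ≤ z.1 ∧ z.1 + 7 < m ∧ 6 ≤ z.2 ∧ z.2 + 7 < n) (γ : ℤ)
    (hγ : γ = 6 ∨ γ = 8) (Φ : (Fin m × Fin n → Bool) → Prop) (hΦ : Inv z.1 Φ) :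
    (Om m n (fun x => Two z (ext x) ∧ Φ x)).card ≤
      (Om m n (fun x => Pat (z.1 - 6) (z.2 - 6) γ (ext x) ∧ Φ x)).card * 2 ^ 144 := by
  classical
  set B : Finset (Fin m × Fin n) := univ.filter (fun v => Box (z.1 - 6) (z.2 - 6) 1 (emb v)) with hB
  have hBc : B.card ≤ 144 := by
    have : B.card ≤ (range 12 ×ˢ range 12).card := by
      refine card_le_card_of_injOn (fun v => (((emb v).1 - (z.1 - 5)).toNat,
        ((emb v).2 - (z.2 - 5)).toNat)) (fun v hv => ?_) (fun u hu v hv e => ?_)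
      · have hv := (mem_filter.1 (mem_coe.1 hv)).2
        unfold Box at hv
        simp only [coe_product, coe_range, Set.mem_prod, Set.mem_Iio]
        omega
      · have hv := (mem_filter.1 (mem_coe.1 hv)).2
        have hu := (mem_filter.1 (mem_coe.1 hu)).2
        simp only [Box, emb] at hu hv
        simp only [Prod.mk.injEq, emb] at e
        refine Prod.ext (Fin.ext ?_) (Fin.ext ?_) <;> omega
    simpa using this
  have := count_bits (Om m n (fun x => Two z (ext x) ∧ Φ x))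
    (Om m n (fun x => Pat (z.1 - 6) (z.2 - 6) γ (ext x) ∧ Φ x)) 0 B.powerset
    (fun d y v => if v ∈ B then decide (v ∈ d) else y v) (fun x hx => ?_)
  · rw [pow_zero, mul_one, card_powerset] at this
    exact this.trans (Nat.mul_le_mul_left _ (Nat.pow_le_pow_right (by norm_num) hBc))
  obtain ⟨h1, h2, h3⟩ := mem_Om.1 hx
  obtain ⟨y, y1, y2, y3⟩ := surgery h1 (a := z.1 - 6) (b := z.2 - 6) (by omega) (by omega)
    (by omega) (by omega) (h2 true) (h2 false) γ hγ
  refine ⟨B.filter (fun v => x v = true), by simp, fun _ _ => false, fun β =>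
    ⟨fun v => y (emb v), mem_Om.2 ⟨y1.res, fun v hv => ?_, hΦ x _ (fun v hv => ?_) h3⟩,
      funext fun v => ?_, by simp⟩⟩
  · rw [ext_res _ _ (by unfold Box at hv; unfold In; omega)]; exact y3 v hv
  · rw [y2 _ (by unfold Box; omega), ext_emb]
  · by_cases hv : v ∈ B
    · simp [hv]
    · simp only [hv, if_false]
      rw [y2 _ (by simpa [hB] using hv), ext_emb]

/-- the nearest cell of the other colour in the band is at distance `R` -/
def Far (m n : ℕ) (z : P2) (R : ℤ) (c : P2 → Bool) : Prop :=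
  ∃ κ, (∀ v, In m n v → Ball z R v → c v = κ) ∧ ∃ b, In m n b ∧ Ball z (R + 1) b ∧ c b = !κ

lemma fe_finger (z : P2) (hz : 6 ≤ z.1 ∧ z.1 + 7 < m ∧ 6 ≤ z.2 ∧ z.2 + 7 < n) (k : ℕ)
    (Φ : (Fin m × Fin n → Bool) → Prop) (hΦ : Inv z.1 Φ) :
    (Om m n (fun x => Far m n z (k + 5) (ext x) ∧ Φ x)).card * 2 ^ (k + 2) ≤
      (Om m n (fun x => Two z (ext x) ∧ Φ x)).card * 2 := by
  classical
  refine count_bits _ _ (k + 2) (univ : Finset Bool)
    (fun κ y v => if Ball z (k + 5) (emb v) then κ else y v) (fun x hx => ?_)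
  obtain ⟨h1, ⟨κ, h2, b, h4, h5, h6⟩, h3⟩ := mem_Om.1 hx
  obtain ⟨w, H⟩ := finger h1 z (k + 5) κ (by omega) (by omega) h2 b h4 h5 h6
  refine ⟨κ, mem_univ _, fun t y => ext y (w t), fun β => ?_⟩
  obtain ⟨y, y1, y2, ⟨u, y3, y4⟩, ⟨u', y5, y6⟩, y7⟩ := H β
  refine ⟨fun v => y (emb v), mem_Om.2 ⟨y1.res, fun τ => ?_, hΦ x _ (fun v hv => ?_) h3⟩,
    funext fun v => ?_, fun t ht => ?_⟩
  · unfold Ball at y3 y5
    by_cases e : τ = κ
    · exact ⟨u, by unfold Box; omega, by rw [ext_res _ _ (by unfold In; omega), y4, e]⟩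
    · exact ⟨u', by unfold Box; omega, by rw [ext_res _ _ (by unfold In; omega), y6, bne e]⟩
  · rw [y2 _ (by unfold Ball; omega), ext_emb]
  · by_cases hv : Ball z (k + 5) (emb v)
    · simp only [hv, if_true]
      rw [← h2 _ (emb_in v) hv, ext_emb]
    · simp only [hv, if_false]
      rw [y2 _ hv, ext_emb]
  · obtain ⟨a1, a2⟩ := y7 t (by omega)
    exact (ext_res _ _ a1).trans a2

/-- both colours occur in the band of five rows around `p` -/
def NM (m n : ℕ) (p : ℤ) (c : P2 → Bool) : Prop :=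
  ∀ κ, ∃ v, In m n v ∧ p - 2 ≤ v.1 ∧ v.1 ≤ p + 2 ∧ c v = κ

lemma nm_cases (z : P2) (hz : 6 ≤ z.1 ∧ z.1 + 7 < m ∧ 6 ≤ z.2 ∧ z.2 + 7 < n) (c : P2 → Bool)
    (h : NM m n z.1 c) : Two z c ∨ ∃ k < n, Far m n z ((k : ℕ) + 5) c := by
  classical
  have ex : ∃ R : ℕ, ∃ b, In m n b ∧ Ball z (R + 1) b ∧ c b = !(c z) := by
    obtain ⟨b, h1, h2, h3, h4⟩ := h (!(c z))
    exact ⟨n + 2, b, h1, by unfold In at h1; unfold Ball; push_cast; omega, h4⟩
  have hle : Nat.find ex ≤ n + 2 := by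
    obtain ⟨b, h1, h2, h3, h4⟩ := h (!(c z))
    exact Nat.find_min' ex ⟨b, h1, by unfold In at h1; unfold Ball; push_cast; omega, h4⟩
  obtain ⟨b, h1, h2, h3⟩ := Nat.find_spec ex
  have hmin := fun R => Nat.find_min ex (m := R)
  generalize Nat.find ex = R at *
  by_cases hs : R ≤ 4
  · left
    intro κ
    by_cases e : κ = c z
    · exact ⟨z, by unfold Box; omega, e.symm⟩
    · exact ⟨b, by unfold Ball at h2; unfold Box; omega, h3.trans (bne e).symm⟩
  · right
    refine ⟨R - 5, by omega, c z, fun v iv hv => ?_, b, h1, ?_, h3⟩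
    · by_contra hc
      refine hmin (R - 1) (by omega) ⟨v, iv, ?_, bne hc⟩
      unfold Ball at hv ⊢; omega
    · unfold Ball at h2 ⊢; omega

theorem finite_energy (z : P2) (hz : 6 ≤ z.1 ∧ z.1 + 7 < m ∧ 6 ≤ z.2 ∧ z.2 + 7 < n) (γ : ℤ)
    (hγ : γ = 6 ∨ γ = 8) (Φ : (Fin m × Fin n → Bool) → Prop) (hΦ : Inv z.1 Φ) :
    (Om m n (fun x => NM m n z.1 (ext x) ∧ Φ x)).card ≤
      (Om m n (fun x => Pat (z.1 - 6) (z.2 - 6) γ (ext x) ∧ Φ x)).card * 2 ^ 145 := by
  classical
  set S := (Om m n (fun x => Two z (ext x) ∧ Φ x)) with hS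
  have h1 : Om m n (fun x => NM m n z.1 (ext x) ∧ Φ x) ⊆ S ∪ (range n).biUnion
      (fun k => Om m n (fun x => Far m n z (k + 5) (ext x) ∧ Φ x)) := by
    intro x hx
    obtain ⟨a1, a2, a3⟩ := mem_Om.1 hx
    rcases nm_cases z hz _ a2 with h | ⟨k, hk, h⟩
    · exact mem_union_left _ (mem_Om.2 ⟨a1, h, a3⟩)
    · exact mem_union_right _ (mem_biUnion.2 ⟨k, mem_range.2 hk, mem_Om.2 ⟨a1, h, a3⟩⟩)
  have h2 := (card_le_card h1).trans ((card_union_le _ _).trans
    (Nat.add_le_add_left card_biUnion_le _))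
  have h3 : ((∑ k ∈ range n, (Om m n (fun x => Far m n z (k + 5) (ext x) ∧ Φ x)).card : ℕ) : ℝ) ≤
      S.card := by
    push_cast
    calc _ ≤ ∑ k ∈ range n, (S.card / 2 : ℝ) * (1 / 2) ^ k := by
          refine sum_le_sum (fun k _ => ?_)
          have : (((Om m n (fun x => Far m n z (k + 5) (ext x) ∧ Φ x)).card : ℝ)) * 2 ^ (k + 2) ≤
              S.card * 2 := by exact_mod_cast fe_finger z hz k Φ hΦ
          rw [one_div, inv_pow, ← div_eq_mul_inv, le_div_iff₀ (by positivity)]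
          rw [pow_add] at this
          linarith
      _ ≤ _ := by
          rw [← mul_sum]
          have := sum_geometric_two_le n
          have : (0 : ℝ) ≤ S.card := by positivity
          nlinarith
  have h4 := fe_surgery z hz γ hγ Φ hΦ
  have h5 := Nat.cast_le.1 h3
  rw [← hS] at h4
  omega

lemma exceptional (L : ℕ) (hL : 1 ≤ L ∧ 2 * L < n) :
    (Om m n (fun x => ∃ p : ℤ, 2 ≤ p ∧ p + 2 < m ∧ ¬ NM m n p (ext x))).card * 2 ^ L ≤
      (Om m n (fun _ => True)).card * (m * 2) := by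
  classical
  have := count_bits (Om m n (fun x => ∃ p : ℤ, 2 ≤ p ∧ p + 2 < m ∧ ¬ NM m n p (ext x)))
    (Om m n (fun _ => True)) L (Ico (0 : ℤ) m ×ˢ (univ : Finset Bool))
    (fun d y v => if d.1 ≤ (emb v).1 ∧ (emb v).1 ≤ d.1 + 3 then d.2 else y v) (fun x hx => ?_)
  · simpa using this
  obtain ⟨h1, p, h2, h3, h4⟩ := mem_Om.1 hx
  unfold NM at h4
  push Not at h4
  obtain ⟨κ, h4⟩ := h4
  obtain ⟨i, i1, i2, i3, w, H⟩ := slab h1 (p - 2) L (!κ) (by omega) (by omega)
    (fun v iv _ _ => bne (h4 v iv (by omega) (by omega)))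
  refine ⟨(i, !κ), by simp [i1, i2], fun t y => ext y (w t), fun β => ?_⟩
  obtain ⟨y, y1, y2, y3⟩ := H β
  refine ⟨fun v => y (emb v), mem_Om.2 ⟨y1.res, trivial⟩, funext fun v => ?_, fun t ht => ?_⟩
  · by_cases hv : i ≤ (emb v).1 ∧ (emb v).1 ≤ i + 3
    · simp only [hv, and_self, if_true]
      rw [← i3 _ (emb_in v) hv.1 hv.2, ext_emb]
    · simp only [hv, if_false]
      rw [y2 _ hv, ext_emb]
  · obtain ⟨a1, a2⟩ := y3 t (by omega)
    exact (ext_res _ _ a1).trans a2

end Pool.Agent.Lib.MP_0350c1_lc
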