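import Pool.Agent.Lib.MP_0350c1_lc.Z10

namespace Pool.Agent.Lib.MP_0350c1_lc

open Relation Finset

open Classical in
noncomputable def cnt {α : Type} (Ω : Finset α) (R : α → α → Prop) : ℕ :=
  ((Ω ×ˢ Ω).filter (fun w => R w.1 w.2)).card

open Classical in
lemma cnt_eq {α : Type} (Ω : Finset α) (R : α → α → Prop) :
    cnt Ω R = ∑ x ∈ Ω, (Ω.filter (fun y => R x y)).card := by
  unfold cnt
  simp only [card_filter]
  rw [sum_product]

lemma cnt_swap {α : Type} (Ω : Finset α) (R : α → α → Prop) :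
    cnt Ω R = cnt Ω (fun x y => R y x) := by
  classical
  rw [cnt_eq, cnt_eq]
  simp only [card_filter]
  exact sum_comm

lemma cnt_mono {α : Type} (Ω : Finset α) {R R' : α → α → Prop}
    (h : ∀ x ∈ Ω, ∀ y ∈ Ω, R x y → R' x y) : cnt Ω R ≤ cnt Ω R' := by
  classical
  refine card_le_card (fun w hw => ?_)
  simp only [mem_filter, mem_product] at hw ⊢
  exact ⟨hw.1, h _ hw.1.1 _ hw.1.2 hw.2⟩

lemma cnt_split {α : Type} (Ω : Finset α) (R S : α → α → Prop) :
    cnt Ω (fun x y => R x y ∧ S x y) + cnt Ω (fun x y => R x y ∧ ¬ S x y) = cnt Ω R := by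
  classical
  unfold cnt
  rw [← card_filter_add_card_filter_not (s := (Ω ×ˢ Ω).filter (fun w => R w.1 w.2))
    (fun w => S w.1 w.2), filter_filter, filter_filter]
  congr

open Classical in
lemma cnt_fe {α : Type} (Ω : Finset α) (C : ℕ) (N P : α → Prop) (E : α → α → Prop)
    (fe : ∀ Φ : α → Prop, (∀ x y, E x y → Φ x → Φ y) →
      (Ω.filter (fun x => N x ∧ Φ x)).card ≤ (Ω.filter (fun x => P x ∧ Φ x)).card * C)
    (A : α → α → Prop) (hA : ∀ x y y', E y y' → A x y → A x y') :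
    cnt Ω (fun x y => N y ∧ A x y) ≤ cnt Ω (fun x y => P y ∧ A x y) * C := by
  rw [cnt_eq, cnt_eq, sum_mul]
  refine sum_le_sum (fun x _ => ?_)
  have := fe (A x) (hA x)
  refine le_trans (le_of_eq ?_) (this.trans (le_of_eq ?_)) <;> congr

open Classical in
lemma pair_avoid {α κ : Type} (Ω : Finset α) (C : ℕ) (hC : 1 ≤ C) (N P P' : κ → α → Prop)
    (E : κ → α → α → Prop) (Z : Finset κ)
    (hinv : ∀ j ∈ Z, ∀ k ∈ Z, j ≠ k → ∀ x y, E j x y →
      (N k x ↔ N k y) ∧ (P k x ↔ P k y) ∧ (P' k x ↔ P' k y))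
    (hP : ∀ j ∈ Z, ∀ x, P j x → N j x) (hP' : ∀ j ∈ Z, ∀ x, P' j x → N j x)
    (fe : ∀ j ∈ Z, ∀ Φ : α → Prop, (∀ x y, E j x y → Φ x → Φ y) →
      (Ω.filter (fun x => N j x ∧ Φ x)).card ≤ (Ω.filter (fun x => P j x ∧ Φ x)).card * C)
    (fe' : ∀ j ∈ Z, ∀ Φ : α → Prop, (∀ x y, E j x y → Φ x → Φ y) →
      (Ω.filter (fun x => N j x ∧ Φ x)).card ≤ (Ω.filter (fun x => P' j x ∧ Φ x)).card * C) :
    (cnt Ω (fun x y => ∀ j ∈ Z, N j x ∧ N j y ∧ ¬ (P j x ∧ P' j y)) : ℝ) ≤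
      (1 - 1 / (C : ℝ) ^ 2) ^ Z.card * (Ω.card : ℝ) ^ 2 := by
  induction Z using Finset.induction_on with
  | empty => simp [cnt, sq]
  | insert j Z hj ih =>
    have ih' := ih (fun a ha b hb => hinv a (by simp [ha]) b (by simp [hb]))
      (fun a ha => hP a (by simp [ha])) (fun a ha => hP' a (by simp [ha]))
      (fun a ha => fe a (by simp [ha])) (fun a ha => fe' a (by simp [ha]))
    set A : α → α → Prop := fun x y => ∀ j ∈ Z, N j x ∧ N j y ∧ ¬ (P j x ∧ P' j y) with hA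
    have hi : ∀ k ∈ Z, ∀ x y, E j x y → (N k x ↔ N k y) ∧ (P k x ↔ P k y) ∧ (P' k x ↔ P' k y) :=
      fun k hk => hinv j (by simp) k (by simp [hk]) (fun e => hj (e ▸ hk))
    have h1 := cnt_fe Ω C (N j) (P' j) (E j) (fe' j (by simp)) (fun x y => N j x ∧ A x y)
      (fun x y y' e h => ⟨h.1, fun k hk => by have := hi k hk _ _ e; have := h.2 k hk; tauto⟩)
    have h2 := cnt_fe Ω C (N j) (P j) (E j) (fe j (by simp)) (fun y x => P' j y ∧ A x y)
      (fun y x x' e h => ⟨h.1, fun k hk => by have := hi k hk _ _ e; have := h.2 k hk; tauto⟩)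
    have h3 := cnt_split Ω (fun x y => N j y ∧ N j x ∧ A x y) (fun x y => P j x ∧ P' j y)
    have h4 : cnt Ω (fun x y => P' j y ∧ N j x ∧ A x y) ≤
        cnt Ω (fun y x => N j x ∧ P' j y ∧ A x y) := by
      rw [cnt_swap]; exact cnt_mono _ (fun _ _ _ _ h => ⟨h.2.1, h.1, h.2.2⟩)
    have h5 : cnt Ω (fun y x => P j x ∧ P' j y ∧ A x y) ≤
        cnt Ω (fun x y => (N j y ∧ N j x ∧ A x y) ∧ P j x ∧ P' j y) := by
      rw [cnt_swap]
      exact cnt_mono _ (fun _ _ _ _ h => ⟨⟨hP' j (by simp) _ h.2.1, hP j (by simp) _ h.1, h.2.2⟩,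
        h.1, h.2.1⟩)
    have h6 : cnt Ω (fun x y => ∀ k ∈ insert j Z, N k x ∧ N k y ∧ ¬ (P k x ∧ P' k y)) ≤
        cnt Ω (fun x y => (N j y ∧ N j x ∧ A x y) ∧ ¬ (P j x ∧ P' j y)) :=
      cnt_mono _ (fun _ _ _ _ h => ⟨⟨(h j (by simp)).2.1, (h j (by simp)).1,
        fun k hk => h k (by simp [hk])⟩, (h j (by simp)).2.2⟩)
    have h7 : cnt Ω (fun x y => N j y ∧ N j x ∧ A x y) ≤ cnt Ω A :=
      cnt_mono _ (fun _ _ _ _ h => h.2.2)
    have h8 : cnt Ω (fun x y => N j y ∧ N j x ∧ A x y) ≤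
        cnt Ω (fun x y => (N j y ∧ N j x ∧ A x y) ∧ P j x ∧ P' j y) * C * C :=
      h1.trans (Nat.mul_le_mul_right _ (h4.trans (h2.trans (Nat.mul_le_mul_right _ h5))))
    generalize cnt Ω (fun x y => N j y ∧ N j x ∧ A x y) = B at *
    generalize cnt Ω (fun x y => (N j y ∧ N j x ∧ A x y) ∧ P j x ∧ P' j y) = T at *
    have hC' : (1 : ℝ) ≤ C := by exact_mod_cast hC
    have h9 : (1 : ℝ) / C ^ 2 * B ≤ T := by
      have : (B : ℝ) ≤ T * C * C := by exact_mod_cast h8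
      rw [one_div, inv_mul_le_iff₀ (by positivity)]; linarith
    have h10 : (0 : ℝ) ≤ 1 - 1 / C ^ 2 := by
      have : (1 : ℝ) / C ^ 2 ≤ 1 := by rw [div_le_one (by positivity)]; nlinarith
      linarith
    have h6' : (cnt Ω (fun x y => ∀ k ∈ insert j Z, N k x ∧ N k y ∧ ¬ (P k x ∧ P' k y)) : ℝ) + T ≤
        B := by exact_mod_cast (by omega)
    have h7' : (B : ℝ) ≤ cnt Ω A := by exact_mod_cast h7
    rw [card_insert_of_notMem hj, pow_succ]
    calc _ ≤ (1 - 1 / (C : ℝ) ^ 2) * B := by linarith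
      _ ≤ (1 - 1 / (C : ℝ) ^ 2) * ((1 - 1 / (C : ℝ) ^ 2) ^ Z.card * (Ω.card : ℝ) ^ 2) :=
        mul_le_mul_of_nonneg_left (h7'.trans ih') h10
      _ = _ := by ring

variable {m n : ℕ}

lemma conflict {M N a b : ℤ} {c x y : P2 → Bool} (h0 : 0 ≤ a ∧ a + 13 < M ∧ 0 ≤ b ∧ b + 13 < N)
    (hx : Pat a b 6 x) (hy : Pat a b 8 y) (hc : ∀ v, In M N v → c v = x v ∨ c v = y v)
    (h1 : c (a + 6, b + 6) = x (a + 6, b + 6)) (h2 : c (a + 6, b + 7) = y (a + 6, b + 7)) :
    ¬ VZ M N c := by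
  intro h
  have e1 : c (a + 6, b + 6) = true := by
    rw [h1, hx _ (by unfold Box; dsimp only; omega)]; simp
  have e2 : c (a + 6, b + 9) = true := by
    rcases hc (a + 6, b + 9) (by unfold In; dsimp only; omega) with e | e
    · rw [e, hx _ (by unfold Box; dsimp only; omega)]; simp
    · rw [e, hy _ (by unfold Box; dsimp only; omega)]; simp
  have r := (h true).2 _ _ (by unfold In; dsimp only; omega) (by unfold In; dsimp only; omega) e1 e2
  rcases ReflTransGen.cases_head r with e | ⟨v, ⟨-, iv, hA, cv⟩, -⟩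
  · simp at e
  · rw [e1] at cv
    unfold Adj at hA
    dsimp only at hA
    have bv : Box a b 4 v := by unfold Box; omega
    by_cases k : v = (a + 6, b + 7)
    · rw [k, h2, hy _ (k ▸ bv)] at cv; simp at cv
    rw [Prod.ext_iff] at k
    dsimp only at k
    rcases hc v iv with e | e
    · rw [e, hx _ bv, eq_comm, decide_eq_true_eq] at cv; omega
    · rw [e, hy _ bv, eq_comm, decide_eq_true_eq] at cv; omega

lemma ext_mix (X : Finset (Fin m × Fin n)) (x y : Fin m × Fin n → Bool) (p : P2) (h : In m n p) :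
    ext (mix X x y) p = if cell p h ∈ X then ext x p else ext y p := by
  simp only [ext, h, dif_pos, mix]

lemma ext_congr {x y : Fin m × Fin n → Bool} {p : ℤ}
    (h : ∀ v, ¬ (p - 5 ≤ (emb v).1 ∧ (emb v).1 ≤ p + 6) → y v = x v) (v : P2)
    (hv : ¬ (p - 5 ≤ v.1 ∧ v.1 ≤ p + 6)) : ext y v = ext x v := by
  unfold ext
  split_ifs with k
  · exact h _ (by rwa [emb_cell])
  · rfl

theorem pair_sites {κ : Type} (X : Finset (Fin m × Fin n)) (Z : Finset κ) (z : κ → P2)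
    (hz : ∀ j ∈ Z, 6 ≤ (z j).1 ∧ (z j).1 + 7 < m ∧ 6 ≤ (z j).2 ∧ (z j).2 + 7 < n)
    (hX : ∀ j ∈ Z, ∀ u v, emb u = z j → emb v = ((z j).1, (z j).2 + 1) → (u ∈ X ↔ v ∉ X))
    (sep : ∀ j ∈ Z, ∀ k ∈ Z, j ≠ k → (z j).1 + 12 ≤ (z k).1 ∨ (z k).1 + 12 ≤ (z j).1)
    (L : ℕ) (hL : 1 ≤ L ∧ 2 * L < n) :
    (cnt (Om m n (fun _ => True)) (fun x y => VZ m n (ext (mix X x y))) : ℝ) ≤
      ((1 - 1 / (2 ^ 145) ^ 2) ^ Z.card + 4 * m / 2 ^ L) * ((Om m n (fun _ => True)).card : ℝ) ^ 2 := by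
  classical
  set Ω := Om m n (fun _ => True) with hΩ
  have hf : ∀ P : (Fin m × Fin n → Bool) → Prop, Ω.filter P = Om m n P := fun P => by
    ext x; simp [hΩ, mem_Om]
  set g : κ → ℤ := fun j => if ∃ u ∈ X, emb u = z j then 6 else 8 with hg
  have hg1 : ∀ j, g j = 6 ∨ g j = 8 := fun j => by simp only [hg]; split_ifs <;> simp
  have pn : ∀ j ∈ Z, ∀ γ, (γ = 6 ∨ γ = 8) → ∀ x : Fin m × Fin n → Bool,
      Pat ((z j).1 - 6) ((z j).2 - 6) γ (ext x) → NM m n (z j).1 (ext x) := by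
    intro j hj γ hγ x h τ
    have := hz j hj
    cases τ
    · refine ⟨((z j).1, (z j).2 - 1), by unfold In; dsimp only; omega, by dsimp only; omega,
        by dsimp only; omega, ?_⟩
      rw [h _ (by unfold Box; dsimp only; omega), decide_eq_false_iff_not]; dsimp only; omega
    · refine ⟨((z j).1, (z j).2 + 3), by unfold In; dsimp only; omega, by dsimp only; omega,
        by dsimp only; omega, ?_⟩
      rw [h _ (by unfold Box; dsimp only; omega), decide_eq_true_eq]; dsimp only; omega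
  have h1 := pair_avoid Ω (2 ^ 145) (by norm_num) (fun j x => NM m n (z j).1 (ext x))
    (fun j x => Pat ((z j).1 - 6) ((z j).2 - 6) (g j) (ext x))
    (fun j x => Pat ((z j).1 - 6) ((z j).2 - 6) (14 - g j) (ext x))
    (fun j x y => ∀ v, ¬ ((z j).1 - 5 ≤ (emb v).1 ∧ (emb v).1 ≤ (z j).1 + 6) → y v = x v) Z
    (fun j hj k hk hne x y e => ?_) (fun j hj => pn j hj _ (hg1 j))
    (fun j hj => pn j hj _ (by have := hg1 j; omega))
    (fun j hj Φ hΦ => by
      have := finite_energy (z j) (hz j hj) _ (hg1 j) Φ hΦ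
      rw [← hf, ← hf] at this
      refine le_trans (le_of_eq ?_) (this.trans (le_of_eq ?_)) <;> congr)
    (fun j hj Φ hΦ => by
      have := finite_energy (z j) (hz j hj) (14 - g j) (by have := hg1 j; omega) Φ hΦ
      rw [← hf, ← hf] at this
      refine le_trans (le_of_eq ?_) (this.trans (le_of_eq ?_)) <;> congr)
  swap
  · have s := sep j hj k hk hne
    have e' := ext_congr e
    have pp : ∀ γ, Pat ((z k).1 - 6) ((z k).2 - 6) γ (ext x) ↔
        Pat ((z k).1 - 6) ((z k).2 - 6) γ (ext y) := fun γ =>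
      forall₂_congr (fun v hv => by rw [e' v (by unfold Box at hv; omega)])
    refine ⟨forall_congr' (fun τ => exists_congr (fun v => and_congr_right (fun _ =>
      and_congr_right (fun _ => and_congr_right (fun _ => by rw [e' v (by omega)]))))), pp _, pp _⟩
  set Ex : (Fin m × Fin n → Bool) → Prop :=
    fun x => ∃ p : ℤ, 2 ≤ p ∧ p + 2 < m ∧ ¬ NM m n p (ext x) with hEx
  have h2 : cnt Ω (fun x _ => Ex x) = (Om m n Ex).card * Ω.card := by
    rw [cnt_swap, cnt_eq, sum_congr rfl (g := fun _ => (Om m n Ex).card), sum_const, smul_eq_mul,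
      mul_comm]
    intro x _
    rw [← hf]
  have h3 := cnt_split Ω (fun x y => VZ m n (ext (mix X x y))) (fun x _ => Ex x)
  have h4 := cnt_split Ω (fun x y => VZ m n (ext (mix X x y)) ∧ ¬ Ex x) (fun _ y => Ex y)
  have h5 : cnt Ω (fun x y => VZ m n (ext (mix X x y)) ∧ Ex x) ≤ cnt Ω (fun x _ => Ex x) :=
    cnt_mono _ (fun _ _ _ _ h => h.2)
  have h6 : cnt Ω (fun x y => (VZ m n (ext (mix X x y)) ∧ ¬ Ex x) ∧ Ex y) ≤
      cnt Ω (fun x _ => Ex x) := by
    rw [cnt_swap]; exact cnt_mono _ (fun _ _ _ _ h => h.2)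
  have h7 : cnt Ω (fun x y => (VZ m n (ext (mix X x y)) ∧ ¬ Ex x) ∧ ¬ Ex y) ≤
      cnt Ω (fun x y => ∀ j ∈ Z, NM m n (z j).1 (ext x) ∧ NM m n (z j).1 (ext y) ∧
        ¬ (Pat ((z j).1 - 6) ((z j).2 - 6) (g j) (ext x) ∧
          Pat ((z j).1 - 6) ((z j).2 - 6) (14 - g j) (ext y))) := by
    refine cnt_mono _ (fun x _ y _ h j hj => ?_)
    have := hz j hj
    refine ⟨not_not.1 (fun k => h.1.2 ⟨_, by omega, by omega, k⟩),
      not_not.1 (fun k => h.2 ⟨_, by omega, by omega, k⟩), fun k => ?_⟩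
    have i1 : In m n ((z j).1 - 6 + 6, (z j).2 - 6 + 6) := by unfold In; dsimp only; omega
    have i2 : In m n ((z j).1 - 6 + 6, (z j).2 - 6 + 7) := by unfold In; dsimp only; omega
    have e1 : emb (cell _ i1) = z j := by rw [emb_cell]; simp
    have hx := hX j hj (cell _ i1) (cell _ i2) e1 (by
      rw [emb_cell]; exact Prod.ext (by simp) (by dsimp only; omega))
    by_cases hin : cell _ i1 ∈ X
    · have e : g j = 6 := if_pos ⟨_, hin, e1⟩
      rw [e] at k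
      refine conflict (by omega) k.1 k.2 (fun v iv => ?_) ?_ ?_ h.1.1
      · rw [ext_mix _ _ _ _ iv]; split_ifs <;> simp
      · rw [ext_mix _ _ _ _ i1, if_pos hin]
      · rw [ext_mix _ _ _ _ i2, if_neg (hx.1 hin)]
    · have e : g j = 8 := if_neg (by
        rintro ⟨u, hu, eu⟩
        refine hin ?_
        rw [← cell_emb u (emb_in u)] at hu
        simpa [eu] using hu)
      rw [e] at k
      refine conflict (by omega) k.2 k.1 (fun v iv => ?_) ?_ ?_ h.1.1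
      · rw [ext_mix _ _ _ _ iv]; split_ifs <;> simp
      · rw [ext_mix _ _ _ _ i1, if_neg hin]
      · rw [ext_mix _ _ _ _ i2, if_pos (not_not.1 (fun h => hin (hx.2 h)))]
  have h8 : ((Om m n Ex).card : ℝ) ≤ 2 * m / 2 ^ L * Ω.card := by
    have : ((Om m n Ex).card : ℝ) * 2 ^ L ≤ Ω.card * (m * 2) := by
      exact_mod_cast exceptional L hL
    rw [div_mul_eq_mul_div, le_div_iff₀ (by positivity)]; linarith
  have h9 : (cnt Ω (fun x _ => Ex x) : ℝ) ≤ 2 * m / 2 ^ L * (Ω.card : ℝ) ^ 2 := by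
    rw [h2, sq, ← mul_assoc]; push_cast
    exact mul_le_mul_of_nonneg_right h8 (by positivity)
  have h10 := (Nat.cast_le (α := ℝ)).2 (h3.symm.le.trans (Nat.add_le_add h5
    (h4.symm.le.trans (Nat.add_le_add h6 h7))))
  push_cast at h1 h10
  have : (4 * m / 2 ^ L : ℝ) = 2 * (2 * m / 2 ^ L) := by ring
  rw [this]
  linarith

end Pool.Agent.Lib.MP_0350c1_lc
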