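import Pool.Agent.Lib.MP_0350c1_lc.Z11

namespace Pool.Agent.Lib.MP_0350c1_lc

open Relation Finset

variable {m n a b : ℕ}

def inn (ha : a + 13 ≤ m) (hb : b + 13 ≤ n) (μ : Fin a × Fin b) : Fin m × Fin n :=
  (⟨6 + μ.1.val, by have := μ.1.isLt; omega⟩, ⟨6 + μ.2.val, by have := μ.2.isLt; omega⟩)

lemma emb_inj {u v : Fin m × Fin n} (h : emb u = emb v) : u = v := by
  simp only [emb, Prod.mk.injEq] at h
  exact Prod.ext (Fin.ext (by omega)) (Fin.ext (by omega))

theorem pair_rows (ha : a + 13 ≤ m) (hb : b + 13 ≤ n) (X : Finset (Fin m × Fin n))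
    (R : Finset (Fin a)) (hR : ∀ i ∈ R, ∃ j j' : Fin b, inn ha hb (i, j) ∈ X ∧ inn ha hb (i, j') ∉ X)
    (L : ℕ) (hL : 1 ≤ L ∧ 2 * L < n) :
    (cnt (Om m n (fun _ => True)) (fun x y => VZ m n (ext (mix X x y))) : ℝ) ≤
      ((1 - 1 / (2 ^ 145) ^ 2) ^ (R.card / 12) + 4 * m / 2 ^ L) *
        ((Om m n (fun _ => True)).card : ℝ) ^ 2 := by
  have ex : ∀ i : Fin a, ∃ q : ℕ, i ∈ R → ∃ k k' : Fin b, k.val = q ∧ k'.val = k.val + 1 ∧
      (inn ha hb (i, k) ∈ X ↔ inn ha hb (i, k') ∉ X) := by
    intro i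
    by_cases hi : i ∈ R
    · obtain ⟨j, j', hj, hj'⟩ := hR i hi
      obtain ⟨k, k', h⟩ := exists_jump (fun j => inn ha hb (i, j) ∈ X) j j' hj hj'
      exact ⟨k, fun _ => ⟨k, k', rfl, h⟩⟩
    · exact ⟨0, fun h => absurd h hi⟩
  choose q hq using ex
  obtain ⟨R', hR', hc, hs⟩ := exists_sparse R 12 (by norm_num)
  refine (pair_sites X R' (fun i => (6 + (i.val : ℤ), 6 + (q i : ℤ))) (fun i hi => ?_)
    (fun i hi u v e1 e2 => ?_) (fun i hi i' hi' hne => ?_) L hL).trans ?_
  · obtain ⟨k, k', h1, h2, -⟩ := hq i (hR' hi)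
    have := i.isLt
    have := k.isLt
    dsimp only; omega
  · obtain ⟨k, k', h1, h2, h3⟩ := hq i (hR' hi)
    have f1 : u = inn ha hb (i, k) := emb_inj (by
      rw [e1]; simp only [emb, inn, Prod.mk.injEq]; omega)
    have f2 : v = inn ha hb (i, k') := emb_inj (by
      rw [e2]; simp only [emb, inn, Prod.mk.injEq]; omega)
    rw [f1, f2]; exact h3
  · have := hs i hi i' hi' hne
    dsimp only; omega
  · refine mul_le_mul_of_nonneg_right (add_le_add_left (pow_le_pow_of_le_one (by norm_num)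
      (by norm_num) (by omega)) _) (by positivity)

lemma vz_swap {x : Fin m × Fin n → Bool} (h : VZ m n (ext x)) :
    VZ n m (ext (fun v : Fin n × Fin m => x v.swap)) := by
  refine (h.comp (M' := n) (N' := m) Prod.swap Prod.swap (fun v h => ?_) (fun v h => ?_)
    (fun _ => rfl) (fun _ => rfl) (fun u v h => ?_)).congr (fun v hv => ?_)
  · unfold In at *; simp only [Prod.fst_swap, Prod.snd_swap]; omega
  · unfold In at *; simp only [Prod.fst_swap, Prod.snd_swap]; omega
  · unfold Adj at *; simp only [Prod.fst_swap, Prod.snd_swap]; omega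
  · have : In m n v.swap := by unfold In at *; simp only [Prod.fst_swap, Prod.snd_swap]; omega
    simp only [ext, hv, this, dif_pos]
    rfl

lemma swap_inj : Function.Injective
    (fun (x : Fin m × Fin n → Bool) (v : Fin n × Fin m) => x v.swap) :=
  fun _ _ h => funext (fun v => congrFun h v.swap)

lemma om_swap (m n : ℕ) : (Om m n (fun _ => True)).card ≤ (Om n m (fun _ => True)).card :=
  card_le_card_of_injOn (fun x v => x v.swap)
    (fun _ hx => mem_Om.2 ⟨vz_swap (mem_Om.1 hx).1, trivial⟩) swap_inj.injOn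

theorem pair_bound (ha : a + 13 ≤ m) (hb : b + 13 ≤ n) (hb0 : 0 < b) (X : Finset (Fin m × Fin n))
    (h1 : a * b ≤ 3 * (univ.filter (fun μ => inn ha hb μ ∈ X)).card)
    (h2 : 3 * (univ.filter (fun μ => inn ha hb μ ∈ X)).card ≤ 2 * (a * b))
    (L : ℕ) (hL : 1 ≤ L ∧ 2 * L < min m n) :
    (cnt (Om m n (fun _ => True)) (fun x y => VZ m n (ext (mix X x y))) : ℝ) ≤
      ((1 - 1 / (2 ^ 145) ^ 2) ^ (min a b / 36) + 4 * (m + n) / 2 ^ L) *
        ((Om m n (fun _ => True)).card : ℝ) ^ 2 := by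
  classical
  have hm : (0 : ℝ) ≤ m := by positivity
  have hn : (0 : ℝ) ≤ n := by positivity
  rcases mixed_lines _ h1 h2 hb0 with h | h
  · have k1 := pair_rows hb ha (X.image Prod.swap) univ (fun j _ => by
      obtain ⟨i, i', hi, hi'⟩ := h j
      simp only [mem_filter, mem_univ, true_and] at hi hi'
      refine ⟨i, i', mem_image.2 ⟨_, hi, rfl⟩, fun h => hi' ?_⟩
      obtain ⟨u, hu, e⟩ := mem_image.1 h
      have : u = inn ha hb (i', j) := by rw [← Prod.swap_swap u, e]; rfl
      exact this ▸ hu) L (by omega)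
    have k2 : cnt (Om m n (fun _ => True)) (fun x y => VZ m n (ext (mix X x y))) ≤
        cnt (Om n m (fun _ => True)) (fun x y => VZ n m (ext (mix (X.image Prod.swap) x y))) := by
      refine card_le_card_of_injOn (fun w => (fun v => w.1 v.swap, fun v => w.2 v.swap))
        (fun w hw => ?_) (fun w _ w' _ e => ?_)
      · simp only [coe_filter, mem_product, Set.mem_ofPred_eq, mem_Om] at hw ⊢
        refine ⟨⟨⟨vz_swap hw.1.1.1, trivial⟩, vz_swap hw.1.2.1, trivial⟩, ?_⟩
        have : mix (X.image Prod.swap) (fun v => w.1 v.swap) (fun v => w.2 v.swap) =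
            fun v => mix X w.1 w.2 v.swap := by
          funext v
          have : v ∈ X.image Prod.swap ↔ v.swap ∈ X :=
            ⟨fun h => by obtain ⟨u, hu, rfl⟩ := mem_image.1 h; simpa using hu,
              fun h => mem_image.2 ⟨_, h, by simp⟩⟩
          simp only [mix, this]
        rw [this]; exact vz_swap hw.2
      · simp only [Prod.mk.injEq] at e
        exact Prod.ext (swap_inj e.1) (swap_inj e.2)
    rw [le_antisymm (om_swap n m) (om_swap m n)] at k1
    refine ((Nat.cast_le.2 k2).trans k1).trans (mul_le_mul_of_nonneg_right (add_le_add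
      (pow_le_pow_of_le_one (by norm_num) (by norm_num) (by simp; omega)) ?_) (by positivity))
    gcongr; linarith
  · refine (pair_rows ha hb X (univ.filter (fun i : Fin a => ∃ j j' : Fin b,
      (i, j) ∈ univ.filter (fun μ => inn ha hb μ ∈ X) ∧
        (i, j') ∉ univ.filter (fun μ => inn ha hb μ ∈ X))) (fun i hi => by simpa using hi) L
      (by omega)).trans (mul_le_mul_of_nonneg_right (add_le_add
      (pow_le_pow_of_le_one (by norm_num) (by norm_num) (by omega)) ?_) (by positivity))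
    gcongr; linarith

section
variable {U : Type} [Fintype U] [DecidableEq U] {s : ℕ}

lemma sum_mul_dep {X : Finset U} {f g : (U → Bool) → ℝ} (hf : Dep X f) (hg : Dep (univ \ X) g) :
    (∑ z, f z * g z) * 2 ^ Fintype.card U = (∑ x, f x) * ∑ y, g y := by
  have inv : Function.Involutive (fun w : (U → Bool) × (U → Bool) =>
      (mix X w.1 w.2, mix X w.2 w.1)) := fun w => by
    refine Prod.ext ?_ ?_ <;> funext u <;> simp only [mix] <;> split_ifs <;> rfl
  have := Equiv.sum_comp inv.toPerm (fun w => f w.1 * g w.1)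
  simp only [Function.Involutive.coe_toPerm, (rank_one hf hg _ _).1, (rank_one hf hg _ _).2,
    Fintype.sum_prod_type] at this
  rw [sum_mul_sum, this, sum_mul]
  refine sum_congr rfl (fun x _ => ?_)
  simp [mul_comm]

lemma val_total (C : Circuit U s) (g : Fin s) :
    (∑ x, C.val g x) * 2 ^ (C.scope g).card = 2 ^ Fintype.card U := by
  induction g using WellFoundedLT.induction with
  | ind g ih =>
    rcases hg : C.gate g with ⟨u, p⟩ | ⟨w⟩ | ⟨D⟩
    · obtain ⟨-, -, hs, hv⟩ := C.leaf_ok g u p hg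
      have inv : Function.Involutive (fun x : U → Bool => Function.update x u (!(x u))) :=
        fun x => by simp
      have := Equiv.sum_comp inv.toPerm (C.val g)
      have h2 : ∑ x : U → Bool, (C.val g (inv.toPerm _ x) + C.val g x) = ∑ _x : U → Bool, (1 : ℝ) := by
        refine sum_congr rfl (fun x _ => ?_)
        simp only [hv, Function.Involutive.coe_toPerm, Function.update_self]
        cases x u <;> simp
      rw [sum_add_distrib, this] at h2
      simp only [sum_const, card_univ, Fintype.card_pi, Fintype.card_bool, prod_const,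
        nsmul_eq_mul, mul_one] at h2
      push_cast at h2
      rw [hs, card_singleton, ← h2]; ring
    · obtain ⟨-, h1, hc, hv⟩ := C.sum_ok g w hg
      simp only [hv]
      rw [sum_comm, sum_mul, ← one_mul ((2 : ℝ) ^ Fintype.card U), ← h1, sum_mul]
      refine sum_congr rfl (fun c _ => ?_)
      by_cases hw : w c = 0
      · simp [hw]
      · rw [← mul_sum, mul_assoc, ← (hc c hw).2, ih c (hc c hw).1]
    · obtain ⟨hc, hd, hs, hv⟩ := C.prod_ok g D hg
      simp only [hv, hs]
      clear hv hs hg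
      induction D using Finset.induction_on with
      | empty => simp
      | insert c D hcD ihD =>
        have k1 := ihD (fun d h => hc d (by simp [h]))
          (fun d h e h' => hd d (by simp [h]) e (by simp [h']))
        have dis : Disjoint (C.scope c) (D.biUnion C.scope) := (disjoint_biUnion_right _ _ _).2
          (fun d h => hd c (by simp) d (by simp [h]) (fun e => hcD (e ▸ h)))
        have k2 := sum_mul_dep (X := C.scope c) (g := fun x => ∏ d ∈ D, C.val d x) (val_dep C c)
          (fun x y hxy => prod_congr rfl (fun d h => val_dep C d x y (fun u hu => hxy u (by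
            simp only [mem_sdiff, mem_univ, true_and]
            exact fun h' => disjoint_left.1 dis h' (mem_biUnion.2 ⟨d, h, hu⟩)))))
        have k3 := ih c (hc c (by simp))
        simp only [prod_insert hcD]
        rw [biUnion_insert, card_union_of_disjoint dis, pow_add]
        have hp : (0 : ℝ) < 2 ^ Fintype.card U := by positivity
        refine mul_right_cancel₀ hp.ne' ?_
        calc _ = ((∑ x, C.val c x * ∏ d ∈ D, C.val d x) * 2 ^ Fintype.card U) *
              (2 ^ (C.scope c).card * 2 ^ (D.biUnion C.scope).card) := by ring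
          _ = ((∑ x, C.val c x) * 2 ^ (C.scope c).card) *
              ((∑ x, ∏ d ∈ D, C.val d x) * 2 ^ (D.biUnion C.scope).card) := by rw [k2]; ring
          _ = _ := by rw [k1, k3]

/-- the number of elements of `Q` that agree with `z` on `X` -/
def dg (Q : Finset (U → Bool)) (X : Finset U) (z : U → Bool) : ℕ :=
  (Q.filter (fun y => ∀ u ∈ X, y u = z u)).card

lemma sum_mix (Q : Finset (U → Bool)) (X : Finset U) (F : (U → Bool) → ℝ) :
    ∑ x ∈ Q, ∑ y ∈ Q, F (mix X x y) = ∑ z, (dg Q X z * dg Q (univ \ X) z) * F z := by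
  rw [← sum_product', ← sum_fiberwise (g := fun w => mix X w.1 w.2)]
  refine sum_congr rfl (fun z _ => ?_)
  rw [sum_congr rfl (g := fun _ => F z) (fun w hw => by rw [(mem_filter.1 hw).2]), sum_const,
    nsmul_eq_mul, dg, dg, ← Nat.cast_mul, ← card_product]
  congr 3
  ext w
  simp only [mem_filter, mem_product, mem_sdiff, mem_univ, true_and, funext_iff, mix]
  constructor
  · exact fun h => ⟨⟨h.1.1, fun u hu => by simpa [hu] using h.2 u⟩,
      h.1.2, fun u hu => by simpa [hu] using h.2 u⟩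
  · refine fun h => ⟨⟨h.1.1, h.2.1⟩, fun u => ?_⟩
    split_ifs with hu
    exacts [h.1.2 u hu, h.2.2 u hu]

lemma dg_dep (Q : Finset (U → Bool)) (X : Finset U) : Dep X (fun z => (dg Q X z : ℝ)) := by
  intro x y h
  simp only [dg]
  congr 2
  exact filter_congr (fun w _ => forall₂_congr (fun u hu => by rw [h u hu]))

lemma markov (Q : Finset (U → Bool)) (X : Finset U) {f : (U → Bool) → ℝ} (h0 : ∀ x, 0 ≤ f x)
    {t : ℝ} (ht : 0 < t) : ((Q.filter (fun z => ¬ f z * Q.card ≤
      t * (∑ x ∈ Q, f x / dg Q X x) * dg Q X z)).card : ℝ) * t ≤ Q.card := by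
  set S := ∑ x ∈ Q, f x / dg Q X x with hS
  set B := Q.filter (fun z => ¬ f z * Q.card ≤ t * S * dg Q X z) with hB
  have hd : ∀ z ∈ Q, (0 : ℝ) < dg Q X z := fun z hz => by
    exact_mod_cast card_pos.2 ⟨z, mem_filter.2 ⟨hz, fun _ _ => rfl⟩⟩
  have nn : ∀ x ∈ Q, 0 ≤ f x / dg Q X x := fun x _ => div_nonneg (h0 x) (by positivity)
  rcases B.eq_empty_or_nonempty with e | hne
  · rw [e]; simp
  have h1 : ∑ _z ∈ B, t * S < ∑ z ∈ B, f z / dg Q X z * Q.card := by
    refine sum_lt_sum_of_nonempty hne (fun z hz => ?_)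
    obtain ⟨a1, a2⟩ := mem_filter.1 hz
    rw [div_mul_eq_mul_div, lt_div_iff₀ (hd z a1)]; exact not_le.1 a2
  rw [sum_const, nsmul_eq_mul, ← sum_mul] at h1
  have h2 : ∑ z ∈ B, f z / dg Q X z ≤ S :=
    sum_le_sum_of_subset_of_nonneg (filter_subset _ _) (fun x hx _ => nn x hx)
  have h3 : 0 ≤ S := sum_nonneg nn
  have h4 : (0 : ℝ) ≤ Q.card := by positivity
  by_contra hc
  nlinarith

lemma rank_one_small (Q : Finset (U → Bool)) (X : Finset U) {f g : (U → Bool) → ℝ} (hf : Dep X f)
    (hg : Dep (univ \ X) g) (f0 : ∀ x, 0 ≤ f x) (g0 : ∀ x, 0 ≤ g x) {t : ℝ} (ht : 0 < t) :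
    ∃ B ⊆ Q, (B.card : ℝ) * t ≤ 2 * Q.card ∧ (∑ z ∈ Q \ B, f z * g z) * (Q.card : ℝ) ^ 2 ≤
      t ^ 2 * (∑ z, f z * g z) * cnt Q (fun x y => mix X x y ∈ Q) := by
  classical
  have m1 := markov Q X f0 ht
  have m2 := markov Q (univ \ X) g0 ht
  set S := ∑ x ∈ Q, f x / dg Q X x with hS
  set T := ∑ x ∈ Q, g x / dg Q (univ \ X) x with hT
  have S0 : 0 ≤ S := sum_nonneg (fun x _ => div_nonneg (f0 x) (by positivity))
  have T0 : 0 ≤ T := sum_nonneg (fun x _ => div_nonneg (g0 x) (by positivity))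
  have k1 : S * T ≤ ∑ z, f z * g z := by
    have := sum_mix Q X (fun z => f z / dg Q X z * (g z / dg Q (univ \ X) z))
    simp only [(rank_one hf hg _ _).1, (rank_one hf hg _ _).2,
      (rank_one (dg_dep Q X) (dg_dep Q (univ \ X)) _ _).1,
      (rank_one (dg_dep Q X) (dg_dep Q (univ \ X)) _ _).2] at this
    rw [hS, hT, sum_mul_sum, this]
    refine sum_le_sum (fun z _ => ?_)
    have := mul_nonneg (f0 z) (g0 z)
    by_cases e1 : (dg Q X z : ℝ) = 0
    · simpa [e1] using this
    by_cases e2 : (dg Q (univ \ X) z : ℝ) = 0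
    · simpa [e2] using this
    exact le_of_eq (by field_simp)
  have k2 : (cnt Q (fun x y => mix X x y ∈ Q) : ℝ) =
      ∑ z ∈ Q, (dg Q X z * dg Q (univ \ X) z : ℝ) := by
    have := sum_mix Q X (fun z => if z ∈ Q then 1 else 0)
    simp only [mul_ite, mul_one, mul_zero, sum_ite_mem, univ_inter] at this
    rw [← this, cnt_eq]
    simp only [card_filter]
    push_cast
    congr
  refine ⟨Q.filter (fun z => ¬ f z * Q.card ≤ t * S * dg Q X z) ∪
    Q.filter (fun z => ¬ g z * Q.card ≤ t * T * dg Q (univ \ X) z),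
    union_subset (filter_subset _ _) (filter_subset _ _), ?_, ?_⟩
  · have := (Nat.cast_le (α := ℝ)).2 (card_union_le
      (Q.filter (fun z => ¬ f z * Q.card ≤ t * S * dg Q X z))
      (Q.filter (fun z => ¬ g z * Q.card ≤ t * T * dg Q (univ \ X) z)))
    push_cast at this
    nlinarith
  · rw [k2, sum_mul]
    calc _ ≤ ∑ z ∈ Q \ _, t ^ 2 * (S * T) * (dg Q X z * dg Q (univ \ X) z : ℝ) := by
          refine sum_le_sum (fun z hz => ?_)
          simp only [mem_sdiff, mem_union, mem_filter, not_or, not_and, not_not] at hz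
          have := mul_le_mul (hz.2.1 hz.1) (hz.2.2 hz.1) (mul_nonneg (g0 z) (by positivity))
            (by positivity)
          linarith
      _ ≤ ∑ z ∈ Q, t ^ 2 * (S * T) * (dg Q X z * dg Q (univ \ X) z : ℝ) :=
          sum_le_sum_of_subset_of_nonneg sdiff_subset (fun _ _ _ => by positivity)
      _ ≤ _ := by
          rw [← mul_sum]
          gcongr

theorem core2 (C : Circuit U s) (M : Finset U) (hM : 2 ≤ M.card) (r : Fin s)
    (hr : C.scope r = univ) (Q : Finset (U → Bool)) {ε t : ℝ} (ht : 0 < t) 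
    (hQ : Q.Nonempty) (h : ∀ X : Finset U, M.card ≤ 3 * (X ∩ M).card →
      3 * (X ∩ M).card ≤ 2 * M.card →
      (cnt Q (fun x y => mix X x y ∈ Q) : ℝ) ≤ ε * (Q.card : ℝ) ^ 2) :
    ∃ B ⊆ Q, (B.card : ℝ) * t ≤ 2 * s * Q.card ∧ ∑ z ∈ Q \ B, C.val r z ≤ t ^ 2 * ε := by
  obtain ⟨X, p, p0, hsum, hX⟩ := decomp C M hM r hr
  have hq : (0 : ℝ) < Q.card := by exact_mod_cast card_pos.2 hQ
  have ex : ∀ v, ∃ B ⊆ Q, (B.card : ℝ) * t ≤ 2 * Q.card ∧
      ∑ z ∈ Q \ B, p v z ≤ t ^ 2 * ε * ∑ z, p v z := by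
    intro v
    rcases hX v with hz | ⟨h1, h2, f, g, hf, hg, f0, g0, e⟩
    · exact ⟨∅, by simp, by simp, by simp [hz]⟩
    obtain ⟨B, b1, b2, b3⟩ := rank_one_small Q (X v) hf hg f0 g0 ht
    refine ⟨B, b1, b2, ?_⟩
    simp only [e]
    have z0 : 0 ≤ ∑ z, f z * g z := sum_nonneg (fun z _ => mul_nonneg (f0 z) (g0 z))
    have := b3.trans (mul_le_mul_of_nonneg_left (h _ h1 h2) (by positivity))
    refine le_of_mul_le_mul_right (a := (Q.card : ℝ) ^ 2) ?_ (by positivity)
    linarith
  choose B b1 b2 b3 using ex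
  have tot : ∑ v, ∑ z, p v z = 1 := by
    have := val_total C r
    rw [hr, card_univ] at this
    rw [sum_comm]
    simp only [← hsum]
    exact mul_right_cancel₀ (by positivity) (this.trans (one_mul _).symm)
  refine ⟨univ.biUnion B, biUnion_subset.2 (fun v _ => b1 v), ?_, ?_⟩
  · have h1 : ((univ.biUnion B).card : ℝ) ≤ ∑ v, ((B v).card : ℝ) := by
      exact_mod_cast card_biUnion_le
    have h2 : ∑ v, ((B v).card : ℝ) * t ≤ ∑ _v : Fin s, (2 * Q.card : ℝ) :=
      sum_le_sum (fun v _ => b2 v)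
    rw [← sum_mul, sum_const, card_univ, Fintype.card_fin, nsmul_eq_mul] at h2
    nlinarith
  · simp only [hsum]
    rw [sum_comm, ← mul_one (t ^ 2 * ε), ← tot, mul_sum]
    refine sum_le_sum (fun v _ => le_trans ?_ (b3 v))
    exact sum_le_sum_of_subset_of_nonneg (sdiff_subset_sdiff (Subset.refl _)
      (subset_biUnion_of_mem B (mem_univ v))) (fun z _ _ => p0 v z)

end

end Pool.Agent.Lib.MP_0350c1_lc
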