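import Pool.Agent.Lib.MP_0350c1_lc.Z12

namespace Pool.Agent.Lib.MP_0350c1_lc

open Relation Finset

lemma event_le_tv {α : Type} [Fintype α] [DecidableEq α] (p q : α → ℝ) (h : ∑ a, p a = ∑ a, q a)
    (E : Finset α) : ∑ a ∈ E, q a - ∑ a ∈ E, p a ≤ tv p q := by
  unfold tv
  rw [← sum_add_sum_compl E] at h
  rw [← sum_add_sum_compl E q] at h
  rw [← sum_add_sum_compl E]
  have h1 : ∑ a ∈ E, (q a - p a) ≤ ∑ a ∈ E, |p a - q a| :=
    sum_le_sum (fun a _ => by rw [abs_sub_comm]; exact le_abs_self _)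
  have h2 : ∑ a ∈ Eᶜ, (p a - q a) ≤ ∑ a ∈ Eᶜ, |p a - q a| := sum_le_sum (fun a _ => le_abs_self _)
  rw [sum_sub_distrib] at h1 h2
  linarith

lemma sum_push {α β : Type} [Fintype α] [DecidableEq β] (f : α → β) (p : α → ℝ) (E : Finset β) :
    ∑ b ∈ E, push f p b = ∑ a ∈ univ.filter (fun a => f a ∈ E), p a := by
  unfold push
  rw [sum_comm, sum_filter]
  exact sum_congr rfl (fun a _ => by simp)

lemma sum_unif {α : Type} [DecidableEq α] (Q E : Finset α) (h : E ⊆ Q) :
    ∑ a ∈ E, unif Q a = E.card / Q.card := by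
  rw [sum_congr rfl (g := fun _ => 1 / (Q.card : ℝ)) (fun a ha => by rw [unif, if_pos (h ha)]), sum_const,
    nsmul_eq_mul, mul_one_div]

section
variable {V : Type} [Fintype V] [DecidableEq V]

lemma lab_card (Q : Finset (Sym2 (Finset V))) :
    (univ.filter (fun x : V → Bool => classes x ∈ Q)).card ≤ 2 * Q.card := by
  refine card_le_mul_card_image_of_maps_to (f := classes) (fun x hx => (mem_filter.1 hx).2) 2
    (fun π _ => ?_)
  rcases (((univ.filter (fun x : V → Bool => classes x ∈ Q))).filter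
    (fun x => classes x = π)).eq_empty_or_nonempty with e | ⟨y, hy⟩
  · rw [e]; simp
  · refine le_trans (card_le_card (t := {y, fun v => !(y v)}) (fun x hx => ?_)) card_le_two
    have := classes_eq ((mem_filter.1 hx).2.trans (mem_filter.1 hy).2.symm)
    simpa using this

lemma tv_of_core {s : ℕ} (C : Circuit V s) (r : Fin s) (hr : C.scope r = univ)
    (Q : Finset (Sym2 (Finset V))) (hQ : Q.Nonempty) (B : Finset (V → Bool)) {t η : ℝ} (ht : 0 < t)
    (h1 : (B.card : ℝ) * t ≤ 2 * s * (univ.filter (fun x : V → Bool => classes x ∈ Q)).card)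
    (h2 : ∑ z ∈ univ.filter (fun x : V → Bool => classes x ∈ Q) \ B, C.val r z ≤ η) :
    1 - (4 * s / t + η) ≤ tv (push classes (C.val r)) (unif Q) := by
  have hq : (0 : ℝ) < Q.card := by exact_mod_cast card_pos.2 hQ
  have tot : ∑ z, C.val r z = 1 := by
    have := val_total C r
    rw [hr, card_univ] at this
    exact mul_right_cancel₀ (by positivity) (this.trans (one_mul _).symm)
  refine le_trans ?_ (event_le_tv _ _ ?_ (Q \ B.image classes))
  · rw [sum_unif _ _ sdiff_subset, sum_push]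
    have k1 : ∑ a ∈ univ.filter (fun a => classes a ∈ Q \ B.image classes), C.val r a ≤ η := by
      refine le_trans (sum_le_sum_of_subset_of_nonneg (fun x hx => ?_)
        (fun x _ _ => val_nonneg C r x)) h2
      simp only [mem_filter, mem_univ, true_and, mem_sdiff] at hx ⊢
      exact ⟨hx.1, fun h => hx.2 (mem_image_of_mem _ h)⟩
    have k2 : (Q.card : ℝ) ≤ (Q \ B.image classes).card + B.card := by
      exact_mod_cast (card_le_card_sdiff_add_card).trans (Nat.add_le_add_left card_image_le _)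
    have k3 : ((univ.filter (fun x : V → Bool => classes x ∈ Q)).card : ℝ) ≤ 2 * Q.card := by
      exact_mod_cast lab_card Q
    have k4 : (B.card : ℝ) ≤ 4 * s / t * Q.card := by
      rw [div_mul_eq_mul_div, le_div_iff₀ ht]
      have : (0 : ℝ) ≤ s := by positivity
      nlinarith
    have k5 : 1 - 4 * s / t ≤ ((Q \ B.image classes).card : ℝ) / Q.card := by
      rw [le_div_iff₀ hq]; linarith
    linarith
  · rw [sum_push, ← sum_subset (f := unif Q) (subset_univ Q) (fun a _ ha => if_neg ha),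
      sum_unif _ _ (Subset.refl _),
      div_self hq.ne']
    simpa using tot

end

variable {m n a b : ℕ}

lemma inn_inj (ha : a + 13 ≤ m) (hb : b + 13 ≤ n) : Function.Injective (inn ha hb) := by
  intro μ μ' h
  simp only [inn, Prod.mk.injEq, Fin.mk.injEq] at h
  exact Prod.ext (Fin.ext (by omega)) (Fin.ext (by omega))

/-- from a bound on the number of pairs to a bound on the distance -/
lemma tv_of_pairs (ha : a + 13 ≤ m) (hb : b + 13 ≤ n) (hab : 2 ≤ a * b)
    (Q : Finset (Sym2 (Finset (Fin m × Fin n)))) (hQ : Q.Nonempty)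
    (hP : ∀ π ∈ Q, IsPart (grid m n) π) {ε t : ℝ} (ht : 0 < t)
    (h : ∀ X : Finset (Fin m × Fin n), a * b ≤ 3 * (univ.filter (fun μ => inn ha hb μ ∈ X)).card →
      3 * (univ.filter (fun μ => inn ha hb μ ∈ X)).card ≤ 2 * (a * b) →
      (cnt (univ.filter (fun x => classes x ∈ Q)) (fun x y => Valid (grid m n) (mix X x y)) : ℝ) ≤
        ε * ((univ.filter (fun x : Fin m × Fin n → Bool => classes x ∈ Q)).card : ℝ) ^ 2)
    {s : ℕ} (C : Circuit (Fin m × Fin n) s) (r : Fin s) (hr : C.scope r = univ) :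
    1 - (4 * s / t + t ^ 2 * ε) ≤ tv (push classes (C.val r)) (unif Q) := by
  have hMc : (univ.image (inn ha hb)).card = a * b := by
    rw [card_image_of_injective _ (inn_inj ha hb)]; simp
  obtain ⟨B, -, b2, b3⟩ := core2 C (univ.image (inn ha hb)) (by omega) r hr
    (univ.filter (fun x => classes x ∈ Q)) (ε := ε) ht (by
      obtain ⟨π, hπ⟩ := hQ
      obtain ⟨x, rfl⟩ := exists_classes (hP π hπ)
      exact ⟨x, by simpa using hπ⟩) (fun X h1 h2 => by
      have hc : (X ∩ univ.image (inn ha hb)).card = (univ.filter (fun μ => inn ha hb μ ∈ X)).card := by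
        rw [← card_image_of_injective _ (inn_inj ha hb)]
        congr 1; ext w
        simp only [mem_inter, mem_image, mem_univ, true_and, mem_filter]
        constructor
        · rintro ⟨h1, μ, rfl⟩; exact ⟨μ, h1, rfl⟩
        · rintro ⟨μ, h1, rfl⟩; exact ⟨h1, μ, rfl⟩
      rw [hc, hMc] at h1 h2
      refine le_trans (Nat.cast_le.2 (cnt_mono _ (fun x _ y _ hxy => ?_))) (h X h1 h2)
      exact (isPart_iff _ _).1 (hP _ (mem_filter.1 hxy).2))
  exact tv_of_core C r hr Q hQ B ht b2 b3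

lemma decay {δ : ℝ} (h0 : 0 < δ) (h1 : δ ≤ 1) (j : ℕ) : (1 - δ) ^ j ≤ (2 : ℝ) ^ (-(δ * j)) := by
  have e1 : 1 - δ ≤ Real.exp (-δ) := by have := Real.add_one_le_exp (-δ); linarith
  calc (1 - δ) ^ j ≤ (Real.exp (-δ)) ^ j := pow_le_pow_left₀ (by linarith) e1 j
    _ = Real.exp (-(δ * j)) := by rw [← Real.exp_nat_mul]; congr 1; ring
    _ ≤ _ := by
      rw [Real.rpow_def_of_pos (by norm_num), Real.exp_le_exp]
      have := Real.log_two_lt_d9
      have : 0 ≤ δ * j := by positivity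
      nlinarith

theorem dense_main : ∃ c : ℝ, 0 < c ∧ ∃ k₀ : ℕ, ∀ m n : ℕ, k₀ ≤ m → k₀ ≤ n →
    ∀ P Q : Finset (Sym2 (Finset (Fin m × Fin n))), (∀ π, π ∈ P ↔ IsPart (grid m n) π) → Q ⊆ P →
      Q.Nonempty → ∀ (s : ℕ) (C : Circuit (Fin m × Fin n) s) (r : Fin s), C.scope r = univ →
        1 - (s + 1) * (m * n) * ((P.card : ℝ) / Q.card) ^ 2 / 2 ^ (c * (min m n : ℕ)) ≤
          tv (push classes (C.val r)) (unif Q) := by
  set δ : ℝ := 1 / (2 ^ 145) ^ 2 with hδ
  have δ0 : 0 < δ := by positivity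
  have δ1 : δ ≤ 1 := by rw [hδ]; norm_num
  refine ⟨δ / 216, by positivity, 100, fun m n hm hn P Q hP hQP hQ s C r hr => ?_⟩
  have ha : m - 13 + 13 ≤ m := by omega
  have hb : n - 13 + 13 ≤ n := by omega
  set k := min m n with hk
  set t : ℝ := 2 ^ (δ / 216 * k) with ht
  have t0 : 0 < t := by positivity
  set K : ℝ := (P.card : ℝ) / Q.card with hK
  have hq : (0 : ℝ) < Q.card := by exact_mod_cast card_pos.2 hQ
  have K1 : 1 ≤ K := by rw [hK, one_le_div hq]; exact_mod_cast card_le_card hQP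
  have t3 : t ^ 3 = 2 ^ (δ / 72 * k) := by
    rw [ht, ← Real.rpow_natCast, ← Real.rpow_mul (by norm_num)]; congr 1; push_cast; ring
  have e1 : (1 - δ) ^ (min (m - 13) (n - 13) / 36) ≤ 1 / t ^ 3 := by
    refine (decay δ0 δ1 _).trans ?_
    rw [t3, one_div, ← Real.rpow_neg (by norm_num)]
    refine Real.rpow_le_rpow_of_exponent_le (by norm_num) ?_
    have : (k : ℝ) ≤ 72 * ((min (m - 13) (n - 13) / 36 : ℕ) : ℝ) := by exact_mod_cast (by omega)
    nlinarith
  have e2 : t ^ 3 ≤ 2 ^ ((k - 1) / 2) := by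
    rw [t3, ← Real.rpow_natCast]
    refine Real.rpow_le_rpow_of_exponent_le (by norm_num) ?_
    have : (k : ℝ) ≤ 72 * (((k - 1) / 2 : ℕ) : ℝ) := by exact_mod_cast (by omega)
    have : (0 : ℝ) ≤ k := by positivity
    nlinarith
  have hm' : (100 : ℝ) ≤ m := by exact_mod_cast hm
  have hn' : (100 : ℝ) ≤ n := by exact_mod_cast hn
  have key := tv_of_pairs ha hb (by
    have : 2 ≤ m - 13 := by omega
    have : 1 ≤ n - 13 := by omega
    nlinarith) Q hQ (fun π h => (hP π).1 (hQP h)) (ε := 5 * (m + n) / t ^ 3 * (2 * K) ^ 2) t0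
    (fun X h1 h2 => ?_) C r hr
  · refine le_trans (sub_le_sub_left ?_ 1) key
    have : t ^ 2 * (5 * (m + n) / t ^ 3 * (2 * K) ^ 2) = 20 * (m + n) * K ^ 2 / t := by
      field_simp; ring
    rw [this, ← add_div]
    gcongr
    have s0 : (0 : ℝ) ≤ s := by positivity
    have K2 : 1 ≤ K ^ 2 := one_le_pow₀ K1
    have a0 : (4 : ℝ) ≤ m * n := by nlinarith
    have a1 : (4 : ℝ) ≤ m * n * K ^ 2 := by nlinarith
    have a2 : (20 : ℝ) * (m + n) ≤ m * n := by nlinarith
    nlinarith
  · have pb := pair_bound ha hb (by omega) X h1 h2 ((k - 1) / 2) (by omega)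
    have sub : univ.filter (fun x => classes x ∈ Q) ⊆ Om m n (fun _ => True) := fun x hx =>
      mem_Om.2 ⟨(valid_iff x).1 ((isPart_iff _ _).1 ((hP _).1 (hQP (mem_filter.1 hx).2))), trivial⟩
    have c1 : cnt (univ.filter (fun x => classes x ∈ Q)) (fun x y => Valid (grid m n) (mix X x y)) ≤
        cnt (Om m n (fun _ => True)) (fun x y => VZ m n (ext (mix X x y))) := by
      classical
      refine card_le_card (fun w hw => ?_)
      simp only [mem_filter (s := _ ×ˢ _), mem_product] at hw ⊢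
      exact ⟨⟨sub hw.1.1, sub hw.1.2⟩, (valid_iff _).1 hw.2⟩
    have c2 : (Om m n (fun _ => True)).card ≤ 2 * P.card := le_trans (card_le_card (fun x hx =>
      mem_filter.2 ⟨mem_univ _, (hP _).2 ((isPart_iff _ _).2 ((valid_iff x).2 (mem_Om.1 hx).1))⟩))
      (lab_card P)
    have c3 : Q.card ≤ (univ.filter (fun x : Fin m × Fin n → Bool => classes x ∈ Q)).card := by
      refine card_le_card_of_surjOn classes (fun π hπ => ?_)
      obtain ⟨x, rfl⟩ := exists_classes ((hP π).1 (hQP hπ))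
      exact ⟨x, by simpa using hπ, rfl⟩
    have c4 : ((Om m n (fun _ => True)).card : ℝ) ≤
        2 * K * (univ.filter (fun x : Fin m × Fin n → Bool => classes x ∈ Q)).card := by
      have c2' : ((Om m n (fun _ => True)).card : ℝ) ≤ 2 * P.card := by exact_mod_cast c2
      have c3' : (Q.card : ℝ) ≤
          (univ.filter (fun x : Fin m × Fin n → Bool => classes x ∈ Q)).card := by exact_mod_cast c3
      have : (P.card : ℝ) = K * Q.card := by rw [hK]; field_simp
      nlinarith
    refine ((Nat.cast_le.2 c1).trans pb).trans ?_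
    rw [mul_assoc, ← mul_pow]
    have e3 : (4 * (m + n) / 2 ^ ((k - 1) / 2) : ℝ) ≤ 4 * (m + n) / t ^ 3 := by gcongr
    have e4 : 1 / t ^ 3 ≤ (m + n) / t ^ 3 := by gcongr; linarith
    have e5 : (5 * (m + n) / t ^ 3 : ℝ) = (m + n) / t ^ 3 + 4 * (m + n) / t ^ 3 := by ring
    gcongr
    linarith

end Pool.Agent.Lib.MP_0350c1_lc
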