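import Pool.Agent.Lib.MP_0350c1_lc.Z1

namespace Pool.Agent.Lib.MP_0350c1_lc

open Relation

variable {M N : ℤ} {c : P2 → Bool}

def Bd (M N : ℤ) (v : P2) : Prop := In M N v ∧ (v.1 = 0 ∨ v.1 = M - 1 ∨ v.2 = 0 ∨ v.2 = N - 1)

def tau (M N : ℤ) (v : P2) : ℤ :=
  if v.1 = 0 then v.2 else if v.2 = N - 1 then N - 1 + v.1 else
    if v.1 = M - 1 then 2 * (N - 1) + (M - 1) - v.2 else 2 * (N - 1) + 2 * (M - 1) - v.1

def beta (M N t : ℤ) : P2 :=
  if t ≤ N - 1 then (0, t) else if t ≤ N - 1 + (M - 1) then (t - (N - 1), N - 1) else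
    if t ≤ 2 * (N - 1) + (M - 1) then (M - 1, 2 * (N - 1) + (M - 1) - t)
    else (2 * (N - 1) + 2 * (M - 1) - t, 0)

lemma beta_tau (hM : 2 ≤ M) (hN : 2 ≤ N) {v : P2} (h : Bd M N v) : beta M N (tau M N v) = v ∧
    0 ≤ tau M N v ∧ tau M N v < 2 * (N - 1) + 2 * (M - 1) := by
  obtain ⟨i, j⟩ := v
  unfold Bd In at h
  unfold beta tau
  simp only at h ⊢
  split_ifs <;> rw [Prod.mk.injEq] <;> omega

lemma tau_beta (hM : 2 ≤ M) (hN : 2 ≤ N) {t : ℤ} (_h0 : 0 ≤ t)
    (h1 : t < 2 * (N - 1) + 2 * (M - 1)) : tau M N (beta M N t) = t := by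
  unfold beta
  split_ifs <;> unfold tau <;> simp only <;> split_ifs <;> omega

lemma bd_beta (hM : 2 ≤ M) (hN : 2 ≤ N) {t : ℤ} (h0 : 0 ≤ t)
    (h1 : t ≤ 2 * (N - 1) + 2 * (M - 1)) : Bd M N (beta M N t) := by
  unfold beta
  split_ifs <;> unfold Bd In <;> dsimp only <;> omega

lemma adj_beta (hM : 2 ≤ M) (hN : 2 ≤ N) {t : ℤ} (_h0 : 0 ≤ t)
    (h1 : t < 2 * (N - 1) + 2 * (M - 1)) : Adj (beta M N t) (beta M N (t + 1)) := by
  unfold beta
  split_ifs <;> unfold Adj <;> dsimp only <;> omega

def corr (M N : ℤ) (u : P2) (x y : ℤ) : ℤ :=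
  if u.1 = M - 1 then (if u.2 ≤ y then 1 else 0) else
    if u.2 = N - 1 ∧ y = N - 1 ∧ x < u.1 then 1 else 0

def part (M N : ℤ) (u p : P2) : ℤ :=
  if p.1 = 0 then (if u.2 ≤ p.2 then 1 else 0) else if p.2 = N - 1 ∨ p.1 = M - 1 then 1 else
    1 + if u.2 = 0 ∧ p.1 < u.1 then 1 else 0

lemma part_corr (hM : 2 ≤ M) (hN : 2 ≤ N) {u p q : P2} (hu : Bd M N u) (hp : Bd M N p)
    (hq : Bd M N q) (h1 : p ≠ u) (h2 : q ≠ u) :
    (part M N u p + corr M N u p.1 p.2 + (if tau M N u < tau M N p then 1 else 0)) % 2 =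
      (part M N u q + corr M N u q.1 q.2 + (if tau M N u < tau M N q then 1 else 0)) % 2 := by
  have key : ∀ p : P2, Bd M N p → p ≠ u →
      (part M N u p + corr M N u p.1 p.2 + (if tau M N u < tau M N p then 1 else 0)) % 2 =
      if u.2 = 0 ∧ 0 < u.1 ∧ u.1 < M - 1 then 1 else 0 := by
    intro p hp h
    have h' : ¬ (p.1 = u.1 ∧ p.2 = u.2) := fun e => h (Prod.ext e.1 e.2)
    unfold Bd In at hu hp
    unfold part corr tau
    split_ifs <;> omega
  rw [key p hp h1, key q hq h2]

lemma interlace (hM : 2 ≤ M) (hN : 2 ≤ N) (h : VZ M N c) {u v p q : P2} (hu : Bd M N u)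
    (hv : Bd M N v) (hp : Bd M N p) (hq : Bd M N q) (e1 : c u = c v) (e2 : c p = c q)
    (e3 : c p ≠ c u) (t1 : tau M N u < tau M N p) (t2 : tau M N p < tau M N v)
    (t3 : tau M N v < tau M N q) : False := by
  obtain ⟨φ, hφ⟩ := exists_par ((h _).2 _ _ hu.1 hv.1 rfl e1.symm)
  have hcH : ∀ w : P2, c w = c u → ∀ x y, c (x, y) ≠ c u → c (x + 1, y) ≠ c u →
      corr M N w x y = corr M N w (x + 1) y := by
    intro w hw x y a1 a2
    have : ¬ (w.1 = x + 1 ∧ w.2 = y) := fun e => a2 (by rw [← e.1, ← e.2]; exact hw)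
    unfold corr
    split_ifs <;> omega
  have hcV : ∀ w : P2, Bd M N w → c w = c u → ∀ x y, In M N (x, y) → In M N (x, y + 1) →
      c (x, y + 1) ≠ c u → (corr M N w x y + corr M N w x (y + 1)) % 2 =
        (if w.2 = y + 1 ∧ x < w.1 then 1 else 0) := by
    intro w hb hw x y i1 i2 a2
    have : ¬ (w.1 = x ∧ w.2 = y + 1) := fun e => a2 (by rw [← e.1, ← e.2]; exact hw)
    unfold Bd In at *
    unfold corr
    simp only at *
    split_ifs <;> omega
  have key := hφ.const (fun x y => corr M N u x y + corr M N v x y) (fun x y _ _ a1 a2 => by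
      rw [hcH u rfl x y a1 a2, hcH v e1.symm x y a1 a2])
    (fun x y i1 i2 _ a2 => by
      have := hcV u hu rfl x y i1 i2 a2
      have := hcV v hv e1.symm x y i1 i2 a2
      omega) ((h _).2 _ _ hp.1 hq.1 rfl e2.symm) e3
  have ev : ∀ w : P2, Bd M N w → c w ≠ c u →
      φ w.1 w.2 % 2 = (part M N u w + part M N v w) % 2 := by
    intro w hw hc
    obtain ⟨x, y⟩ := w
    unfold part
    simp only
    have hw' := hw
    unfold Bd In at hw'
    simp only at hw'
    by_cases h0 : x = 0
    · subst h0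
      have k1 := hφ.H (-1) y (fun h => hc (by simpa using h.2))
      have k2 := hφ.L (-1) y (fun p hp => by have := hp.1.1; omega)
      simp only [if_true]
      norm_num at k1
      omega
    · rw [if_neg h0, if_neg h0]
      by_cases h1 : y = N - 1
      · have := hφ.T x y (fun p hp => by have := hp.1.2.2.2; omega)
        rw [if_pos (Or.inl h1), if_pos (Or.inl h1)]; omega
      by_cases h2 : x = M - 1
      · have := hφ.R x y (fun p hp => by have := hp.1.2.1; omega)
        rw [if_pos (Or.inr h2), if_pos (Or.inr h2)]; omega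
      · have h3 : y = 0 := by omega
        subst h3
        have k1 := hφ.V x (-1) (fun h => hc (by simpa using h.2))
        have k2 := hφ.D x (-1) (fun p hp => by have := hp.1.2.2.1; omega)
        rw [if_neg (by omega), if_neg (not_or.2 ⟨h1, h2⟩)]
        norm_num at k1
        omega
  have e4 : c q ≠ c u := e2 ▸ e3
  have f1 := ev p hp e3
  have f2 := ev q hq e4
  have g1 := part_corr hM hN hu hp hq (fun e => e3 (by rw [e])) (fun e => e4 (by rw [e]))
  have g2 := part_corr hM hN hv hp hq (fun e => e3 (by rw [e, e1])) (fun e => e4 (by rw [e, e1]))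
  rw [if_pos t1, if_pos (by omega)] at g1
  rw [if_neg (by omega), if_pos t3] at g2
  omega

/-- the cells of colour `false` on the boundary are joined along the boundary -/
def BC (M N : ℤ) (c : P2 → Bool) : Prop :=
  ∀ b b', Bd M N b → Bd M N b' → c b = false → c b' = false →
    ReflTransGen (fun u v => Bd M N u ∧ Bd M N v ∧ Adj u v ∧ c u = false ∧ c v = false) b b'

lemma VZ.bc (hM : 2 ≤ M) (hN : 2 ≤ N) (h : VZ M N c) : BC M N c := by
  set R := fun u v => Bd M N u ∧ Bd M N v ∧ Adj u v ∧ c u = false ∧ c v = false with hR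
  have hsym : ∀ {u v}, ReflTransGen R u v → ReflTransGen R v u := by
    intro u v h
    induction h with
    | refl => exact ReflTransGen.refl
    | tail _ h ih => exact ReflTransGen.head ⟨h.2.1, h.1, h.2.2.1.symm, h.2.2.2.2, h.2.2.2.1⟩ ih
  have walk : ∀ (k : ℕ) (t : ℤ), 0 ≤ t → t + k ≤ 2 * (N - 1) + 2 * (M - 1) →
      (∀ s, t ≤ s → s ≤ t + k → c (beta M N s) = false) →
      ReflTransGen R (beta M N t) (beta M N (t + k)) := by
    intro k
    induction k with
    | zero => intro t _ _ _; simpa using ReflTransGen.refl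
    | succ k ih =>
      intro t h0 h1 hc
      push_cast at h1 hc ⊢
      rw [← add_assoc]
      exact (ih t h0 (by omega) (fun s a b => hc s a (by omega))).tail
        ⟨bd_beta hM hN (by omega) (by omega), bd_beta hM hN (by omega) (by omega),
          adj_beta hM hN (by omega) (by omega), hc _ (by omega) (by omega),
          hc _ (by omega) (by omega)⟩
  have walk' : ∀ t t' : ℤ, 0 ≤ t → t ≤ t' → t' ≤ 2 * (N - 1) + 2 * (M - 1) →
      (∀ s, t ≤ s → s ≤ t' → c (beta M N s) = false) →
      ReflTransGen R (beta M N t) (beta M N t') := by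
    intro t t' h0 h1 h2 hc
    have e : t' = t + ((t' - t).toNat : ℤ) := by omega
    rw [e] at h2 hc ⊢
    exact walk _ t h0 h2 hc
  have main : ∀ b b', Bd M N b → Bd M N b' → c b = false → c b' = false →
      tau M N b ≤ tau M N b' → ReflTransGen R b b' := by
    intro b b' hb hb' e e' hle
    obtain ⟨a1, a2, a3⟩ := beta_tau hM hN hb
    obtain ⟨a1', a2', a3'⟩ := beta_tau hM hN hb'
    by_cases hall : ∀ s, tau M N b ≤ s → s ≤ tau M N b' → c (beta M N s) = false
    · have := walk' _ _ a2 hle a3'.le hall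
      rwa [a1, a1'] at this
    · push Not at hall
      obtain ⟨s, s1, s2, s3⟩ := hall
      have s4 : s ≠ tau M N b := fun e0 => s3 (by rw [e0, a1, e])
      have s5 : s ≠ tau M N b' := fun e0 => s3 (by rw [e0, a1', e'])
      have s6 : c (beta M N s) = true := by simpa using s3
      have ts := tau_beta hM hN (t := s) (by omega) (by omega)
      have bs := bd_beta hM hN (t := s) (by omega) (by omega)
      have low : ∀ r, 0 ≤ r → r ≤ tau M N b → c (beta M N r) = false := by
        intro r r0 r1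
        by_contra hr
        have r2 : r ≠ tau M N b := fun e0 => hr (by rw [e0, a1, e])
        have tr := tau_beta hM hN (t := r) r0 (by omega)
        exact interlace hM hN h (bd_beta hM hN r0 (by omega)) bs hb hb'
          (by rw [s6]; simpa using hr) (e.trans e'.symm) (by rw [e]; exact fun h => hr h.symm)
          (by omega) (by omega) (by omega)
      have last : beta M N (2 * (N - 1) + 2 * (M - 1)) = beta M N 0 := by
        unfold beta
        split_ifs <;> rw [Prod.mk.injEq] <;> omega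
      have high : ∀ r, tau M N b' ≤ r → r ≤ 2 * (N - 1) + 2 * (M - 1) →
          c (beta M N r) = false := by
        intro r r0 r1
        rcases r1.eq_or_lt with rfl | r1
        · rw [last]; exact low 0 (le_refl _) a2
        by_contra hr
        have r2 : r ≠ tau M N b' := fun e0 => hr (by rw [e0, a1', e'])
        have tr := tau_beta hM hN (t := r) (by omega) r1
        exact interlace hM hN h hb hb' bs (bd_beta hM hN (t := r) (by omega) (by omega))
          (e.trans e'.symm) (by rw [s6]; simpa using hr) (by rw [s6, e]; simp)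
          (by omega) (by omega) (by omega)
      have w1 := walk' _ _ (le_refl 0) a2 a3.le low
      have w2 := walk' _ _ a2' a3'.le (le_refl _) high
      rw [a1] at w1
      rw [a1', last] at w2
      exact hsym (w2.trans w1)
  intro b b' hb hb' e e'
  rcases le_total (tau M N b) (tau M N b') with hle | hle
  · exact main b b' hb hb' e e' hle
  · exact hsym (main b' b hb' hb e' e hle)

end Pool.Agent.Lib.MP_0350c1_lc
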