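import Pool.Agent.Lib.MP_0350c1_lc.Z2

namespace Pool.Agent.Lib.MP_0350c1_lc

open Relation Finset

variable {M N : ℤ} {c : P2 → Bool}

lemma tele (g : ℤ → ZMod 2) (n : ℕ) : ∑ i ∈ range n, (g i + g (i + 1)) = g 0 + g n := by
  induction n with
  | zero => simp [CharTwo.add_self_eq_zero]
  | succ n ih =>
    rw [sum_range_succ, ih]; push_cast
    have := CharTwo.add_self_eq_zero (g n)
    linear_combination this

def face (w : P2 → P2 → ZMod 2) (i j : ℤ) : ZMod 2 :=
  w (i, j) (i + 1, j) + w (i + 1, j) (i + 1, j + 1) + w (i + 1, j + 1) (i, j + 1) + w (i, j + 1) (i, j)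

lemma stokes (hM : 2 ≤ M) (hN : 2 ≤ N) (w : P2 → P2 → ZMod 2) (hs : ∀ u v, w u v = w v u)
    (hb : ∀ u v, Bd M N u → Bd M N v → Adj u v → w u v = 0) :
    ∑ p ∈ range (M - 1).toNat ×ˢ range (N - 1).toNat, face w p.1 p.2 = 0 := by
  have e : ∀ i j : ℤ, face w i j = (w (i, j) (i + 1, j) + w (i, j + 1) (i + 1, j + 1)) +
      (w (i, j) (i, j + 1) + w (i + 1, j) (i + 1, j + 1)) := by
    intro i j; unfold face; rw [hs (i + 1, j + 1), hs (i, j + 1) (i, j)]; ring
  simp only [e, sum_add_distrib (s := range (M - 1).toNat ×ˢ range (N - 1).toNat)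
    (f := fun p : ℕ × ℕ => w ((p.1 : ℤ), (p.2 : ℤ)) (p.1 + 1, p.2) + w (p.1, p.2 + 1) (p.1 + 1, p.2 + 1))]
  have h1 : ∑ p ∈ range (M - 1).toNat ×ˢ range (N - 1).toNat,
      (w ((p.1 : ℤ), (p.2 : ℤ)) (p.1 + 1, p.2) + w (p.1, p.2 + 1) (p.1 + 1, p.2 + 1)) = 0 := by
    rw [sum_product]
    refine sum_eq_zero (fun i hi => ?_)
    rw [mem_range] at hi
    rw [tele (fun j => w ((i : ℤ), j) (i + 1, j)), hb, hb, add_zero] <;>
      simp only [Bd, In, Adj, and_true, true_or, or_true] <;> omega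
  have h2 : ∑ p ∈ range (M - 1).toNat ×ˢ range (N - 1).toNat,
      (w ((p.1 : ℤ), (p.2 : ℤ)) (p.1, p.2 + 1) + w (p.1 + 1, p.2) (p.1 + 1, p.2 + 1)) = 0 := by
    rw [sum_product_right]
    refine sum_eq_zero (fun j hj => ?_)
    rw [mem_range] at hj
    rw [tele (fun i => w (i, (j : ℤ)) (i, j + 1)), hb, hb, add_zero] <;>
      simp only [Bd, In, Adj, and_true, true_or, or_true] <;> omega
  rw [h1, h2, add_zero]

def quad (w : P2 → P2 → ZMod 2) (l p q : P2) : ZMod 2 :=
  w l p + w p (p.1 + q.1 - l.1, p.2 + q.2 - l.2) + w (p.1 + q.1 - l.1, p.2 + q.2 - l.2) q + w q l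

lemma stokes_local (w : P2 → P2 → ZMod 2) (hs : ∀ u v, w u v = w v u)
    (hb : ∀ u v, Bd M N u → Bd M N v → Adj u v → w u v = 0) {l n s x e : P2}
    (hl : 1 ≤ l.1 ∧ l.1 ≤ M - 2 ∧ 1 ≤ l.2 ∧ l.2 ≤ N - 2) (hn : Adj l n) (hx : Adj l x)
    (hp : n.1 = l.1 ↔ x.1 ≠ l.1) (hs' : s = (2 * l.1 - n.1, 2 * l.2 - n.2))
    (he : e = (2 * l.1 - x.1, 2 * l.2 - x.2))
    (h0 : ∀ i j, In M N (i, j) → In M N (i + 1, j + 1) →
      ¬ ((l.1 = i ∨ l.1 = i + 1) ∧ (l.2 = j ∨ l.2 = j + 1)) → face w i j = 0) :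
    quad w l n x + quad w l n e + quad w l s x + quad w l s e = 0 := by
  obtain ⟨i, j⟩ := l
  dsimp only at hl h0
  obtain ⟨a, rfl⟩ : ∃ a : ℕ, i = a + 1 := ⟨(i - 1).toNat, by omega⟩
  obtain ⟨b, rfl⟩ : ∃ b : ℕ, j = b + 1 := ⟨(j - 1).toNat, by omega⟩
  have h1 := stokes (by omega) (by omega) w hs hb
  have hsub : ({a, a + 1} ×ˢ {b, b + 1} : Finset (ℕ × ℕ)) ⊆
      range (M - 1).toNat ×ˢ range (N - 1).toNat := by
    intro p hp
    simp only [mem_product, mem_insert, mem_singleton, mem_range] at hp ⊢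
    omega
  rw [← sum_subset hsub (fun p hp hp' => h0 _ _ (by
      simp only [mem_product, mem_range] at hp; unfold In; dsimp only; omega) (by
      simp only [mem_product, mem_range] at hp; unfold In; dsimp only; omega) (by
      simp only [mem_product, mem_insert, mem_singleton] at hp'; omega)),
    sum_product, sum_pair (by omega), sum_pair (by omega), sum_pair (by omega)] at h1
  unfold face at h1
  push_cast at h1
  obtain ⟨n1, n2⟩ := n
  obtain ⟨x1, x2⟩ := x
  unfold Adj at hn hx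
  dsimp only at hn hx hp
  have A1 : ∀ a : ℤ, 2 * (a + 1) - a = a + 1 + 1 := fun a => by ring
  have A2 : ∀ a : ℤ, 2 * (a + 1) - (a + 1) = a + 1 := fun a => by ring
  have A3 : ∀ a : ℤ, 2 * (a + 1) - (a + 1 + 1) = a := fun a => by ring
  have A4 : ∀ a b : ℤ, a + b - a = b := fun a b => by ring
  have A5 : ∀ a b : ℤ, a + b - b = a := fun a b => by ring
  have hc : ((n1 = a ∨ n1 = a + 1 + 1) ∧ n2 = b + 1 ∧ x1 = a + 1 ∧ (x2 = b ∨ x2 = b + 1 + 1)) ∨
      ((x1 = a ∨ x1 = a + 1 + 1) ∧ x2 = b + 1 ∧ n1 = a + 1 ∧ (n2 = b ∨ n2 = b + 1 + 1)) := by omega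
  subst hs' he
  unfold quad
  dsimp only
  generalize (a : ℤ) = A at *
  generalize (b : ℤ) = B at *
  have t1 := hs (A, B) (A + 1, B)
  have t2 := hs (A + 1, B) (A + 1, B + 1)
  have t3 := hs (A + 1, B + 1) (A, B + 1)
  have t4 := hs (A, B + 1) (A, B)
  have t5 := hs (A + 1, B + 1) (A + 1, B + 1 + 1)
  have t6 := hs (A + 1, B + 1 + 1) (A, B + 1 + 1)
  have t7 := hs (A, B + 1 + 1) (A, B + 1)
  have t8 := hs (A + 1, B) (A + 1 + 1, B)
  have t9 := hs (A + 1 + 1, B) (A + 1 + 1, B + 1)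
  have t10 := hs (A + 1 + 1, B + 1) (A + 1, B + 1)
  have t11 := hs (A + 1 + 1, B + 1) (A + 1 + 1, B + 1 + 1)
  have t12 := hs (A + 1 + 1, B + 1 + 1) (A + 1, B + 1 + 1)
  rcases hc with ⟨rfl | rfl, rfl, rfl, rfl | rfl⟩ | ⟨rfl | rfl, rfl, rfl, rfl | rfl⟩ <;>
    simp only [A1, A2, A3, A4, A5] <;>
    simp only [t1, t2, t3, t4, t5, t6, t7, t8, t9, t10, t11, t12] at h1 ⊢ <;>
    linear_combination h1

def omB (du cu : Bool) (fu : ZMod 2) (dv cv : Bool) (fv : ZMod 2) : ZMod 2 :=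
  (if du && !cv then fv else 0) + (if dv && !cu then fu else 0)

set_option synthInstance.maxSize 4000 in
lemma face_zero : ∀ (c1 c2 c3 c4 d1 d2 d3 d4 : Bool) (f1 f2 f3 f4 : ZMod 2),
    (d1 → c1) → (d2 → c2) → (d3 → c3) → (d4 → c4) →
    (c1 → c2 → d1 = d2) → (c2 → c3 → d2 = d3) → (c3 → c4 → d3 = d4) → (c4 → c1 → d4 = d1) →
    (c1 = false → c2 = false → f1 = f2) → (c2 = false → c3 = false → f2 = f3) →
    (c3 = false → c4 = false → f3 = f4) → (c4 = false → c1 = false → f4 = f1) →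
    (c1 = c3 → c2 = c4 → c1 = c2) →
    omB d1 c1 f1 d2 c2 f2 + omB d2 c2 f2 d3 c3 f3 + omB d3 c3 f3 d4 c4 f4 +
      omB d4 c4 f4 d1 c1 f1 = 0 := by
  decide +kernel

structure Link (M N : ℤ) (c : P2 → Bool) (o a l n s x e : P2) : Prop where
  hl : 1 ≤ l.1 ∧ l.1 ≤ M - 2 ∧ 1 ≤ l.2 ∧ l.2 ≤ N - 2
  hn : Adj l n
  hx : Adj l x
  hp : n.1 = l.1 ↔ x.1 ≠ l.1
  hs : s = (2 * l.1 - n.1, 2 * l.2 - n.2)
  he : e = (2 * l.1 - x.1, 2 * l.2 - x.2)
  cl : c l = false
  cx : c x = false
  ce : c e = false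
  rn : Rch M N c a n
  rs : Rch M N c s o

lemma nbr_cases {l n s x e v : P2} (hn : Adj l n) (hx : Adj l x) (hp : n.1 = l.1 ↔ x.1 ≠ l.1)
    (hs : s = (2 * l.1 - n.1, 2 * l.2 - n.2)) (he : e = (2 * l.1 - x.1, 2 * l.2 - x.2))
    (a : Adj l v) : v = x ∨ v = e ∨ v = n ∨ v = s := by
  simp only [Prod.ext_iff, hs, he]; unfold Adj at *; omega

lemma opp_facts {l n s x e : P2} (hn : Adj l n) (hx : Adj l x) (hp : n.1 = l.1 ↔ x.1 ≠ l.1)
    (hs : s = (2 * l.1 - n.1, 2 * l.2 - n.2)) (he : e = (2 * l.1 - x.1, 2 * l.2 - x.2)) :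
    Adj l e ∧ Adj l s ∧ (n.1 = l.1 ↔ e.1 ≠ l.1) ∧ (s.1 = l.1 ↔ x.1 ≠ l.1) ∧
      (s.1 = l.1 ↔ e.1 ≠ l.1) := by
  rw [hs, he]; unfold Adj at *; dsimp only; omega

lemma diag_facts {l p y : P2} (h1 : Adj l p) (h2 : Adj l y) (h3 : p.1 = l.1 ↔ y.1 ≠ l.1) :
    Adj p (p.1 + y.1 - l.1, p.2 + y.2 - l.2) ∧ Adj (p.1 + y.1 - l.1, p.2 + y.2 - l.2) y ∧
      (p.1 + y.1 - l.1, p.2 + y.2 - l.2) ≠ l ∧ l.1 - 1 ≤ p.1 + y.1 - l.1 ∧
      p.1 + y.1 - l.1 ≤ l.1 + 1 ∧ l.2 - 1 ≤ p.2 + y.2 - l.2 ∧ p.2 + y.2 - l.2 ≤ l.2 + 1 := by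
  simp only [ne_eq, Prod.ext_iff]; unfold Adj at *; dsimp only; omega

lemma ne_of_adj {u v : P2} (h : Adj u v) : v ≠ u := fun e => by
  rw [e] at h; unfold Adj at h; omega

lemma link_flip {o a l n s x e : P2} (hnc : NC M N c) (hB : Conn M N c false) (hbc : BC M N c)
    (ho : c o = true) (ha : c a = true) (hao : ¬ Rch M N c a o) (L : Link M N c o a l n s x e) :
    Conn M N (Function.update c l true) false := by
  classical
  set c' := Function.update c l true with hc'
  have cn : c n = true := (Rch.col L.rn).symm.trans ha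
  have cs : c s = true := (Rch.col L.rs).trans ho
  have off : ∀ v, v ≠ l → c' v = c v := fun v hv => by simp [hc', hv]
  have cl' : c' l = true := by simp [hc']
  have offB : ∀ v, c' v = false → v ≠ l ∧ c v = false := fun v hv => by
    have : v ≠ l := fun h => by rw [h, cl'] at hv; exact absurd hv (by simp)
    exact ⟨this, by rw [← off v this]; exact hv⟩
  have hl := L.hl
  have hn := L.hn
  have hx := L.hx
  have hp := L.hp
  have hs := L.hs
  have he := L.he
  obtain ⟨ae, as, p1, p2, p3⟩ := opp_facts hn hx hp hs he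
  have near : ∀ v : P2, l.1 - 1 ≤ v.1 → v.1 ≤ l.1 + 1 → l.2 - 1 ≤ v.2 → v.2 ≤ l.2 + 1 → In M N v := by
    intro v _ _ _ _; unfold In; omega
  have inadj : ∀ v, Adj l v → In M N v := fun v h => by
    unfold Adj at h; apply near <;> omega
  set f0 : P2 → ZMod 2 := fun v => if Rch M N c' e v then 1 else 0 with hf0
  have f0c : ∀ u v, In M N u → In M N v → Adj u v → c' u = false → c' v = false → f0 u = f0 v := by
    intro u v h1 h2 h3 h4 h5
    have st : St M N c' u v := ⟨h1, h2, h3, h4.trans h5.symm⟩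
    have : Rch M N c' e u ↔ Rch M N c' e v := ⟨fun h => h.tail st, fun h => h.tail st.symm⟩
    simp only [hf0, this]
  obtain ⟨k, hk⟩ : ∃ k : ZMod 2, ∀ b, Bd M N b → c b = false → f0 b + k = 0 := by
    by_cases h : ∃ b, Bd M N b ∧ c b = false
    · obtain ⟨b0, h1, h2⟩ := h
      refine ⟨f0 b0, fun b hb hcb => ?_⟩
      have : f0 b0 = f0 b := by
        have w := hbc b0 b h1 hb h2 hcb
        clear hb hcb
        induction w with
        | refl => rfl
        | tail _ h ih =>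
          have nb : ∀ v, Bd M N v → v ≠ l := fun v hv e => by
            rw [e] at hv; unfold Bd at hv; omega
          exact ih.trans (f0c _ _ h.1.1 h.2.1.1 h.2.2.1 (by rw [off _ (nb _ h.1)]; exact h.2.2.2.1)
            (by rw [off _ (nb _ h.2.1)]; exact h.2.2.2.2))
      rw [this]; exact CharTwo.add_self_eq_zero _
    · exact ⟨0, fun b h1 h2 => absurd ⟨b, h1, h2⟩ h⟩
  set f : P2 → ZMod 2 := fun v => f0 v + k with hf
  set D : P2 → Bool := fun v => decide (Rch M N c n v) with hD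
  have Dc : ∀ v, D v = true → c v = true := fun v hv =>
    (Rch.col (of_decide_eq_true hv)).symm.trans cn
  have Dl : D l = false := by
    by_contra h; have := Dc l (by simpa using h); rw [L.cl] at this; exact absurd this (by simp)
  have Dadj : ∀ u v, In M N u → In M N v → Adj u v → c u = true → c v = true → D u = D v := by
    intro u v h1 h2 h3 h4 h5
    have st : St M N c u v := ⟨h1, h2, h3, h4.trans h5.symm⟩
    have : Rch M N c n u ↔ Rch M N c n v := ⟨fun h => h.tail st, fun h => h.tail st.symm⟩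
    simp only [hD, this]
  have Ds : D s = false := by
    by_contra h
    have h' : D s = true := by simpa using h
    exact hao (L.rn.trans ((of_decide_eq_true h' : Rch M N c n s).trans L.rs))
  have Dn : D n = true := decide_eq_true ReflTransGen.refl
  set w : P2 → P2 → ZMod 2 := fun u v => omB (D u) (c' u) (f u) (D v) (c' v) (f v) with hw
  have key := stokes_local (M := M) (N := N) w (fun u v => by simp only [hw, omB]; ring)
    (fun u v hu hv _ => by
      have z : ∀ v, Bd M N v → c' v = false → f v = 0 := fun v hv h => hk v hv (offB v h).2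
      simp only [hw, omB]
      cases h1 : c' u <;> cases h2 : c' v <;> simp [z _ hu, z _ hv, h1, h2])
    hl hn hx hp hs he (fun i j i1 i2 hne => by
      have i3 : In M N (i + 1, j) := by unfold In at *; dsimp only at *; omega
      have i4 : In M N (i, j + 1) := by unfold In at *; dsimp only at *; omega
      have o1 := off (i, j) (fun e => hne (by rw [← e]; simp))
      have o2 := off (i + 1, j) (fun e => hne (by rw [← e]; simp))
      have o3 := off (i + 1, j + 1) (fun e => hne (by rw [← e]; simp))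
      have o4 := off (i, j + 1) (fun e => hne (by rw [← e]; simp))
      have fc : ∀ u v, In M N u → In M N v → Adj u v → c' u = false → c' v = false → f u = f v :=
        fun u v h1 h2 h3 h4 h5 => by simp only [hf, f0c u v h1 h2 h3 h4 h5]
      have a1 : Adj (i, j) (i + 1, j) := by unfold Adj; simp
      have a2 : Adj (i + 1, j) (i + 1, j + 1) := by unfold Adj; simp
      have a3 : Adj (i + 1, j + 1) (i, j + 1) := by unfold Adj; simp
      have a4 : Adj (i, j + 1) (i, j) := by unfold Adj; simp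
      refine face_zero _ _ _ _ _ _ _ _ _ _ _ _ ?_ ?_ ?_ ?_ ?_ ?_ ?_ ?_ (fc _ _ i1 i3 a1)
        (fc _ _ i3 i2 a2) (fc _ _ i2 i4 a3) (fc _ _ i4 i1 a4) ?_
      · rw [o1]; exact Dc _
      · rw [o2]; exact Dc _
      · rw [o3]; exact Dc _
      · rw [o4]; exact Dc _
      · rw [o1, o2]; exact Dadj _ _ i1 i3 a1
      · rw [o2, o3]; exact Dadj _ _ i3 i2 a2
      · rw [o3, o4]; exact Dadj _ _ i2 i4 a3
      · rw [o4, o1]; exact Dadj _ _ i4 i1 a4
      · rw [o1, o2, o3, o4]; exact hnc i j i1 i2)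
  have q : ∀ p y : P2, Adj l p → Adj l y → (p.1 = l.1 ↔ y.1 ≠ l.1) → c p = true → c y = false →
      quad w l p y = if D p then f y else 0 := by
    intro p y h1 h2 h3 h4 h5
    obtain ⟨a1, a2, dl, b1, b2, b3, b4⟩ := diag_facts h1 h2 h3
    have id := near (p.1 + y.1 - l.1, p.2 + y.2 - l.2) b1 b2 b3 b4
    set d : P2 := (p.1 + y.1 - l.1, p.2 + y.2 - l.2) with hd
    have o1 := off p (ne_of_adj h1)
    have o2 := off y (ne_of_adj h2)
    have o3 := off d dl
    have Dy : D y = false := by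
      by_contra h; have := Dc y (by simpa using h); rw [h5] at this; exact absurd this (by simp)
    unfold quad
    rw [← hd]
    simp only [hw, omB, cl', o1, o2, o3, h4, h5, Dl, Dy]
    cases hcd : c d
    · have Dd : D d = false := by
        by_contra h; have := Dc d (by simpa using h); rw [hcd] at this; exact absurd this (by simp)
      have : f d = f y := by
        simp only [hf, f0c d y id (inadj _ h2) a2 (o3.trans hcd) (o2.trans h5)]
      simp [Dd, this]
    · simp [← Dadj p d (inadj _ h1) id a1 h4 hcd]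
  rw [q n x hn hx hp cn L.cx, q n e hn ae p1 cn L.ce, q s x as hx p2 cs L.cx,
    q s e as ae p3 cs L.ce, Dn, Ds] at key
  have hex : Rch M N c' e x := by
    by_contra h
    simp only [hf, hf0, if_neg h, if_pos (ReflTransGen.refl : Rch M N c' e e)] at key
    revert key; generalize k = k'; revert k'; decide
  have all : ∀ v, Rch M N c e v → v ≠ l → Rch M N c' e v := by
    intro v h
    induction h with
    | refl => exact fun _ => ReflTransGen.refl
    | @tail p v h0 st ih =>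
      intro hv
      have cv : c v = false := st.2.2.2.symm.trans ((Rch.col h0).symm.trans L.ce)
      by_cases hpl : p = l
      · have a := st.2.2.1
        rw [hpl] at a
        rcases nbr_cases hn hx hp hs he a with rfl | rfl | rfl | rfl
        · exact hex
        · exact ReflTransGen.refl
        · rw [cn] at cv; exact absurd cv (by simp)
        · rw [cs] at cv; exact absurd cv (by simp)
      · exact (ih hpl).tail ⟨st.1, st.2.1, st.2.2.1, by rw [off p hpl, off v hv]; exact st.2.2.2⟩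
  intro u v hu hv cu cv
  exact (Rch.symm (all u (hB _ _ (inadj _ ae) hu L.ce (offB u cu).2) (offB u cu).1)).trans
    (all v (hB _ _ (inadj _ ae) hv L.ce (offB v cv).2) (offB v cv).1)

end Pool.Agent.Lib.MP_0350c1_lc
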