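import Pool.Agent.Lib.MP_0350c1_lc.Z3

namespace Pool.Agent.Lib.MP_0350c1_lc

open Relation Finset

variable {M N : ℤ} {c : P2 → Bool}

lemma link_nc {o a l n s x e : P2} (hnc : NC M N c) (ho : c o = true) (ha : c a = true)
    (L : Link M N c o a l n s x e) : NC M N (Function.update c l true) := by
  have cn : c n = true := (Rch.col L.rn).symm.trans ha
  have cs : c s = true := (Rch.col L.rs).trans ho
  obtain ⟨ae, as, p1, p2, p3⟩ := opp_facts L.hn L.hx L.hp L.hs L.he
  have hn := L.hn
  have hs := L.hs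
  set c' := Function.update c l true with hc'
  have cl' : c' l = true := by simp [hc']
  have off : ∀ v, v ≠ l → c' v = c v := fun v hv => by simp [hc', hv]
  have cn' : c' n = true := (off n (ne_of_adj hn)).trans cn
  have cs' : c' s = true := (off s (ne_of_adj as)).trans cs
  intro i j h1 h2 e1 e2
  have two : ∀ p q : P2, Adj l p → Adj l q → (p.1 = l.1 ↔ q.1 ≠ l.1) → c' p = true ∨ c' q = true := by
    intro p q a1 a2 a3
    have : p = n ∨ p = s ∨ q = n ∨ q = s := by
      simp only [Prod.ext_iff, hs]; unfold Adj at a1 a2 hn; omega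
    rcases this with rfl | rfl | rfl | rfl <;> simp [cn', cs']
  by_cases k1 : (i, j) = l
  · have := two (i + 1, j) (i, j + 1) (by rw [← k1]; unfold Adj; simp)
      (by rw [← k1]; unfold Adj; simp) (by rw [← k1]; simp)
    rw [k1, cl']; rw [← e2] at this; simpa using this
  by_cases k2 : (i + 1, j + 1) = l
  · have := two (i + 1, j) (i, j + 1) (by rw [← k2]; unfold Adj; simp)
      (by rw [← k2]; unfold Adj; simp) (by rw [← k2]; simp)
    rw [e1, k2, cl']; rw [← e2] at this; simpa using this
  by_cases k3 : (i + 1, j) = l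
  · have := two (i, j) (i + 1, j + 1) (by rw [← k3]; unfold Adj; simp)
      (by rw [← k3]; unfold Adj; simp) (by rw [← k3]; simp)
    rw [k3, cl']; rw [← e1] at this; simpa using this
  by_cases k4 : (i, j + 1) = l
  · have := two (i, j) (i + 1, j + 1) (by rw [← k4]; unfold Adj; simp)
      (by rw [← k4]; unfold Adj; simp) (by rw [← k4]; simp)
    rw [e2, k4, cl']; rw [← e1] at this; simpa using this
  rw [off _ k1, off _ k2] at e1
  rw [off _ k3, off _ k4] at e2
  rw [off _ k1, off _ k3]
  exact hnc i j h1 h2 e1 e2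

lemma side_adj {y n s l' n' : P2} (q1 : Adj y n) (q2 : Adj l' n') (h1 : Adj l' y)
    (h2 : n'.1 = l'.1 ↔ y.1 ≠ l'.1) (h5 : n.1 = y.1 ↔ l'.1 ≠ y.1)
    (hs : s = (2 * y.1 - n.1, 2 * y.2 - n.2)) : Adj n' n ∨ Adj n' s := by
  rw [hs]
  unfold Adj at q1 q2 h1 ⊢
  dsimp only
  omega

open Classical in
theorem link_all (Λ : P2 → Prop) (o : P2) (k : ℕ) : ∀ c : P2 → Bool,
    ((Ico 0 M ×ˢ Ico 0 N).filter (fun a => c a = true ∧ ¬ Rch M N c a o)).card ≤ k →
    NC M N c → Conn M N c false → BC M N c → c o = true →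
    (∀ a, In M N a → c a = true → ¬ Rch M N c a o →
      ∃ l n s x e, Λ l ∧ Link M N c o a l n s x e) →
    ∃ c' : P2 → Bool, Conn M N c' false ∧ (∀ a, In M N a → c' a = true → Rch M N c' a o) ∧
      (∀ v, ¬ Λ v → c' v = c v) ∧ ∀ v, c v = true → c' v = true := by
  have hmem : ∀ a : P2, a ∈ Ico 0 M ×ˢ Ico 0 N ↔ In M N a := fun a => by
    simp only [mem_product, mem_Ico, In]; tauto
  induction k with
  | zero =>
    intro c hk _ hB _ _ _
    refine ⟨c, hB, fun a h1 h2 => ?_, fun _ _ => rfl, fun _ h => h⟩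
    by_contra h3
    have : a ∈ (Ico 0 M ×ˢ Ico 0 N).filter (fun a => c a = true ∧ ¬ Rch M N c a o) :=
      mem_filter.2 ⟨(hmem a).2 h1, h2, h3⟩
    have := card_pos.2 ⟨a, this⟩
    omega
  | succ k ih =>
    intro c hk hnc hB hbc ho hL
    by_cases hall : ∀ a, In M N a → c a = true → Rch M N c a o
    · exact ⟨c, hB, hall, fun _ _ => rfl, fun _ h => h⟩
    push Not at hall
    obtain ⟨a, a1, a2, a3⟩ := hall
    obtain ⟨l, n, s, x, e, hΛ, L⟩ := hL a a1 a2 a3
    have hB' := link_flip hnc hB hbc ho a2 a3 L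
    have hnc' := link_nc hnc ho a2 L
    have cn : c n = true := (Rch.col L.rn).symm.trans a2
    have cs : c s = true := (Rch.col L.rs).trans ho
    obtain ⟨ae, as, p1, p2, p3⟩ := opp_facts L.hn L.hx L.hp L.hs L.he
    have hl := L.hl
    set c1 := Function.update c l true with hc1
    have cl' : c1 l = true := by simp [hc1]
    have off : ∀ v, v ≠ l → c1 v = c v := fun v hv => by simp [hc1, hv]
    have up : ∀ v, c v = true → c1 v = true := fun v hv => by
      by_cases h : v = l
      · rw [h, cl']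
      · rw [off v h, hv]
    have mono : ∀ u v, c u = true → Rch M N c u v → Rch M N c1 u v := fun u v hu h =>
      h.mono (fun w _ hw => by rw [hu] at hw ⊢; exact up w hw)
    have il : In M N l := by unfold In; omega
    have inadj : ∀ v, Adj l v → In M N v := fun v h => by unfold Adj at h; unfold In; omega
    have rs : Rch M N c1 s o := mono _ _ cs L.rs
    have rl : Rch M N c1 l o := ReflTransGen.head ⟨il, inadj _ as, as, cl'.trans (up _ cs).symm⟩ rs
    have rn : Rch M N c1 n o :=
      ReflTransGen.head ⟨inadj _ L.hn, il, L.hn.symm, (up _ cn).trans cl'.symm⟩ rl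
    have hbc' : BC M N c1 := by
      have nb : ∀ v, Bd M N v → v ≠ l := fun v hv e => by
        rw [e] at hv; unfold Bd at hv; omega
      intro b b' h1 h2 h3 h4
      rw [off _ (nb _ h1)] at h3
      rw [off _ (nb _ h2)] at h4
      have w := hbc b b' h1 h2 h3 h4
      clear h2 h4
      induction w with
      | refl => exact ReflTransGen.refl
      | tail _ h ih => exact ih.tail ⟨h.1, h.2.1, h.2.2.1,
          (off _ (nb _ h.1)).trans h.2.2.2.1, (off _ (nb _ h.2.1)).trans h.2.2.2.2⟩
    have old : ∀ a', c1 a' = true → ¬ Rch M N c1 a' o → c a' = true ∧ ¬ Rch M N c a' o := by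
      intro a' h1 h2
      have h3 : a' ≠ l := fun e => h2 (e ▸ rl)
      rw [off _ h3] at h1
      exact ⟨h1, fun h => h2 (mono _ _ h1 h)⟩
    obtain ⟨c', r1, r2, r3, r4⟩ := ih c1 (by
      have : (Ico 0 M ×ˢ Ico 0 N).filter (fun a => c1 a = true ∧ ¬ Rch M N c1 a o) ⊂
          (Ico 0 M ×ˢ Ico 0 N).filter (fun a => c a = true ∧ ¬ Rch M N c a o) := by
        refine ⟨fun v hv => mem_filter.2 ⟨(mem_filter.1 hv).1,
          old v (mem_filter.1 hv).2.1 (mem_filter.1 hv).2.2⟩, fun h => ?_⟩
        have := h (mem_filter.2 ⟨(hmem a).2 a1, a2, a3⟩)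
        exact (mem_filter.1 this).2.2 ((mono _ _ a2 L.rn).trans rn)
      have := card_lt_card this
      omega) hnc' hB' hbc' (up _ ho) (by
      intro a' b1 b2 b3
      obtain ⟨b4, b5⟩ := old a' b2 b3
      obtain ⟨l', n', s', x', e', hΛ', L'⟩ := hL a' b1 b4 b5
      have cn' : c n' = true := (Rch.col L'.rn).symm.trans b4
      have cs' : c s' = true := (Rch.col L'.rs).trans ho
      have in' : In M N n' := Rch.mem L'.rn b1
      have bad : ∀ v, In M N v → Adj n' v → c1 v = true → Rch M N c1 v o → False := by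
        intro v h1 h2 h3 h4
        exact b3 ((mono _ _ b4 L'.rn).trans (ReflTransGen.head
          ⟨in', h1, h2, (up _ cn').trans h3.symm⟩ h4))
      obtain ⟨ae', as', p1', p2', p3'⟩ := opp_facts L'.hn L'.hx L'.hp L'.hs L'.he
      have side : ∀ y, Adj l' y → (n'.1 = l'.1 ↔ y.1 ≠ l'.1) → y ≠ l := by
        intro y h1 h2 h3
        subst h3
        have h4 : l' = x ∨ l' = e := by
          rcases nbr_cases L.hn L.hx L.hp L.hs L.he h1.symm with h | h | h | h
          · exact Or.inl h
          · exact Or.inr h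
          · have := L'.cl; rw [h, cn] at this; exact absurd this (by simp)
          · have := L'.cl; rw [h, cs] at this; exact absurd this (by simp)
        have h5 : n.1 = y.1 ↔ l'.1 ≠ y.1 := by
          rcases h4 with rfl | rfl
          · exact L.hp
          · exact p1
        rcases side_adj L.hn L'.hn h1 h2 h5 L.hs with h | h
        · exact bad n (inadj _ L.hn) h (up _ cn) rn
        · exact bad s (inadj _ as) h (up _ cs) rs
      refine ⟨l', n', s', x', e', hΛ', L'.hl, L'.hn, L'.hx, L'.hp, L'.hs, L'.he, ?_, ?_, ?_,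
        mono _ _ b4 L'.rn, mono _ _ cs' L'.rs⟩
      · rw [off _ (fun h => bad l il (h ▸ L'.hn.symm) cl' rl)]; exact L'.cl
      · rw [off _ (side _ L'.hx L'.hp)]; exact L'.cx
      · rw [off _ (side _ ae' p1')]; exact L'.ce)
    refine ⟨c', r1, r2, fun v hv => ?_, fun v hv => r4 v (up v hv)⟩
    rw [r3 v hv, off v (fun h => hv (h ▸ hΛ))]

/-- recolouring a set of cells safely -/
theorem safe_flip (h : VZ M N c) (κ : Bool) (c' : P2 → Bool) (b o : P2) (ib : In M N b)
    (io : In M N o) (cb : c b = !κ) (co : c' o = κ) (h0 : ∀ v, c v = !κ → c' v = !κ)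
    (h1 : ∀ v, In M N v → c v = κ → c' v = !κ → Rch M N c' v b)
    (h2 : ∀ u v, In M N u → In M N v → Adj u v → c' u = κ → c v = κ → c' v = !κ →
      Rch M N c' u o) : VZ M N c' := by
  have back : ∀ v, c' v = κ → c v = κ := fun v hv => by
    by_contra hc
    have : c v = !κ := by revert hc; cases c v <;> cases κ <;> simp
    rw [h0 v this] at hv; revert hv; cases κ <;> simp
  have k1 : ∀ u, In M N u → c' u = κ → Rch M N c' u o := by
    intro u hu cu
    have r := (h κ).2 u o hu io (back u cu) (back o co)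
    revert hu cu
    induction r using ReflTransGen.head_induction_on with
    | refl => exact fun _ _ => ReflTransGen.refl
    | @head p q st _ ih =>
      intro hu cu
      by_cases hq : c' q = κ
      · exact ReflTransGen.head ⟨st.1, st.2.1, st.2.2.1, cu.trans hq.symm⟩ (ih st.2.1 hq)
      · exact h2 p q st.1 st.2.1 st.2.2.1 cu (st.2.2.2.symm.trans (back p cu))
          (by revert hq; cases c' q <;> cases κ <;> simp)
  have k2 : ∀ u, In M N u → c' u = !κ → Rch M N c' u b := by
    intro u hu cu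
    by_cases hc : c u = κ
    · exact h1 u hu hc cu
    · have hc' : c u = !κ := by revert hc; cases c u <;> cases κ <;> simp
      exact ((h _).2 u b hu ib hc' cb).mono (fun w _ hw => by rw [hc'] at hw ⊢; exact h0 w hw)
  intro τ
  by_cases e : τ = κ
  · subst e
    exact ⟨⟨o, io, co⟩, fun u v hu hv cu cv => (k1 u hu cu).trans (Rch.symm (k1 v hv cv))⟩
  · have e' : τ = !κ := by revert e; cases τ <;> cases κ <;> simp
    subst e'
    exact ⟨⟨b, ib, h0 b cb⟩, fun u v hu hv cu cv => (k2 u hu cu).trans (Rch.symm (k2 v hv cv))⟩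

end Pool.Agent.Lib.MP_0350c1_lc
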