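import Pool.Agent.Lib.MP_0350c1_lc.Z4

namespace Pool.Agent.Lib.MP_0350c1_lc

open Relation

variable {M N : ℤ}

structure Half (xl : ℤ → ℤ → Bool) (w : Bool) (J J' : ℤ) : Prop where
  r : 1 ≤ J ∧ J ≤ 3
  hw : w = true ↔ xl 1 1 = true ∧ (xl 0 1 = true ∨ xl 1 0 = true)
  h2 : w = true → 2 ≤ J → xl 1 2 = true
  h3 : w = true → J = 3 → xl 0 2 = false ∧ xl 0 3 = true ∧ xl 1 3 = true
  h2' : w = true → J = 2 → ¬ (xl 0 2 = false ∧ xl 0 3 = true)
  h1 : w = true → J = 1 → ¬ (xl 0 1 = false ∧ xl 0 2 = true)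
  ex : w = true → xl 1 2 = true → 2 ≤ J ∨ 2 ≤ J'
  one : J = 1 ∨ J' = 1

lemma exists_spec (xl : ℤ → ℤ → Bool)
    (n1 : xl 0 1 = xl 1 2 → xl 1 1 = xl 0 2 → xl 0 1 = xl 1 1)
    (n2 : xl 0 2 = xl 1 3 → xl 1 2 = xl 0 3 → xl 0 2 = xl 1 2)
    (n3 : xl 1 0 = xl 2 1 → xl 1 1 = xl 2 0 → xl 1 0 = xl 1 1)
    (n4 : xl 2 0 = xl 3 1 → xl 2 1 = xl 3 0 → xl 2 0 = xl 2 1) :
    ∃ w J J', Half xl w J J' ∧ Half (fun s t => xl t s) w J' J := by
  by_cases hw : xl 1 1 = true ∧ (xl 0 1 = true ∨ xl 1 0 = true)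
  swap
  · exact ⟨false, 1, 1, by constructor <;> simp_all, by constructor <;> simp_all⟩
  by_cases hf : (xl 1 0 = false ∧ xl 2 0 = true) ∨ (xl 1 2 = false ∧ xl 2 1 = true)
  · by_cases h3 : xl 2 0 = false ∧ xl 3 0 = true
    · refine ⟨true, 1, 3, ?_, ?_⟩ <;> constructor <;> grind
    · refine ⟨true, 1, 2, ?_, ?_⟩ <;> constructor <;> grind
  by_cases hp : xl 1 2 = true
  · by_cases h3 : xl 0 2 = false ∧ xl 0 3 = true
    · refine ⟨true, 3, 1, ?_, ?_⟩ <;> constructor <;> grind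
    · refine ⟨true, 2, 1, ?_, ?_⟩ <;> constructor <;> grind
  · refine ⟨true, 1, 1, ?_, ?_⟩ <;> constructor <;> grind

def Yf (w : Bool) (J1 J2 s t : ℤ) : Bool :=
  if s = 1 ∨ t = 1 then w && decide ((s = 1 ∧ t ≤ J1) ∨ (t = 1 ∧ s ≤ J2))
  else !(w && decide ((s = 2 ∧ t ≤ J1 + 1) ∨ (t = 2 ∧ s ≤ J2 + 1)))

lemma Yf_true {w : Bool} {J1 J2 s t : ℤ} : Yf w J1 J2 s t = true ↔
    ((s = 1 ∨ t = 1) ∧ w = true ∧ ((s = 1 ∧ t ≤ J1) ∨ (t = 1 ∧ s ≤ J2))) ∨
    (¬ (s = 1 ∨ t = 1) ∧ ¬ (w = true ∧ ((s = 2 ∧ t ≤ J1 + 1) ∨ (t = 2 ∧ s ≤ J2 + 1)))) := by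
  unfold Yf; cases w <;> split_ifs with h <;> simp [h]
  omega

lemma Yf_false {w : Bool} {J1 J2 s t : ℤ} : Yf w J1 J2 s t = false ↔
    ((s = 1 ∨ t = 1) ∧ ¬ (w = true ∧ ((s = 1 ∧ t ≤ J1) ∨ (t = 1 ∧ s ≤ J2)))) ∨
    (¬ (s = 1 ∨ t = 1) ∧ w = true ∧ ((s = 2 ∧ t ≤ J1 + 1) ∨ (t = 2 ∧ s ≤ J2 + 1))) := by
  unfold Yf; cases w <;> split_ifs with h <;> simp [h]
  omega

lemma Yf_swap (w : Bool) (J1 J2 s t : ℤ) : Yf w J1 J2 s t = Yf w J2 J1 t s := by
  rw [Bool.eq_iff_iff, Yf_true, Yf_true]; tauto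

def Box (a b k : ℤ) (v : P2) : Prop :=
  a + k ≤ v.1 ∧ v.1 ≤ a + 13 - k ∧ b + k ≤ v.2 ∧ v.2 ≤ b + 13 - k

structure Fr (a b : ℤ) (x y : P2 → Bool) (ψ : P2 → P2) (w : Bool) (J1 J2 : ℤ) : Prop where
  adj : ∀ u v, Adj (ψ u) (ψ v) ↔ Adj u v
  surj : ∀ v, ∃ u, ψ u = v
  aff : ∀ l n : P2, ψ (2 * l.1 - n.1, 2 * l.2 - n.2) =
    (2 * (ψ l).1 - (ψ n).1, 2 * (ψ l).2 - (ψ n).2)
  perp : ∀ l n p : P2, Adj l n → Adj l p → (n.1 = l.1 ↔ p.1 ≠ l.1) →
    ((ψ n).1 = (ψ l).1 ↔ (ψ p).1 ≠ (ψ l).1)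
  box : ∀ k s t, Box a b k (ψ (s, t)) ↔ k ≤ s ∧ s ≤ 13 - k ∧ k ≤ t ∧ t ≤ 13 - k
  chart : ∀ s t, 1 ≤ s → s ≤ 8 → 1 ≤ t → t ≤ 8 → y (ψ (s, t)) = Yf w J1 J2 s t
  s1 : Half (fun s t => x (ψ (s, t))) w J1 J2
  s2 : Half (fun s t => x (ψ (t, s))) w J2 J1

lemma Fr.swap {a b : ℤ} {x y : P2 → Bool} {ψ : P2 → P2} {w : Bool} {J1 J2 : ℤ}
    (F : Fr a b x y ψ w J1 J2) : Fr a b x y (fun u => ψ (u.2, u.1)) w J2 J1 where
  adj := fun u v => by rw [F.adj]; unfold Adj; dsimp only; omega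
  surj := fun v => by obtain ⟨u, hu⟩ := F.surj v; exact ⟨(u.2, u.1), hu⟩
  aff := fun l n => F.aff (l.2, l.1) (n.2, n.1)
  perp := fun l n p h1 h2 h3 => F.perp _ _ _ (by unfold Adj at *; dsimp only; omega)
    (by unfold Adj at *; dsimp only; omega) (by unfold Adj at *; dsimp only; omega)
  box := fun k s t => by dsimp only; rw [F.box]; omega
  chart := fun s t h1 h2 h3 h4 => by dsimp only; rw [F.chart t s h3 h4 h1 h2, Yf_swap]
  s1 := F.s2
  s2 := F.s1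

def fX (a : ℤ) (σ : Bool) (s : ℤ) : ℤ := if σ then a + s else a + 13 - s

open Classical in
noncomputable def base (a b : ℤ) (x : P2 → Bool) (d : Bool → Bool → Bool × ℤ × ℤ) (v : P2) : Bool :=
  if Box a b 1 v then
    Yf (d (decide (v.1 ≤ a + 6)) (decide (v.2 ≤ b + 6))).1
      (d (decide (v.1 ≤ a + 6)) (decide (v.2 ≤ b + 6))).2.1
      (d (decide (v.1 ≤ a + 6)) (decide (v.2 ≤ b + 6))).2.2
      (min (v.1 - a) (a + 13 - v.1)) (min (v.2 - b) (b + 13 - v.2))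
  else x v

lemma exists_base {a b : ℤ} {x : P2 → Bool} (hx : NC M N x) (ha : 0 ≤ a) (ha' : a + 13 < M)
    (hb : 0 ≤ b) (hb' : b + 13 < N) : ∃ (y : P2 → Bool) (d : Bool → Bool → Bool × ℤ × ℤ),
    (∀ v, ¬ Box a b 1 v → y v = x v) ∧ (∀ v, Box a b 3 v → y v = true) ∧
    ∀ σ τ, Fr a b x y (fun u => (fX a σ u.1, fX b τ u.2)) (d σ τ).1 (d σ τ).2.1 (d σ τ).2.2 := by
  have ex : ∀ σ τ : Bool, ∃ d : Bool × ℤ × ℤ,
      Half (fun s t => x (fX a σ s, fX b τ t)) d.1 d.2.1 d.2.2 ∧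
      Half (fun s t => x (fX a σ t, fX b τ s)) d.1 d.2.2 d.2.1 := by
    intro σ τ
    have nc : ∀ s t s' t', 0 ≤ s → s ≤ 3 → 0 ≤ t → t ≤ 3 → 0 ≤ s' → s' ≤ 3 → 0 ≤ t' → t' ≤ 3 →
        (s' = s + 1 ∨ s = s' + 1) → (t' = t + 1 ∨ t = t' + 1) →
        x (fX a σ s, fX b τ t) = x (fX a σ s', fX b τ t') →
        x (fX a σ s', fX b τ t) = x (fX a σ s, fX b τ t') →
        x (fX a σ s, fX b τ t) = x (fX a σ s', fX b τ t) := by
      intro s t s' t' _ _ _ _ _ _ _ _ _ _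
      apply hx.sg <;> cases σ <;> cases τ <;> simp only [fX, In, if_true, Bool.false_eq_true, if_false] <;>
        omega
    obtain ⟨w, J, J', h⟩ := exists_spec (fun s t => x (fX a σ s, fX b τ t))
      (nc 0 1 1 2 (by omega) (by omega) (by omega) (by omega) (by omega) (by omega) (by omega)
        (by omega) (by omega) (by omega))
      (nc 0 2 1 3 (by omega) (by omega) (by omega) (by omega) (by omega) (by omega) (by omega)
        (by omega) (by omega) (by omega))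
      (fun e1 e2 => by
        have := nc 1 0 2 1 (by omega) (by omega) (by omega) (by omega) (by omega) (by omega)
          (by omega) (by omega) (by omega) (by omega) e1 e2.symm
        exact this.trans e2.symm)
      (fun e1 e2 => by
        have := nc 2 0 3 1 (by omega) (by omega) (by omega) (by omega) (by omega) (by omega)
          (by omega) (by omega) (by omega) (by omega) e1 e2.symm
        exact this.trans e2.symm)
    exact ⟨(w, J, J'), h⟩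
  choose d hd using ex
  have far : ∀ σ τ s t, (5 ≤ s ∨ 5 ≤ t ∨ (3 ≤ s ∧ 3 ≤ t)) →
      Yf (d σ τ).1 (d σ τ).2.1 (d σ τ).2.2 s t = !decide (s = 1 ∨ t = 1) := by
    intro σ τ s t h
    have r1 := (hd σ τ).1.r
    have r2 := (hd σ τ).2.r
    rw [Bool.eq_iff_iff, Yf_true]
    simp only [Bool.not_eq_true', decide_eq_false_iff_not]
    constructor
    · rintro (h | h) <;> omega
    · intro h'; right; exact ⟨h', fun h'' => by omega⟩
  refine ⟨base a b x d, d, fun v hv => by simp [base, hv], fun v hv => ?_, fun σ τ => ?_⟩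
  · unfold Box at hv
    rw [base, if_pos (by unfold Box; omega), far _ _ _ _ (by omega)]
    simp only [Bool.not_eq_true', decide_eq_false_iff_not]; omega
  · refine ⟨fun u v => ?_, fun v => ?_, fun l n => ?_, fun l n p h1 h2 h3 => ?_, fun k s t => ?_,
      fun s t h1 h2 h3 h4 => ?_, (hd σ τ).1, (hd σ τ).2⟩
    · cases σ <;> cases τ <;> simp only [fX, Adj, if_true, Bool.false_eq_true, if_false] <;> omega
    · refine ⟨(if σ then v.1 - a else a + 13 - v.1, if τ then v.2 - b else b + 13 - v.2), ?_⟩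
      cases σ <;> cases τ <;> simp [fX]
    · cases σ <;> cases τ <;> simp only [fX, if_true, Bool.false_eq_true, if_false, Prod.mk.injEq] <;>
        omega
    · cases σ <;> simp only [fX, if_true, Bool.false_eq_true, if_false] <;> omega
    · cases σ <;> cases τ <;> simp only [fX, Box, if_true, Bool.false_eq_true, if_false] <;> omega
    · have hB : Box a b 1 (fX a σ s, fX b τ t) := by
        cases σ <;> cases τ <;> simp only [fX, Box, if_true, Bool.false_eq_true, if_false] <;> omega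
      have e1 : min (fX a σ s - a) (a + 13 - fX a σ s) = min s (13 - s) := by
        cases σ <;> simp only [fX, if_true, Bool.false_eq_true, if_false] <;> omega
      have e2 : min (fX b τ t - b) (b + 13 - fX b τ t) = min t (13 - t) := by
        cases τ <;> simp only [fX, if_true, Bool.false_eq_true, if_false] <;> omega
      rw [base, if_pos hB]
      dsimp only
      rw [e1, e2]
      by_cases h : s ≤ 6 ∧ t ≤ 6
      · have f1 : decide (fX a σ s ≤ a + 6) = σ := by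
          cases σ <;> simp [fX] <;> omega
        have f2 : decide (fX b τ t ≤ b + 6) = τ := by
          cases τ <;> simp [fX] <;> omega
        rw [f1, f2, min_eq_left (by omega), min_eq_left (by omega)]
      · rw [far _ _ _ _ (by omega), far _ _ _ _ (by omega)]
        congr 1
        rw [decide_eq_decide]; omega

end Pool.Agent.Lib.MP_0350c1_lc
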