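import Pool.Agent.Lib.MP_0350c1_lc.Z5

namespace Pool.Agent.Lib.MP_0350c1_lc

open Relation

variable {M N a b : ℤ} {x y : P2 → Bool} {ψ : P2 → P2} {w : Bool} {J1 J2 : ℤ}

structure Ctx (M N a b : ℤ) (x y : P2 → Bool) : Prop where
  ha : 0 ≤ a
  ha' : a + 13 < M
  hb : 0 ≤ b
  hb' : b + 13 < N
  off : ∀ v, ¬ Box a b 1 v → y v = x v
  core : ∀ v, Box a b 3 v → y v = true

lemma Ctx.mem (C : Ctx M N a b x y) {v : P2} (h : Box a b 0 v) : In M N v := by
  have := C.ha; have := C.ha'; have := C.hb; have := C.hb'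
  unfold Box at h; unfold In; omega

lemma Fr.mem (F : Fr a b x y ψ w J1 J2) (C : Ctx M N a b x y) {s t : ℤ} (h1 : 0 ≤ s) (h2 : s ≤ 13)
    (h3 : 0 ≤ t) (h4 : t ≤ 13) : In M N (ψ (s, t)) := C.mem ((F.box 0 s t).2 (by omega))

lemma Fr.rect (F : Fr a b x y ψ w J1 J2) (C : Ctx M N a b x y) {κ : Bool} {p q p' q' : ℤ}
    (h0 : 1 ≤ p ∧ p' ≤ 8 ∧ 1 ≤ q ∧ q' ≤ 8)
    (h : ∀ s t, p ≤ s → s ≤ p' → q ≤ t → t ≤ q' → Yf w J1 J2 s t = κ) {s t s' t' : ℤ}
    (h1 : p ≤ s ∧ s ≤ p' ∧ q ≤ t ∧ t ≤ q' ∧ p ≤ s' ∧ s' ≤ p' ∧ q ≤ t' ∧ t' ≤ q') :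
    Rch M N y (ψ (s, t)) (ψ (s', t')) :=
  rect_reach ψ (fun u v h => (F.adj u v).2 h) (κ := κ) (a := p) (b := q) (a' := p') (b' := q')
    (fun s t a1 a2 a3 a4 => ⟨F.mem C (by omega) (by omega) (by omega) (by omega), by
      rw [F.chart s t (by omega) (by omega) (by omega) (by omega)]; exact h s t a1 a2 a3 a4⟩)
    (by omega) (by omega) (by omega) (by omega) (by omega) (by omega) (by omega) (by omega)

lemma Fr.localB (F : Fr a b x y ψ w J1 J2) (C : Ctx M N a b x y) {s t : ℤ} (h1 : 1 ≤ s)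
    (h2 : s ≤ t) (h3 : t ≤ 8) (h : y (ψ (s, t)) = false) : Rch M N y (ψ (s, t)) (ψ (1, 5)) := by
  have r1 := F.s1.r
  have r2 := F.s2.r
  have row : ∀ t, 1 ≤ t → t ≤ 8 → Yf w J1 J2 1 t = false → Rch M N y (ψ (1, t)) (ψ (1, 5)) := by
    intro t a1 a2 a3
    refine F.rect C (κ := false) (p := 1) (p' := 1) (q := min t 5) (q' := max t 5) (by omega)
      (fun s' t' _ _ _ _ => ?_) (by omega)
    rw [Yf_false] at a3 ⊢
    cases w <;> simp at a3 ⊢ <;> omega
  rw [F.chart s t h1 (by omega) (by omega) h3] at h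
  by_cases hs : s = 1
  · subst hs; exact row t h2 h3 h
  · have h' := Yf_false.1 h
    have hw : w = true := by rcases h' with h' | h'; exacts [by omega, h'.2.1]
    have hs2 : s = 2 ∧ t ≤ J1 + 1 := by omega
    obtain ⟨rfl, ht⟩ := hs2
    refine (F.rect C (κ := false) (p := 2) (p' := 2) (q := 2) (q' := J1 + 1) (s' := 2)
      (t' := J1 + 1) (by omega) (fun s' t' _ _ _ _ => ?_) (by omega)).trans
      ((F.rect C (κ := false) (p := 1) (p' := 2) (q := J1 + 1) (q' := J1 + 1) (s' := 1)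
      (t' := J1 + 1) (by omega) (fun s' t' _ _ _ _ => ?_) (by omega)).trans
      (row _ (by omega) (by omega) ?_)) <;> rw [Yf_false] <;> simp [hw] <;> omega

lemma Fr.turn (F : Fr a b x y ψ w J1 J2) (C : Ctx M N a b x y) :
    Rch M N y (ψ (5, 1)) (ψ (1, 5)) := by
  have r1 := F.s1.r
  have r2 := F.s2.r
  cases hw : w
  · have h : y (ψ (1, 1)) = false := by
      rw [F.chart 1 1 (by omega) (by omega) (by omega) (by omega), Yf_false]; simp [hw]
    exact (Rch.symm (F.swap.localB C (s := 1) (t := 1) (by omega) (by omega) (by omega) h)).trans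
      (F.localB C (by omega) (by omega) (by omega) h)
  · have h : y (ψ (2, 2)) = false := by
      rw [F.chart 2 2 (by omega) (by omega) (by omega) (by omega), Yf_false]; simp [hw]; omega
    exact (Rch.symm (F.swap.localB C (s := 2) (t := 2) (by omega) (by omega) (by omega) h)).trans
      (F.localB C (by omega) (by omega) (by omega) h)

lemma Ctx.coreR (C : Ctx M N a b x y) {v : P2} (h : Box a b 3 v) : Rch M N y v (a + 6, b + 6) := by
  unfold Box at h
  exact rect_reach id (fun _ _ h => h) (κ := true) (a := a + 3) (b := b + 3) (a' := a + 10)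
    (b' := b + 10) (fun s t _ _ _ _ => ⟨C.mem (by unfold Box; dsimp; omega),
      C.core _ (by unfold Box; dsimp; omega)⟩) (s := v.1) (t := v.2) (by omega) (by omega)
    (by omega) (by omega) (by omega) (by omega) (by omega) (by omega)

lemma Fr.localA0 (F : Fr a b x y ψ w J1 J2) (C : Ctx M N a b x y) {s t : ℤ} (h1 : 2 ≤ s)
    (h2 : s ≤ t) (h3 : t ≤ 8) (h : y (ψ (s, t)) = true) : Rch M N y (ψ (s, t)) (a + 6, b + 6) := by
  have r1 := F.s1.r
  have r2 := F.s2.r
  have k : ∀ t, 3 ≤ t → t ≤ 8 → y (ψ (2, t)) = true → Rch M N y (ψ (2, t)) (a + 6, b + 6) := by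
    intro t a1 a2 a3
    have hb : Box a b 3 (ψ (3, t)) := (F.box _ _ _).2 (by omega)
    exact ReflTransGen.head ⟨F.mem C (by omega) (by omega) (by omega) (by omega),
      F.mem C (by omega) (by omega) (by omega) (by omega), (F.adj _ _).2 (by unfold Adj; simp),
      a3.trans (C.core _ hb).symm⟩ (C.coreR hb)
  by_cases hs : s = 2
  · subst hs
    by_cases ht : t = 2
    · subst ht
      have h' := h
      rw [F.chart 2 2 (by omega) (by omega) (by omega) (by omega), Yf_true] at h'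
      have h4 : y (ψ (2, 3)) = true := by
        rw [F.chart 2 3 (by omega) (by omega) (by omega) (by omega), Yf_true]
        cases w <;> simp at h' ⊢; omega
      exact ReflTransGen.head ⟨F.mem C (by omega) (by omega) (by omega) (by omega),
        F.mem C (by omega) (by omega) (by omega) (by omega), (F.adj _ _).2 (by unfold Adj; simp),
        h.trans h4.symm⟩ (k 3 (by omega) (by omega) h4)
    · exact k t (by omega) h3 h
  · exact C.coreR ((F.box _ _ _).2 (by omega))

lemma Fr.localA (F : Fr a b x y ψ w J1 J2) (C : Ctx M N a b x y) {s t : ℤ} (h1 : 2 ≤ s)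
    (h2 : s ≤ 8) (h3 : 2 ≤ t) (h4 : t ≤ 8) (h : y (ψ (s, t)) = true) :
    Rch M N y (ψ (s, t)) (a + 6, b + 6) := by
  rcases le_total s t with hst | hst
  · exact F.localA0 C h1 hst h4 h
  · exact F.swap.localA0 C (s := t) (t := s) h3 hst h2 h

lemma Fr.kept (F : Fr a b x y ψ w J1 J2) (C : Ctx M N a b x y) (hw : w = true) {t : ℤ} (h1 : 1 ≤ t)
    (h2 : t ≤ J1) : Rch M N y (ψ (1, t)) (ψ (1, 1)) := by
  have r1 := F.s1.r
  refine F.rect C (κ := true) (p := 1) (p' := 1) (q := 1) (q' := J1) (by omega)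
    (fun s' t' _ _ _ _ => ?_) (by omega)
  rw [Yf_true]; simp [hw]; omega

lemma Fr.link (F : Fr a b x y ψ w J1 J2) (C : Ctx M N a b x y) {p : P2} {s t : ℤ} (h1 : 1 ≤ s)
    (h2 : s ≤ 7) (h3 : 2 ≤ t) (h4 : t ≤ 7) (c1 : Yf w J1 J2 s t = false)
    (c2 : Yf w J1 J2 s (t - 1) = false) (c3 : Yf w J1 J2 s (t + 1) = false)
    (c4 : Yf w J1 J2 (s + 1) t = true) (r : Rch M N y p (ψ (s - 1, t))) :
    Link M N y (a + 6, b + 6) p (ψ (s, t)) (ψ (s - 1, t)) (ψ (s + 1, t)) (ψ (s, t - 1))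
      (ψ (s, t + 1)) := by
  have a1 : Adj (s, t) (s - 1, t) := by unfold Adj; simp
  have a2 : Adj (s, t) (s, t - 1) := by unfold Adj; simp
  refine ⟨?_, (F.adj _ _).2 a1, (F.adj _ _).2 a2, F.perp _ _ _ a1 a2 (by simp), ?_, ?_, ?_, ?_, ?_,
    r, F.localA C (by omega) (by omega) h3 (by omega) ?_⟩
  · have := (F.box 1 s t).2 (by omega)
    have := C.ha; have := C.ha'; have := C.hb; have := C.hb'
    unfold Box at *; omega
  · rw [← F.aff]; congr 2 <;> dsimp only <;> ring
  · rw [← F.aff]; congr 2 <;> dsimp only <;> ring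
  · rw [F.chart _ _ (by omega) (by omega) (by omega) (by omega), c1]
  · rw [F.chart _ _ (by omega) (by omega) (by omega) (by omega), c2]
  · rw [F.chart _ _ (by omega) (by omega) (by omega) (by omega), c3]
  · rw [F.chart _ _ (by omega) (by omega) (by omega) (by omega), c4]

lemma Fr.gadget (F : Fr a b x y ψ w J1 J2) (C : Ctx M N a b x y) (hw : w = true) (hJ : 2 ≤ J1)
    {p : P2} (r : Rch M N y p (ψ (1, 1))) : ∃ l n s x' e, (Box a b 2 l ∧ ¬ Box a b 3 l) ∧
      Link M N y (a + 6, b + 6) p l n s x' e := by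
  have r1 := F.s1.r
  have r2 := F.s2.r
  have r3 := F.s1.one
  refine ⟨_, _, _, _, _, ⟨(F.box _ _ _).2 (by omega), by rw [F.box]; omega⟩,
    F.link C (s := 2) (t := J1) (by omega) (by omega) hJ (by omega) ?_ ?_ ?_ ?_
      (r.trans (Rch.symm (F.kept C hw (by omega) (le_refl _))))⟩
  · rw [Yf_false]; simp [hw]; omega
  · rw [Yf_false]; simp [hw]; omega
  · rw [Yf_false]; simp [hw]; omega
  · rw [Yf_true]; simp [hw]; omega

lemma Fr.ring (F : Fr a b x y ψ w J1 J2) (C : Ctx M N a b x y) (t : ℤ) :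
    y (ψ (0, t)) = x (ψ (0, t)) := C.off _ (by rw [F.box]; omega)

/-- no checkerboard in the chart -/
lemma Fr.ncl (F : Fr a b x y ψ w J1 J2) (C : Ctx M N a b x y) (hx : NC M N x) {s t : ℤ}
    (h1 : 0 ≤ s) (h2 : s ≤ t) (h3 : t ≤ 7) (e1 : y (ψ (s, t)) = y (ψ (s + 1, t + 1)))
    (e2 : y (ψ (s + 1, t)) = y (ψ (s, t + 1))) : y (ψ (s, t)) = y (ψ (s + 1, t)) := by
  have r1 := F.s1.r
  have r2 := F.s2.r
  have r3 := F.s1.one
  by_cases hs : s = 0
  · subst hs
    rw [F.ring C] at e1 e2 ⊢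
    simp only [zero_add] at e1 e2 ⊢
    rw [F.chart 1 (t + 1) (by omega) (by omega) (by omega) (by omega)] at e1
    have nx : x (ψ (0, t)) = x (ψ (1, t + 1)) → x (ψ (1, t)) = x (ψ (0, t + 1)) →
        x (ψ (0, t)) = x (ψ (1, t)) :=
      hx.free (F.mem C (by omega) (by omega) (by omega) (by omega))
        (F.mem C (by omega) (by omega) (by omega) (by omega)) ((F.adj _ _).2 (by unfold Adj; simp))
        ((F.adj _ _).2 (by unfold Adj; simp)) ((F.adj _ _).2 (by unfold Adj; simp))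
        ((F.adj _ _).2 (by unfold Adj; simp))
        (fun e => by have := (F.box 1 1 (t + 1)).2 (by omega); rw [← e, F.box] at this; omega)
        (fun e => by
          have := (F.adj (1, t) (1, t + 1)).2 (by unfold Adj; simp)
          have h' := (F.adj (1, t) (0, t)).2 (by unfold Adj; simp)
          have h'' := (F.adj (1, t) (2, t)).2 (by unfold Adj; simp)
          rw [e, F.adj] at h''
          unfold Adj at h''; dsimp only at h''; omega)
    by_cases ht : t = 0
    · subst ht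
      have e3 : y (ψ (1, 0)) = x (ψ (1, 0)) := F.swap.ring C 1
      rw [e3] at e2 ⊢
      have hw := F.s1.hw
      simp only [zero_add] at nx e1 e2 hw ⊢
      have e4 : Yf w J1 J2 1 1 = w := by
        rw [Bool.eq_iff_iff, Yf_true]; simp; omega
      rw [e4] at e1
      grind
    · rw [F.chart 1 t (by omega) (by omega) (by omega) (by omega)] at e2 ⊢
      have e4 : ∀ t, 1 ≤ t → Yf w J1 J2 1 t = (w && decide (t ≤ J1)) := by
        intro t ht
        rw [Bool.eq_iff_iff, Yf_true]; simp; omega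
      rw [e4 _ (by omega)] at e1 e2 ⊢
      have hw := F.s1.hw
      have k2 := F.s1.h2
      have k3 := F.s1.h3
      have k2' := F.s1.h2'
      have k1 := F.s1.h1
      have : t = 1 ∨ t = 2 ∨ t = 3 ∨ 4 ≤ t := by omega
      have hJ : J1 = 1 ∨ J1 = 2 ∨ J1 = 3 := by omega
      rcases this with rfl | rfl | rfl | h4
      · norm_num at nx e1 e2 ⊢
        rcases hJ with rfl | rfl | rfl <;> grind
      · norm_num at nx e1 e2 ⊢
        rcases hJ with rfl | rfl | rfl <;> grind
      · norm_num at nx e1 e2 ⊢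
        rcases hJ with rfl | rfl | rfl <;> grind
      · rw [decide_eq_false (by omega)] at e1 ⊢
        simpa using e1
  · rw [F.chart _ _ (by omega) (by omega) (by omega) (by omega),
      F.chart _ _ (by omega) (by omega) (by omega) (by omega)] at e1 e2 ⊢
    rw [Bool.eq_iff_iff, Yf_true, Yf_true] at e1 e2 ⊢
    cases w <;> simp only [Bool.false_eq_true, false_and, and_false, not_false_eq_true, and_true,
      false_or, true_and] at e1 e2 ⊢ <;> omega

end Pool.Agent.Lib.MP_0350c1_lc
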