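import Pool.Agent.Lib.MP_0350c1_lc.Z6

namespace Pool.Agent.Lib.MP_0350c1_lc

open Relation

variable {M N a b : ℤ} {x y : P2 → Bool} {ψ : P2 → P2} {w : Bool} {J1 J2 : ℤ}

lemma Fr.ncl' (F : Fr a b x y ψ w J1 J2) (C : Ctx M N a b x y) (hx : NC M N x) {s t : ℤ}
    (h1 : 0 ≤ s) (h2 : s ≤ 7) (h3 : 0 ≤ t) (h4 : t ≤ 7) (e1 : y (ψ (s, t)) = y (ψ (s + 1, t + 1)))
    (e2 : y (ψ (s + 1, t)) = y (ψ (s, t + 1))) : y (ψ (s, t)) = y (ψ (s + 1, t)) := by
  rcases le_total s t with h | h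
  · exact F.ncl C hx h1 h h4 e1 e2
  · exact (F.swap.ncl C hx (s := t) (t := s) h3 h h2 e1 e2.symm).trans e2.symm

variable {d : Bool → Bool → Bool × ℤ × ℤ}

lemma base_nc (C : Ctx M N a b x y) (hx : NC M N x)
    (hF : ∀ σ τ, Fr a b x y (fun u => (fX a σ u.1, fX b τ u.2)) (d σ τ).1 (d σ τ).2.1 (d σ τ).2.2) :
    NC M N y := by
  intro i j h1 h2 e1 e2
  by_cases hb : a ≤ i ∧ i ≤ a + 12 ∧ b ≤ j ∧ j ≤ b + 12
  · obtain ⟨σ, s, s0, s1, hs⟩ : ∃ σ s, 0 ≤ s ∧ s ≤ 7 ∧ ((fX a σ s = i ∧ fX a σ (s + 1) = i + 1) ∨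
        (fX a σ s = i + 1 ∧ fX a σ (s + 1) = i)) := by
      by_cases h : i ≤ a + 6
      · exact ⟨true, i - a, by omega, by omega, Or.inl (by simp only [fX, if_true]; omega)⟩
      · exact ⟨false, a + 12 - i, by omega, by omega,
          Or.inr (by simp only [fX, Bool.false_eq_true, if_false]; omega)⟩
    obtain ⟨τ, t, t0, t1, ht⟩ : ∃ τ t, 0 ≤ t ∧ t ≤ 7 ∧ ((fX b τ t = j ∧ fX b τ (t + 1) = j + 1) ∨
        (fX b τ t = j + 1 ∧ fX b τ (t + 1) = j)) := by
      by_cases h : j ≤ b + 6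
      · exact ⟨true, j - b, by omega, by omega, Or.inl (by simp only [fX, if_true]; omega)⟩
      · exact ⟨false, b + 12 - j, by omega, by omega,
          Or.inr (by simp only [fX, Bool.false_eq_true, if_false]; omega)⟩
    have key := (hF σ τ).ncl' C hx s0 s1 t0 t1
    dsimp only at key
    rcases hs with ⟨f1, f2⟩ | ⟨f1, f2⟩ <;> rcases ht with ⟨g1, g2⟩ | ⟨g1, g2⟩ <;>
      rw [f1, f2, g1, g2] at key <;> grind
  · rw [C.off _ (by unfold Box; dsimp only; omega), C.off _ (by unfold Box; dsimp only; omega)]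
      at e1 e2 ⊢
    exact hx i j h1 h2 e1 e2

lemma cover (C : Ctx M N a b x y)
    (hF : ∀ σ τ, Fr a b x y (fun u => (fX a σ u.1, fX b τ u.2)) (d σ τ).1 (d σ τ).2.1 (d σ τ).2.2)
    {v : P2} (hv : Box a b 0 v) : ∃ ψ w J1 J2 s t, Fr a b x y ψ w J1 J2 ∧
      Rch M N y (ψ (1, 5)) (a + 1, b + 5) ∧ v = ψ (s, t) ∧ 0 ≤ s ∧ s ≤ t ∧ t ≤ 6 := by
  have seg : ∀ {ψ w J1 J2}, Fr a b x y ψ w J1 J2 → Rch M N y (ψ (1, 8)) (ψ (1, 5)) := by
    intro ψ w J1 J2 F
    have r1 := F.s1.r
    refine F.localB C (by omega) (by omega) (by omega) ?_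
    rw [F.chart 1 8 (by omega) (by omega) (by omega) (by omega), Yf_false]; simp; omega
  have e1 : ∀ a : ℤ, fX a false 5 = fX a true 8 := fun a => by simp [fX]; ring
  have r1 : Rch M N y (fX a true 1, fX b true 5) (a + 1, b + 5) := by
    simp only [fX, if_true]; exact ReflTransGen.refl
  have r2 : Rch M N y (fX a true 1, fX b false 5) (a + 1, b + 5) := by
    rw [e1]; exact (seg (hF true true)).trans r1
  have r3 : Rch M N y (fX a false 5, fX b true 1) (a + 1, b + 5) := by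
    rw [e1]; exact (seg (hF true true).swap).trans (((hF true true).turn C).trans r1)
  have r4 : Rch M N y (fX a false 1, fX b true 5) (a + 1, b + 5) :=
    (Rch.symm ((hF false true).turn C)).trans r3
  have r5 : Rch M N y (fX a false 1, fX b false 5) (a + 1, b + 5) := by
    rw [e1 b]; exact (seg (hF false true)).trans r4
  have r : ∀ σ τ, Rch M N y (fX a σ 1, fX b τ 5) (a + 1, b + 5) := by
    intro σ τ; cases σ <;> cases τ <;> assumption
  unfold Box at hv
  obtain ⟨σ, s, s0, s1, hs⟩ : ∃ σ s, 0 ≤ s ∧ s ≤ 6 ∧ v.1 = fX a σ s := by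
    by_cases h : v.1 ≤ a + 6
    · exact ⟨true, v.1 - a, by omega, by omega, by simp [fX]⟩
    · exact ⟨false, a + 13 - v.1, by omega, by omega, by simp [fX]⟩
  obtain ⟨τ, t, t0, t1, ht⟩ : ∃ τ t, 0 ≤ t ∧ t ≤ 6 ∧ v.2 = fX b τ t := by
    by_cases h : v.2 ≤ b + 6
    · exact ⟨true, v.2 - b, by omega, by omega, by simp [fX]⟩
    · exact ⟨false, b + 13 - v.2, by omega, by omega, by simp [fX]⟩
  rcases le_total s t with h | h
  · exact ⟨_, _, _, _, s, t, hF σ τ, r σ τ, Prod.ext hs ht, s0, h, t1⟩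
  · exact ⟨_, _, _, _, t, s, (hF σ τ).swap, ((hF σ τ).turn C).trans (r σ τ), Prod.ext hs ht, t0, h,
      s1⟩

lemma Fr.kept_x (F : Fr a b x y ψ w J1 J2) {t : ℤ} (h1 : 1 ≤ t) (h2 : t ≤ 8)
    (h : y (ψ (1, t)) = true) : x (ψ (1, t)) = true ∧ w = true ∧ t ≤ J1 := by
  have r1 := F.s1.r
  have r2 := F.s2.r
  rw [F.chart 1 t (by omega) (by omega) h1 h2, Yf_true] at h
  have hw : w = true := by rcases h with h | h; exacts [h.2.1, by omega]
  have ht : t ≤ J1 := by omega
  refine ⟨?_, hw, ht⟩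
  have : t = 1 ∨ t = 2 ∨ t = 3 := by omega
  rcases this with rfl | rfl | rfl
  · exact (F.s1.hw.1 hw).1
  · exact F.s1.h2 hw ht
  · exact (F.s1.h3 hw (by omega)).2.2

lemma base_conn (C : Ctx M N a b x y) (hx : VZ M N x) (hB : ∃ v, Box a b 1 v ∧ x v = false)
    (hF : ∀ σ τ, Fr a b x y (fun u => (fX a σ u.1, fX b τ u.2)) (d σ τ).1 (d σ τ).2.1 (d σ τ).2.2) :
    Conn M N y false := by
  have inner : ∀ v, Box a b 1 v → y v = false → Rch M N y v (a + 1, b + 5) := by
    intro v hv cv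
    obtain ⟨ψ, w, J1, J2, s, t, F, r, rfl, s0, s1, t1⟩ :=
      cover C hF (v := v) (by unfold Box at *; omega)
    rw [F.box] at hv
    exact (F.localB C (by omega) s1 (by omega) cv).trans r
  have all : ∀ v, In M N v → y v = false → Rch M N y v (a + 1, b + 5) := by
    intro v hv cv
    by_cases h : Box a b 1 v
    · exact inner v h cv
    obtain ⟨z, hz, cz⟩ := hB
    have xv : x v = false := (C.off v h).symm.trans cv
    obtain ⟨p, q, r1, r2, hp, hq, st⟩ := ((hx false).2 v z hv (C.mem (by unfold Box at *; omega)) xv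
      cz).exit (fun u => ¬ Box a b 1 u) h (not_not.2 hz)
    have hq' := not_not.1 hq
    have xp : x p = false := (Rch.col r1).symm.trans xv
    have xq : x q = false := st.2.2.2.symm.trans xp
    have yq : y q = false := by
      obtain ⟨ψ, w, J1, J2, s, t, F, r, rfl, s0, s1, t1⟩ :=
        cover C hF (v := q) (by unfold Box at *; omega)
      obtain ⟨u, rfl⟩ := F.surj p
      have hA := (F.adj _ _).1 st.2.2.1
      rw [F.box] at hq'
      have hp' : ¬ Box a b 1 (ψ (u.1, u.2)) := hp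
      rw [F.box] at hp'
      have hs : s = 1 := by unfold Adj at hA; dsimp only at hA; omega
      subst hs
      by_contra hc
      have := (F.kept_x s1 (by omega) (by simpa using hc)).1
      rw [xq] at this; exact absurd this (by simp)
    exact (r2 y (fun u hu cu => (C.off u hu).trans cu)).trans (ReflTransGen.head
      ⟨st.1, st.2.1, st.2.2.1, by rw [C.off p hp, xp, yq]⟩ (inner q hq' yq))
  exact fun u v hu hv cu cv => (all u hu cu).trans (Rch.symm (all v hv cv))

lemma base_access (C : Ctx M N a b x y) (hx : VZ M N x) (hA : ∃ v, Box a b 2 v ∧ x v = true)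
    (hF : ∀ σ τ, Fr a b x y (fun u => (fX a σ u.1, fX b τ u.2)) (d σ τ).1 (d σ τ).2.1 (d σ τ).2.2)
    (g : ℤ) (hg : g = 5 ∨ g = 6) (hg' : x (a, b + g) = true → g = 5 ∧ x (a, b + 6) = true)
    (p : P2) (ip : In M N p) (cp : y p = true) (hp : ¬ Rch M N y p (a + 6, b + 6)) :
    ∃ l n s x' e, (Box a b 1 l ∧ ¬ Box a b 3 l ∧ l ≠ (a + 1, b + g)) ∧
      Link M N y (a + 6, b + 6) p l n s x' e := by
  have deep : ∀ v, Box a b 2 v → y v = true → Rch M N y v (a + 6, b + 6) := by
    intro v hv cv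
    obtain ⟨ψ, w, J1, J2, s, t, F, r, rfl, s0, s1, t1⟩ :=
      cover C hF (v := v) (by unfold Box at *; omega)
    rw [F.box] at hv
    exact F.localA0 C (by omega) s1 (by omega) cv
  have shallow : ∀ v, Rch M N y p v → ¬ Box a b 2 v := fun v r hv =>
    hp (r.trans (deep v hv ((Rch.col r).symm.trans cp)))
  have xp : x p = true := by
    by_cases h : Box a b 1 p
    · obtain ⟨ψ, w, J1, J2, s, t, F, r, rfl, s0, s1, t1⟩ :=
        cover C hF (v := p) (by unfold Box at *; omega)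
      have h2 := shallow _ ReflTransGen.refl
      rw [F.box] at h h2
      have hs : s = 1 := by omega
      subst hs
      exact (F.kept_x s1 (by omega) cp).1
    · exact (C.off p h).symm.trans cp
  obtain ⟨z, hz, cz⟩ := hA
  obtain ⟨u, v, r1, -, hu, hv, st⟩ := ((hx true).2 p z ip (C.mem (by unfold Box at *; omega)) xp
    cz).exit (fun u => Rch M N y p u) ReflTransGen.refl (fun h => shallow z h hz)
  have yu : y u = true := (Rch.col hu).symm.trans cp
  have xu : x u = true := (Rch.col r1).symm.trans xp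
  have xv : x v = true := st.2.2.2.symm.trans xu
  have yv : y v = false := by
    by_contra hc
    exact hv (hu.tail ⟨st.1, st.2.1, st.2.2.1, yu.trans (by simpa using hc)⟩)
  have bv : Box a b 1 v := by
    by_contra hc
    rw [C.off v hc, xv] at yv; exact absurd yv (by simp)
  have gad : ∀ {ψ w J1 J2}, Fr a b x y ψ w J1 J2 → w = true → (2 ≤ J1 ∨ 2 ≤ J2) →
      Rch M N y p (ψ (1, 1)) → ∃ l n s x' e, (Box a b 1 l ∧ ¬ Box a b 3 l ∧ l ≠ (a + 1, b + g)) ∧
      Link M N y (a + 6, b + 6) p l n s x' e := by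
    intro ψ w J1 J2 F hw hJ r
    have : ∃ l n s x' e, (Box a b 2 l ∧ ¬ Box a b 3 l) ∧
        Link M N y (a + 6, b + 6) p l n s x' e := by
      rcases hJ with hJ | hJ
      · exact F.gadget C hw hJ r
      · exact F.swap.gadget C hw hJ r
    obtain ⟨l, n, s, x', e, ⟨b1, b2⟩, L⟩ := this
    exact ⟨l, n, s, x', e, ⟨by unfold Box at *; omega, b2,
      fun h => by rw [h] at b1; unfold Box at b1; dsimp only at b1; omega⟩, L⟩
  by_cases hgate : v = (a + 1, b + g)
  · have F := hF true true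
    have r1 := F.s1.r
    have r2 := F.s2.r
    have su := shallow u hu
    have e : ∀ s t, (fX a true s, fX b true t) = (a + s, b + t) := fun s t => by simp [fX]
    have hA := st.2.2.1
    have hu' : u = (a, b + g) := by
      have k : ∀ t, 4 ≤ t → t ≤ 8 → u ≠ (a + 1, b + t) := by
        intro t t1 t2 h
        rw [h, ← e] at yu
        have := (F.kept_x (by omega) t2 yu).2.2
        omega
      have k1 := k (g - 1) (by omega) (by omega)
      have k2 := k (g + 1) (by omega) (by omega)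
      rw [hgate] at hA
      simp only [ne_eq, Prod.ext_iff] at k1 k2 ⊢
      unfold Adj at hA; unfold Box at su; dsimp only at hA; omega
    obtain ⟨rfl, hx6⟩ := hg' (hu' ▸ xu)
    refine ⟨_, _, _, _, _, ⟨(F.box _ _ _).2 (by omega), by rw [F.box]; omega, ?_⟩,
      F.link C (s := 1) (t := 6) (by omega) (by omega) (by omega) (by omega) ?_ ?_ ?_ ?_ ?_⟩
    · dsimp only; rw [e]; simp
    · rw [Yf_false]; simp; omega
    · rw [Yf_false]; simp; omega
    · rw [Yf_false]; simp; omega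
    · rw [Yf_true]; simp; omega
    · dsimp only; rw [e]
      refine hu.tail ⟨st.1, C.mem (by unfold Box; dsimp only; omega),
        by rw [hu']; unfold Adj; simp; omega, ?_⟩
      rw [yu, C.off _ (by unfold Box; dsimp only; omega)]
      simpa using hx6
  obtain ⟨ψ, w, J1, J2, s, t, F, -, rfl, s0, s1, t1⟩ :=
    cover C hF (v := v) (by unfold Box at *; omega)
  obtain ⟨⟨s', t'⟩, rfl⟩ := F.surj u
  have hA := (F.adj _ _).1 st.2.2.1
  have su := shallow _ hu
  have r1 := F.s1.r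
  have r2 := F.s2.r
  rw [F.box] at bv su
  unfold Adj at hA
  dsimp only at hA
  have yv' := yv
  rw [F.chart s t (by omega) (by omega) (by omega) (by omega), Yf_false] at yv'
  have step : ∀ s1 t1 s2 t2, 0 ≤ s1 → s1 ≤ 13 → 0 ≤ t1 → t1 ≤ 13 → 0 ≤ s2 → s2 ≤ 13 → 0 ≤ t2 →
      t2 ≤ 13 → Adj (s1, t1) (s2, t2) → Rch M N y p (ψ (s1, t1)) → y (ψ (s2, t2)) = true →
      Rch M N y p (ψ (s2, t2)) := by
    intro s1 t1 s2 t2 a1 a2 a3 a4 a5 a6 a7 a8 hA r cy
    exact r.tail ⟨F.mem C a1 a2 a3 a4, F.mem C a5 a6 a7 a8, (F.adj _ _).2 hA,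
      ((Rch.col r).symm.trans cp).trans cy.symm⟩
  have kt : ∀ t, w = true → 1 ≤ t → t ≤ J1 → y (ψ (1, t)) = true := by
    intro t hw a1 a2
    rw [F.chart 1 t (by omega) (by omega) a1 (by omega), Yf_true]; simp [hw]; omega
  by_cases c1 : s' = 1 ∧ 1 ≤ t'
  · obtain ⟨rfl, c1⟩ := c1
    obtain ⟨-, hw, hJ⟩ := F.kept_x c1 (by omega) yu
    refine gad F hw ?_ (hu.trans (F.kept C hw c1 hJ))
    by_cases h : 2 ≤ J1
    · exact Or.inl h
    · have e1 : s = 1 ∧ t = 2 := by simp [hw] at yv'; omega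
      rw [e1.1, e1.2] at xv
      exact F.s1.ex hw xv
  by_cases c2 : t' = 1 ∧ 1 ≤ s'
  · obtain ⟨rfl, c2⟩ := c2
    obtain ⟨-, hw, hJ⟩ := F.swap.kept_x (t := s') c2 (by omega) yu
    exact gad F hw (by omega) (hu.trans (F.swap.kept C hw c2 hJ))
  have hs : s = 1 := by omega
  subst hs
  by_cases c3 : t = 1
  · subst c3
    have hw : w = true := F.s1.hw.2 ⟨xv, by
      have : (s' = 0 ∧ t' = 1) ∨ (s' = 1 ∧ t' = 0) := by omega
      rcases this with ⟨rfl, rfl⟩ | ⟨rfl, rfl⟩
      · exact Or.inl xu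
      · exact Or.inr xu⟩
    simp [hw] at yv'; omega
  have e : s' = 0 ∧ t' = t := by omega
  obtain ⟨rfl, rfl⟩ := e
  by_cases c4 : w = true ∧ t' ≤ J1 + 1
  · obtain ⟨hw, c4⟩ := c4
    have e : t' = J1 + 1 := by simp [hw] at yv'; omega
    have xr : x (ψ (0, J1)) = true := by
      have : J1 = 1 ∨ J1 = 2 ∨ J1 = 3 := by omega
      rcases this with h | h | h
      · have := F.s1.h1 hw h
        rw [e, h] at xu; rw [h]; norm_num at xu; simpa [xu] using this
      · have := F.s1.h2' hw h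
        rw [e, h] at xu; rw [h]; norm_num at xu; simpa [xu] using this
      · rw [h]; exact (F.s1.h3 hw h).2.1
    have q1 := step 0 t' 0 J1 (by omega) (by omega) (by omega) (by omega) (by omega) (by omega)
      (by omega) (by omega) (by unfold Adj; dsimp only; omega) hu ((F.ring C _).trans xr)
    have q2 := step 0 J1 1 J1 (by omega) (by omega) (by omega) (by omega) (by omega) (by omega)
      (by omega) (by omega) (by unfold Adj; dsimp only; omega) q1 (kt _ hw (by omega) (le_refl _))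
    refine gad F hw ?_ (q2.trans (F.kept C hw (by omega) (le_refl _)))
    by_cases h : 2 ≤ J1
    · exact Or.inl h
    · have e1 : t' = 2 := by omega
      rw [e1] at xv
      exact F.s1.ex hw xv
  · refine ⟨_, _, _, _, _, ⟨(F.box _ _ _).2 (by omega), by rw [F.box]; omega, hgate⟩,
      F.link C (s := 1) (t := t') (by omega) (by omega) (by omega) (by omega) ?_ ?_ ?_ ?_ hu⟩
    · rw [Yf_false]; cases w <;> simp at c4 ⊢; omega
    · rw [Yf_false]; cases w <;> simp at c4 ⊢; omega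
    · rw [Yf_false]; cases w <;> simp at c4 ⊢; omega
    · rw [Yf_true]; cases w <;> simp at c4 ⊢ <;> omega

end Pool.Agent.Lib.MP_0350c1_lc
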