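import Pool.Agent.Lib.MP_0350c1_lc.Z7

namespace Pool.Agent.Lib.MP_0350c1_lc

open Relation

variable {M N a b : ℤ} {x : P2 → Bool}

lemma surgery0 (hx : VZ M N x) (ha : 0 ≤ a) (ha' : a + 13 < M) (hb : 0 ≤ b) (hb' : b + 13 < N)
    (hA : ∃ v, Box a b 2 v ∧ x v = true) (hB : ∃ v, Box a b 2 v ∧ x v = false) :
    ∃ (y : P2 → Bool) (g : ℤ), (g = 5 ∨ g = 6) ∧ VZ M N y ∧ (∀ v, ¬ Box a b 1 v → y v = x v) ∧
      (∀ v, Box a b 3 v → y v = true) ∧ y (a + 1, b + g) = false := by
  obtain ⟨y, d, h1, h2, hF⟩ := exists_base hx.nc ha ha' hb hb'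
  have C : Ctx M N a b x y := ⟨ha, ha', hb, hb', h1, h2⟩
  obtain ⟨g, hg, hg'⟩ : ∃ g : ℤ, (g = 5 ∨ g = 6) ∧
      (x (a, b + g) = true → g = 5 ∧ x (a, b + 6) = true) := by
    by_cases h : x (a, b + 6) = true
    · exact ⟨5, Or.inl rfl, fun _ => ⟨rfl, h⟩⟩
    · exact ⟨6, Or.inr rfl, fun h' => absurd h' h⟩
  have hB' : ∃ v, Box a b 1 v ∧ x v = false := by
    obtain ⟨v, hv, cv⟩ := hB
    exact ⟨v, by unfold Box at *; omega, cv⟩
  have hbc : BC M N y := by
    have nb : ∀ v, Bd M N v → y v = x v := fun v hv =>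
      h1 v (by unfold Bd In at hv; unfold Box; omega)
    intro p q a1 a2 a3 a4
    rw [nb _ a1] at a3
    rw [nb _ a2] at a4
    have w := hx.bc (by omega) (by omega) p q a1 a2 a3 a4
    clear a2 a4
    induction w with
    | refl => exact ReflTransGen.refl
    | tail _ h ih => exact ih.tail ⟨h.1, h.2.1, h.2.2.1,
        (nb _ h.1).trans h.2.2.2.1, (nb _ h.2.1).trans h.2.2.2.2⟩
  have bo : Box a b 3 (a + 6, b + 6) := by unfold Box; dsimp only; omega
  obtain ⟨y', r1, r2, r3, r4⟩ := link_all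
    (fun l => Box a b 1 l ∧ ¬ Box a b 3 l ∧ l ≠ (a + 1, b + g)) (a + 6, b + 6) _ y (le_refl _)
    (base_nc C hx.nc hF) (base_conn C hx hB' hF) hbc (h2 _ bo)
    (base_access C hx hA hF g hg hg')
  have gate : y' (a + 1, b + g) = false := by
    rw [r3 _ (fun h => h.2.2 rfl)]
    have F := hF true true
    have := F.chart 1 g (by omega) (by omega) (by omega) (by omega)
    have r1 := F.s1.r
    simp only [fX, if_true] at this
    rw [this, Yf_false]; simp; omega
  refine ⟨y', g, hg, fun κ => ?_, fun v hv => ?_, fun v hv => r4 v (h2 v hv), gate⟩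
  · cases κ
    · exact ⟨⟨_, C.mem (by unfold Box; dsimp only; omega), gate⟩, r1⟩
    · exact ⟨⟨_, C.mem (by unfold Box; dsimp only; omega), r4 _ (h2 _ bo)⟩,
        fun u v hu hv cu cv => (r2 u hu cu).trans (Rch.symm (r2 v hv cv))⟩
  · rw [r3 v (fun h => hv h.1), h1 v hv]

/-- the inner pattern: a ray starting in column `γ` -/
def Pat (a b γ : ℤ) (y : P2 → Bool) : Prop :=
  ∀ v, Box a b 4 v → y v = decide (v.1 = a + 6 ∧ b + γ ≤ v.2)

lemma rect' {c : P2 → Bool} {κ : Bool} (p q p' q' : ℤ) (h0 : 0 ≤ p ∧ p' < M ∧ 0 ≤ q ∧ q' < N)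
    (h : ∀ s t, p ≤ s → s ≤ p' → q ≤ t → t ≤ q' → c (s, t) = κ) {u v : P2}
    (h1 : p ≤ u.1 ∧ u.1 ≤ p' ∧ q ≤ u.2 ∧ u.2 ≤ q' ∧ p ≤ v.1 ∧ v.1 ≤ p' ∧ q ≤ v.2 ∧ v.2 ≤ q') :
    Rch M N c u v :=
  rect_reach id (fun _ _ h => h) (κ := κ) (a := p) (b := q) (a' := p') (b' := q')
    (fun s t a1 a2 a3 a4 => ⟨by unfold In; dsimp; omega, h s t a1 a2 a3 a4⟩) (s := u.1) (t := u.2)
    (s' := v.1) (t' := v.2)
    (by omega) (by omega) (by omega) (by omega) (by omega) (by omega) (by omega) (by omega)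

theorem surgery (hx : VZ M N x) (ha : 0 ≤ a) (ha' : a + 13 < M) (hb : 0 ≤ b) (hb' : b + 13 < N)
    (hA : ∃ v, Box a b 2 v ∧ x v = true) (hB : ∃ v, Box a b 2 v ∧ x v = false) (γ : ℤ)
    (hγ : γ = 6 ∨ γ = 8) :
    ∃ y : P2 → Bool, VZ M N y ∧ (∀ v, ¬ Box a b 1 v → y v = x v) ∧ Pat a b γ y := by
  classical
  obtain ⟨y, g, hg, hy, h1, h2, h3⟩ := surgery0 hx ha ha' hb hb' hA hB
  set F : P2 → Prop := fun v => (v.2 = b + g ∧ (v.1 = a + 2 ∨ v.1 = a + 3)) ∨
    (Box a b 4 v ∧ ¬ (v.1 = a + 6 ∧ b + γ ≤ v.2)) with hF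
  set c : P2 → Bool := fun v => if F v then false else y v with hc
  have cF : ∀ s t, ((t = b + g ∧ a + 1 ≤ s ∧ s ≤ a + 3) ∨ (a + 4 ≤ s ∧ s ≤ a + 9 ∧ b + 4 ≤ t ∧
      t ≤ b + 9 ∧ ¬ (s = a + 6 ∧ b + γ ≤ t))) → c (s, t) = false := by
    intro s t h
    by_cases e : s = a + 1 ∧ t = b + g
    · rw [e.1, e.2]; simp [hc, h3]
    · have : F (s, t) := by simp only [hF, Box]; omega
      simp [hc, this]
  have cT : ∀ s t, a + 3 ≤ s → s ≤ a + 10 → b + 3 ≤ t → t ≤ b + 10 → ¬ (s = a + 3 ∧ t = b + g) →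
      (s = a + 3 ∨ s = a + 10 ∨ t = b + 3 ∨ t = b + 10 ∨ (s = a + 6 ∧ b + γ ≤ t)) →
      c (s, t) = true := by
    intro s t _ _ _ _ _ _
    have : ¬ F (s, t) := by simp only [hF, Box]; omega
    simp only [hc, this, if_false]
    exact h2 _ (by unfold Box; dsimp only; omega)
  have Fof : ∀ v, y v = true → c v = false → F v := by
    intro v e1 e2
    by_contra h
    simp [hc, h, e1] at e2
  have nF : ∀ v, c v = true → ¬ F v := fun v e h => by simp [hc, h] at e
  refine ⟨c, safe_flip hy true c (a + 1, b + g) (a + 10, b + 3) (by unfold In; dsimp only; omega)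
    (by unfold In; dsimp only; omega) h3 (cT _ _ (by omega) (by omega) (by omega) (by omega)
    (by omega) (by omega)) (fun v hv => ?_) (fun v _ e1 e2 => ?_) (fun u v iu _ hA cu e1 e2 => ?_),
    fun v hv => ?_, fun v hv => ?_⟩
  · simp only [hc]; split_ifs; exacts [rfl, hv]
  · have hv := Fof v e1 e2
    simp only [hF, Box] at hv
    have g1 : ∀ u : P2, u.2 = b + g → a + 1 ≤ u.1 → u.1 ≤ a + 5 → Rch M N c u (a + 1, b + g) :=
      fun u _ _ _ => rect' (κ := false) (a + 1) (b + g) (a + 5) (b + g) (by omega)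
        (fun s t _ _ _ _ => cF s t (by omega)) (by dsimp only; omega)
    have g2 : ∀ u : P2, a + 4 ≤ u.1 → u.1 ≤ a + 5 → b + 4 ≤ u.2 → u.2 ≤ b + 9 →
        Rch M N c u (a + 1, b + g) := fun u _ _ _ _ =>
      (rect' (κ := false) (a + 4) (b + 4) (a + 5) (b + 9) (by omega)
        (fun s t _ _ _ _ => cF s t (by omega)) (v := (a + 4, b + g)) (by dsimp only; omega)).trans
        (g1 _ rfl (by dsimp only; omega) (by dsimp only; omega))
    have g3 : ∀ u : P2, a + 4 ≤ u.1 → u.1 ≤ a + 9 → b + 4 ≤ u.2 → u.2 ≤ b + γ - 1 →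
        Rch M N c u (a + 1, b + g) := fun u _ _ _ _ =>
      (rect' (κ := false) (a + 4) (b + 4) (a + 9) (b + γ - 1) (by omega)
        (fun s t _ _ _ _ => cF s t (by omega)) (v := (a + 4, b + 4)) (by dsimp only; omega)).trans
        (g2 _ (by dsimp only; omega) (by dsimp only; omega) (by dsimp only; omega)
          (by dsimp only; omega))
    have g4 : ∀ u : P2, a + 7 ≤ u.1 → u.1 ≤ a + 9 → b + 4 ≤ u.2 → u.2 ≤ b + 9 →
        Rch M N c u (a + 1, b + g) := fun u _ _ _ _ =>
      (rect' (κ := false) (a + 7) (b + 4) (a + 9) (b + 9) (by omega)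
        (fun s t _ _ _ _ => cF s t (by omega)) (v := (a + 7, b + 4)) (by dsimp only; omega)).trans
        (g3 _ (by dsimp only; omega) (by dsimp only; omega) (by dsimp only; omega)
          (by dsimp only; omega))
    by_cases k1 : v.1 ≤ a + 3
    · exact g1 v (by omega) (by omega) (by omega)
    by_cases k2 : v.1 ≤ a + 5
    · exact g2 v (by omega) (by omega) (by omega) (by omega)
    by_cases k3 : v.1 = a + 6
    · exact g3 v (by omega) (by omega) (by omega) (by omega)
    · exact g4 v (by omega) (by omega) (by omega) (by omega)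
  · have hv := Fof v e1 e2
    have hu := nF u cu
    simp only [hF, Box] at hv hu
    unfold Adj at hA
    have g1 : ∀ u : P2, u.1 = a + 10 → b + 3 ≤ u.2 → u.2 ≤ b + 10 → Rch M N c u (a + 10, b + 3) :=
      fun u _ _ _ => rect' (κ := true) (a + 10) (b + 3) (a + 10) (b + 10) (by omega)
        (fun s t _ _ _ _ => cT s t (by omega) (by omega) (by omega) (by omega) (by omega)
          (by omega)) (by dsimp only; omega)
    have g2 : ∀ u : P2, (u.2 = b + 3 ∨ u.2 = b + 10) → a + 3 ≤ u.1 → u.1 ≤ a + 10 →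
        Rch M N c u (a + 10, b + 3) := fun u _ _ _ =>
      (rect' (κ := true) (a + 3) u.2 (a + 10) u.2 (by omega)
        (fun s t _ _ _ _ => cT s t (by omega) (by omega) (by omega) (by omega) (by omega)
          (by omega)) (v := (a + 10, u.2)) (by dsimp only; omega)).trans
        (g1 _ rfl (by dsimp only; omega) (by dsimp only; omega))
    have g3 : ∀ u : P2, u.1 = a + 3 → b + 3 ≤ u.2 → u.2 ≤ b + 10 → u.2 ≠ b + g →
        Rch M N c u (a + 10, b + 3) := by
      intro u _ _ _ _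
      by_cases k : u.2 < b + g
      · exact (rect' (κ := true) (a + 3) (b + 3) (a + 3) (b + g - 1) (by omega)
          (fun s t _ _ _ _ => cT s t (by omega) (by omega) (by omega) (by omega) (by omega)
            (by omega)) (v := (a + 3, b + 3)) (by dsimp only; omega)).trans
          (g2 _ (Or.inl rfl) (by dsimp only; omega) (by dsimp only; omega))
      · exact (rect' (κ := true) (a + 3) (b + g + 1) (a + 3) (b + 10) (by omega)
          (fun s t _ _ _ _ => cT s t (by omega) (by omega) (by omega) (by omega) (by omega)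
            (by omega)) (v := (a + 3, b + 10)) (by dsimp only; omega)).trans
          (g2 _ (Or.inr rfl) (by dsimp only; omega) (by dsimp only; omega))
    have g4 : ∀ u : P2, u.1 = a + 6 → b + γ ≤ u.2 → u.2 ≤ b + 10 →
        Rch M N c u (a + 10, b + 3) := fun u _ _ _ =>
      (rect' (κ := true) (a + 6) (b + γ) (a + 6) (b + 10) (by omega)
        (fun s t _ _ _ _ => cT s t (by omega) (by omega) (by omega) (by omega) (by omega)
          (by omega)) (v := (a + 6, b + 10)) (by dsimp only; omega)).trans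
        (g2 _ (Or.inr rfl) (by dsimp only; omega) (by dsimp only; omega))
    by_cases k0 : u = (a + 1, b + g)
    · rw [k0, cF _ _ (by omega)] at cu; exact absurd cu (by simp)
    rw [Prod.ext_iff] at k0
    dsimp only at k0
    by_cases k1 : u.1 ≤ a + 2
    · refine ReflTransGen.head (b := (a + 3, u.2)) ⟨iu, by unfold In; dsimp only; omega,
        by unfold Adj; dsimp only; omega, cu.trans (cT _ _ (by omega) (by omega) (by omega)
          (by omega) (by omega) (by omega)).symm⟩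
        (g3 _ rfl (by dsimp only; omega) (by dsimp only; omega) (by dsimp only; omega))
    by_cases k2 : u.1 = a + 3
    · exact g3 u k2 (by omega) (by omega) (by omega)
    by_cases k3 : u.1 = a + 10
    · exact g1 u k3 (by omega) (by omega)
    by_cases k4 : u.2 = b + 3 ∨ u.2 = b + 10
    · exact g2 u k4 (by omega) (by omega)
    · exact g4 u (by omega) (by omega) (by omega)
  · have : ¬ F v := by simp only [hF]; unfold Box at *; omega
    simp only [hc, this, if_false]
    exact h1 v hv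
  · unfold Box at hv
    by_cases k : v.1 = a + 6 ∧ b + γ ≤ v.2
    · rw [decide_eq_true k]
      exact cT v.1 v.2 (by omega) (by omega) (by omega) (by omega) (by omega) (by omega)
    · rw [decide_eq_false k]
      exact cF v.1 v.2 (by omega)

end Pool.Agent.Lib.MP_0350c1_lc
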