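import Pool.Agent.Lib.MP_0350c1_lc.Z8

namespace Pool.Agent.Lib.MP_0350c1_lc

open Relation

variable {M N : ℤ} {x : P2 → Bool}

lemma VZ.comp (h : VZ M N x) {M' N' : ℤ} (φ ψ : P2 → P2) (h1 : ∀ v, In M' N' v → In M N (φ v))
    (h2 : ∀ v, In M N v → In M' N' (ψ v)) (h3 : ∀ v, φ (ψ v) = v) (h4 : ∀ v, ψ (φ v) = v)
    (h5 : ∀ u v, Adj u v → Adj (ψ u) (ψ v)) : VZ M' N' (fun v => x (φ v)) := by
  have key : ∀ u v, Rch M N x u v → Rch M' N' (fun v => x (φ v)) (ψ u) (ψ v) := by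
    intro u v r
    induction r with
    | refl => exact ReflTransGen.refl
    | tail _ s ih => exact ih.tail ⟨h2 _ s.1, h2 _ s.2.1, h5 _ _ s.2.2.1, by
        simp only [h3]; exact s.2.2.2⟩
  intro κ
  obtain ⟨⟨u, hu, cu⟩, hc⟩ := h κ
  refine ⟨⟨ψ u, h2 u hu, by simp only [h3]; exact cu⟩, fun u v hu hv cu cv => ?_⟩
  have := key _ _ (hc _ _ (h1 u hu) (h1 v hv) cu cv)
  rwa [h4, h4] at this

lemma VZ.congr (h : VZ M N x) {y : P2 → Bool} (e : ∀ v, In M N v → y v = x v) : VZ M N y := by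
  intro κ
  obtain ⟨⟨u, hu, cu⟩, hc⟩ := h κ
  refine ⟨⟨u, hu, (e u hu).trans cu⟩, fun u v hu hv cu cv => ?_⟩
  have r := hc u v hu hv ((e u hu).symm.trans cu) ((e v hv).symm.trans cv)
  clear hv cv
  induction r with
  | refl => exact ReflTransGen.refl
  | tail _ s ih => exact ih.tail ⟨s.1, s.2.1, s.2.2.1, by rw [e _ s.1, e _ s.2.1]; exact s.2.2.2⟩

def rf (M N : ℤ) (σ τ : Bool) (v : P2) : P2 :=
  (if σ then M - 1 - v.1 else v.1, if τ then N - 1 - v.2 else v.2)

lemma rf_rf (σ τ : Bool) (v : P2) : rf M N σ τ (rf M N σ τ v) = v := by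
  cases σ <;> cases τ <;> simp [rf]

lemma rf_in (σ τ : Bool) (v : P2) (h : In M N v) : In M N (rf M N σ τ v) := by
  unfold In at *; cases σ <;> cases τ <;> simp [rf] <;> omega

lemma VZ.rf (h : VZ M N x) (σ τ : Bool) : VZ M N (fun v => x (rf M N σ τ v)) :=
  h.comp _ _ (rf_in σ τ) (rf_in σ τ) (rf_rf σ τ) (rf_rf σ τ) (fun u v h => by
    unfold Adj at *; cases σ <;> cases τ <;> simp [Pool.Agent.Lib.MP_0350c1_lc.rf] <;> omega)

/-- the part of the band of five rows around `z` at distance less than `R` -/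
def Ball (z : P2) (R : ℤ) (v : P2) : Prop :=
  v.1 - z.1 ≤ 2 ∧ z.1 - v.1 ≤ 2 ∧ (v.1 - z.1) + (v.2 - z.2) < R ∧ (v.1 - z.1) + (z.2 - v.2) < R ∧
    (z.1 - v.1) + (v.2 - z.2) < R ∧ (z.1 - v.1) + (z.2 - v.2) < R

lemma bne {a κ : Bool} (h : ¬ a = κ) : a = !κ := by revert h; cases a <;> cases κ <;> simp

lemma finger0 (hx : VZ M N x) (p q R ρ : ℤ) (κ : Bool) (hp : 2 ≤ p ∧ p + 2 < M ∧ 1 ≤ q)
    (hR : 5 ≤ R) (hρ : 0 ≤ ρ ∧ ρ ≤ 2) (hN : q + R - ρ < N)
    (hκ : ∀ v, In M N v → Ball (p, q) R v → x v = κ) (hb : x (p + ρ, q + R - ρ) = !κ) :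
    ∃ r : ℤ, (r = 0 ∨ r = 1) ∧ ∀ β : ℤ → Bool, ∃ y, VZ M N y ∧
      (∀ v, ¬ Ball (p, q) R v → y v = x v) ∧ y (p + r, q) = !κ ∧ y (p, q - 1) = κ ∧
      ∀ t, 0 ≤ t → t ≤ R - 4 → y (p + r - 1, q + t) = β t := by
  classical
  obtain ⟨r, g, hr⟩ : ∃ r g : ℤ, (ρ = 0 ∧ r = 0 ∧ g = R - 1) ∨ (1 ≤ ρ ∧ r = 1 ∧ g = R - 2) := by
    by_cases h : ρ = 0
    · exact ⟨0, _, Or.inl ⟨h, rfl, rfl⟩⟩
    · exact ⟨1, _, Or.inr ⟨by omega, rfl, rfl⟩⟩
  refine ⟨r, by omega, fun β => ?_⟩
  set F : P2 → Prop := fun v => (v.1 = p + r ∧ q ≤ v.2 ∧ v.2 ≤ q + g) ∨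
    (v.1 = p + r - 1 ∧ q ≤ v.2 ∧ v.2 ≤ q + R - 4 ∧ β (v.2 - q) = !κ) with hF
  set c : P2 → Bool := fun v => if F v then !κ else x v with hc
  have cF : ∀ v, F v → c v = !κ := fun v h => by simp only [hc, h, if_true]
  have cb : c (p + ρ, q + R - ρ) = !κ := by simp only [hc]; split_ifs; exacts [rfl, hb]
  have cK : ∀ s t, t < N → q - 1 ≤ t → Ball (p, q) R (s, t) → ¬ (s = p + r ∧ q ≤ t ∧ t ≤ q + g) →
      ¬ (s = p + r - 1 ∧ q ≤ t ∧ t ≤ q + R - 4) → c (s, t) = κ := by
    intro s t h1 h2 h3 h4 h5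
    have : ¬ F (s, t) := by simp only [hF]; tauto
    simp only [hc, this, if_false]
    exact hκ _ (by unfold Ball at h3; unfold In; dsimp only at *; omega) h3
  have nF : ∀ v, c v = κ → ¬ F v := fun v e h => by
    rw [cF v h] at e; revert e; cases κ <;> simp
  have Fof : ∀ v, x v = κ → c v = !κ → F v := by
    intro v e1 e2
    by_contra h
    simp only [hc, h, if_false, e1] at e2
    revert e2; cases κ <;> simp
  refine ⟨c, safe_flip hx κ c (p + ρ, q + R - ρ) (p + r - 2, q - 1)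
    (by unfold In; dsimp only; omega) (by unfold In; dsimp only; omega) hb
    (cK _ _ (by omega) (by omega) (by unfold Ball; dsimp only; omega) (by omega) (by omega))
    (fun v hv => ?_) (fun v iv e1 e2 => ?_) (fun u v iu _ hA cu e1 e2 => ?_),
    fun v hv => ?_, cF _ (Or.inl (by dsimp only; omega)),
    cK _ _ (by omega) (by omega) (by unfold Ball; dsimp only; omega) (by omega) (by omega),
    fun t h1 h2 => ?_⟩
  · simp only [hc]; split_ifs; exacts [rfl, hv]
  · have g1 : ∀ u : P2, u.1 = p + r → q ≤ u.2 → u.2 ≤ q + g →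
        Rch M N c u (p + ρ, q + R - ρ) := fun u _ _ _ =>
      (rect' (κ := !κ) (p + r) q (p + r) (q + g) (by omega)
        (fun s t _ _ _ _ => cF _ (Or.inl (by dsimp only; omega))) (v := (p + r, q + g))
        (by dsimp only; omega)).tail ⟨by unfold In; dsimp only; omega,
          by unfold In; dsimp only; omega, by unfold Adj; dsimp only; omega,
          (cF _ (Or.inl (by dsimp only; omega))).trans cb.symm⟩
    rcases Fof v e1 e2 with h | h
    · exact g1 v h.1 h.2.1 h.2.2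
    · obtain ⟨k1, k2, k3, -⟩ := h
      exact ReflTransGen.head (b := (p + r, v.2)) ⟨iv, by unfold In; dsimp only; omega,
        by unfold Adj; dsimp only; omega, e2.trans (cF _ (Or.inl (by dsimp only; omega))).symm⟩
        (g1 _ rfl (by dsimp only; omega) (by dsimp only; omega))
  · have hv : (v.1 = p + r ∧ q ≤ v.2 ∧ v.2 ≤ q + g) ∨
        (v.1 = p + r - 1 ∧ q ≤ v.2 ∧ v.2 ≤ q + R - 4) := by
      rcases Fof v e1 e2 with h | h
      · exact Or.inl h
      · exact Or.inr ⟨h.1, h.2.1, h.2.2.1⟩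
    have hu : ¬ (u.1 = p + r ∧ q ≤ u.2 ∧ u.2 ≤ q + g) := fun h => nF u cu (Or.inl h)
    have iu' := iu
    unfold In at iu'
    unfold Adj at hA
    have g1 : ∀ u : P2, u.1 = p + r - 2 → q - 1 ≤ u.2 → u.2 ≤ q + R - 3 →
        Rch M N c u (p + r - 2, q - 1) := fun u _ _ _ =>
      rect' (κ := κ) (p + r - 2) (q - 1) (p + r - 2) (q + R - 3) (by omega)
        (fun s t _ _ _ _ => cK s t (by omega) (by omega) (by unfold Ball; dsimp only; omega)
          (by omega) (by omega)) (by dsimp only; omega)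
    have g2 : ∀ u : P2, u.2 = q - 1 → p + r - 2 ≤ u.1 → u.1 ≤ p + r + 1 →
        Rch M N c u (p + r - 2, q - 1) := fun u _ _ _ =>
      rect' (κ := κ) (p + r - 2) (q - 1) (p + r + 1) (q - 1) (by omega)
        (fun s t _ _ _ _ => cK s t (by omega) (by omega) (by unfold Ball; dsimp only; omega)
          (by omega) (by omega)) (by dsimp only; omega)
    have g3 : ∀ u : P2, u.1 = p + r + 1 → q - 1 ≤ u.2 → u.2 ≤ q + g - 1 →
        Rch M N c u (p + r - 2, q - 1) := fun u _ _ _ =>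
      (rect' (κ := κ) (p + r + 1) (q - 1) (p + r + 1) (q + g - 1) (by omega)
        (fun s t _ _ _ _ => cK s t (by omega) (by omega) (by unfold Ball; dsimp only; omega)
          (by omega) (by omega)) (v := (p + r + 1, q - 1)) (by dsimp only; omega)).trans
        (g2 _ rfl (by dsimp only; omega) (by dsimp only; omega))
    have g4 : ∀ u : P2, u.1 = p + r - 1 → q + R - 3 ≤ u.2 → u.2 ≤ q + R - 2 + r → u.2 < N →
        Rch M N c u (p + r - 2, q - 1) := fun u _ _ _ _ =>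
      (rect' (κ := κ) (p + r - 1) (q + R - 3) (p + r - 1) u.2 (by omega)
        (fun s t _ _ _ _ => cK s t (by omega) (by omega) (by unfold Ball; dsimp only; omega)
          (by omega) (by omega)) (v := (p + r - 1, q + R - 3)) (by dsimp only; omega)).trans
        (ReflTransGen.head (b := (p + r - 2, q + R - 3)) ⟨by unfold In; dsimp only; omega,
          by unfold In; dsimp only; omega, by unfold Adj; dsimp only; omega,
          (cK _ _ (by omega) (by omega) (by unfold Ball; dsimp only; omega) (by omega)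
            (by omega)).trans (cK _ _ (by omega) (by omega) (by unfold Ball; dsimp only; omega)
            (by omega) (by omega)).symm⟩ (g1 _ rfl (by dsimp only; omega) (by dsimp only; omega)))
    have st : ∀ s t, Adj u (s, t) → 0 ≤ s → s < M → t < N → q - 1 ≤ t → Ball (p, q) R (s, t) →
        ¬ (s = p + r ∧ q ≤ t ∧ t ≤ q + g) → ¬ (s = p + r - 1 ∧ q ≤ t ∧ t ≤ q + R - 4) →
        Rch M N c (s, t) (p + r - 2, q - 1) → Rch M N c u (p + r - 2, q - 1) :=
      fun s t a _ _ a1 a2 a3 a4 a5 r => ReflTransGen.head ⟨iu, by unfold In; dsimp only; omega, a,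
        cu.trans (cK s t a1 a2 a3 a4 a5).symm⟩ r
    by_cases k0 : u = (p + ρ, q + R - ρ)
    · rw [k0, cb] at cu; exact absurd cu (by cases κ <;> simp)
    rw [Prod.ext_iff] at k0
    dsimp only at k0
    by_cases k1 : u.2 = q - 1
    · exact g2 u k1 (by omega) (by omega)
    by_cases k2 : u.1 = p + r - 2
    · exact g1 u k2 (by omega) (by omega)
    by_cases k3 : u.1 = p + r + 1
    · by_cases k4 : u.2 = q + g
      · exact st (p + r + 1) (q + g - 1) (by unfold Adj; dsimp only; omega) (by omega) (by omega)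
          (by omega) (by omega) (by unfold Ball; dsimp only; omega) (by omega) (by omega)
          (g3 _ rfl (by dsimp only; omega) (by dsimp only; omega))
      · exact g3 u k3 (by omega) (by omega)
    by_cases k4 : u.1 = p + r
    · exact st (p + r - 1) u.2 (by unfold Adj; dsimp only; omega) (by omega) (by omega)
        (by omega) (by omega) (by unfold Ball; dsimp only; omega) (by omega) (by omega)
        (g4 _ rfl (by dsimp only; omega) (by dsimp only; omega) (by dsimp only; omega))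
    by_cases k5 : u.2 ≤ q + R - 4
    · exact st (p + r - 2) u.2 (by unfold Adj; dsimp only; omega) (by omega) (by omega)
        (by omega) (by omega) (by unfold Ball; dsimp only; omega) (by omega) (by omega)
        (g1 _ rfl (by dsimp only; omega) (by dsimp only; omega))
    by_cases k6 : u.2 ≤ q + R - 2 + r
    · exact g4 u (by omega) (by omega) k6 (by omega)
    · exact st (p + r - 1) (u.2 - 1) (by unfold Adj; dsimp only; omega) (by omega) (by omega)
        (by omega) (by omega) (by unfold Ball; dsimp only; omega) (by omega) (by omega)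
        (g4 _ rfl (by dsimp only; omega) (by dsimp only; omega) (by dsimp only; omega))
  · have : ¬ F v := by
      intro h
      refine hv ?_
      unfold Ball
      dsimp only
      rcases h with h | ⟨h1, h2, h3, -⟩ <;> omega
    simp only [hc, this, if_false]
  · by_cases k : β t = κ
    · have : ¬ F (p + r - 1, q + t) := by
        rintro (h | ⟨-, -, -, h⟩)
        · dsimp only at h; omega
        · rw [show q + t - q = t by ring, k] at h; revert h; cases κ <;> simp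
      simp only [hc, this, if_false, k]
      exact hκ _ (by unfold In; dsimp only; omega) (by unfold Ball; dsimp only; omega)
    · rw [bne k]
      exact cF _ (Or.inr ⟨rfl, by dsimp only; omega, by dsimp only; omega, by
        rw [show q + t - q = t by ring]; exact bne k⟩)

lemma ball_rf (σ τ : Bool) (z v : P2) (R : ℤ) :
    Ball (rf M N σ τ z) R (rf M N σ τ v) ↔ Ball z R v := by
  unfold Ball; cases σ <;> cases τ <;> simp [rf] <;> omega

theorem finger (hx : VZ M N x) (z : P2) (R : ℤ) (κ : Bool)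
    (hz : 2 ≤ z.1 ∧ z.1 + 2 < M ∧ 1 ≤ z.2 ∧ z.2 + 1 < N) (hR : 5 ≤ R)
    (hκ : ∀ v, In M N v → Ball z R v → x v = κ) (b : P2) (ib : In M N b) (hb : Ball z (R + 1) b)
    (cb : x b = !κ) :
    ∃ w : ℕ → P2, ∀ β : ℕ → Bool, ∃ y, VZ M N y ∧ (∀ v, ¬ Ball z R v → y v = x v) ∧
      (∃ u, Ball z 2 u ∧ y u = κ) ∧ (∃ u, Ball z 2 u ∧ y u = !κ) ∧
      ∀ t : ℕ, (t : ℤ) ≤ R - 4 → In M N (w t) ∧ y (w t) = β t := by
  have nb : ¬ Ball z R b := fun h => by
    rw [hκ b ib h] at cb; revert cb; cases κ <;> simp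
  obtain ⟨σ, τ, h1, h2⟩ : ∃ σ τ : Bool, (rf M N σ τ z).1 ≤ (rf M N σ τ b).1 ∧
      (rf M N σ τ z).2 ≤ (rf M N σ τ b).2 := by
    refine ⟨decide (b.1 < z.1), decide (b.2 < z.2), ?_, ?_⟩ <;> simp only [rf, decide_eq_true_eq] <;>
      split_ifs <;> omega
  have hz' : 2 ≤ (rf M N σ τ z).1 ∧ (rf M N σ τ z).1 + 2 < M ∧ 1 ≤ (rf M N σ τ z).2 ∧
      (rf M N σ τ z).2 + 1 < N := by cases σ <;> cases τ <;> simp [rf] <;> omega
  have ib' := rf_in σ τ b ib
  have hb' := (ball_rf (M := M) (N := N) σ τ z b _).2 hb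
  have nb' : ¬ Ball (rf M N σ τ z) R (rf M N σ τ b) := fun h => nb ((ball_rf σ τ z b R).1 h)
  have br : ∀ R v, Ball (rf M N σ τ z) R v ↔ Ball z R (rf M N σ τ v) := fun R v => by
    rw [← ball_rf (M := M) (N := N) σ τ z, rf_rf]
  have br' : ∀ R v, Ball (rf M N σ τ z) R (rf M N σ τ v) ↔ Ball z R v := fun R v => ball_rf σ τ z v R
  have cb' : x (rf M N σ τ (rf M N σ τ b)) = !κ := by rw [rf_rf]; exact cb
  generalize rf M N σ τ z = z' at *
  generalize rf M N σ τ b = b' at *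
  obtain ⟨p, q⟩ := z'
  obtain ⟨b1, b2⟩ := b'
  unfold Ball at hb' nb'
  unfold In at ib'
  dsimp only at *
  obtain ⟨r, hr, H⟩ := finger0 (hx.rf σ τ) p q R (b1 - p) κ (by omega) hR (by omega) (by omega)
    (fun v iv hv => hκ _ (rf_in σ τ v iv) ((br _ _).1 hv)) (by
      rw [show p + (b1 - p) = b1 by ring, show q + R - (b1 - p) = b2 by omega]; exact cb')
  refine ⟨fun t => rf M N σ τ (p + r - 1, q + t), fun β => ?_⟩
  obtain ⟨y, y1, y2, y3, y4, y5⟩ := H (fun t => β t.toNat)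
  refine ⟨fun v => y (rf M N σ τ v), y1.rf σ τ, fun v hv => ?_,
    ⟨rf M N σ τ (p, q - 1), (br _ _).1 (by unfold Ball; dsimp only; omega), by simp only [rf_rf, y4]⟩,
    ⟨rf M N σ τ (p + r, q), (br _ _).1 (by unfold Ball; dsimp only; omega), by simp only [rf_rf, y3]⟩,
    fun t ht => ⟨rf_in _ _ _ (by unfold In; dsimp only; omega), ?_⟩⟩
  · dsimp only; rw [y2 _ (fun h => hv ((br' _ _).1 h)), rf_rf]
  · dsimp only; rw [rf_rf, y5 t (by omega) ht]; simp

lemma slab0 (hx : VZ M N x) (i j L : ℤ) (κ : Bool) (h0 : 4 ≤ i ∧ i < M ∧ 0 ≤ j ∧ j + L < N ∧ 1 ≤ L)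
    (hκ : ∀ v, In M N v → i - 4 ≤ v.1 → v.1 ≤ i - 1 → x v = κ) (hb : x (i, j) = !κ)
    (β : ℤ → Bool) : ∃ y, VZ M N y ∧ (∀ v : P2, ¬ (i - 4 ≤ v.1 ∧ v.1 ≤ i - 1) → y v = x v) ∧
      ∀ t, 0 ≤ t → t < L → y (i - 3, j + t) = β t := by
  classical
  set F : P2 → Prop := fun v => (v.1 = i - 1 ∧ v.2 = j) ∨ (v.1 = i - 2 ∧ j ≤ v.2 ∧ v.2 < j + L) ∨
    (v.1 = i - 3 ∧ j ≤ v.2 ∧ v.2 < j + L ∧ β (v.2 - j) = !κ) with hF
  set c : P2 → Bool := fun v => if F v then !κ else x v with hc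
  have cF : ∀ v, F v → c v = !κ := fun v h => by simp only [hc, h, if_true]
  have cb : c (i, j) = !κ := by simp only [hc]; split_ifs; exacts [rfl, hb]
  have cK : ∀ s t, 0 ≤ t → t < N → i - 4 ≤ s → s ≤ i - 1 → ¬ (s = i - 1 ∧ t = j) →
      ¬ ((s = i - 2 ∨ s = i - 3) ∧ j ≤ t ∧ t < j + L) → c (s, t) = κ := by
    intro s t h1 h2 h3 h4 h5 h6
    have : ¬ F (s, t) := by simp only [hF]; tauto
    simp only [hc, this, if_false]
    exact hκ _ (by unfold In; dsimp only at *; omega) h3 h4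
  have nF : ∀ v, c v = κ → ¬ F v := fun v e h => by
    rw [cF v h] at e; revert e; cases κ <;> simp
  have Fof : ∀ v, x v = κ → c v = !κ → F v := by
    intro v e1 e2
    by_contra h
    simp only [hc, h, if_false, e1] at e2
    revert e2; cases κ <;> simp
  refine ⟨c, safe_flip hx κ c (i, j) (i - 4, j)
    (by unfold In; dsimp only; omega) (by unfold In; dsimp only; omega) hb
    (cK _ _ (by omega) (by omega) (by omega) (by omega) (by omega) (by omega))
    (fun v hv => ?_) (fun v iv e1 e2 => ?_) (fun u v iu _ hA cu e1 e2 => ?_),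
    fun v hv => ?_, fun t h1 h2 => ?_⟩
  · simp only [hc]; split_ifs; exacts [rfl, hv]
  · have g0 : ∀ u : P2, u.2 = j → i - 2 ≤ u.1 → u.1 ≤ i → Rch M N c u (i, j) := fun u _ _ _ =>
      rect' (κ := !κ) (i - 2) j i j (by omega) (fun s t _ _ _ _ => by
        by_cases e : s = i
        · rw [e, show t = j by omega]; exact cb
        · by_cases e' : s = i - 1
          · exact cF _ (Or.inl (by dsimp only; omega))
          · exact cF _ (Or.inr (Or.inl (by dsimp only; omega)))) (by dsimp only; omega)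
    have g1 : ∀ u : P2, u.1 = i - 2 → j ≤ u.2 → u.2 < j + L → Rch M N c u (i, j) := fun u _ _ _ =>
      (rect' (κ := !κ) (i - 2) j (i - 2) (j + L - 1) (by omega)
        (fun s t _ _ _ _ => cF _ (Or.inr (Or.inl (by dsimp only; omega)))) (v := (i - 2, j))
        (by dsimp only; omega)).trans (g0 _ rfl (by dsimp only; omega) (by dsimp only; omega))
    rcases Fof v e1 e2 with h | h | h
    · exact g0 v h.2 (by omega) (by omega)
    · exact g1 v h.1 h.2.1 h.2.2
    · obtain ⟨k1, k2, k3, -⟩ := h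
      exact ReflTransGen.head (b := (i - 2, v.2)) ⟨iv, by unfold In; dsimp only; omega,
        by unfold Adj; dsimp only; omega,
        e2.trans (cF _ (Or.inr (Or.inl (by dsimp only; omega)))).symm⟩
        (g1 _ rfl (by dsimp only; omega) (by dsimp only; omega))
  · have hv : (v.1 = i - 1 ∧ v.2 = j) ∨ ((v.1 = i - 2 ∨ v.1 = i - 3) ∧ j ≤ v.2 ∧ v.2 < j + L) := by
      rcases Fof v e1 e2 with h | h | h
      · exact Or.inl h
      · exact Or.inr ⟨Or.inl h.1, h.2⟩
      · exact Or.inr ⟨Or.inr h.1, h.2.1, h.2.2.1⟩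
    have hu : ¬ (u.1 = i - 1 ∧ u.2 = j) := fun h => nF u cu (Or.inl h)
    have hu' : ¬ (u.1 = i - 2 ∧ j ≤ u.2 ∧ u.2 < j + L) := fun h => nF u cu (Or.inr (Or.inl h))
    have iu' := iu
    unfold In at iu'
    unfold Adj at hA
    have g1 : ∀ u : P2, u.1 = i - 4 → 0 ≤ u.2 → u.2 < N → Rch M N c u (i - 4, j) := fun u _ _ _ =>
      rect' (κ := κ) (i - 4) 0 (i - 4) (N - 1) (by omega)
        (fun s t _ _ _ _ => cK s t (by omega) (by omega) (by omega) (by omega)
          (by omega) (by omega)) (by dsimp only; omega)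
    have g2 : ∀ u : P2, (u.2 = j - 1 ∨ u.2 = j + L) → 0 ≤ u.2 → i - 4 ≤ u.1 → u.1 ≤ i - 1 →
        Rch M N c u (i - 4, j) := fun u _ _ _ _ =>
      (rect' (κ := κ) (i - 4) u.2 (i - 1) u.2 (by omega)
        (fun s t _ _ _ _ => cK s t (by omega) (by omega) (by omega) (by omega)
          (by omega) (by omega)) (v := (i - 4, u.2)) (by dsimp only; omega)).trans
        (g1 _ rfl (by dsimp only; omega) (by dsimp only; omega))
    by_cases k0 : u = (i, j)
    · rw [k0, cb] at cu; exact absurd cu (by cases κ <;> simp)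
    rw [Prod.ext_iff] at k0
    dsimp only at k0
    by_cases k1 : u.2 = j - 1 ∨ u.2 = j + L
    · exact g2 u k1 (by omega) (by omega) (by omega)
    by_cases k2 : u.1 = i - 4
    · exact g1 u k2 (by omega) (by omega)
    by_cases k3 : u.1 = i - 3
    · exact ReflTransGen.head (b := (i - 4, u.2)) ⟨iu, by unfold In; dsimp only; omega,
        by unfold Adj; dsimp only; omega, cu.trans (cK _ _ (by omega) (by omega) (by omega)
          (by omega) (by omega) (by omega)).symm⟩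
        (g1 _ rfl (by dsimp only; omega) (by dsimp only; omega))
    · exact (rect' (κ := κ) (i - 1) (j + 1) (i - 1) (j + L) (by omega)
        (fun s t _ _ _ _ => cK s t (by omega) (by omega) (by omega) (by omega)
          (by omega) (by omega)) (v := (i - 1, j + L)) (by dsimp only; omega)).trans
        (g2 _ (Or.inr rfl) (by dsimp only; omega) (by dsimp only; omega) (by dsimp only; omega))
  · have : ¬ F v := by
      rintro (h | h | ⟨h1, h2, h3, -⟩) <;> omega
    simp only [hc, this, if_false]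
  · by_cases k : β t = κ
    · have : ¬ F (i - 3, j + t) := by
        rintro (h | h | ⟨-, -, -, h⟩)
        · dsimp only at h; omega
        · dsimp only at h; omega
        · rw [show j + t - j = t by ring, k] at h; revert h; cases κ <;> simp
      simp only [hc, this, if_false, k]
      exact hκ _ (by unfold In; dsimp only; omega) (by dsimp only; omega) (by dsimp only; omega)
    · rw [bne k]
      exact cF _ (Or.inr (Or.inr ⟨rfl, by dsimp only; omega, by dsimp only; omega, by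
        rw [show j + t - j = t by ring]; exact bne k⟩))

/-- four monochromatic rows -/
def Slab (M N : ℤ) (x : P2 → Bool) (i : ℤ) (κ : Bool) : Prop :=
  ∀ v, In M N v → i ≤ v.1 → v.1 ≤ i + 3 → x v = κ

lemma slab1 (hx : VZ M N x) (i L : ℤ) (κ : Bool) (hi : 0 ≤ i ∧ i + 3 < M) (hL : 1 ≤ L ∧ 2 * L < N)
    (hκ : Slab M N x i κ) (b : P2) (ib : In M N b) (hb : b.1 = i + 4 ∨ b.1 = i - 1)
    (cb : x b = !κ) : ∃ w : ℕ → P2, ∀ β : ℕ → Bool, ∃ y, VZ M N y ∧
      (∀ v : P2, ¬ (i ≤ v.1 ∧ v.1 ≤ i + 3) → y v = x v) ∧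
      ∀ t : ℕ, (t : ℤ) < L → In M N (w t) ∧ y (w t) = β t := by
  have ib' := ib
  unfold In at ib'
  obtain ⟨σ, τ, h1, h2, h3⟩ : ∃ σ τ : Bool, (rf M N σ τ b).2 + L < N ∧ 4 ≤ (rf M N σ τ b).1 ∧
      ∀ v : P2, ((rf M N σ τ b).1 - 4 ≤ v.1 ∧ v.1 ≤ (rf M N σ τ b).1 - 1) ↔
        (i ≤ (rf M N σ τ v).1 ∧ (rf M N σ τ v).1 ≤ i + 3) := by
    refine ⟨decide (b.1 = i - 1), decide (N ≤ b.2 + L), ?_, ?_, fun v => ?_⟩ <;>
      simp only [rf, decide_eq_true_eq] <;> split_ifs <;> omega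
  have ib2 := rf_in σ τ b ib
  have cb' : x (rf M N σ τ (rf M N σ τ b)) = !κ := by rw [rf_rf]; exact cb
  generalize rf M N σ τ b = b' at *
  obtain ⟨p, q⟩ := b'
  unfold In at ib2
  dsimp only at *
  refine ⟨fun t => rf M N σ τ (p - 3, q + t), fun β => ?_⟩
  obtain ⟨y, y1, y2, y3⟩ := slab0 (hx.rf σ τ) p q L κ (by omega) (fun v iv a1 a2 =>
    hκ _ (rf_in σ τ v iv) ((h3 v).1 ⟨a1, a2⟩).1 ((h3 v).1 ⟨a1, a2⟩).2) cb' (fun t => β t.toNat)
  refine ⟨fun v => y (rf M N σ τ v), y1.rf σ τ, fun v hv => ?_,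
    fun t ht => ⟨rf_in _ _ _ (by unfold In; dsimp only; omega), ?_⟩⟩
  · dsimp only; rw [y2 _ (fun h => hv (by have := (h3 _).1 h; rwa [rf_rf] at this)), rf_rf]
  · dsimp only; rw [rf_rf, y3 t (by omega) ht]; simp

theorem slab (hx : VZ M N x) (i L : ℤ) (κ : Bool) (hi : 0 ≤ i ∧ i + 3 < M)
    (hL : 1 ≤ L ∧ 2 * L < N) (hκ : Slab M N x i κ) :
    ∃ i', 0 ≤ i' ∧ i' < M ∧ Slab M N x i' κ ∧ ∃ w : ℕ → P2, ∀ β : ℕ → Bool, ∃ y, VZ M N y ∧
      (∀ v : P2, ¬ (i' ≤ v.1 ∧ v.1 ≤ i' + 3) → y v = x v) ∧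
      ∀ t : ℕ, (t : ℤ) < L → In M N (w t) ∧ y (w t) = β t := by
  obtain ⟨o, io, co⟩ := (hx (!κ)).1
  have key : ∀ k : ℕ, ∀ i, 0 ≤ i ∧ i + 3 < M → Slab M N x i κ → |o.1 - i| ≤ k →
      ∃ i', (0 ≤ i' ∧ i' + 3 < M) ∧ Slab M N x i' κ ∧ ∃ b, In M N b ∧
        (b.1 = i' + 4 ∨ b.1 = i' - 1) ∧ x b = !κ := by
    intro k
    have no : ∀ i, Slab M N x i κ → ¬ (i ≤ o.1 ∧ o.1 ≤ i + 3) := fun i h h' => by
      rw [h o io h'.1 h'.2] at co; revert co; cases κ <;> simp
    induction k with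
    | zero =>
      intro i _ h e
      have := no i h
      rw [abs_le] at e
      omega
    | succ k ih =>
      intro i hi h e
      have := no i h
      rw [abs_le] at e
      unfold In at io
      by_cases hb : ∃ b, In M N b ∧ (b.1 = i + 4 ∨ b.1 = i - 1) ∧ x b = !κ
      · exact ⟨i, hi, h, hb⟩
      have hb' : ∀ b, In M N b → i - 1 ≤ b.1 → b.1 ≤ i + 4 → x b = κ := by
        intro b ib a1 a2
        by_cases e : b.1 = i + 4 ∨ b.1 = i - 1
        · by_contra hc
          exact hb ⟨b, ib, e, bne hc⟩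
        · exact h b ib (by omega) (by omega)
      by_cases hlt : o.1 < i
      · exact ih (i - 1) (by omega) (fun v iv _ _ => hb' v iv (by omega) (by omega))
          (by rw [abs_le]; omega)
      · exact ih (i + 1) (by omega) (fun v iv _ _ => hb' v iv (by omega) (by omega))
          (by rw [abs_le]; omega)
  obtain ⟨i', h1, h2, b, h3, h4, h5⟩ := key (o.1 - i).natAbs i hi hκ (by simp)
  exact ⟨i', h1.1, by omega, h2, slab1 hx i' L κ h1 hL h2 b h3 h4 h5⟩

end Pool.Agent.Lib.MP_0350c1_lc
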